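import Pool.Agent.Lib.EFT.Rules

/-!
# Balancing formulas along heavy paths: definitions

A formula is read along its heavy path as a chain of steps `z ↦ ±z ∧ h`; the chain is folded with
the balanced recursion `V`, in which only a small part of the chain is duplicated.
-/

set_option autoImplicit false

namespace Pool.Agent.EFT

namespace Bal

variable {α β : Type*}

/-- Disjunction. -/
def or (f g : Fm α) : Fm α := .neg (.and (.neg f) (.neg g))

/-- Implication. -/
def imp (f g : Fm α) : Fm α := .neg (.and f (.neg g))

/-- Equivalence. -/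
def iff (f g : Fm α) : Fm α := .and (imp f g) (imp g f)

/-- `f` or its negation. -/
def xr (b : Bool) (f : Fm α) : Fm α := cond b (.neg f) f

/-- A false formula. -/
def ff (o : α) : Fm α := .and (.var o) (.neg (.var o))

/-- A true formula. -/
def tt (o : α) : Fm α := .neg (ff o)

/-- The step `z ↦ ±z ∧ h`. -/
def mu (b : Bool) (h z : Fm α) : Fm α := .and (xr b z) h

/-- `v0` for `false`, `v1` for `true`. -/
def sel (b : Bool) (v0 v1 : Fm α) : Fm α := cond b v1 v0

/-- The value at `y` of the function with the values `v0` (at false) and `v1` (at true), which is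
increasing (`π = false`) or decreasing (`π = true`). -/
def MM (π : Bool) (v0 v1 y : Fm α) : Fm α := or (sel π v0 v1) (.and (sel (!π) v0 v1) (xr π y))

/-- A step: formula, sign, weight. -/
structure Step (α : Type*) where
  h : Fm α
  b : Bool
  w : ℕ

/-- Weight of a list of steps. -/
def wt : List (Step α) → ℕ
  | [] => 0
  | s :: l => s.w + wt l

/-- Sign of a list of steps. -/
def par : List (Step α) → Bool
  | [] => false
  | s :: l => s.b ^^ par l

/-- The canonical splitting of `s :: l`: the longest proper prefix with small weight, the next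
step, the rest. -/
def spl (K W : ℕ) : ℕ → Step α → List (Step α) → List (Step α) × Step α × List (Step α)
  | _, s, [] => ([], s, [])
  | acc, s, s' :: l =>
    if K * (acc + s.w) ≤ W then
      (s :: (spl K W (acc + s.w) s' l).1, (spl K W (acc + s.w) s' l).2.1,
        (spl K W (acc + s.w) s' l).2.2)
    else ([], s, s' :: l)

theorem spl_eq (K W : ℕ) (l : List (Step α)) : ∀ (acc : ℕ) (s : Step α),
    s :: l = (spl K W acc s l).1 ++ (spl K W acc s l).2.1 :: (spl K W acc s l).2.2 := by
  induction l with
  | nil => intro acc s; rfl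
  | cons s' l ih =>
    intro acc s
    rw [spl]
    split_ifs with h
    · simp only [List.cons_append]
      rw [← ih]
    · rfl

theorem spl_len (K W acc : ℕ) (s : Step α) (l : List (Step α)) :
    (spl K W acc s l).1.length + (spl K W acc s l).2.2.length = l.length := by
  have h := congrArg List.length (spl_eq K W l acc s)
  simp only [List.length_cons, List.length_append] at h
  omega

/-- The balanced value of the chain `l` at `e`. -/
def V (K : ℕ) (o : α) : List (Step α) → Fm α → Fm α
  | [], e => e
  | s :: l, e =>
    MM (par (spl K (wt (s :: l)) 0 s l).1) (V K o (spl K (wt (s :: l)) 0 s l).1 (ff o))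
      (V K o (spl K (wt (s :: l)) 0 s l).1 (tt o))
      (mu (spl K (wt (s :: l)) 0 s l).2.1.b (spl K (wt (s :: l)) 0 s l).2.1.h
        (V K o (spl K (wt (s :: l)) 0 s l).2.2 e))
termination_by l => l.length
decreasing_by
  all_goals
    have := spl_len K (wt (s :: l)) 0 s l
    simp only [List.length_cons]
    omega

theorem V_nil (K : ℕ) (o : α) (e : Fm α) : V K o [] e = e := by rw [V]

/-- Weights of the canonical splitting. -/
theorem spl_wt (K W : ℕ) (l : List (Step α)) : ∀ (acc : ℕ) (s : Step α),
    ((spl K W acc s l).1 = [] ∨ K * (acc + wt (spl K W acc s l).1) ≤ W) ∧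
    ((spl K W acc s l).2.2 = [] ∨
      W < K * (acc + wt (spl K W acc s l).1 + (spl K W acc s l).2.1.w)) := by
  induction l with
  | nil => intro acc s; exact ⟨Or.inl rfl, Or.inl rfl⟩
  | cons s' l ih =>
    intro acc s
    rw [spl]
    split_ifs with h
    · obtain ⟨h1, h2⟩ := ih (acc + s.w) s'
      simp only [wt]
      constructor
      · right
        rcases h1 with h1 | h1
        · rw [h1]; simpa [wt] using h
        · rw [← Nat.add_assoc]; exact h1
      · rcases h2 with h2 | h2
        · exact Or.inl h2
        · right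
          rw [← Nat.add_assoc]; exact h2
    · refine ⟨Or.inl rfl, Or.inr ?_⟩
      simp only [wt, Nat.add_zero]
      omega

theorem wt_append (l m : List (Step α)) : wt (l ++ m) = wt l + wt m := by
  induction l with
  | nil => simp [wt]
  | cons s l ih => simp only [List.cons_append, wt, ih]; omega

theorem par_append (l m : List (Step α)) : par (l ++ m) = (par l ^^ par m) := by
  induction l with
  | nil => simp [par]
  | cons s l ih => simp only [List.cons_append, par, ih, Bool.xor_assoc]

/-- The recursion of `V` (the only facts used later). -/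
theorem exists_split (K : ℕ) (o : α) (l : List (Step α)) (hl : l ≠ []) :
    ∃ (p : List (Step α)) (s : Step α) (q : List (Step α)), l = p ++ s :: q ∧
      (p = [] ∨ K * wt p ≤ wt l) ∧ (q = [] ∨ wt l < K * (wt p + s.w)) ∧
      ∀ e, V K o l e = MM (par p) (V K o p (ff o)) (V K o p (tt o)) (mu s.b s.h (V K o q e)) := by
  cases l with
  | nil => exact absurd rfl hl
  | cons s l =>
    obtain ⟨h1, h2⟩ := spl_wt K (wt (s :: l)) l 0 s
    rw [Nat.zero_add] at h1 h2
    refine ⟨_, _, _, spl_eq K (wt (s :: l)) l 0 s, h1, h2, fun e => ?_⟩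
    rw [V]

/-- Heavy path of a formula: sign, steps, leaf. -/
def rep (K : ℕ) (o : α) : Fm α → Bool × List (Step α) × α
  | .var x => (false, [], x)
  | .neg f => (!(rep K o f).1, (rep K o f).2.1, (rep K o f).2.2)
  | .and f g =>
    if g.lv ≤ f.lv then
      (false, ⟨xr (rep K o g).1 (V K o (rep K o g).2.1 (.var (rep K o g).2.2)), (rep K o f).1,
        g.lv⟩ :: (rep K o f).2.1, (rep K o f).2.2)
    else
      (false, ⟨xr (rep K o f).1 (V K o (rep K o f).2.1 (.var (rep K o f).2.2)), (rep K o g).1,
        f.lv⟩ :: (rep K o g).2.1, (rep K o g).2.2)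

/-- The balanced formula. -/
def bal (K : ℕ) (o : α) (f : Fm α) : Fm α :=
  xr (rep K o f).1 (V K o (rep K o f).2.1 (.var (rep K o f).2.2))

theorem bal_var (K : ℕ) (o x : α) : bal K o (.var x) = .var x := by
  simp [bal, rep, V_nil, xr]

theorem bal_neg (K : ℕ) (o : α) (f : Fm α) :
    bal K o (.neg f) = .neg (bal K o f) ∨ bal K o f = .neg (bal K o (.neg f)) := by
  simp only [bal, rep]
  cases (rep K o f).1
  · left; rfl
  · right; rfl

theorem rep_and_of_le (K : ℕ) (o : α) {f g : Fm α} (h : g.lv ≤ f.lv) :
    rep K o (.and f g) = (false, ⟨bal K o g, (rep K o f).1, g.lv⟩ :: (rep K o f).2.1,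
      (rep K o f).2.2) := by
  rw [rep, if_pos h]; rfl

theorem rep_and_of_lt (K : ℕ) (o : α) {f g : Fm α} (h : f.lv < g.lv) :
    rep K o (.and f g) = (false, ⟨bal K o f, (rep K o g).1, f.lv⟩ :: (rep K o g).2.1,
      (rep K o g).2.2) := by
  rw [rep, if_neg (by omega)]; rfl

/-- The weight of the heavy path. -/
theorem wt_rep (K : ℕ) (o : α) (f : Fm α) : wt (rep K o f).2.1 + 1 = f.lv := by
  induction f with
  | var x => rfl
  | neg f ih => exact ih
  | and f g ihf ihg =>
    rcases Nat.lt_or_ge f.lv g.lv with h | h
    · rw [rep_and_of_lt K o h]; simp only [wt, Fm.lv]; omega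
    · rw [rep_and_of_le K o h]; simp only [wt, Fm.lv]; omega

/-- The formula of a split: `V` of the whole chain is equivalent to this for every splitting
`p ++ s :: q` of the chain. -/
def spf (K : ℕ) (o : α) (p : List (Step α)) (s : Step α) (q : List (Step α)) (e : Fm α) : Fm α :=
  MM (par p) (V K o p (ff o)) (V K o p (tt o)) (mu s.b s.h (V K o q e))

/-- Monotonicity of the chain `l`. -/
def monf (K : ℕ) (o : α) (l : List (Step α)) : Fm α :=
  imp (sel (par l) (V K o l (ff o)) (V K o l (tt o)))
    (sel (!par l) (V K o l (ff o)) (V K o l (tt o)))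

end Bal

end Pool.Agent.EFT
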