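import Pool.Agent.Lib.EFT.BalGen

/-!
# Balancing formulas: the number of auxiliary formulas of a line (row C; helper73)
-/

set_option autoImplicit false

namespace Pool.Agent.EFT

namespace Bal

variable {α β : Type*}

theorem bc_length_flatMap_le {γ δ : Type*} (l : List γ) (f : γ → List δ) (c : ℕ)
    (h : ∀ x ∈ l, (f x).length ≤ c) : (l.flatMap f).length ≤ l.length * c := by
  induction l with
  | nil => simp
  | cons a l ih =>
    rw [List.flatMap_cons, List.length_append, List.length_cons]
    have h1 := h a List.mem_cons_self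
    have h2 := ih fun x hx => h x (List.mem_cons_of_mem _ hx)
    calc (f a).length + (l.flatMap f).length ≤ c + l.length * c := Nat.add_le_add h1 h2
      _ = (l.length + 1) * c := by ring

theorem bc_infixes_length (l : List β) : (infixes l).length ≤ (l.length + 1) * (l.length + 1) := by
  unfold infixes
  refine (bc_length_flatMap_le _ _ (l.length + 1) ?_).trans ?_
  · intro m hm
    rw [List.mem_tails] at hm
    rw [List.length_inits]
    have := hm.length_le
    omega
  · rw [List.length_tails]

theorem bc_pathGens_length (K : ℕ) (o : α) (P : List (Step α)) (x : α) :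
    (pathGens K o P x).length ≤ ((P.length + 1) * (P.length + 1)) * (1 + P.length * 3) := by
  unfold pathGens
  refine (bc_length_flatMap_le _ _ (1 + P.length * 3) ?_).trans
    (Nat.mul_le_mul_right _ (bc_infixes_length P))
  intro m hm
  rw [mem_infixes] at hm
  have hml : m.length ≤ P.length := hm.length_le
  rw [List.length_cons, Nat.add_comm]
  refine Nat.add_le_add_left ?_ 1
  refine (bc_length_flatMap_le _ _ 3 ?_).trans ?_
  · intro t _
    simp
  · rw [length_splits]
    exact Nat.mul_le_mul_right _ hml

theorem bc_one_le_lv (f : Fm α) : 1 ≤ f.lv := by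
  induction f with
  | var x => exact le_refl 1
  | neg f ih => exact ih
  | and f g ihf _ => exact ihf.trans (Nat.le_add_right _ _)

theorem bc_rep_length (K : ℕ) (o : α) (f : Fm α) : (rep K o f).2.1.length + 1 ≤ f.lv := by
  induction f with
  | var x => simp [rep, Fm.lv]
  | neg f ih => exact ih
  | and f g ihf ihg =>
    have hf := bc_one_le_lv f
    have hg := bc_one_le_lv g
    rcases Nat.lt_or_ge f.lv g.lv with h | h
    · rw [rep_and_of_lt K o h]
      simp only [List.length_cons, Fm.lv]
      omega
    · rw [rep_and_of_le K o h]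
      simp only [List.length_cons, Fm.lv]
      omega

theorem bc_node_length (K : ℕ) (o : α) (f : Fm α) : (node K o f).length ≤ 3 * f.lv ^ 3 := by
  unfold node
  rw [List.length_cons]
  have h1 := bc_pathGens_length K o (rep K o f).2.1 (rep K o f).2.2
  have h2 := bc_rep_length K o f
  set n := (rep K o f).2.1.length with hn
  have h3 : (n + 1) * (n + 1) * (1 + n * 3) + 1 ≤ 3 * (n + 1) ^ 3 := by
    nlinarith [Nat.zero_le n]
  have h4 : 3 * (n + 1) ^ 3 ≤ 3 * f.lv ^ 3 := Nat.mul_le_mul_left _ (Nat.pow_le_pow_left h2 3)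
  omega

/-- The number of auxiliary formulas of a line. -/
theorem bc_gens_length (K : ℕ) (o : α) (f : Fm α) : (gens K o f).length ≤ 3 * f.lv ^ 4 := by
  induction f with
  | var x =>
    have h := bc_node_length K o (.var x)
    simpa [gens, Fm.lv] using h
  | neg f ih => exact ih
  | and f g ihf ihg =>
    have h := bc_node_length K o (.and f g)
    have hf := bc_one_le_lv f
    have hg := bc_one_le_lv g
    simp only [gens, List.length_append]
    simp only [Fm.lv] at h ⊢
    set a := f.lv with ha
    set b := g.lv with hb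
    have key : 3 * a ^ 4 + 3 * b ^ 4 + 3 * (a + b) ^ 3 ≤ 3 * (a + b) ^ 4 := by
      have h1 : a ^ 3 ≤ a ^ 3 * b := Nat.le_mul_of_pos_right _ hg
      have h2 : b ^ 3 ≤ a * b ^ 3 := Nat.le_mul_of_pos_left _ hf
      have h3 : a ^ 2 * b ≤ a ^ 3 * b := by
        have : a ^ 2 ≤ a ^ 3 := Nat.pow_le_pow_right hf (by norm_num)
        exact Nat.mul_le_mul_right _ this
      have h4 : a * b ^ 2 ≤ a * b ^ 3 := by
        have : b ^ 2 ≤ b ^ 3 := Nat.pow_le_pow_right hg (by norm_num)
        exact Nat.mul_le_mul_left _ this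
      have e1 : 3 * (a + b) ^ 4 = 3 * a ^ 4 + 3 * b ^ 4
          + (12 * (a ^ 3 * b) + 18 * (a ^ 2 * b ^ 2) + 12 * (a * b ^ 3)) := by ring
      have e2 : 3 * (a + b) ^ 3 = 3 * a ^ 3 + 9 * (a ^ 2 * b) + 9 * (a * b ^ 2) + 3 * b ^ 3 := by
        ring
      rw [e1, e2]
      have h5 : 0 ≤ a ^ 2 * b ^ 2 := Nat.zero_le _
      omega
    omega

/-- ROW C -/
theorem length_gens (K : ℕ) (o : α) (f : Fm α) : (gens K o f).length ≤ 60 * f.lv ^ 4 :=
  (bc_gens_length K o f).trans (Nat.mul_le_mul_right _ (by norm_num))

end Bal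

end Pool.Agent.EFT
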