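import Pool.Agent.Lib.EFT.Bal

/-!
# Balancing formulas: the auxiliary formulas of one line
-/

set_option autoImplicit false

namespace Pool.Agent.EFT

namespace Bal

variable {α β : Type*}

/-- All splittings `p ++ s :: q` of a list. -/
def splits : List β → List (List β × β × List β)
  | [] => []
  | s :: l => ([], s, l) :: (splits l).map fun t => (s :: t.1, t.2.1, t.2.2)

/-- All contiguous sublists. -/
def infixes (l : List β) : List (List β) := l.tails.flatMap List.inits

/-- The auxiliary formulas of the chain `P` with the leaf `x`. -/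
def pathGens (K : ℕ) (o : α) (P : List (Step α)) (x : α) : List (Fm α) :=
  (infixes P).flatMap fun m => monf K o m :: ((splits m).flatMap fun t =>
    [iff (V K o m (ff o)) (spf K o t.1 t.2.1 t.2.2 (ff o)),
      iff (V K o m (tt o)) (spf K o t.1 t.2.1 t.2.2 (tt o)),
      iff (V K o m (.var x)) (spf K o t.1 t.2.1 t.2.2 (.var x))])

/-- The auxiliary formulas of one node. -/
def node (K : ℕ) (o : α) (f : Fm α) : List (Fm α) :=
  .neg (V K o (rep K o f).2.1 (.var (rep K o f).2.2)) ::
    pathGens K o (rep K o f).2.1 (rep K o f).2.2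

/-- The auxiliary formulas of one line. -/
def gens (K : ℕ) (o : α) : Fm α → List (Fm α)
  | .var x => node K o (.var x)
  | .neg f => gens K o f
  | .and f g => gens K o f ++ gens K o g ++ node K o (.and f g)

/-- All auxiliary formulas of the chain `P` belong to `S`. -/
structure GoodPath (K : ℕ) (o : α) (S : Fm α → Prop) (P : List (Step α)) (x : α) : Prop where
  mon : ∀ m, m <:+: P → S (monf K o m)
  split : ∀ m, m <:+: P → ∀ p s q, m = p ++ s :: q → ∀ e, (e = ff o ∨ e = tt o ∨ e = .var x) →
    S (iff (V K o m e) (spf K o p s q e))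

theorem mem_splits {l : List β} {p : List β} {s : β} {q : List β} :
    (p, s, q) ∈ splits l ↔ l = p ++ s :: q := by
  induction l generalizing p with
  | nil => simp [splits]
  | cons a l ih =>
    simp only [splits, List.mem_cons, List.mem_map, Prod.mk.injEq, Prod.exists]
    constructor
    · rintro (⟨rfl, rfl, rfl⟩ | ⟨p', s', q', h, rfl, rfl, rfl⟩)
      · rfl
      · rw [ih] at h; rw [h]; rfl
    · intro h
      cases p with
      | nil =>
        left
        simp only [List.nil_append, List.cons.injEq] at h
        exact ⟨rfl, h.1.symm, h.2.symm⟩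
      | cons b p =>
        right
        simp only [List.cons_append, List.cons.injEq] at h
        exact ⟨p, s, q, ih.2 h.2, by rw [h.1], rfl, rfl⟩

theorem mem_infixes {l m : List β} : m ∈ infixes l ↔ m <:+: l := by
  simp only [infixes, List.mem_flatMap, List.mem_tails, List.mem_inits]
  constructor
  · rintro ⟨t, ht, hm⟩
    exact hm.isInfix.trans ht.isInfix
  · rintro ⟨a, b, h⟩
    exact ⟨m ++ b, ⟨a, by rw [← List.append_assoc]; exact h⟩, ⟨b, rfl⟩⟩

theorem length_splits (l : List β) : (splits l).length = l.length := by
  induction l with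
  | nil => rfl
  | cons a l ih => simp [splits, ih]

theorem goodPath_of_gens (K : ℕ) (o : α) (S : Fm α → Prop) (P : List (Step α)) (x : α)
    (h : ∀ φ ∈ pathGens K o P x, S φ) : GoodPath K o S P x := by
  constructor
  · intro m hm
    apply h
    simp only [pathGens, List.mem_flatMap]
    exact ⟨m, mem_infixes.2 hm, List.mem_cons_self⟩
  · intro m hm p s q hpq e he
    apply h
    simp only [pathGens, List.mem_flatMap]
    refine ⟨m, mem_infixes.2 hm, List.mem_cons_of_mem _ ?_⟩
    simp only [List.mem_flatMap]
    refine ⟨(p, s, q), mem_splits.2 hpq, ?_⟩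
    rcases he with rfl | rfl | rfl <;> simp

/-- What is needed for the subformula `g` of a line. -/
theorem mem_gens (K : ℕ) (o : α) (S : Fm α → Prop) (f : Fm α) (h : ∀ φ ∈ gens K o f, S φ)
    (g : Fm α) (hg : f.Sub g) :
    S (.neg (V K o (rep K o g).2.1 (.var (rep K o g).2.2))) ∧
      GoodPath K o S (rep K o g).2.1 (rep K o g).2.2 := by
  induction f generalizing g with
  | var x =>
    simp only [Fm.Sub] at hg
    subst hg
    simp only [gens, node, List.mem_cons, forall_eq_or_imp] at h
    exact ⟨h.1, goodPath_of_gens K o S _ _ h.2⟩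
  | neg f ih =>
    rcases hg with hg | hg
    · subst hg
      exact ih h f (Fm.Sub.refl f)
    · exact ih h g hg
  | and f k ihf ihk =>
    simp only [gens, List.mem_append] at h
    rcases hg with hg | hg | hg
    · subst hg
      have h' : ∀ φ ∈ node K o (.and f k), S φ := fun φ hφ => h φ (Or.inr hφ)
      simp only [node, List.mem_cons, forall_eq_or_imp] at h'
      exact ⟨h'.1, goodPath_of_gens K o S _ _ h'.2⟩
    · exact ihf (fun φ hφ => h φ (Or.inl (Or.inl hφ))) g hg
    · exact ihk (fun φ hφ => h φ (Or.inl (Or.inr hφ))) g hg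

end Bal

end Pool.Agent.EFT
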