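import Pool.Agent.Lib.EFT.BalGen

/-!
# Balancing formulas: heights
-/

set_option autoImplicit false

namespace Pool.Agent.EFT

namespace Bal

variable {α β : Type*}

theorem ah_xr (b : Bool) (f : Fm α) : (xr b f).ah = f.ah := by
  cases b <;> rfl

theorem ah_or (f g : Fm α) : (or f g).ah = max f.ah g.ah + 1 := rfl

theorem ah_imp (f g : Fm α) : (imp f g).ah = max f.ah g.ah + 1 := rfl

theorem ah_iff (f g : Fm α) : (iff f g).ah = max f.ah g.ah + 2 := by
  change max (max f.ah g.ah + 1) (max g.ah f.ah + 1) + 1 = _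
  omega

theorem ah_ff (o : α) : (ff o).ah = 1 := rfl

theorem ah_tt (o : α) : (tt o).ah = 1 := rfl

theorem ah_sel_le {n : ℕ} (b : Bool) {v0 v1 : Fm α} (h0 : v0.ah ≤ n) (h1 : v1.ah ≤ n) :
    (sel b v0 v1).ah ≤ n := by
  cases b
  · exact h0
  · exact h1

theorem ah_MM_le {n : ℕ} (π : Bool) {v0 v1 y : Fm α} (h1 : v1.ah ≤ n)
    (h0' : v0.ah ≤ n) (hy : y.ah ≤ n) : (MM π v0 v1 y).ah ≤ n + 2 := by
  unfold MM
  rw [ah_or]
  have a1 := ah_sel_le π h0' h1
  have a2 := ah_sel_le (!π) h0' h1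
  have a3 : (Fm.and (sel (!π) v0 v1) (xr π y)).ah = max (sel (!π) v0 v1).ah (xr π y).ah + 1 := rfl
  rw [a3, ah_xr]
  omega

theorem ah_mu (b : Bool) (h z : Fm α) : (mu b h z).ah = max z.ah h.ah + 1 := by
  change max (xr b z).ah h.ah + 1 = _
  rw [ah_xr]

/-- Height of the balanced chain. -/
theorem ah_V (K : ℕ) (hK : 2 ≤ K) (o : α) {H : ℕ} (hH : 1 ≤ H) (n : ℕ) :
    ∀ (l : List (Step α)), l.length ≤ n → (∀ s ∈ l, s.h.ah ≤ H ∧ 1 ≤ s.w) →
      ∀ (t : ℕ), wt l * (K - 1) ^ t < K ^ t → ∀ e : Fm α, e.ah ≤ H →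
        (V K o l e).ah ≤ 3 * t + H := by
  induction n with
  | zero =>
    intro l hl _ t _ e he
    have : l = [] := List.eq_nil_of_length_eq_zero (by omega)
    subst this
    rw [V_nil]
    omega
  | succ n ih =>
    intro l hl hs t ht e he
    by_cases hl0 : l = []
    · subst hl0
      rw [V_nil]
      omega
    obtain ⟨p, s, q, hpq, hp, hq, hV⟩ := exists_split K o l hl0
    have hlen : p.length + q.length + 1 = l.length := by
      rw [hpq]; simp only [List.length_append, List.length_cons]; omega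
    have hsp : ∀ s' ∈ p, s'.h.ah ≤ H ∧ 1 ≤ s'.w := fun s' h' => hs s' (by
      rw [hpq]; exact List.mem_append_left _ h')
    have hsq : ∀ s' ∈ q, s'.h.ah ≤ H ∧ 1 ≤ s'.w := fun s' h' => hs s' (by
      rw [hpq]; exact List.mem_append_right _ (List.mem_cons_of_mem _ h'))
    have hss : s.h.ah ≤ H ∧ 1 ≤ s.w := hs s (by
      rw [hpq]; exact List.mem_append_right _ List.mem_cons_self)
    have hwt : wt l = wt p + (s.w + wt q) := by rw [hpq, wt_append]; rfl
    obtain ⟨k, rfl⟩ : ∃ k, K = k + 1 := ⟨K - 1, by omega⟩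
    rw [Nat.add_sub_cancel] at ht
    -- `t ≥ 1`
    cases t with
    | zero =>
      simp only [pow_zero, Nat.mul_one] at ht
      omega
    | succ t =>
      have hk : 1 ≤ k := by omega
      have hpk : 0 < k ^ t := by positivity
      have hpos : 0 < (k + 1) ^ t := by positivity
      have hp' : wt p * (k + 1 - 1) ^ t < (k + 1) ^ t := by
        rw [Nat.add_sub_cancel]
        rcases hp with hp | hp
        · rw [hp]; simp [wt]
        · have h1 : ((k + 1) * wt p) * (k ^ t * k) ≤ wt l * (k ^ t * k) :=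
            Nat.mul_le_mul_right _ hp
          rw [pow_succ, pow_succ] at ht
          have h2 : ((k + 1) * wt p) * (k ^ t * k) < (k + 1) ^ t * (k + 1) := lt_of_le_of_lt h1 ht
          have h3 : (wt p * k ^ t * k) * (k + 1) < (k + 1) ^ t * (k + 1) := by
            calc (wt p * k ^ t * k) * (k + 1) = ((k + 1) * wt p) * (k ^ t * k) := by ring
              _ < _ := h2
          have h4 := Nat.lt_of_mul_lt_mul_right h3
          exact lt_of_le_of_lt (Nat.le_mul_of_pos_right _ hk) h4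
      have hq' : wt q * (k + 1 - 1) ^ t < (k + 1) ^ t := by
        rw [Nat.add_sub_cancel]
        rcases hq with hq | hq
        · rw [hq]; simp [wt]
        · have h1 : (k + 1) * wt q ≤ k * wt l := by
            have h5 : (k + 1) * wt l = (k + 1) * (wt p + s.w) + (k + 1) * wt q := by
              rw [hwt]; ring
            have h6 : (k + 1) * wt l = k * wt l + wt l := by ring
            omega
          rw [pow_succ, pow_succ] at ht
          have h3 : (wt q * k ^ t) * (k + 1) < (k + 1) ^ t * (k + 1) := by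
            calc (wt q * k ^ t) * (k + 1) = ((k + 1) * wt q) * k ^ t := by ring
              _ ≤ (k * wt l) * k ^ t := Nat.mul_le_mul_right _ h1
              _ = wt l * (k ^ t * k) := by ring
              _ < _ := ht
          exact Nat.lt_of_mul_lt_mul_right h3
      have i1 := ih p (by omega) hsp t hp' (ff o) (by rw [ah_ff]; exact hH)
      have i2 := ih p (by omega) hsp t hp' (tt o) (by rw [ah_tt]; exact hH)
      have i3 := ih q (by omega) hsq t hq' e he
      rw [hV e]
      have h7 : (mu s.b s.h (V (k + 1) o q e)).ah ≤ 3 * t + H + 1 := by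
        rw [ah_mu]; have := hss.1; omega
      have h8 := ah_MM_le (par p) (n := 3 * t + H + 1) (v0 := V (k + 1) o p (ff o))
        (v1 := V (k + 1) o p (tt o)) (by omega) (by omega) h7
      omega

/-- The steps of a heavy path. -/
theorem rep_steps (K : ℕ) (o : α) (f : Fm α) : ∀ s ∈ (rep K o f).2.1,
    ∃ g : Fm α, s.h = bal K o g ∧ s.w = g.lv ∧ 2 * g.lv ≤ f.lv ∧ f.Sub g := by
  induction f with
  | var x => intro s hs; simp [rep] at hs
  | neg f ih =>
    intro s hs
    obtain ⟨g, h1, h2, h3, h4⟩ := ih s hs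
    exact ⟨g, h1, h2, h3, Or.inr h4⟩
  | and f g ihf ihg =>
    intro s hs
    rcases Nat.lt_or_ge f.lv g.lv with h | h
    · rw [rep_and_of_lt K o h] at hs
      rcases List.mem_cons.mp hs with hs | hs
      · subst hs
        exact ⟨f, rfl, rfl, by simp only [Fm.lv]; omega, Or.inr (Or.inl (Fm.Sub.refl f))⟩
      · obtain ⟨g', h1, h2, h3, h4⟩ := ihg s hs
        exact ⟨g', h1, h2, by simp only [Fm.lv]; omega, Or.inr (Or.inr h4)⟩
    · rw [rep_and_of_le K o h] at hs
      rcases List.mem_cons.mp hs with hs | hs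
      · subst hs
        exact ⟨g, rfl, rfl, by simp only [Fm.lv]; omega, Or.inr (Or.inr (Fm.Sub.refl g))⟩
      · obtain ⟨g', h1, h2, h3, h4⟩ := ihf s hs
        exact ⟨g', h1, h2, by simp only [Fm.lv]; omega, Or.inr (Or.inl h4)⟩

/-- Height of `V` along a contiguous part of the heavy path of `f`, and of the steps. -/
theorem ah_path (K : ℕ) (hK : 2 ≤ K) (o : α) (t : ℕ) (j : ℕ) :
    ∀ f : Fm α, f.lv ≤ 2 ^ j → f.lv * (K - 1) ^ t ≤ K ^ t →
      (∀ m, m <:+: (rep K o f).2.1 → ∀ e : Fm α, e.ah ≤ 1 → (V K o m e).ah ≤ 3 * t * j + 1) ∧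
      (∀ s ∈ (rep K o f).2.1, s.h.ah ≤ 3 * t * j + 1) := by
  induction j with
  | zero =>
    intro f hf _
    have h1 : (rep K o f).2.1 = [] := by
      by_contra hne
      obtain ⟨s, hs⟩ := List.exists_mem_of_ne_nil _ hne
      obtain ⟨g, -, -, h3, -⟩ := rep_steps K o f s hs
      have := g.lv_pos
      simp only [pow_zero] at hf
      omega
    rw [h1]
    constructor
    · intro m hm e he
      rw [List.infix_nil] at hm
      subst hm
      rw [V_nil]; omega
    · intro s hs; simp at hs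
  | succ j ih =>
    intro f hf ht
    have hst : ∀ s ∈ (rep K o f).2.1, s.h.ah ≤ 3 * t * j + 1 ∧ 1 ≤ s.w := by
      intro s hs
      obtain ⟨g, h1, h2, h3, -⟩ := rep_steps K o f s hs
      rw [pow_succ] at hf
      have hg : g.lv ≤ 2 ^ j := by omega
      have hgt : g.lv * (K - 1) ^ t ≤ K ^ t :=
        le_trans (Nat.mul_le_mul_right _ (by omega)) ht
      have := (ih g hg hgt).1 _ (List.infix_refl _) (.var (rep K o g).2.2) (by simp [Fm.ah])
      rw [h1, h2]
      refine ⟨?_, g.lv_pos⟩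
      unfold bal
      rw [ah_xr]
      exact this
    have e1 : 3 * t * (j + 1) + 1 = 3 * t + (3 * t * j + 1) := by ring
    constructor
    · intro m hm e he
      rw [e1]
      have hms : ∀ s ∈ m, s.h.ah ≤ 3 * t * j + 1 ∧ 1 ≤ s.w := fun s hs =>
        hst s (hm.subset hs)
      obtain ⟨a, b, hab⟩ := hm
      have hw : wt m ≤ wt (rep K o f).2.1 := by
        rw [← hab, wt_append, wt_append]; omega
      have hw2 := wt_rep K o f
      have hpos : 0 < (K - 1) ^ t := by
        have : 0 < K - 1 := by omega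
        positivity
      refine ah_V K hK o (by omega) m.length m le_rfl hms t ?_ e (by omega)
      calc wt m * (K - 1) ^ t < f.lv * (K - 1) ^ t := Nat.mul_lt_mul_of_pos_right (by omega) hpos
        _ ≤ K ^ t := ht
    · intro s hs
      have := (hst s hs).1
      omega

/-- Height of the balanced formula. -/
theorem ah_bal (K : ℕ) (hK : 2 ≤ K) (o : α) (t j : ℕ) (f : Fm α) (hf : f.lv ≤ 2 ^ j)
    (ht : f.lv * (K - 1) ^ t ≤ K ^ t) : (bal K o f).ah ≤ 3 * t * j + 1 := by
  unfold bal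
  rw [ah_xr]
  exact (ah_path K hK o t j f hf ht).1 _ (List.infix_refl _) _ (by simp [Fm.ah])

theorem ah_spf_le {n : ℕ} (K : ℕ) (o : α) {p : List (Step α)} {s : Step α} {q : List (Step α)}
    {e : Fm α} (h0 : (V K o p (ff o)).ah ≤ n) (h1 : (V K o p (tt o)).ah ≤ n)
    (h2 : (V K o q e).ah ≤ n) (h3 : s.h.ah ≤ n) : (spf K o p s q e).ah ≤ n + 3 := by
  unfold spf
  have h4 : (mu s.b s.h (V K o q e)).ah ≤ n + 1 := by rw [ah_mu]; omega
  exact ah_MM_le (par p) (n := n + 1) (by omega) (by omega) h4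

/-- Heights of the auxiliary formulas of a node. -/
theorem ah_node (K : ℕ) (hK : 2 ≤ K) (o : α) (t j : ℕ) (f : Fm α) (hf : f.lv ≤ 2 ^ j)
    (ht : f.lv * (K - 1) ^ t ≤ K ^ t) : ∀ φ ∈ node K o f, φ.ah ≤ 3 * t * j + 6 := by
  obtain ⟨hV, hs⟩ := ah_path K hK o t j f hf ht
  intro φ hφ
  rw [node, List.mem_cons] at hφ
  rcases hφ with rfl | hφ
  · have := hV _ (List.infix_refl _) (.var (rep K o f).2.2) (by simp [Fm.ah])
    change (V K o (rep K o f).2.1 (.var (rep K o f).2.2)).ah ≤ _
    omega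
  · simp only [pathGens, List.mem_flatMap] at hφ
    obtain ⟨m, hm, hφ⟩ := hφ
    rw [mem_infixes] at hm
    have hff := hV m hm (ff o) (by rw [ah_ff])
    have htt := hV m hm (tt o) (by rw [ah_tt])
    rw [List.mem_cons] at hφ
    rcases hφ with rfl | hφ
    · unfold monf
      rw [ah_imp]
      have a1 := ah_sel_le (par m) hff htt
      have a2 := ah_sel_le (!par m) hff htt
      omega
    · simp only [List.mem_flatMap] at hφ
      obtain ⟨⟨p, s, q⟩, hpq, hφ⟩ := hφ
      rw [mem_splits] at hpq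
      have hp : p <:+: (rep K o f).2.1 := by
        refine List.IsInfix.trans ?_ hm
        rw [hpq]; exact (List.prefix_append _ _).isInfix
      have hq : q <:+: (rep K o f).2.1 := by
        refine List.IsInfix.trans ?_ hm
        rw [hpq]
        exact ((List.suffix_cons s q).trans (List.suffix_append _ _)).isInfix
      have hsm : s ∈ (rep K o f).2.1 := by
        apply hm.subset
        rw [hpq]; exact List.mem_append_right _ List.mem_cons_self
      have key : ∀ e : Fm α, e.ah ≤ 1 → (iff (V K o m e) (spf K o p s q e)).ah ≤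
          3 * t * j + 6 := by
        intro e he
        have b1 := hV m hm e he
        have b2 := ah_spf_le K o (hV p hp (ff o) (by rw [ah_ff])) (hV p hp (tt o) (by rw [ah_tt]))
          (hV q hq e he) (hs s hsm)
        rw [ah_iff]
        omega
      simp only [List.mem_cons, List.not_mem_nil, or_false] at hφ
      rcases hφ with rfl | rfl | rfl
      · exact key _ (by rw [ah_ff])
      · exact key _ (by rw [ah_tt])
      · exact key _ (by simp [Fm.ah])

/-- Heights of the auxiliary formulas of a line. -/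
theorem ah_gens (K : ℕ) (hK : 2 ≤ K) (o : α) (t j : ℕ) (f : Fm α) (hf : f.lv ≤ 2 ^ j)
    (ht : f.lv * (K - 1) ^ t ≤ K ^ t) : ∀ φ ∈ gens K o f, φ.ah ≤ 3 * t * j + 6 := by
  induction f with
  | var x => exact ah_node K hK o t j _ hf ht
  | neg f ih => exact ih hf ht
  | and f g ihf ihg =>
    intro φ hφ
    simp only [gens, List.mem_append] at hφ
    have hlf : f.lv ≤ (Fm.and f g).lv := by simp only [Fm.lv]; omega
    have hlg : g.lv ≤ (Fm.and f g).lv := by simp only [Fm.lv]; omega
    rcases hφ with (hφ | hφ) | hφ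
    · exact ihf (hlf.trans hf) (le_trans (Nat.mul_le_mul_right _ hlf) ht) φ hφ
    · exact ihg (hlg.trans hf) (le_trans (Nat.mul_le_mul_right _ hlg) ht) φ hφ
    · exact ah_node K hK o t j _ hf ht φ hφ

theorem two_mul_pow_le (k : ℕ) : 2 * k ^ (k + 1) ≤ (k + 1) ^ (k + 1) := by
  rcases Nat.eq_zero_or_pos k with h | h
  · subst h; norm_num
  have hk : (0 : ℝ) < k := by exact_mod_cast h
  have h1 := one_add_mul_le_pow (a := 1 / (k : ℝ)) (by have : 0 ≤ 1 / (k : ℝ) := by positivity
                                                       linarith) (k + 1)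
  have h2 : (2 : ℝ) ≤ 1 + ((k + 1 : ℕ) : ℝ) * (1 / k) := by
    push_cast
    have h3 : ((k : ℝ) + 1) * (1 / k) = 1 + 1 / k := by field_simp
    have : 0 ≤ 1 / (k : ℝ) := by positivity
    rw [h3]; linarith
  have h3 : (2 : ℝ) ≤ (1 + 1 / (k : ℝ)) ^ (k + 1) := h2.trans h1
  have h4 : (2 : ℝ) * (k : ℝ) ^ (k + 1) ≤ ((k : ℝ) + 1) ^ (k + 1) := by
    have h5 : ((k : ℝ) + 1) = k * (1 + 1 / k) := by field_simp
    rw [h5, mul_pow, mul_comm (2 : ℝ)]
    exact mul_le_mul_of_nonneg_left h3 (by positivity)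
  exact_mod_cast h4

/-- The exponent which is enough. -/
theorem pow_cond (K : ℕ) (hK : 2 ≤ K) (j m : ℕ) (hm : m ≤ 2 ^ j) :
    m * (K - 1) ^ (K * j) ≤ K ^ (K * j) := by
  obtain ⟨k, rfl⟩ : ∃ k, K = k + 1 := ⟨K - 1, by omega⟩
  rw [Nat.add_sub_cancel]
  calc m * k ^ ((k + 1) * j) ≤ 2 ^ j * k ^ ((k + 1) * j) := Nat.mul_le_mul_right _ hm
    _ = (2 * k ^ (k + 1)) ^ j := by rw [mul_pow, pow_mul]
    _ ≤ ((k + 1) ^ (k + 1)) ^ j := Nat.pow_le_pow_left (two_mul_pow_le k) j
    _ = (k + 1) ^ ((k + 1) * j) := by rw [pow_mul]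

/-- **Heights of the auxiliary formulas of a line**, final form. -/
theorem ah_gens_le (K : ℕ) (hK : 2 ≤ K) (o : α) (f : Fm α) :
    ∀ φ ∈ gens K o f, φ.ah ≤ 6 * K * (Nat.log 2 f.lv + 1) ^ 2 := by
  intro φ hφ
  set j := Nat.log 2 f.lv + 1 with hj
  have h1 : f.lv ≤ 2 ^ j := (Nat.lt_pow_succ_log_self (by norm_num) _).le
  have h2 := ah_gens K hK o (K * j) j f h1 (pow_cond K hK j _ h1) φ hφ
  have h3 : 1 ≤ j ^ 2 := Nat.one_le_pow _ _ (by omega)
  have h4 : 3 * (K * j) * j = 3 * (K * j ^ 2) := by ring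
  have h5 : 2 ≤ K * j ^ 2 := by nlinarith
  have h6 : 6 * K * j ^ 2 = 6 * (K * j ^ 2) := by ring
  omega

/-- **Height of the balanced formula**, final form. -/
theorem ah_bal_le (K : ℕ) (hK : 2 ≤ K) (o : α) (f : Fm α) :
    (bal K o f).ah ≤ 6 * K * (Nat.log 2 f.lv + 1) ^ 2 := by
  set j := Nat.log 2 f.lv + 1 with hj
  have h1 : f.lv ≤ 2 ^ j := (Nat.lt_pow_succ_log_self (by norm_num) _).le
  have h2 := ah_bal K hK o (K * j) j f h1 (pow_cond K hK j _ h1)
  have h3 : 1 ≤ j ^ 2 := Nat.one_le_pow _ _ (by omega)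
  have h4 : 3 * (K * j) * j = 3 * (K * j ^ 2) := by ring
  have h5 : 2 ≤ K * j ^ 2 := by nlinarith
  have h6 : 6 * K * j ^ 2 = 6 * (K * j ^ 2) := by ring
  omega

end Bal

end Pool.Agent.EFT
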