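import Mathlib

/-!
# The numbers of the balancing (row G)
-/

set_option autoImplicit false

namespace Pool.Agent.EFT

namespace Bal

open Filter

/-- Large `N`: logarithms are below `N ^ (c / 8)`. -/
theorem bal_large (c : ℝ) (hc : 0 < c) (T : ℝ) : ∃ N₀ : ℕ, ∀ N ≥ N₀,
    2 ≤ N ∧ 4 * Real.log N + 2 ≤ (N : ℝ) ^ (c / 8) ∧ T ≤ (N : ℝ) ^ (c / 8) := by
  have h1 : Tendsto (fun N : ℕ => (N : ℝ)) atTop atTop := tendsto_natCast_atTop_atTop
  have h2 : ∀ᶠ x : ℝ in atTop, ‖Real.log x‖ ≤ 1 / 8 * ‖x ^ (c / 8)‖ :=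
    (isLittleO_log_rpow_atTop (by positivity : 0 < c / 8)).bound (by norm_num)
  have h3 : ∀ᶠ x : ℝ in atTop, max T 4 ≤ x ^ (c / 8) :=
    (tendsto_rpow_atTop (by positivity : 0 < c / 8)).eventually_ge_atTop _
  have h4 := h1.eventually ((h2.and h3).and (eventually_ge_atTop (2 : ℝ)))
  obtain ⟨N₀, h⟩ := eventually_atTop.1 h4
  refine ⟨N₀, fun N hN => ?_⟩
  obtain ⟨⟨h5, h6⟩, h7⟩ := h N hN
  have h8 : (4 : ℝ) ≤ (N : ℝ) ^ (c / 8) := (le_max_right _ _).trans h6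
  have h9 : T ≤ (N : ℝ) ^ (c / 8) := (le_max_left _ _).trans h6
  refine ⟨by exact_mod_cast h7, ?_, h9⟩
  rw [Real.norm_of_nonneg (by positivity : 0 ≤ (N : ℝ) ^ (c / 8))] at h5
  have h10 := (le_abs_self (Real.log N)).trans h5
  linarith

theorem bal_num (ε c : ℝ) (hε : 0 < ε) (hc : 0 < c) : ∃ c' : ℝ, 0 < c' ∧ ∃ N₀ : ℕ, ∀ N ≥ N₀,
    ∃ K : ℕ, 2 ≤ K ∧ ∀ L M : ℕ, 1 ≤ L → (L : ℝ) ≤ (N : ℝ) ^ (2 - ε) → (M : ℝ) < 2 ^ ((N : ℝ) ^ c') →
      ((200 * L * 2 ^ Nat.log K L : ℕ) : ℝ) ≤ (N : ℝ) ^ (2 - ε / 2) ∧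
      (((3 * (K * (Nat.log 2 L + 1) + 1) + 4) * (Nat.log 2 L + 2) + 20 : ℕ) : ℝ) ≤ (N : ℝ) ^ c ∧
      ((M * (61 * L ^ 4) : ℕ) : ℝ) < 2 ^ ((N : ℝ) ^ c) := by
  refine ⟨c / 2, by positivity, ?_⟩
  obtain ⟨m, hm⟩ := exists_nat_ge (8 / c)
  obtain ⟨N₁, hN₁⟩ := bal_large c hc 2
  obtain ⟨N₂, hN₂⟩ := bal_large (4 * ε) (by positivity) (200 * 2 ^ m)
  refine ⟨max N₁ N₂, fun N hN => ?_⟩
  obtain ⟨hN2, hlog, hX2⟩ := hN₁ N ((le_max_left _ _).trans hN)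
  obtain ⟨-, -, hbig⟩ := hN₂ N ((le_max_right _ _).trans hN)
  have hNr : (2 : ℝ) ≤ N := by exact_mod_cast hN2
  have hN0 : (0 : ℝ) < N := by linarith
  have hN1 : (1 : ℝ) ≤ N := by linarith
  set X : ℝ := (N : ℝ) ^ (c / 8) with hX
  have hX0 : 0 < X := by linarith
  have hX8 : (N : ℝ) ^ c = X ^ 8 := by
    rw [hX, ← Real.rpow_natCast, ← Real.rpow_mul hN0.le]
    congr 1; push_cast; ring
  have hX4 : (N : ℝ) ^ (c / 2) = X ^ 4 := by
    rw [hX, ← Real.rpow_natCast, ← Real.rpow_mul hN0.le]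
    congr 1; push_cast; ring
  have hXX : 16 * X ^ 4 ≤ X ^ 8 := by
    have h1 : (16 : ℝ) ≤ X ^ 4 := by
      calc (16 : ℝ) = 2 ^ 4 := by norm_num
        _ ≤ X ^ 4 := pow_le_pow_left₀ (by norm_num) hX2 4
    have h2 : X ^ 8 = X ^ 4 * X ^ 4 := by ring
    rw [h2]
    exact mul_le_mul_of_nonneg_right h1 (by positivity)
  have hX4b : 8 * X ≤ X ^ 4 := by
    have h1 : (8 : ℝ) ≤ X ^ 3 := by
      calc (8 : ℝ) = 2 ^ 3 := by norm_num
        _ ≤ X ^ 3 := pow_le_pow_left₀ (by norm_num) hX2 3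
    have h2 : X ^ 4 = X ^ 3 * X := by ring
    rw [h2]
    exact mul_le_mul_of_nonneg_right h1 hX0.le
  -- the branching
  refine ⟨⌈X ^ 2⌉₊, ?_, ?_⟩
  · have h1 : (4 : ℝ) ≤ X ^ 2 := by nlinarith
    have h2 : X ^ 2 ≤ (⌈X ^ 2⌉₊ : ℝ) := Nat.le_ceil _
    have h3 : (2 : ℝ) ≤ (⌈X ^ 2⌉₊ : ℝ) := by linarith
    exact_mod_cast h3
  intro L M hL1 hL hM
  set K : ℕ := ⌈X ^ 2⌉₊ with hK
  have hKge : X ^ 2 ≤ (K : ℝ) := Nat.le_ceil _
  have hKle : (K : ℝ) ≤ 2 * X ^ 2 := by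
    have h1 : (K : ℝ) < X ^ 2 + 1 := Nat.ceil_lt_add_one (by positivity)
    nlinarith
  have hK2 : 1 < K := by
    have h3 : (1 : ℝ) < (K : ℝ) := by nlinarith
    exact_mod_cast h3
  have hLr : (1 : ℝ) ≤ L := by exact_mod_cast hL1
  have hLN : (L : ℝ) ≤ (N : ℝ) ^ (2 : ℝ) :=
    hL.trans (Real.rpow_le_rpow_of_exponent_le hN1 (by linarith))
  have hLN2 : (L : ℝ) ≤ (N : ℝ) ^ 2 := by
    rw [← Real.rpow_natCast]; exact_mod_cast hLN
  -- logarithm to base two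
  have hl : (Nat.log 2 L : ℝ) + 2 ≤ X := by
    have h1 : (2 : ℝ) ^ Nat.log 2 L ≤ L := by
      exact_mod_cast Nat.pow_log_le_self 2 (by omega)
    have h2 := Real.log_le_log (by positivity) (h1.trans hLN2)
    rw [Real.log_pow, Real.log_pow] at h2
    have h3 := Real.log_two_gt_d9
    have h4 : (0 : ℝ) ≤ Nat.log 2 L := Nat.cast_nonneg _
    have h5 : (Nat.log 2 L : ℝ) * (1 / 2) ≤ (Nat.log 2 L : ℝ) * Real.log 2 :=
      mul_le_mul_of_nonneg_left (by linarith) h4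
    push_cast at h2
    linarith
  have hl0 : (0 : ℝ) ≤ Nat.log 2 L := Nat.cast_nonneg _
  refine ⟨?_, ?_, ?_⟩
  · -- size
    have h1 : L ≤ K ^ m := by
      have h2 : (N : ℝ) ^ (2 : ℝ) ≤ (K : ℝ) ^ m := by
        calc (N : ℝ) ^ (2 : ℝ) ≤ (N : ℝ) ^ ((c / 4) * m) := by
              apply Real.rpow_le_rpow_of_exponent_le hN1
              have h3 : 8 / c * (c / 4) = 2 := by field_simp; norm_num
              have h4 : 8 / c * (c / 4) ≤ m * (c / 4) :=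
                mul_le_mul_of_nonneg_right hm (by positivity)
              linarith
          _ = (X ^ 2) ^ m := by
              rw [hX, ← Real.rpow_natCast (((N : ℝ) ^ (c / 8)) ^ 2) m,
                ← Real.rpow_natCast ((N : ℝ) ^ (c / 8)) 2,
                ← Real.rpow_mul hN0.le, ← Real.rpow_mul hN0.le]
              congr 1; push_cast; ring
          _ ≤ (K : ℝ) ^ m := pow_le_pow_left₀ (by positivity) hKge m
      have h5 : (L : ℝ) ≤ ((K ^ m : ℕ) : ℝ) := by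
        push_cast
        exact hLN.trans h2
      exact_mod_cast h5
    have h6 : Nat.log K L ≤ m := by
      calc Nat.log K L ≤ Nat.log K (K ^ m) := Nat.log_mono_right h1
        _ = m := Nat.log_pow hK2 m
    have h7 : ((200 * L * 2 ^ Nat.log K L : ℕ) : ℝ) ≤ (200 * 2 ^ m) * L := by
      push_cast
      have h8 : (2 : ℝ) ^ Nat.log K L ≤ 2 ^ m := pow_le_pow_right₀ (by norm_num) h6
      have h9 : (200 : ℝ) * L * 2 ^ Nat.log K L ≤ 200 * L * 2 ^ m :=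
        mul_le_mul_of_nonneg_left h8 (by positivity)
      linarith
    have h10 : (4 * ε) / 8 = ε / 2 := by ring
    rw [h10] at hbig
    calc ((200 * L * 2 ^ Nat.log K L : ℕ) : ℝ) ≤ (200 * 2 ^ m) * L := h7
      _ ≤ (N : ℝ) ^ (ε / 2) * (N : ℝ) ^ (2 - ε) :=
          mul_le_mul hbig hL (by positivity) (by positivity)
      _ = (N : ℝ) ^ (2 - ε / 2) := by
          rw [← Real.rpow_add hN0]; congr 1; ring
  · -- height
    rw [hX8]
    push_cast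
    set t : ℝ := (Nat.log 2 L : ℝ) with ht
    have h1 : (K : ℝ) * (t + 1) ≤ 2 * X ^ 2 * X :=
      mul_le_mul hKle (by linarith) (by positivity) (by positivity)
    have h2 : (3 * ((K : ℝ) * (t + 1) + 1) + 4) ≤ 6 * X ^ 3 + 7 := by
      have : 2 * X ^ 2 * X = 2 * X ^ 3 := by ring
      linarith
    have h3 : (3 * ((K : ℝ) * (t + 1) + 1) + 4) * (t + 2) ≤ (6 * X ^ 3 + 7) * X :=
      mul_le_mul h2 hl (by positivity) (by positivity)
    have h4 : (6 * X ^ 3 + 7) * X + 20 ≤ 16 * X ^ 4 := by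
      have h5 : (6 * X ^ 3 + 7) * X = 6 * X ^ 4 + 7 * X := by ring
      have h6 : (16 : ℝ) ≤ X ^ 4 := by nlinarith
      rw [h5]
      linarith
    linarith
  · -- number of formulas
    rw [hX8]
    rw [hX4] at hM
    push_cast
    have h1 : (61 : ℝ) * (L : ℝ) ^ 4 ≤ 2 ^ (4 * X) := by
      have h2 : (L : ℝ) ^ 4 ≤ ((N : ℝ) ^ 2) ^ 4 := pow_le_pow_left₀ (by positivity) hLN2 4
      have h3 : (61 : ℝ) * (L : ℝ) ^ 4 ≤ 64 * (N : ℝ) ^ 8 := by
        have : ((N : ℝ) ^ 2) ^ 4 = (N : ℝ) ^ 8 := by ring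
        rw [this] at h2
        have h4 : (0 : ℝ) ≤ (N : ℝ) ^ 8 := by positivity
        linarith
      refine h3.trans ?_
      have h5 : (64 : ℝ) * (N : ℝ) ^ 8 = 2 ^ (6 + 8 * Real.logb 2 N) := by
        rw [Real.rpow_add (by norm_num), mul_comm (8 : ℝ) (Real.logb 2 N),
          Real.rpow_mul (by norm_num), Real.rpow_logb (by norm_num) (by norm_num) hN0]
        norm_num
      rw [h5]
      apply Real.rpow_le_rpow_of_exponent_le (by norm_num)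
      have h6 : Real.logb 2 N ≤ 2 * Real.log N := by
        rw [Real.logb, div_le_iff₀ (Real.log_pos (by norm_num))]
        have h7 := Real.log_two_gt_d9
        have h8 : 0 ≤ Real.log N := Real.log_nonneg hN1
        nlinarith
      linarith
    have h9 : (0 : ℝ) < (61 : ℝ) * (L : ℝ) ^ 4 := by positivity
    calc (M : ℝ) * (61 * (L : ℝ) ^ 4) < 2 ^ (X ^ 4) * (61 * (L : ℝ) ^ 4) :=
          mul_lt_mul_of_pos_right hM h9
      _ ≤ 2 ^ (X ^ 4) * 2 ^ (4 * X) := mul_le_mul_of_nonneg_left h1 (by positivity)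
      _ = 2 ^ (X ^ 4 + 4 * X) := by rw [← Real.rpow_add (by norm_num)]
      _ ≤ 2 ^ (X ^ 8) := by
          apply Real.rpow_le_rpow_of_exponent_le (by norm_num)
          have : 0 ≤ X ^ 4 := by positivity
          linarith

end Bal

end Pool.Agent.EFT
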