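import Pool.Agent.Lib.EFT.ParB

/-!
# The numbers of the any-depth theorem, general line size
-/

set_option autoImplicit false

namespace Pool.Agent.EFT

namespace Bal

open Filter

/-- Powers of two beat polynomials. -/
theorem poly_exp (B : ℕ) : ∃ u₀ : ℕ, ∀ u ≥ u₀, B * (u + 1) ^ 4 ≤ 2 ^ (u / 2) := by
  have h1 : Tendsto (fun n : ℕ => (n : ℝ) ^ 4 / (2 : ℝ) ^ n) atTop (nhds 0) :=
    tendsto_pow_const_div_const_pow_of_one_lt 4 (by norm_num)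
  have h2 : ∀ᶠ n : ℕ in atTop, (n : ℝ) ^ 4 / (2 : ℝ) ^ n < 1 / (32 * B + 1) :=
    h1.eventually (gt_mem_nhds (by positivity))
  obtain ⟨n₀, h3⟩ := eventually_atTop.1 h2
  refine ⟨2 * n₀, fun u hu => ?_⟩
  set v := u / 2 with hv
  have h4 := h3 (v + 1) (by omega)
  rw [div_lt_div_iff₀ (by positivity) (by positivity), one_mul] at h4
  have h5 : (v + 1) ^ 4 * (32 * B + 1) < 2 ^ (v + 1) := by exact_mod_cast h4
  have h6 : u + 1 ≤ 2 * (v + 1) := by omega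
  have h7 : (u + 1) ^ 4 ≤ (2 * (v + 1)) ^ 4 := Nat.pow_le_pow_left h6 4
  have h8 : 2 ^ (v + 1) = 2 * 2 ^ v := by ring
  have h9 : B * (u + 1) ^ 4 ≤ B * (2 * (v + 1)) ^ 4 := Nat.mul_le_mul_left _ h7
  nlinarith [h5, h8, h9, Nat.zero_le ((v + 1) ^ 4)]

theorem bal_scale (A : ℕ) : ∃ k₀ : ℕ, ∀ k ≥ k₀, ∀ s M : ℕ, 1 ≤ s →
    (s : ℝ) * 2 ^ (3000 * Real.sqrt k) ≤ ((3 * k * 2 ^ (k - 1) : ℕ) : ℝ) ^ 2 →
    (M : ℝ) < 2 ^ ((((3 * k * 2 ^ (k - 1) : ℕ) : ℝ) ^ 2 / s) ^ (1 / 5000 : ℝ)) →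
    ∃ u K : ℕ, Par.Scale k u ∧ 2 ≤ K ∧ A ≤ u ∧
      200 * s * 2 ^ Nat.log K s ≤ 2 ^ (2 * k - 808 * u) ∧
      A * K * (Nat.log 2 s + 1) ^ 2 ≤ 2 ^ u ∧ M * (A * s ^ 8) ≤ 2 ^ 2 ^ u := by
  obtain ⟨u₀, hu₀⟩ := poly_exp (10000 + 25 * A + 1000)
  refine ⟨2 * (u₀ + A + 10 + 1) ^ 2, fun k hk s M hs h1 h2 => ?_⟩
  set N : ℕ := 3 * k * 2 ^ (k - 1) with hN
  have hk0 : 1 ≤ k := by
    have : 1 ≤ (u₀ + A + 10 + 1) ^ 2 := Nat.one_le_pow _ _ (by omega)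
    omega
  have hN0 : 1 ≤ N := by
    rw [hN]
    have : 1 ≤ 2 ^ (k - 1) := Nat.one_le_two_pow
    nlinarith
  have hNr : (1 : ℝ) ≤ N := by exact_mod_cast hN0
  have hsr : (1 : ℝ) ≤ s := by exact_mod_cast hs
  set Q : ℝ := (N : ℝ) ^ 2 / s with hQ
  have hQ0 : 0 < Q := by positivity
  have hQs : (s : ℝ) * Q = (N : ℝ) ^ 2 := by rw [hQ]; field_simp
  have hQ1 : (2 : ℝ) ^ (3000 * Real.sqrt k) ≤ Q := by
    rw [hQ, le_div_iff₀ (by positivity), mul_comm]; exact h1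
  set y : ℝ := Real.logb 2 Q with hy
  have hQy : Q = (2 : ℝ) ^ y := by
    rw [hy, Real.rpow_logb (by norm_num) (by norm_num) hQ0]
  have hy1 : 3000 * Real.sqrt k ≤ y := by
    rw [hQy] at hQ1
    exact (Real.rpow_le_rpow_left_iff (by norm_num)).1 hQ1
  have hsq : 0 ≤ Real.sqrt k := Real.sqrt_nonneg _
  set u : ℕ := ⌊y / 4000⌋₊ with hu
  have hy0 : 0 ≤ y := by linarith
  have hu1 : (u : ℝ) ≤ y / 4000 := Nat.floor_le (by positivity)
  have hu2 : y / 4000 < u + 1 := Nat.lt_floor_add_one _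
  -- k is at most quadratic in u
  have hku : (k : ℝ) ≤ 2 * ((u : ℝ) + 1) ^ 2 := by
    have h3 : Real.sqrt k ≤ 4 / 3 * ((u : ℝ) + 1) := by linarith
    have h4 : (k : ℝ) = Real.sqrt k ^ 2 := (Real.sq_sqrt (by positivity)).symm
    have hu0 : (0 : ℝ) ≤ u := Nat.cast_nonneg _
    rw [h4]
    nlinarith
  have hku' : k ≤ 2 * (u + 1) ^ 2 := by exact_mod_cast hku
  have huu : u₀ + A + 10 ≤ u := by
    by_contra hcon
    push Not at hcon
    have h3 : (u + 1) ^ 2 < (u₀ + A + 10 + 1) ^ 2 := Nat.pow_lt_pow_left (by omega) (by norm_num)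
    omega
  have hpe := hu₀ u (by omega)
  set v := u / 2 with hv
  have hvu : 2 ^ v * 2 ^ (u - v) = 2 ^ u := by
    rw [← pow_add]; congr 1; omega
  have hvv : 2 ^ v ≤ 2 ^ (u - v) := Nat.pow_le_pow_right (by norm_num) (by omega)
  have hv1 : 1 ≤ 2 ^ v := Nat.one_le_two_pow
  have hu4 : (u + 1) ^ 2 ≤ (u + 1) ^ 4 := Nat.pow_le_pow_right (by omega) (by norm_num)
  have hu12 : 1 ≤ (u + 1) ^ 2 := Nat.one_le_pow _ _ (by omega)
  -- scale
  have hs2 : 1000 * (k + 1) ≤ 2 ^ u := by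
    have h3 : 1000 * (k + 1) ≤ 3000 * (u + 1) ^ 4 := by
      calc 1000 * (k + 1) ≤ 1000 * (2 * (u + 1) ^ 2 + (u + 1) ^ 2) := by gcongr
        _ = 3000 * (u + 1) ^ 2 := by ring
        _ ≤ 3000 * (u + 1) ^ 4 := by gcongr
    have h4 : 3000 * (u + 1) ^ 4 ≤ (10000 + 25 * A + 1000) * (u + 1) ^ 4 :=
      Nat.mul_le_mul_right _ (by omega)
    have h5 : 2 ^ v ≤ 2 ^ u := Nat.pow_le_pow_right (by norm_num) (by omega)
    exact le_trans h3 (le_trans h4 (le_trans hpe h5))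
  have hN2 : (N : ℝ) ≤ (2 : ℝ) ^ (k + u) := by
    have h3 : N ≤ 2 ^ (k + u) := by
      rw [hN, pow_add]
      have h4 : 2 ^ k = 2 * 2 ^ (k - 1) := by
        conv_lhs => rw [show k = (k - 1) + 1 by omega]
        ring
      have h5 : 1 ≤ 2 ^ (k - 1) := Nat.one_le_two_pow
      rw [h4]
      nlinarith
    exact_mod_cast h3
  have hNN : (N : ℝ) ^ 2 ≤ (2 : ℝ) ^ (2 * k + 2 * u) := by
    calc (N : ℝ) ^ 2 ≤ ((2 : ℝ) ^ (k + u)) ^ 2 := by gcongr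
      _ = (2 : ℝ) ^ (2 * k + 2 * u) := by rw [← pow_mul]; congr 1; ring
  have hQu : (2 : ℝ) ^ (4000 * u) ≤ Q := by
    rw [hQy, ← Real.rpow_natCast]
    apply Real.rpow_le_rpow_of_exponent_le (by norm_num)
    push_cast
    linarith
  have hsQ : (s : ℝ) * (2 : ℝ) ^ (4000 * u) ≤ (2 : ℝ) ^ (2 * k + 2 * u) := by
    calc (s : ℝ) * (2 : ℝ) ^ (4000 * u) ≤ s * Q := by gcongr
      _ = (N : ℝ) ^ 2 := hQs
      _ ≤ _ := hNN
  have hsQ' : s * 2 ^ (4000 * u) ≤ 2 ^ (2 * k + 2 * u) := by exact_mod_cast hsQ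
  have h1999 : 4000 * u ≤ 2 * k + 2 * u := by
    have h3 : 2 ^ (4000 * u) ≤ 2 ^ (2 * k + 2 * u) :=
      le_trans (Nat.le_mul_of_pos_left _ (by omega)) hsQ'
    exact (Nat.pow_le_pow_iff_right (by norm_num)).1 h3
  have hscale : Par.Scale k u := ⟨by omega, hs2⟩
  have hs3 : s ≤ 2 ^ (2 * k - 3998 * u) := by
    have h3 : 2 ^ (2 * k + 2 * u) = 2 ^ (2 * k - 3998 * u) * 2 ^ (4000 * u) := by
      rw [← pow_add]; congr 1; omega
    rw [h3] at hsQ'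
    exact Nat.le_of_mul_le_mul_right hsQ' (by positivity)
  have hs4 : s ≤ 2 ^ (2 * k) := hs3.trans (Nat.pow_le_pow_right (by norm_num) (by omega))
  have hlog2 : Nat.log 2 s ≤ 2 * k := by
    calc Nat.log 2 s ≤ Nat.log 2 (2 ^ (2 * k)) := Nat.log_mono_right hs4
      _ = 2 * k := Nat.log_pow (by norm_num) _
  refine ⟨u, 2 ^ v, hscale, ?_, by omega, ?_, ?_, ?_⟩
  · calc 2 = 2 ^ 1 := rfl
      _ ≤ 2 ^ v := Nat.pow_le_pow_right (by norm_num) (by omega)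
  · -- size
    set j := Nat.log (2 ^ v) s with hj
    have h3 : (2 ^ v) ^ j ≤ s := Nat.pow_log_le_self _ (by omega)
    have h4 : v * j ≤ 2 * k := by
      have : 2 ^ (v * j) ≤ 2 ^ (2 * k) := by rw [pow_mul]; exact h3.trans hs4
      exact (Nat.pow_le_pow_iff_right (by norm_num)).1 this
    have h5 : j ≤ 16 * u := by
      by_contra hcon
      push Not at hcon
      have h6 : v * (16 * u + 1) ≤ v * j := Nat.mul_le_mul_left _ hcon
      have h7 : u ≤ 2 * v + 1 := by omega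
      have h8 : 10 ≤ u := by omega
      nlinarith
    have h6 : 200 * s * 2 ^ j ≤ 2 ^ 8 * 2 ^ (2 * k - 3998 * u) * 2 ^ (16 * u) := by
      gcongr
      · norm_num
      · norm_num
    refine h6.trans ?_
    rw [← pow_add, ← pow_add]
    apply Nat.pow_le_pow_right (by norm_num)
    omega
  · -- height
    have h3 : (Nat.log 2 s + 1) ^ 2 ≤ 25 * (u + 1) ^ 4 := by
      have h4 : Nat.log 2 s + 1 ≤ 5 * (u + 1) ^ 2 := by omega
      calc (Nat.log 2 s + 1) ^ 2 ≤ (5 * (u + 1) ^ 2) ^ 2 := Nat.pow_le_pow_left h4 2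
        _ = 25 * (u + 1) ^ 4 := by ring
    calc A * 2 ^ v * (Nat.log 2 s + 1) ^ 2 ≤ A * 2 ^ v * (25 * (u + 1) ^ 4) := by gcongr
      _ = 2 ^ v * (25 * A * (u + 1) ^ 4) := by ring
      _ ≤ 2 ^ v * 2 ^ (u - v) := by
        apply Nat.mul_le_mul_left
        refine le_trans ?_ (hpe.trans hvv)
        apply Nat.mul_le_mul_right
        omega
      _ = 2 ^ u := hvu
  · -- number
    have h3 : Q ^ (1 / 5000 : ℝ) ≤ (2 : ℝ) ^ (u - 1) := by
      rw [hQy, ← Real.rpow_mul (by norm_num), ← Real.rpow_natCast]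
      apply Real.rpow_le_rpow_of_exponent_le (by norm_num)
      rw [Nat.cast_sub (by omega)]
      have h8 : (10 : ℝ) ≤ u := by exact_mod_cast (by omega : 10 ≤ u)
      push_cast
      linarith
    have h4 : (M : ℝ) < (2 : ℝ) ^ (2 ^ (u - 1)) := by
      refine lt_of_lt_of_le h2 ?_
      rw [← Real.rpow_natCast]
      apply Real.rpow_le_rpow_of_exponent_le (by norm_num)
      push_cast
      exact h3
    have h5 : M ≤ 2 ^ 2 ^ (u - 1) := by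
      have : M < 2 ^ 2 ^ (u - 1) := by exact_mod_cast h4
      omega
    have h6 : A ≤ 2 ^ A := Nat.lt_two_pow_self.le
    have h7 : s ^ 8 ≤ 2 ^ (16 * k) := by
      calc s ^ 8 ≤ (2 ^ (2 * k)) ^ 8 := Nat.pow_le_pow_left hs4 8
        _ = 2 ^ (16 * k) := by rw [← pow_mul]; congr 1; ring
    have h9 : A + 16 * k ≤ 2 ^ (u - 1) := by
      have h10 : A + 16 * k ≤ (10000 + 25 * A + 1000) * (u + 1) ^ 4 := by
        calc A + 16 * k ≤ A * (u + 1) ^ 2 + 16 * (2 * (u + 1) ^ 2) := by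
              gcongr
              exact Nat.le_mul_of_pos_right _ (by omega)
          _ = (A + 32) * (u + 1) ^ 2 := by ring
          _ ≤ (10000 + 25 * A + 1000) * (u + 1) ^ 4 := Nat.mul_le_mul (by omega) hu4
      refine (h10.trans hpe).trans (Nat.pow_le_pow_right (by norm_num) (by omega))
    calc M * (A * s ^ 8) ≤ 2 ^ 2 ^ (u - 1) * (2 ^ A * 2 ^ (16 * k)) := by gcongr
      _ = 2 ^ (2 ^ (u - 1) + (A + 16 * k)) := by rw [pow_add, pow_add]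
      _ ≤ 2 ^ (2 ^ (u - 1) + 2 ^ (u - 1)) := Nat.pow_le_pow_right (by norm_num) (by omega)
      _ = 2 ^ 2 ^ u := by
        congr 1
        conv_rhs => rw [show u = (u - 1) + 1 by omega]
        ring

end Bal

end Pool.Agent.EFT
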