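import Pool.Agent.Lib.EFT.BalHeight

/-!
# Balancing formulas: numbers of leaves
-/

set_option autoImplicit false

namespace Pool.Agent.EFT

namespace Bal

variable {α β : Type*}

theorem lv_xr (b : Bool) (f : Fm α) : (xr b f).lv = f.lv := by
  cases b <;> rfl

theorem lv_or (f g : Fm α) : (or f g).lv = f.lv + g.lv := rfl

theorem lv_imp (f g : Fm α) : (imp f g).lv = f.lv + g.lv := rfl

theorem lv_iff (f g : Fm α) : (iff f g).lv = 2 * (f.lv + g.lv) := by
  change (f.lv + g.lv) + (g.lv + f.lv) = _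
  omega

theorem lv_ff (o : α) : (ff o).lv = 2 := rfl

theorem lv_tt (o : α) : (tt o).lv = 2 := rfl

theorem lv_sel (b : Bool) (v0 v1 : Fm α) : (sel b v0 v1).lv + (sel (!b) v0 v1).lv =
    v0.lv + v1.lv := by
  cases b
  · rfl
  · exact Nat.add_comm _ _

theorem lv_MM (π : Bool) (v0 v1 y : Fm α) : (MM π v0 v1 y).lv = v0.lv + v1.lv + y.lv := by
  have h := lv_sel π v0 v1
  change (sel π v0 v1).lv + ((sel (!π) v0 v1).lv + (xr π y).lv) = _
  rw [lv_xr]
  omega

theorem lv_mu (b : Bool) (h z : Fm α) : (mu b h z).lv = z.lv + h.lv := by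
  change (xr b z).lv + h.lv = _
  rw [lv_xr]

theorem log_mono (K : ℕ) {a b : ℕ} (h : a ≤ b) : 2 ^ Nat.log K a ≤ 2 ^ Nat.log K b :=
  Nat.pow_le_pow_right (by norm_num) (Nat.log_mono_right h)

/-- Leaves of the balanced chain. -/
theorem lv_V (K : ℕ) (hK : 2 ≤ K) (o : α) (n : ℕ) :
    ∀ (l : List (Step α)), l.length ≤ n →
      (∀ s ∈ l, 1 ≤ s.w ∧ s.h.lv + 4 ≤ 6 * s.w * 2 ^ Nat.log K s.w) →
      ∃ a, a ≤ 6 * wt l * 2 ^ Nat.log K (wt l) ∧ ∀ e : Fm α, (V K o l e).lv = a + e.lv := by
  induction n with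
  | zero =>
    intro l hl _
    have : l = [] := List.eq_nil_of_length_eq_zero (by omega)
    subst this
    exact ⟨0, Nat.zero_le _, fun e => by rw [V_nil, Nat.zero_add]⟩
  | succ n ih =>
    intro l hl hs
    by_cases hl0 : l = []
    · subst hl0
      exact ⟨0, Nat.zero_le _, fun e => by rw [V_nil, Nat.zero_add]⟩
    obtain ⟨p, s, q, hpq, hp, -, hV⟩ := exists_split K o l hl0
    have hlen : p.length + q.length + 1 = l.length := by
      rw [hpq]; simp only [List.length_append, List.length_cons]; omega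
    have hsp := fun s' (h' : s' ∈ p) => hs s' (by rw [hpq]; exact List.mem_append_left _ h')
    have hsq := fun s' (h' : s' ∈ q) => hs s' (by
      rw [hpq]; exact List.mem_append_right _ (List.mem_cons_of_mem _ h'))
    have hss := hs s (by rw [hpq]; exact List.mem_append_right _ List.mem_cons_self)
    have hwt : wt l = wt p + (s.w + wt q) := by rw [hpq, wt_append]; rfl
    obtain ⟨a, ha, hpa⟩ := ih p (by omega) hsp
    obtain ⟨c, hc, hqc⟩ := ih q (by omega) hsq
    refine ⟨2 * a + 4 + s.h.lv + c, ?_, ?_⟩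
    · set X := 2 ^ Nat.log K (wt l) with hX
      have h1 : 2 * a ≤ 6 * wt p * X := by
        rcases Nat.eq_zero_or_pos (wt p) with h0 | h0
        · rw [h0] at ha
          simp only [Nat.mul_zero, Nat.zero_mul] at ha
          omega
        · have hp' : K * wt p ≤ wt l := by
            rcases hp with hp | hp
            · rw [hp] at h0; simp [wt] at h0
            · exact hp
          have h2 : Nat.log K (wt p) + 1 ≤ Nat.log K (wt l) := by
            rw [← Nat.log_mul_base (by omega) (by omega), Nat.mul_comm]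
            exact Nat.log_mono_right hp'
          have h3 : 2 * 2 ^ Nat.log K (wt p) ≤ X := by
            rw [← pow_succ']
            exact Nat.pow_le_pow_right (by norm_num) h2
          calc 2 * a ≤ 2 * (6 * wt p * 2 ^ Nat.log K (wt p)) := Nat.mul_le_mul_left _ ha
            _ = 6 * wt p * (2 * 2 ^ Nat.log K (wt p)) := by ring
            _ ≤ 6 * wt p * X := Nat.mul_le_mul_left _ h3
      have h2 : s.h.lv + 4 ≤ 6 * s.w * X :=
        hss.2.trans (Nat.mul_le_mul_left _ (log_mono K (by omega)))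
      have h3 : c ≤ 6 * wt q * X := hc.trans (Nat.mul_le_mul_left _ (log_mono K (by omega)))
      have h4 : 6 * wt l * X = 6 * wt p * X + 6 * s.w * X + 6 * wt q * X := by
        rw [hwt]; ring
      omega
    · intro e
      rw [hV e, lv_MM, hpa, hpa, lv_mu, hqc, lv_ff, lv_tt]
      omega

/-- Leaves of the balanced formula. -/
theorem lv_bal (K : ℕ) (hK : 2 ≤ K) (o : α) (n : ℕ) : ∀ f : Fm α, f.lv ≤ n →
    (bal K o f).lv + 5 ≤ 6 * f.lv * 2 ^ Nat.log K f.lv := by
  induction n with
  | zero => intro f hf; have := f.lv_pos; omega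
  | succ n ih =>
    intro f hf
    have hst : ∀ s ∈ (rep K o f).2.1, 1 ≤ s.w ∧ s.h.lv + 4 ≤ 6 * s.w * 2 ^ Nat.log K s.w := by
      intro s hs
      obtain ⟨g, h1, h2, h3, -⟩ := rep_steps K o f s hs
      have hg := g.lv_pos
      have := ih g (by omega)
      rw [h1, h2]
      exact ⟨hg, by omega⟩
    obtain ⟨a, ha, haV⟩ := lv_V K hK o _ _ le_rfl hst
    have hw := wt_rep K o f
    unfold bal
    rw [lv_xr, haV]
    have h1 : a ≤ 6 * (f.lv - 1) * 2 ^ Nat.log K f.lv := by
      refine ha.trans ?_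
      have : wt (rep K o f).2.1 = f.lv - 1 := by omega
      rw [this]
      exact Nat.mul_le_mul_left _ (log_mono K (by omega))
    have h2 : 1 ≤ 2 ^ Nat.log K f.lv := Nat.one_le_two_pow
    have h3 : 6 * f.lv * 2 ^ Nat.log K f.lv =
        6 * (f.lv - 1) * 2 ^ Nat.log K f.lv + 6 * 2 ^ Nat.log K f.lv := by
      have : f.lv = (f.lv - 1) + 1 := by have := f.lv_pos; omega
      conv_lhs => rw [this]
      have h4 : 6 * (f.lv - 1 + 1) * 2 ^ Nat.log K (f.lv - 1 + 1) =
        6 * (f.lv - 1) * 2 ^ Nat.log K (f.lv - 1 + 1) + 6 * 2 ^ Nat.log K (f.lv - 1 + 1) := by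
        ring
      rw [h4, ← this]
    have h5 : (Fm.var (rep K o f).2.2).lv = 1 := rfl
    rw [h5]
    omega

/-- Leaves of `V` along a contiguous part of the heavy path, and of the steps. -/
theorem lv_path (K : ℕ) (hK : 2 ≤ K) (o : α) (f : Fm α) :
    (∀ m, m <:+: (rep K o f).2.1 → ∀ e : Fm α, e.lv ≤ 2 →
      (V K o m e).lv ≤ 6 * f.lv * 2 ^ Nat.log K f.lv) ∧
    (∀ s ∈ (rep K o f).2.1, s.h.lv ≤ 6 * f.lv * 2 ^ Nat.log K f.lv) := by
  have hst : ∀ s ∈ (rep K o f).2.1, 1 ≤ s.w ∧ s.h.lv + 4 ≤ 6 * s.w * 2 ^ Nat.log K s.w ∧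
      s.w ≤ f.lv := by
    intro s hs
    obtain ⟨g, h1, h2, h3, -⟩ := rep_steps K o f s hs
    have hg := g.lv_pos
    have := lv_bal K hK o _ g le_rfl
    rw [h1, h2]
    exact ⟨hg, by omega, by omega⟩
  have hpos := f.lv_pos
  constructor
  · intro m hm e he
    obtain ⟨a, ha, haV⟩ := lv_V K hK o _ m le_rfl (fun s hs =>
      ⟨(hst s (hm.subset hs)).1, (hst s (hm.subset hs)).2.1⟩)
    have hw := wt_rep K o f
    have hwm : wt m ≤ f.lv - 1 := by
      obtain ⟨x, y, hxy⟩ := hm
      have : wt m ≤ wt (rep K o f).2.1 := by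
        rw [← hxy, wt_append, wt_append]; omega
      omega
    rw [haV]
    have h1 : a ≤ 6 * (f.lv - 1) * 2 ^ Nat.log K f.lv := by
      refine ha.trans ?_
      exact Nat.mul_le_mul (Nat.mul_le_mul_left _ hwm) (log_mono K (by omega))
    have h2 : 1 ≤ 2 ^ Nat.log K f.lv := Nat.one_le_two_pow
    generalize 2 ^ Nat.log K f.lv = X at *
    obtain ⟨r, hr⟩ : ∃ r, f.lv = r + 1 := ⟨f.lv - 1, by omega⟩
    rw [hr] at h1 ⊢
    rw [Nat.add_sub_cancel] at h1
    have h4 : 6 * (r + 1) * X = 6 * r * X + 6 * X := by ring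
    omega
  · intro s hs
    obtain ⟨h1, h2, h3⟩ := hst s hs
    have h4 : 6 * s.w * 2 ^ Nat.log K s.w ≤ 6 * f.lv * 2 ^ Nat.log K f.lv :=
      Nat.mul_le_mul (Nat.mul_le_mul_left _ h3) (log_mono K h3)
    omega

/-- Leaves of the auxiliary formulas of a node. -/
theorem lv_node (K : ℕ) (hK : 2 ≤ K) (o : α) (f : Fm α) :
    ∀ φ ∈ node K o f, φ.lv ≤ 60 * f.lv * 2 ^ Nat.log K f.lv := by
  obtain ⟨hV, hs⟩ := lv_path K hK o f
  have e60 : 60 * f.lv * 2 ^ Nat.log K f.lv = 10 * (6 * f.lv * 2 ^ Nat.log K f.lv) := by ring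
  rw [e60]
  generalize 6 * f.lv * 2 ^ Nat.log K f.lv = X at *
  intro φ hφ
  rw [node, List.mem_cons] at hφ
  rcases hφ with rfl | hφ
  · have := hV _ (List.infix_refl _) (.var (rep K o f).2.2) (by simp [Fm.lv])
    change (V K o (rep K o f).2.1 (.var (rep K o f).2.2)).lv ≤ _
    omega
  · simp only [pathGens, List.mem_flatMap] at hφ
    obtain ⟨m, hm, hφ⟩ := hφ
    rw [mem_infixes] at hm
    have hff := hV m hm (ff o) (by rw [lv_ff])
    have htt := hV m hm (tt o) (by rw [lv_tt])
    rw [List.mem_cons] at hφ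
    rcases hφ with rfl | hφ
    · unfold monf
      rw [lv_imp, lv_sel]
      omega
    · simp only [List.mem_flatMap] at hφ
      obtain ⟨⟨p, s, q⟩, hpq, hφ⟩ := hφ
      rw [mem_splits] at hpq
      have hp : p <:+: (rep K o f).2.1 := by
        refine List.IsInfix.trans ?_ hm
        rw [hpq]; exact (List.prefix_append _ _).isInfix
      have hq : q <:+: (rep K o f).2.1 := by
        refine List.IsInfix.trans ?_ hm
        rw [hpq]
        exact ((List.suffix_cons s q).trans (List.suffix_append _ _)).isInfix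
      have hsm : s ∈ (rep K o f).2.1 := by
        apply hm.subset
        rw [hpq]; exact List.mem_append_right _ List.mem_cons_self
      have key : ∀ e : Fm α, e.lv ≤ 2 → (iff (V K o m e) (spf K o p s q e)).lv ≤ 10 * X := by
        intro e he
        have b1 := hV m hm e he
        have b2 := hV p hp (ff o) (by rw [lv_ff])
        have b3 := hV p hp (tt o) (by rw [lv_tt])
        have b4 := hV q hq e he
        have b5 := hs s hsm
        rw [lv_iff]
        unfold spf
        rw [lv_MM, lv_mu]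
        omega
      simp only [List.mem_cons, List.not_mem_nil, or_false] at hφ
      rcases hφ with rfl | rfl | rfl
      · exact key _ (by rw [lv_ff])
      · exact key _ (by rw [lv_tt])
      · exact key _ (by simp [Fm.lv])

/-- **Leaves of the auxiliary formulas of a line.** -/
theorem lv_gens_le (K : ℕ) (hK : 2 ≤ K) (o : α) (f : Fm α) :
    ∀ φ ∈ gens K o f, φ.lv ≤ 60 * f.lv * 2 ^ Nat.log K f.lv := by
  induction f with
  | var x => exact lv_node K hK o _
  | neg f ih => exact ih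
  | and f g ihf ihg =>
    intro φ hφ
    simp only [gens, List.mem_append] at hφ
    have hlf : f.lv ≤ (Fm.and f g).lv := by simp only [Fm.lv]; omega
    have hlg : g.lv ≤ (Fm.and f g).lv := by simp only [Fm.lv]; omega
    rcases hφ with (hφ | hφ) | hφ
    · exact (ihf φ hφ).trans (Nat.mul_le_mul (Nat.mul_le_mul_left _ hlf) (log_mono K hlf))
    · exact (ihg φ hφ).trans (Nat.mul_le_mul (Nat.mul_le_mul_left _ hlg) (log_mono K hlg))
    · exact lv_node K hK o _ φ hφ

/-- **Leaves of the balanced formula.** -/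
theorem lv_bal_le (K : ℕ) (hK : 2 ≤ K) (o : α) (f : Fm α) :
    (bal K o f).lv ≤ 6 * f.lv * 2 ^ Nat.log K f.lv := by
  have := lv_bal K hK o _ f le_rfl
  omega

end Bal

end Pool.Agent.EFT
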