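import Pool.Agent.Lib.EFT.BalGen

/-!
# Balancing formulas: the splitting lemma

For every splitting `p ++ s :: q` of a part of a heavy path the value `V` is equivalent, near one,
to the value computed with this splitting; `V` is monotone near one.
-/

set_option autoImplicit false

namespace Pool.Agent.EFT

namespace Bal

variable {α β : Type*}

/-! ## Substitution and truth values of the connectives -/

theorem subst_or (θ : α → Fm β) (f g : Fm α) : (or f g).subst θ = or (f.subst θ) (g.subst θ) := rfl

theorem subst_imp (θ : α → Fm β) (f g : Fm α) :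
    (imp f g).subst θ = imp (f.subst θ) (g.subst θ) := rfl

theorem subst_iff (θ : α → Fm β) (f g : Fm α) :
    (iff f g).subst θ = iff (f.subst θ) (g.subst θ) := rfl

theorem subst_xr (θ : α → Fm β) (b : Bool) (f : Fm α) : (xr b f).subst θ = xr b (f.subst θ) := by
  cases b <;> rfl

theorem subst_mu (θ : α → Fm β) (b : Bool) (h z : Fm α) :
    (mu b h z).subst θ = mu b (h.subst θ) (z.subst θ) := by
  cases b <;> rfl

theorem subst_sel (θ : α → Fm β) (b : Bool) (f g : Fm α) :
    (sel b f g).subst θ = sel b (f.subst θ) (g.subst θ) := by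
  cases b <;> rfl

theorem subst_MM (θ : α → Fm β) (b : Bool) (f g y : Fm α) :
    (MM b f g y).subst θ = MM b (f.subst θ) (g.subst θ) (y.subst θ) := by
  cases b <;> rfl

theorem eval_or (a : α → Bool) (f g : Fm α) : (or f g).eval a = (f.eval a || g.eval a) := by
  show (!((!(f.eval a)) && (!(g.eval a)))) = _
  cases f.eval a <;> cases g.eval a <;> rfl

theorem eval_imp (a : α → Bool) (f g : Fm α) : (imp f g).eval a = (!(f.eval a) || g.eval a) := by
  show (!((f.eval a) && (!(g.eval a)))) = _
  cases f.eval a <;> cases g.eval a <;> rfl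

theorem eval_iff (a : α → Bool) (f g : Fm α) :
    (iff f g).eval a = true ↔ f.eval a = g.eval a := by
  show ((imp f g).eval a && (imp g f).eval a) = true ↔ _
  rw [eval_imp, eval_imp]
  cases f.eval a <;> cases g.eval a <;> decide

theorem eval_xr (a : α → Bool) (b : Bool) (f : Fm α) : (xr b f).eval a = (b ^^ f.eval a) := by
  cases b
  · show f.eval a = _
    simp
  · show (!(f.eval a)) = _
    simp

theorem eval_mu (a : α → Bool) (b : Bool) (h z : Fm α) :
    (mu b h z).eval a = ((b ^^ z.eval a) && h.eval a) := by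
  show ((xr b z).eval a && h.eval a) = _
  rw [eval_xr]

theorem eval_sel (a : α → Bool) (b : Bool) (f g : Fm α) :
    (sel b f g).eval a = cond b (g.eval a) (f.eval a) := by
  cases b <;> rfl

theorem eval_MM (a : α → Bool) (b : Bool) (f g y : Fm α) :
    (MM b f g y).eval a = (cond b (g.eval a) (f.eval a) ||
      (cond (!b) (g.eval a) (f.eval a) && (b ^^ y.eval a))) := by
  show (or _ (.and _ _)).eval a = _
  rw [eval_or, eval_sel]
  show (_ || ((sel (!b) f g).eval a && (xr b y).eval a)) = _
  rw [eval_sel, eval_xr]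

/-! ## The rules -/

/-- `A ↔ A`. -/
def reflR : Rule where
  n := 1
  prem := []
  concl := iff (.var 0) (.var 0)

/-- `false → true` with the formulas `ff`, `tt`. -/
def fftR : Rule where
  n := 1
  prem := []
  concl := imp (ff 0) (tt 0)

/-- Monotonicity of a composition. The variables are the values of the outer function at false and
true, the side formula, the values of the inner function. -/
def monR (π b ρ : Bool) : Rule where
  n := 5
  prem := [imp (sel ρ (.var 3) (.var 4)) (sel (!ρ) (.var 3) (.var 4))]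
  concl :=
    imp (sel (π ^^ (b ^^ ρ)) (MM π (.var 0) (.var 1) (mu b (.var 2) (.var 3)))
        (MM π (.var 0) (.var 1) (mu b (.var 2) (.var 4))))
      (sel (!(π ^^ (b ^^ ρ))) (MM π (.var 0) (.var 1) (mu b (.var 2) (.var 3)))
        (MM π (.var 0) (.var 1) (mu b (.var 2) (.var 4))))

/-- Premises of the associativity rules: `P₀ P₁ H R₀ R₁ Y Q L₀ L₁` are the variables
`0, …, 8`. -/
def assP (π b ρ : Bool) : List (Fm (Fin 9)) :=
  [iff (.var 6) (MM ρ (.var 3) (.var 4) (.var 5)),
    iff (.var 7) (MM π (.var 0) (.var 1) (mu b (.var 2) (.var 3))),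
    iff (.var 8) (MM π (.var 0) (.var 1) (mu b (.var 2) (.var 4))),
    imp (sel ρ (.var 3) (.var 4)) (sel (!ρ) (.var 3) (.var 4))]

/-- Associativity of the composition. -/
def assR (π b ρ : Bool) : Rule where
  n := 9
  prem := assP π b ρ
  concl := iff (MM (π ^^ (b ^^ ρ)) (.var 7) (.var 8) (.var 5))
    (MM π (.var 0) (.var 1) (mu b (.var 2) (.var 6)))

/-- Associativity of the composition, the other direction. -/
def assR' (π b ρ : Bool) : Rule where
  n := 9
  prem := assP π b ρ
  concl := iff (MM π (.var 0) (.var 1) (mu b (.var 2) (.var 6)))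
    (MM (π ^^ (b ^^ ρ)) (.var 7) (.var 8) (.var 5))

theorem reflR_sound : reflR.Sound := by
  intro a _
  exact (eval_iff _ _ _).2 rfl

theorem fftR_sound : fftR.Sound := by
  intro (a : Fin 1 → Bool) _
  show (imp (ff 0) (tt 0)).eval a = true
  rw [eval_imp]
  show (!(a 0 && !(a 0)) || !(a 0 && !(a 0))) = true
  cases a 0 <;> rfl

/-- Truth values behind the monotonicity rule. -/
theorem mon_bool : ∀ π b ρ x0 x1 x2 x3 x4 : Bool,
    ((!cond ρ x4 x3) || cond (!ρ) x4 x3) = true →
    ((!cond (π ^^ (b ^^ ρ)) (cond π x1 x0 || (cond (!π) x1 x0 && (π ^^ ((b ^^ x4) && x2))))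
        (cond π x1 x0 || (cond (!π) x1 x0 && (π ^^ ((b ^^ x3) && x2))))) ||
      cond (!(π ^^ (b ^^ ρ))) (cond π x1 x0 || (cond (!π) x1 x0 && (π ^^ ((b ^^ x4) && x2))))
        (cond π x1 x0 || (cond (!π) x1 x0 && (π ^^ ((b ^^ x3) && x2))))) = true := by
  decide

theorem monR_sound (π b ρ : Bool) : (monR π b ρ).Sound := by
  intro (a : Fin 5 → Bool) h
  have h1 : (imp (sel ρ (.var 3) (.var 4)) (sel (!ρ) (.var 3) (.var 4))).eval a = true :=
    h _ (List.mem_singleton.2 rfl)
  show (imp (sel (π ^^ (b ^^ ρ)) (MM π (.var 0) (.var 1) (mu b (.var 2) (.var 3)))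
        (MM π (.var 0) (.var 1) (mu b (.var 2) (.var 4))))
      (sel (!(π ^^ (b ^^ ρ))) (MM π (.var 0) (.var 1) (mu b (.var 2) (.var 3)))
        (MM π (.var 0) (.var 1) (mu b (.var 2) (.var 4))))).eval a = true
  rw [eval_imp, eval_sel, eval_sel] at h1 ⊢
  rw [eval_MM, eval_MM, eval_mu, eval_mu]
  simp only [Fm.eval] at h1 ⊢
  revert h1
  generalize a 0 = x0
  generalize a 1 = x1
  generalize a 2 = x2
  generalize a 3 = x3
  generalize a 4 = x4
  exact mon_bool π b ρ x0 x1 x2 x3 x4

/-- Truth values behind the associativity rules. -/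
theorem ass_bool : ∀ π b ρ p0 p1 h r0 r1 y : Bool,
    (!(cond ρ r1 r0) || cond (!ρ) r1 r0) = true →
    (cond (π ^^ (b ^^ ρ)) (cond π p1 p0 || (cond (!π) p1 p0 && (π ^^ ((b ^^ r1) && h))))
        (cond π p1 p0 || (cond (!π) p1 p0 && (π ^^ ((b ^^ r0) && h)))) ||
      (cond (!(π ^^ (b ^^ ρ))) (cond π p1 p0 || (cond (!π) p1 p0 && (π ^^ ((b ^^ r1) && h))))
        (cond π p1 p0 || (cond (!π) p1 p0 && (π ^^ ((b ^^ r0) && h)))) &&
        ((π ^^ (b ^^ ρ)) ^^ y))) =
    (cond π p1 p0 || (cond (!π) p1 p0 &&
      (π ^^ ((b ^^ (cond ρ r1 r0 || (cond (!ρ) r1 r0 && (ρ ^^ y)))) && h)))) := by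
  decide

theorem ass_eval (π b ρ : Bool) (a : Fin 9 → Bool)
    (h : ∀ p ∈ assP π b ρ, p.eval a = true) :
    (MM (π ^^ (b ^^ ρ)) (.var 7) (.var 8) (.var 5)).eval a =
      (MM π (.var 0) (.var 1) (mu b (.var 2) (.var 6))).eval a := by
  have h1 : (iff (.var 6) (MM ρ (.var 3) (.var 4) (.var 5))).eval a = true :=
    h _ (by simp [assP])
  have h2 : (iff (.var 7) (MM π (.var 0) (.var 1) (mu b (.var 2) (.var 3)))).eval a = true :=
    h _ (by simp [assP])
  have h3 : (iff (.var 8) (MM π (.var 0) (.var 1) (mu b (.var 2) (.var 4)))).eval a = true :=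
    h _ (by simp [assP])
  have h4 : (imp (sel ρ (.var 3) (.var 4)) (sel (!ρ) (.var 3) (.var 4))).eval a = true :=
    h _ (by simp [assP])
  rw [eval_iff] at h1 h2 h3
  rw [eval_imp, eval_sel, eval_sel] at h4
  rw [eval_MM] at h1 h2 h3 ⊢
  rw [eval_MM]
  rw [eval_mu] at h2 h3 ⊢
  simp only [Fm.eval] at h1 h2 h3 h4 ⊢
  rw [h1, h2, h3]
  exact ass_bool π b ρ (a 0) (a 1) (a 2) (a 3) (a 4) (a 5) h4

theorem assR_sound (π b ρ : Bool) : (assR π b ρ).Sound := fun a h =>
  (eval_iff _ _ _).2 (ass_eval π b ρ a h)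

theorem assR'_sound (π b ρ : Bool) : (assR' π b ρ).Sound := fun a h =>
  (eval_iff _ _ _).2 (ass_eval π b ρ a h).symm

/-- All Booleans. -/
def bools : List Bool := [false, true]

theorem mem_bools (b : Bool) : b ∈ bools := by cases b <;> simp [bools]

/-- The rules of the splitting lemma. -/
def balRules : List Rule :=
  reflR :: fftR :: bools.flatMap fun π => bools.flatMap fun b => bools.flatMap fun ρ =>
    [monR π b ρ, assR π b ρ, assR' π b ρ]

theorem mem_balRules (r : Rule) : r ∈ balRules ↔ r = reflR ∨ r = fftR ∨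
    ∃ π b ρ, r = monR π b ρ ∨ r = assR π b ρ ∨ r = assR' π b ρ := by
  simp [balRules, mem_bools]

theorem balRules_sound : ∀ r ∈ balRules, r.Sound := by
  intro r hr
  rcases (mem_balRules r).1 hr with rfl | rfl | ⟨π, b, ρ, rfl | rfl | rfl⟩
  · exact reflR_sound
  · exact fftR_sound
  · exact monR_sound π b ρ
  · exact assR_sound π b ρ
  · exact assR'_sound π b ρ

/-- `Near` is closed under the rule `r` (for formulas of `S`). -/
def Closed (S Near : Fm α → Prop) (r : Rule) : Prop :=
  ∀ θ : Fin r.n → Fm α, (∀ p ∈ r.prem, S (p.subst θ) ∧ Near (p.subst θ)) →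
    S (r.concl.subst θ) → Near (r.concl.subst θ)

section
variable {K : ℕ} {o : α} {S Near : Fm α → Prop} {P : List (Step α)} {x : α}

theorem near_refl (h : Closed S Near reflR) (A : Fm α) (hA : S (iff A A)) : Near (iff A A) :=
  h (fun _ => A) (fun _ hp => absurd hp List.not_mem_nil) hA

theorem near_mon (hr : ∀ r ∈ balRules, Closed S Near r) (hP : GoodPath K o S P x) :
    ∀ (n : ℕ) (m : List (Step α)), m.length ≤ n → m <:+: P → Near (monf K o m) := by
  intro n
  induction n with
  | zero =>
    intro m hm hi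
    have hm0 : m = [] := List.length_eq_zero_iff.1 (Nat.le_zero.1 hm)
    subst hm0
    have h1 := hr fftR ((mem_balRules _).2 (Or.inr (Or.inl rfl))) (fun _ => .var o)
      (fun p hp => absurd hp List.not_mem_nil)
    have h2 : (fftR.concl.subst fun _ => Fm.var o) = monf K o ([] : List (Step α)) := by
      simp only [monf, V_nil]
      rfl
    rw [h2] at h1
    exact h1 (hP.mon _ hi)
  | succ n ih =>
    intro m hm hi
    rcases eq_or_ne m [] with rfl | hne
    · exact ih [] (Nat.zero_le _) hi
    · obtain ⟨p, s, q, hpq, -, -, hV⟩ := exists_split K o m hne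
      have hq : q <:+: m := by
        rw [hpq]
        exact ((List.suffix_cons s q).trans (List.suffix_append p _)).isInfix
      have hlen : q.length ≤ n := by
        rw [hpq] at hm
        simp only [List.length_append, List.length_cons] at hm
        omega
      have h3 := ih q hlen (hq.trans hi)
      have h4 := hP.mon q (hq.trans hi)
      set θ : Fin 5 → Fm α :=
        ![V K o p (ff o), V K o p (tt o), s.h, V K o q (ff o), V K o q (tt o)] with hθ
      have hprem : ∀ φ ∈ [imp (sel (par q) (.var (3 : Fin 5)) (.var 4))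
          (sel (!(par q)) (.var 3) (.var 4))], S (φ.subst θ) ∧ Near (φ.subst θ) := by
        intro φ hφ
        rw [List.mem_singleton.1 hφ, subst_imp, subst_sel, subst_sel]
        exact ⟨h4, h3⟩
      have h1 := hr (monR (par p) s.b (par q)) ((mem_balRules _).2
        (Or.inr (Or.inr ⟨_, _, _, Or.inl rfl⟩))) θ hprem
      have hpar : par m = (par p ^^ (s.b ^^ par q)) := by
        rw [hpq, par_append]
        rfl
      have h5 : ((monR (par p) s.b (par q)).concl.subst θ) = monf K o m := by
        simp only [monf, hV]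
        rw [hpar]
        show (imp _ _).subst _ = _
        rw [subst_imp, subst_sel, subst_sel, subst_MM, subst_MM, subst_mu, subst_mu]
        rfl
      exact (congrArg Near h5).mp (h1 ((congrArg S h5).mpr (hP.mon m hi)))

/-- The step of the splitting lemma: `p₁ = p ++ s :: r`. -/
theorem near_ass (hr : ∀ r ∈ balRules, Closed S Near r) (p : List (Step α)) (s : Step α)
    (r : List (Step α)) (Y Q : Fm α)
    (h1 : S (iff Q (MM (par r) (V K o r (ff o)) (V K o r (tt o)) Y)) ∧
      Near (iff Q (MM (par r) (V K o r (ff o)) (V K o r (tt o)) Y)))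
    (h2 : S (iff (V K o (p ++ s :: r) (ff o)) (spf K o p s r (ff o))) ∧
      Near (iff (V K o (p ++ s :: r) (ff o)) (spf K o p s r (ff o))))
    (h3 : S (iff (V K o (p ++ s :: r) (tt o)) (spf K o p s r (tt o))) ∧
      Near (iff (V K o (p ++ s :: r) (tt o)) (spf K o p s r (tt o))))
    (h4 : S (monf K o r) ∧ Near (monf K o r)) :
    (S (iff (MM (par (p ++ s :: r)) (V K o (p ++ s :: r) (ff o)) (V K o (p ++ s :: r) (tt o)) Y)
        (MM (par p) (V K o p (ff o)) (V K o p (tt o)) (mu s.b s.h Q))) →
      Near (iff (MM (par (p ++ s :: r)) (V K o (p ++ s :: r) (ff o))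
        (V K o (p ++ s :: r) (tt o)) Y)
        (MM (par p) (V K o p (ff o)) (V K o p (tt o)) (mu s.b s.h Q)))) ∧
    (S (iff (MM (par p) (V K o p (ff o)) (V K o p (tt o)) (mu s.b s.h Q))
        (MM (par (p ++ s :: r)) (V K o (p ++ s :: r) (ff o)) (V K o (p ++ s :: r) (tt o)) Y)) →
      Near (iff (MM (par p) (V K o p (ff o)) (V K o p (tt o)) (mu s.b s.h Q))
        (MM (par (p ++ s :: r)) (V K o (p ++ s :: r) (ff o))
        (V K o (p ++ s :: r) (tt o)) Y))) := by
  have hpar : par (p ++ s :: r) = (par p ^^ (s.b ^^ par r)) := by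
    rw [par_append]
    rfl
  rw [hpar]
  set θ : Fin 9 → Fm α := ![V K o p (ff o), V K o p (tt o), s.h, V K o r (ff o), V K o r (tt o),
    Y, Q, V K o (p ++ s :: r) (ff o), V K o (p ++ s :: r) (tt o)] with hθ
  have hprem : ∀ φ ∈ assP (par p) s.b (par r), S (φ.subst θ) ∧ Near (φ.subst θ) := by
    intro φ hφ
    simp only [assP, List.mem_cons, List.not_mem_nil, or_false] at hφ
    rcases hφ with rfl | rfl | rfl | rfl
    · rw [subst_iff, subst_MM]
      exact h1
    · rw [subst_iff, subst_MM, subst_mu]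
      exact h2
    · rw [subst_iff, subst_MM, subst_mu]
      exact h3
    · rw [subst_imp, subst_sel, subst_sel]
      exact h4
  constructor
  · have h5 := hr (assR (par p) s.b (par r)) ((mem_balRules _).2
      (Or.inr (Or.inr ⟨_, _, _, Or.inr (Or.inl rfl)⟩))) θ hprem
    have h6 : (assR (par p) s.b (par r)).concl.subst θ =
        iff (MM (par p ^^ (s.b ^^ par r)) (V K o (p ++ s :: r) (ff o))
        (V K o (p ++ s :: r) (tt o)) Y)
        (MM (par p) (V K o p (ff o)) (V K o p (tt o)) (mu s.b s.h Q)) := by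
      show (iff _ _).subst _ = _
      rw [subst_iff, subst_MM, subst_MM, subst_mu]
      rfl
    exact fun hS => (congrArg Near h6).mp (h5 ((congrArg S h6).mpr hS))
  · have h5 := hr (assR' (par p) s.b (par r)) ((mem_balRules _).2
      (Or.inr (Or.inr ⟨_, _, _, Or.inr (Or.inr rfl)⟩))) θ hprem
    have h6 : (assR' (par p) s.b (par r)).concl.subst θ =
        iff (MM (par p) (V K o p (ff o)) (V K o p (tt o)) (mu s.b s.h Q))
        (MM (par p ^^ (s.b ^^ par r)) (V K o (p ++ s :: r) (ff o))
        (V K o (p ++ s :: r) (tt o)) Y) := by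
      show (iff _ _).subst _ = _
      rw [subst_iff, subst_MM, subst_MM, subst_mu]
      rfl
    exact fun hS => (congrArg Near h6).mp (h5 ((congrArg S h6).mpr hS))

/-- Two decompositions of a list. -/
theorem two_decomp {p p' : List β} {s s' : β} {q q' : List β} (h : p ++ s :: q = p' ++ s' :: q') :
    (p = p' ∧ s = s' ∧ q = q') ∨ (∃ r, p' = p ++ s :: r ∧ q = r ++ s' :: q') ∨
      ∃ r, p = p' ++ s' :: r ∧ q' = r ++ s :: q := by
  rcases List.append_eq_append_iff.1 h with ⟨t, h1, h2⟩ | ⟨t, h1, h2⟩
  · cases t with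
    | nil =>
      simp only [List.nil_append, List.cons.injEq] at h2
      left
      exact ⟨by rw [h1, List.append_nil], h2.1, h2.2⟩
    | cons a t =>
      simp only [List.cons_append, List.cons.injEq] at h2
      right
      left
      exact ⟨t, by rw [h1, h2.1], h2.2⟩
  · cases t with
    | nil =>
      simp only [List.nil_append, List.cons.injEq] at h2
      left
      exact ⟨by rw [h1, List.append_nil], h2.1.symm, h2.2.symm⟩
    | cons a t =>
      simp only [List.cons_append, List.cons.injEq] at h2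
      right
      right
      exact ⟨t, by rw [h1, h2.1], h2.2⟩

/-- **Splitting lemma.** -/
theorem near_split (hr : ∀ r ∈ balRules, Closed S Near r) (hP : GoodPath K o S P x) :
    ∀ (n : ℕ) (m : List (Step α)), m.length ≤ n → m <:+: P → ∀ p s q, m = p ++ s :: q →
      ∀ e, (e = ff o ∨ e = tt o ∨ e = .var x) → Near (iff (V K o m e) (spf K o p s q e)) := by
  intro n
  induction n with
  | zero =>
    intro m hm hi p s q hpq
    rw [hpq] at hm
    simp at hm
  | succ n ih =>
    intro m hm hi p s q hpq e he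
    have hne : m ≠ [] := by
      rw [hpq]
      simp
    obtain ⟨p₁, s₁, q₁, hpq₁, -, -, hV⟩ := exists_split K o m hne
    have hS := hP.split m hi p s q hpq e he
    rw [hV] at hS ⊢
    rcases two_decomp (hpq.symm.trans hpq₁) with ⟨rfl, rfl, rfl⟩ | ⟨r, h1, h2⟩ | ⟨r, h1, h2⟩
    · exact near_refl (hr reflR ((mem_balRules _).2 (Or.inl rfl))) _ hS
    · -- `p₁ = p ++ s :: r`, `q = r ++ s₁ :: q₁`
      have hq : q <:+: P := by
        refine List.IsInfix.trans ?_ hi
        rw [hpq]
        exact ((List.suffix_cons s q).trans (List.suffix_append p _)).isInfix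
      have hp₁ : p₁ <:+: P := by
        refine List.IsInfix.trans ?_ hi
        rw [hpq₁]
        exact (List.prefix_append p₁ _).isInfix
      have hr' : r <:+: P := by
        refine List.IsInfix.trans ?_ hq
        rw [h2]
        exact (List.prefix_append r _).isInfix
      have hlm := congrArg List.length hpq
      have hlm₁ := congrArg List.length hpq₁
      simp only [List.length_append, List.length_cons] at hlm hlm₁
      have hlr := congrArg List.length h1
      simp only [List.length_append, List.length_cons] at hlr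
      subst h1
      refine (near_ass hr p s r (mu s₁.b s₁.h (V K o q₁ e)) (V K o q e) ?_ ?_ ?_ ?_).1 hS
      · exact ⟨hP.split q hq r s₁ q₁ h2 e he, ih q (by omega) hq r s₁ q₁ h2 e he⟩
      · exact ⟨hP.split _ hp₁ p s r rfl _ (Or.inl rfl),
          ih _ (by omega) hp₁ p s r rfl _ (Or.inl rfl)⟩
      · exact ⟨hP.split _ hp₁ p s r rfl _ (Or.inr (Or.inl rfl)),
          ih _ (by omega) hp₁ p s r rfl _ (Or.inr (Or.inl rfl))⟩
      · exact ⟨hP.mon r hr', near_mon hr hP r.length r le_rfl hr'⟩
    · -- `p = p₁ ++ s₁ :: r`, `q₁ = r ++ s :: q`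
      have hq₁ : q₁ <:+: P := by
        refine List.IsInfix.trans ?_ hi
        rw [hpq₁]
        exact ((List.suffix_cons s₁ q₁).trans (List.suffix_append p₁ _)).isInfix
      have hp : p <:+: P := by
        refine List.IsInfix.trans ?_ hi
        rw [hpq]
        exact (List.prefix_append p _).isInfix
      have hr' : r <:+: P := by
        refine List.IsInfix.trans ?_ hq₁
        rw [h2]
        exact (List.prefix_append r _).isInfix
      have hlm := congrArg List.length hpq
      have hlm₁ := congrArg List.length hpq₁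
      simp only [List.length_append, List.length_cons] at hlm hlm₁
      have hlr := congrArg List.length h1
      simp only [List.length_append, List.length_cons] at hlr
      subst h1
      refine (near_ass hr p₁ s₁ r (mu s.b s.h (V K o q e)) (V K o q₁ e) ?_ ?_ ?_ ?_).2 hS
      · exact ⟨hP.split q₁ hq₁ r s q h2 e he, ih q₁ (by omega) hq₁ r s q h2 e he⟩
      · exact ⟨hP.split _ hp p₁ s₁ r rfl _ (Or.inl rfl),
          ih _ (by omega) hp p₁ s₁ r rfl _ (Or.inl rfl)⟩
      · exact ⟨hP.split _ hp p₁ s₁ r rfl _ (Or.inr (Or.inl rfl)),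
          ih _ (by omega) hp p₁ s₁ r rfl _ (Or.inr (Or.inl rfl))⟩
      · exact ⟨hP.mon r hr', near_mon hr hP r.length r le_rfl hr'⟩

end

end Bal

end Pool.Agent.EFT
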