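import Pool.Agent.Lib.EFT.BalSplit

/-!
# Balancing formulas: the values of the balanced formulas

If `F` is a valuation on the auxiliary formulas, then `f ↦ F (bal f)` is a valuation on the
original formulas.
-/

set_option autoImplicit false

open Finset

namespace Pool.Agent.EFT

section
variable {V : Type*} [AddCommGroup V] [Module ℝ V] {G : TAlg V} {β : Type*}
  {Sub : Fm β → Prop} {F : Fm β → V} {d M : ℕ} {B I : ℝ}

/-- Two formulas which are equivalent when `p` holds have close values when `p` is close to one. -/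
theorem Val.eqv (hV : Val G Sub F d M B I) {n : ℕ} (p c₁ c₂ : Fm (Fin n))
    (hs : ∀ a : Fin n → Bool, p.eval a = true → c₁.eval a = c₂.eval a)
    (hM : (n + 4) * d ≤ M) (θ : Fin n → Fm β) (hθ : ∀ i, Sub (θ i))
    (hp : Sub (p.subst θ)) (hp2 : G.nm (G.one - F (p.subst θ)) ≤ 2 * I)
    (h₁ : Sub (c₁.subst θ)) (h₂ : Sub (c₂.subst θ)) :
    G.nm (F (c₁.subst θ) - F (c₂.subst θ)) ≤
      2 ^ n * (c₁.cst n + c₂.cst n + 4 * (2 * 3 ^ n + p.cst n)) * (B + I) := by
  have hB := hV.Bpos
  have hI := hV.Ipos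
  have hMR := hV.M_le
  have e0 : (n + 4) * d = n * d + d + d + d + d := by ring
  set y := F (c₁.subst θ) - F (c₂.subst θ) with hy
  have hEm : ∀ a, G.atom n (fun i => F (θ i)) a ∈ G.Low (n * d) :=
    fun a => TAlg.atom_mem n _ _ (fun i => hV.mem _ (hθ i))
  have c1 := c₁.cst_nonneg n
  have c2 := c₂.cst_nonneg n
  have cp := p.cst_nonneg n
  have c3 : (0 : ℝ) < 3 ^ n := by positivity
  have hBI : 0 ≤ B + I := by linarith
  have hone : ∀ a : Fin n → Bool, G.nm (G.mul y (G.atom n (fun i => F (θ i)) a)) ≤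
      (c₁.cst n + c₂.cst n + 4 * (2 * 3 ^ n + p.cst n)) * (B + I) := by
    intro a
    set E := G.atom n (fun i => F (θ i)) a with hE
    have hyE : G.mul y E = G.mul (F (c₁.subst θ)) E - G.mul (F (c₂.subst θ)) E := by
      rw [hy, map_sub, LinearMap.sub_apply]
    by_cases hev : p.eval a = true
    · have i1 := hV.inst n hM θ hθ a c₁ h₁
      have i2 := hV.inst n hM θ hθ a c₂ h₂
      rw [← hE] at i1 i2
      rw [← hs a hev] at i2
      have e1 : G.mul y E = (G.mul (F (c₁.subst θ)) E - bv (c₁.eval a) • E) -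
          (G.mul (F (c₂.subst θ)) E - bv (c₁.eval a) • E) := by
        rw [hyE]
        abel
      have h3 := G.nm_sub (G.mul (F (c₁.subst θ)) E - bv (c₁.eval a) • E)
        (G.mul (F (c₂.subst θ)) E - bv (c₁.eval a) • E)
      rw [← e1] at h3
      have h4 : 0 ≤ 4 * (2 * 3 ^ n + p.cst n) * (B + I) := by positivity
      have h5 : (c₁.cst n + c₂.cst n + 4 * (2 * 3 ^ n + p.cst n)) * (B + I) =
          c₁.cst n * (B + I) + c₂.cst n * (B + I) + 4 * (2 * 3 ^ n + p.cst n) * (B + I) := by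
        ring
      linarith
    · have h2 := hV.inst n hM θ hθ a p hp
      rw [← hE, Bool.eq_false_iff.mpr hev, bv_false, zero_smul, sub_zero] at h2
      set w := G.one - F (p.subst θ) with hw
      have hwm : w ∈ G.Low d := Submodule.sub_mem _ (G.one_mem' d) (hV.mem _ hp)
      have h3 : G.nm (G.mul w E) ≤ 3 ^ n * (2 * I) := by
        rw [G.comm w E]
        have h4 := atom_bound (G := G) (d := d) (M := M) n (fun i => F (θ i)) a d w
          (fun i => hV.mem _ (hθ i)) (fun i => hV.lam _ (hθ i)) hwm (by omega) hMR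
        exact h4.trans (mul_le_mul_of_nonneg_left hp2 c3.le)
      have h5 : G.nm E ≤ 3 ^ n * (2 * I) + p.cst n * (B + I) := by
        have e : E = G.mul w E + G.mul (F (p.subst θ)) E := by
          rw [hw, map_sub, LinearMap.sub_apply, G.one_mul]; abel
        have h6 := G.nm_add (G.mul w E) (G.mul (F (p.subst θ)) E)
        rw [← e] at h6
        linarith
      have h7 : G.nm (G.mul y E) ≤ 4 * G.nm E := by
        have h8 := hV.lam _ h₁ E (G.low_mono (by omega) (hEm a))
        have h8' := hV.lam _ h₂ E (G.low_mono (by omega) (hEm a))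
        have h9 := G.nm_sub (G.mul (F (c₁.subst θ)) E) (G.mul (F (c₂.subst θ)) E)
        rw [← hyE] at h9
        linarith
      have h12 : 3 ^ n * (2 * I) ≤ 2 * 3 ^ n * (B + I) := by nlinarith
      have h13 : 0 ≤ c₁.cst n * (B + I) := mul_nonneg c1 hBI
      have h14 : 0 ≤ c₂.cst n * (B + I) := mul_nonneg c2 hBI
      calc G.nm (G.mul y E) ≤ 4 * G.nm E := h7
        _ ≤ 4 * (2 * 3 ^ n * (B + I) + p.cst n * (B + I)) := by linarith
        _ ≤ _ := by nlinarith
  have h1 : y = ∑ a : Fin n → Bool, G.mul y (G.atom n (fun i => F (θ i)) a) := by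
    rw [← map_sum, TAlg.sum_atom, G.mul_one]
  calc G.nm y = G.nm (∑ a : Fin n → Bool, G.mul y (G.atom n (fun i => F (θ i)) a)) := by
        rw [← h1]
    _ ≤ ∑ a : Fin n → Bool, G.nm (G.mul y (G.atom n (fun i => F (θ i)) a)) := G.nm_sum _ _
    _ ≤ ∑ _a : Fin n → Bool, (c₁.cst n + c₂.cst n + 4 * (2 * 3 ^ n + p.cst n)) * (B + I) :=
        sum_le_sum (fun a _ => hone a)
    _ = _ := by
        rw [sum_const, card_univ, Fintype.card_fun, Fintype.card_bool, Fintype.card_fin]
        simp only [nsmul_eq_mul, Nat.cast_pow, Nat.cast_ofNat]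
        ring

end

namespace Bal

/-- The premise of the last step: `X ↔ (false ∨ (true ∧ (Y ∧ Z)))`; variables `X o Y Z`. -/
def endP : Fm (Fin 4) :=
  iff (.var 0) (MM false (ff 1) (tt 1) (.and (.var 2) (.var 3)))

/-- `Y ∧ Z` -/
def endC : Fm (Fin 4) := .and (.var 2) (.var 3)

theorem end_sound (a : Fin 4 → Bool) (h : endP.eval a = true) :
    (Fm.var 0 : Fm (Fin 4)).eval a = endC.eval a := by
  unfold endP at h
  rw [eval_iff, eval_MM] at h
  unfold endC
  simp only [Fm.eval, ff, tt] at h ⊢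
  rw [h]
  cases a 1 <;> simp

/-- The bound of the rules of the splitting lemma. -/
noncomputable def balC : ℝ := (balRules.map fun r => r.cst).sum

theorem balC_nonneg : 0 ≤ balC := list_sum_nonneg' _ _ fun r => r.cst_nonneg

theorem le_balC (r : Rule) (hr : r ∈ balRules) : r.cst ≤ balC :=
  list_le_sum balRules (fun r => r.cst) (fun r => r.cst_nonneg) r hr

/-- The constant of the conjunctions of balanced formulas. -/
noncomputable def balB : ℝ :=
  2 ^ 4 * ((Fm.var 0 : Fm (Fin 4)).cst 4 + endC.cst 4 + 4 * (2 * 3 ^ 4 + endP.cst 4)) + 1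

theorem balB_nonneg : 0 ≤ balB := by
  have h1 := (Fm.var 0 : Fm (Fin 4)).cst_nonneg 4
  have h2 := endC.cst_nonneg 4
  have h3 := endP.cst_nonneg 4
  unfold balB
  positivity

theorem balRules_n (r : Rule) (hr : r ∈ balRules) : r.n ≤ 9 := by
  rcases (mem_balRules r).1 hr with rfl | rfl | ⟨π, b, ρ, rfl | rfl | rfl⟩
  · show 1 ≤ 9
    norm_num
  · show 1 ≤ 9
    norm_num
  · show 5 ≤ 9
    norm_num
  · exact le_refl 9
  · exact le_refl 9

section
variable {V : Type*} [AddCommGroup V] [Module ℝ V] {T : TAlg V} {α : Type*}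
  {Sub : Fm α → Prop} {F : Fm α → V} {d Mv : ℕ} {B I : ℝ}

theorem closed_of_val (hV : Val T Sub F d Mv B I) (hM : 13 * d ≤ Mv)
    (hs : T.A d * (balC * (B + I)) ≤ 1 / 2) (r : Rule) (hr : r ∈ balRules) :
    Closed Sub (fun f => T.nm (T.one - F f) ≤ 2 * I) r := by
  intro θ hp hc
  refine hV.rule r (balRules_sound r hr) ?_ ?_ θ hp hc
  · refine le_trans (Nat.mul_le_mul_right _ ?_) hM
    have := balRules_n r hr
    omega
  · refine le_trans (mul_le_mul_of_nonneg_left ?_ (T.A_nonneg d)) hs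
    exact mul_le_mul_of_nonneg_right (le_balC r hr) (add_nonneg hV.Bpos hV.Ipos)

/-- The conjunction step. -/
theorem near_and (hV : Val T Sub F d Mv B I) (hM : 13 * d ≤ Mv)
    (hs : T.A d * (balC * (B + I)) ≤ 1 / 2) (K : ℕ) (o : α) (Z : Fm α) (b : Bool) (w : ℕ)
    (q : List (Step α)) (x : α)
    (hP : GoodPath K o Sub (⟨Z, b, w⟩ :: q) x) :
    T.nm (T.mul (F (xr b (Bal.V K o q (.var x)))) (F Z) -
      F (Bal.V K o (⟨Z, b, w⟩ :: q) (.var x))) ≤ balB * (B + I) := by
  have hr := closed_of_val hV hM hs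
  have hi : (⟨Z, b, w⟩ :: q) <:+: (⟨Z, b, w⟩ :: q) := List.infix_refl _
  have h1 := near_split hr hP _ _ le_rfl hi [] ⟨Z, b, w⟩ q rfl (.var x) (Or.inr (Or.inr rfl))
  have h2 := hP.split _ hi [] ⟨Z, b, w⟩ q rfl (.var x) (Or.inr (Or.inr rfl))
  have e1 : spf K o [] ⟨Z, b, w⟩ q (.var x) =
      MM false (ff o) (tt o) (.and (xr b (Bal.V K o q (.var x))) Z) := by
    unfold spf
    rw [V_nil, V_nil]
    rfl
  rw [e1] at h1 h2
  set X := Bal.V K o (⟨Z, b, w⟩ :: q) (.var x) with hX
  set Y := xr b (Bal.V K o q (.var x)) with hY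
  set θ : Fin 4 → Fm α := ![X, .var o, Y, Z] with hθ
  have e2 : endP.subst θ = iff X (MM false (ff o) (tt o) (.and Y Z)) := by
    unfold endP
    rw [subst_iff, subst_MM]
    rfl
  rw [← e2] at h1 h2
  have hc : Sub (iff X (MM false (ff o) (tt o) (.and Y Z))) := by
    rw [← e2]
    exact h2
  -- subformulas
  have s1 : Sub (imp X (MM false (ff o) (tt o) (.and Y Z))) := hV.sub.left _ _ hc
  have s2 : Sub (.and X (.neg (MM false (ff o) (tt o) (.and Y Z)))) := hV.sub.neg _ s1
  have sX : Sub X := hV.sub.left _ _ s2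
  have s3 : Sub (MM false (ff o) (tt o) (.and Y Z)) := hV.sub.neg _ (hV.sub.right _ _ s2)
  have s4 : Sub (.and (.neg (ff o)) (.neg (.and (tt o) (.and Y Z)))) := hV.sub.neg _ s3
  have s5 : Sub (.and (tt o) (.and Y Z)) := hV.sub.neg _ (hV.sub.right _ _ s4)
  have s6 : Sub (.and Y Z) := hV.sub.right _ _ s5
  have sY : Sub Y := hV.sub.left _ _ s6
  have sZ : Sub Z := hV.sub.right _ _ s6
  have so : Sub (.var o) := hV.sub.left _ _ (hV.sub.neg _ (hV.sub.left _ _ s4))
  have hθS : ∀ i, Sub (θ i) := by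
    intro i
    fin_cases i
    · exact sX
    · exact so
    · exact sY
    · exact sZ
  have h3 := hV.eqv endP (.var 0) endC end_sound (by omega) θ hθS h2 h1 sX s6
  have h4 := hV.and _ _ s6
  have e3 : (Fm.var 0 : Fm (Fin 4)).subst θ = X := rfl
  have e4 : endC.subst θ = .and Y Z := rfl
  rw [e3, e4] at h3
  have h5 := T.nm_sub (T.mul (F Y) (F Z) - F (.and Y Z)) (F X - F (.and Y Z))
  have e5 : T.mul (F Y) (F Z) - F (.and Y Z) - (F X - F (.and Y Z)) =
      T.mul (F Y) (F Z) - F X := by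
    abel
  rw [e5] at h5
  have hI := hV.Ipos
  have e6 : balB * (B + I) = 2 ^ 4 * ((Fm.var 0 : Fm (Fin 4)).cst 4 + endC.cst 4 +
      4 * (2 * 3 ^ 4 + endP.cst 4)) * (B + I) + (B + I) := by
    unfold balB
    ring
  rw [e6]
  linarith

/-- **The values of the balanced formulas** are a valuation. -/
theorem val_bal (hV : Val T Sub F d Mv B I) (K : ℕ) (o : α) (hM : 13 * d ≤ Mv)
    (hs : T.A d * (balC * (B + I)) ≤ 1 / 2) {S0 : Fm α → Prop}
    (hS0 : ∀ f g, S0 f → f.Sub g → S0 g)
    (hg : ∀ f, S0 f → Sub (.neg (Bal.V K o (rep K o f).2.1 (.var (rep K o f).2.2))) ∧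
      GoodPath K o Sub (rep K o f).2.1 (rep K o f).2.2) :
    Val T S0 (fun f => F (bal K o f)) d Mv (balB * (B + I)) I := by
  have hbal : ∀ f, S0 f → Sub (bal K o f) := by
    intro f hf
    have h1 := (hg f hf).1
    unfold bal
    cases (rep K o f).1
    · exact hV.sub.neg _ h1
    · exact h1
  refine ⟨SubClosed.of_sub hS0, fun f hf => hV.mem _ (hbal f hf), ?_, ?_,
    fun f hf => hV.idem _ (hbal f hf), fun f hf => hV.lam _ (hbal f hf), hV.M_le,
    mul_nonneg balB_nonneg (add_nonneg hV.Bpos hV.Ipos), hV.Ipos⟩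
  · intro f hf
    have h1 := hbal _ hf
    have h2 := hbal f (hS0 _ _ hf (Or.inr (Fm.Sub.refl f)))
    rcases bal_neg K o f with h | h
    · show F (bal K o f.neg) = _
      rw [h] at h1 ⊢
      exact hV.neg _ h1
    · show F (bal K o f.neg) = T.one - F (bal K o f)
      rw [h] at h2 ⊢
      rw [hV.neg _ h2, sub_sub_cancel]
  · intro f g hf
    have h1 := (hg _ hf).2
    show T.nm (T.mul (F (bal K o f)) (F (bal K o g)) - F (bal K o (.and f g))) ≤ _
    rcases Nat.lt_or_ge f.lv g.lv with h | h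
    · have e := rep_and_of_lt K o h
      have e2 : bal K o (.and f g) = Bal.V K o (⟨bal K o f, (rep K o g).1, f.lv⟩ ::
          (rep K o g).2.1) (.var (rep K o g).2.2) := by
        unfold bal
        rw [e]
        rfl
      rw [e] at h1
      rw [e2, T.comm]
      exact near_and hV hM hs K o _ _ _ _ _ h1
    · have e := rep_and_of_le K o h
      have e2 : bal K o (.and f g) = Bal.V K o (⟨bal K o g, (rep K o f).1, g.lv⟩ ::
          (rep K o f).2.1) (.var (rep K o f).2.2) := by
        unfold bal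
        rw [e]
        rfl
      rw [e] at h1
      rw [e2]
      exact near_and hV hM hs K o _ _ _ _ _ h1

end

end Bal

end Pool.Agent.EFT
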