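import Pool.Agent.Lib.EFT.Def

/-! Cube-connected cycles: the multigraph, its degrees, its path system. -/

namespace Pool.Agent.EFT

namespace CCC

open Finset

theorem two_val (x : ZMod 2) : x = 0 ∨ x = 1 := by
  revert x; decide

theorem add_self2 (x : ZMod 2) : x + x = 0 := by
  revert x; decide

theorem flip_flip {k : ℕ} (v : V k) : flip (flip v) = v := by
  unfold flip
  ext j
  · simp only [Pi.add_apply]
    rw [add_assoc, add_self2, add_zero]
  · rfl

theorem flip_bit {k : ℕ} (v : V k) : (flip v).1 (flip v).2 = v.1 v.2 + 1 := by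
  simp [flip]

theorem flip_ne {k : ℕ} (v : V k) : flip v ≠ v := by
  intro h
  have := flip_bit v
  rw [h] at this
  simp at this

/-- the cross edge at a vertex -/
def eX {k : ℕ} (v : V k) : E k :=
  if h : v.1 v.2 = 0 then .inr ⟨v, h⟩ else .inr ⟨flip v, by
    rcases two_val (v.1 v.2) with h0 | h1
    · exact absurd h0 h
    · rw [flip_bit, h1]; decide⟩

theorem eX_flip {k : ℕ} (v : V k) : eX (flip v) = eX v := by
  unfold eX
  rcases two_val (v.1 v.2) with h0 | h1
  · have h2 : ¬ (flip v).1 (flip v).2 = 0 := by rw [flip_bit, h0]; decide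
    rw [dif_neg h2, dif_pos h0]
    congr 1
    ext1
    exact flip_flip v
  · have h2 : (flip v).1 (flip v).2 = 0 := by rw [flip_bit, h1]; decide
    have h3 : ¬ v.1 v.2 = 0 := by rw [h1]; decide
    rw [dif_pos h2, dif_neg h3]

theorem eX_eq_inr {k : ℕ} {v : V k} {u : {v : V k // v.1 v.2 = 0}} :
    eX v = Sum.inr u ↔ v = u.1 ∨ v = flip u.1 := by
  constructor
  · intro h
    unfold eX at h
    by_cases h0 : v.1 v.2 = 0
    · rw [dif_pos h0] at h
      left
      exact congrArg Subtype.val (Sum.inr.inj h)
    · rw [dif_neg h0] at h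
      right
      have := congrArg Subtype.val (Sum.inr.inj h)
      rw [← this]
      exact (flip_flip v).symm
  · rintro (h | h)
    · rw [h]; unfold eX; rw [dif_pos u.2]
    · rw [h, eX_flip]; unfold eX; rw [dif_pos u.2]

theorem eX_ne_inl {k : ℕ} (v u : V k) : eX v ≠ Sum.inl u := by
  unfold eX
  split_ifs <;> simp

section
variable {k : ℕ} [NeZero k]

/-- the boundary of an edge vector -/
def bd (x : E k → ZMod 2) : V k → ZMod 2 :=
  fun v => ∑ e, x e * ((if src e = v then 1 else 0) + (if tgt e = v then 1 else 0))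

theorem bd_add (x y : E k → ZMod 2) : bd (x + y) = bd x + bd y := by
  ext v
  simp [bd, add_mul, sum_add_distrib]

theorem bd_zero : bd (0 : E k → ZMod 2) = 0 := by
  ext v; simp [bd]

theorem bd_sum {ι : Type*} (s : Finset ι) (f : ι → E k → ZMod 2) :
    bd (∑ i ∈ s, f i) = ∑ i ∈ s, bd (f i) := by
  classical
  induction s using Finset.induction_on with
  | empty => simp [bd_zero]
  | insert a s ha ih => rw [sum_insert ha, sum_insert ha, bd_add, ih]

/-- indicator of a vertex -/
def pt (v : V k) : V k → ZMod 2 := Pi.single v 1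

/-- indicator of an edge -/
def ed (e : E k) : E k → ZMod 2 := Pi.single e 1

theorem bd_ed (e : E k) : bd (ed e) = pt (src e) + pt (tgt e) := by
  ext v
  unfold bd ed pt
  rw [Finset.sum_eq_single e]
  · simp [Pi.single_apply, eq_comm]
  · intro f _ hf
    simp [hf]
  · intro h; exact absurd (mem_univ _) h

theorem pt_add_self (v : V k) : pt v + pt v = 0 := by
  ext u; exact add_self2 _

theorem bd_inl (v : V k) : bd (ed (Sum.inl v : E k)) = pt v + pt (nxt v) := by
  rw [bd_ed]; rfl

theorem bd_eX (v : V k) : bd (ed (eX v)) = pt v + pt (flip v) := by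
  rw [bd_ed]
  unfold eX
  split_ifs with h
  · rfl
  · simp only [src, tgt]
    rw [flip_flip, add_comm]

/-- after `t` rounds: the bits `i, ..., i+t-1` are those of `w'`. -/
def mix (w w' : ZMod k → ZMod 2) (i : ZMod k) (t : ℕ) : ZMod k → ZMod 2 :=
  fun j => if (j - i).val < t then w' j else w j

theorem mix_zero (w w' : ZMod k → ZMod 2) (i : ZMod k) : mix w w' i 0 = w := by
  ext j; simp [mix]

theorem mix_k (w w' : ZMod k → ZMod 2) (i : ZMod k) : mix w w' i k = w' := by
  ext j; simp [mix, ZMod.val_lt]

theorem mix_at (w w' : ZMod k → ZMod 2) (i : ZMod k) {t : ℕ} (ht : t < k) :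
    mix w w' i t (i + t) = w (i + t) := by
  unfold mix
  have : (i + (t : ZMod k) - i).val = t := by
    rw [add_sub_cancel_left, ZMod.val_natCast_of_lt ht]
  rw [this, if_neg (lt_irrefl t)]

theorem mix_succ (w w' : ZMod k → ZMod 2) (i : ZMod k) {t : ℕ} (ht : t < k) :
    mix w w' i (t + 1) = mix w w' i t + Pi.single (i + t) (w (i + t) + w' (i + t)) := by
  ext j
  rw [Pi.add_apply]
  by_cases hj : j = i + t
  · subst hj
    rw [mix_at w w' i ht]
    have : (i + (t : ZMod k) - i).val = t := by
      rw [add_sub_cancel_left, ZMod.val_natCast_of_lt ht]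
    simp only [mix, this, Pi.single_eq_same]
    rw [if_pos (Nat.lt_succ_self t), ← add_assoc, add_self2, zero_add]
  · rw [Pi.single_eq_of_ne hj, add_zero]
    have hne : (j - i).val ≠ t := by
      intro h
      apply hj
      have h2 : ((j - i).val : ZMod k) = j - i := ZMod.natCast_zmod_val _
      rw [h] at h2
      rw [h2]; ring
    unfold mix
    by_cases h1 : (j - i).val < t
    · rw [if_pos h1, if_pos (by omega)]
    · rw [if_neg h1, if_neg (by omega)]

/-- the position before round `t` -/
def st (w w' : ZMod k → ZMod 2) (i : ZMod k) (t : ℕ) : V k := (mix w w' i t, i + t)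

/-- the edges of round `t` -/
def rnd (w w' : ZMod k → ZMod 2) (i : ZMod k) (t : ℕ) : E k → ZMod 2 :=
  (if w (i + t) = w' (i + t) then 0 else ed (eX (st w w' i t))) +
    ed (Sum.inl (mix w w' i (t + 1), i + t))

theorem bd_rnd (w w' : ZMod k → ZMod 2) (i : ZMod k) {t : ℕ} (ht : t < k) :
    bd (rnd w w' i t) = pt (st w w' i t) + pt (st w w' i (t + 1)) := by
  unfold rnd
  rw [bd_add, bd_inl]
  have hn : nxt ((mix w w' i (t + 1), i + t) : V k) = st w w' i (t + 1) := by
    unfold nxt st
    simp [add_assoc]
  rw [hn]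
  by_cases h : w (i + t) = w' (i + t)
  · rw [if_pos h, bd_zero, zero_add]
    have : ((mix w w' i (t + 1), i + t) : V k) = st w w' i t := by
      unfold st
      rw [mix_succ w w' i ht, h, add_self2, Pi.single_zero, add_zero]
    rw [this]
  · rw [if_neg h, bd_eX]
    have h1 : w (i + t) + w' (i + t) = 1 := by
      rcases two_val (w (i + t)) with h0 | h0 <;> rcases two_val (w' (i + t)) with h1 | h1
      · exact absurd (h0.trans h1.symm) h
      · rw [h0, h1]; decide
      · rw [h0, h1]; decide
      · exact absurd (h0.trans h1.symm) h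
    have : ((mix w w' i (t + 1), i + t) : V k) = flip (st w w' i t) := by
      unfold st flip
      rw [mix_succ w w' i ht, h1]
    rw [this]
    have h3 := pt_add_self (flip (st w w' i t))
    calc pt (st w w' i t) + pt (flip (st w w' i t)) +
          (pt (flip (st w w' i t)) + pt (st w w' i (t + 1)))
        = pt (st w w' i t) + (pt (flip (st w w' i t)) + pt (flip (st w w' i t))) +
          pt (st w w' i (t + 1)) := by abel
      _ = _ := by rw [h3, add_zero]

theorem telesc (f : ℕ → V k → ZMod 2) (m : ℕ) :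
    ∑ t ∈ range m, (f t + f (t + 1)) = f 0 + f m := by
  induction m with
  | zero =>
    rw [sum_range_zero]
    ext v; exact (add_self2 _).symm
  | succ m ih =>
    rw [sum_range_succ, ih]
    have : f m + f m = 0 := by ext v; exact add_self2 _
    calc f 0 + f m + (f m + f (m + 1)) = f 0 + (f m + f m) + f (m + 1) := by abel
      _ = _ := by rw [this, add_zero]

/-- the path system -/
def X (a b : V k) : E k → ZMod 2 :=
  ∑ t ∈ range k, rnd a.1 b.1 a.2 t +
    ∑ s ∈ range (b.2 - a.2).val, ed (Sum.inl (b.1, a.2 + s))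

theorem bd_X (a b : V k) : bd (X a b) = pt a + pt b := by
  unfold X
  rw [bd_add, bd_sum, bd_sum]
  have h1 : ∑ t ∈ range k, bd (rnd a.1 b.1 a.2 t) = pt a + pt ((b.1, a.2) : V k) := by
    rw [sum_congr rfl (fun t ht => bd_rnd a.1 b.1 a.2 (mem_range.1 ht))]
    rw [telesc (fun t => pt (st a.1 b.1 a.2 t))]
    simp only [st, mix_zero, mix_k, Nat.cast_zero, add_zero, CharP.cast_eq_zero]
  have h2 : ∑ s ∈ range (b.2 - a.2).val, bd (ed (Sum.inl (b.1, a.2 + s) : E k)) =
      pt ((b.1, a.2) : V k) + pt b := by
    have : ∀ s ∈ range (b.2 - a.2).val, bd (ed (Sum.inl (b.1, a.2 + s) : E k)) =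
        pt ((b.1, a.2 + (s : ZMod k)) : V k) + pt ((b.1, a.2 + ((s + 1 : ℕ) : ZMod k)) : V k) := by
      intro s _
      rw [bd_inl]
      unfold nxt
      simp [add_assoc]
    rw [sum_congr rfl this, telesc (fun s => pt ((b.1, a.2 + (s : ZMod k)) : V k))]
    simp
  rw [h1, h2]
  have h3 := pt_add_self ((b.1, a.2) : V k)
  calc pt a + pt ((b.1, a.2) : V k) + (pt ((b.1, a.2) : V k) + pt b)
      = pt a + (pt ((b.1, a.2) : V k) + pt ((b.1, a.2) : V k)) + pt b := by abel
    _ = _ := by rw [h3, add_zero]

/-- fixed round `t`, prescribed position: at most `card V` pairs. -/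
theorem card_round (t t' : ℕ) (u : V k) :
    #{p : V k × V k | (mix p.1.1 p.2.1 p.1.2 t, p.1.2 + (t' : ZMod k)) = u} ≤
      Fintype.card (V k) := by
  classical
  rw [← Finset.card_univ]
  apply Finset.card_le_card_of_injOn
    (fun p : V k × V k => ((mix p.2.1 p.1.1 p.1.2 t, p.2.2) : V k))
  · intro p _; simp
  · rintro ⟨⟨w, i⟩, ⟨w', j⟩⟩ hp ⟨⟨x, i'⟩, ⟨x', j'⟩⟩ hq h
    simp only [coe_filter, mem_univ, true_and, Set.mem_ofPred_eq] at hp hq h
    have hi : i = i' := by
      have h1 := congrArg Prod.snd hp
      have h2 := congrArg Prod.snd hq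
      simp only at h1 h2
      exact add_right_cancel (h1.trans h2.symm)
    subst hi
    have h1 : mix w w' i t = mix x x' i t :=
      (congrArg Prod.fst hp).trans (congrArg Prod.fst hq).symm
    have h2 : mix w' w i t = mix x' x i t := congrArg Prod.fst h
    have h3 : j = j' := congrArg Prod.snd h
    subst h3
    have hw : w = x := by
      ext l
      have e1 := congrFun h1 l
      have e2 := congrFun h2 l
      unfold mix at e1 e2
      by_cases hl : (l - i).val < t
      · rw [if_pos hl, if_pos hl] at e2; exact e2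
      · rw [if_neg hl, if_neg hl] at e1; exact e1
    have hw' : w' = x' := by
      ext l
      have e1 := congrFun h1 l
      have e2 := congrFun h2 l
      unfold mix at e1 e2
      by_cases hl : (l - i).val < t
      · rw [if_pos hl, if_pos hl] at e1; exact e1
      · rw [if_neg hl, if_neg hl] at e2; exact e2
    rw [hw, hw']

/-- last phase, step `s`: at most `card V` pairs. -/
theorem card_last (s : ℕ) (u : V k) :
    #{p : V k × V k | ((p.2.1, p.1.2 + (s : ZMod k)) : V k) = u} ≤ Fintype.card (V k) := by
  classical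
  rw [← Finset.card_univ]
  apply Finset.card_le_card_of_injOn (fun p : V k × V k => ((p.1.1, p.2.2) : V k))
  · intro p _; simp
  · rintro ⟨⟨w, i⟩, ⟨w', j⟩⟩ hp ⟨⟨x, i'⟩, ⟨x', j'⟩⟩ hq h
    simp only [coe_filter, mem_univ, true_and, Set.mem_ofPred_eq] at hp hq h
    have e1 := congrArg Prod.fst hp
    have e2 := congrArg Prod.fst hq
    have e3 := congrArg Prod.snd hp
    have e4 := congrArg Prod.snd hq
    have e5 := congrArg Prod.fst h
    have e6 := congrArg Prod.snd h
    simp only at e1 e2 e3 e4 e5 e6
    have hi : i = i' := add_right_cancel (e3.trans e4.symm)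
    rw [hi, e1, e2, e5, e6]

theorem ne_zero_of_sum {ι : Type*} (s : Finset ι) (f : ι → ZMod 2) (h : ∑ i ∈ s, f i ≠ 0) :
    ∃ i ∈ s, f i ≠ 0 := by
  by_contra hc
  push Not at hc
  exact h (sum_eq_zero hc)

theorem X_ne_zero_inl (a b : V k) (u : V k) (h : X a b (Sum.inl u) ≠ 0) :
    (∃ t ∈ range k, ((mix a.1 b.1 a.2 (t + 1), a.2 + (t : ZMod k)) : V k) = u) ∨
      (∃ s ∈ range k, ((b.1, a.2 + (s : ZMod k)) : V k) = u) := by
  unfold X at h
  rw [Pi.add_apply, Finset.sum_apply, Finset.sum_apply] at h
  by_cases h1 : ∑ t ∈ range k, rnd a.1 b.1 a.2 t (Sum.inl u) = 0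
  · rw [h1, zero_add] at h
    obtain ⟨s, hs, h2⟩ := ne_zero_of_sum _ _ h
    right
    refine ⟨s, mem_range.2 ((mem_range.1 hs).trans (ZMod.val_lt _)), ?_⟩
    by_contra hne
    apply h2
    unfold ed
    rw [Pi.single_eq_of_ne]
    intro hh
    exact hne (Sum.inl.inj hh).symm
  · obtain ⟨t, ht, h2⟩ := ne_zero_of_sum _ _ h1
    left
    refine ⟨t, ht, ?_⟩
    by_contra hne
    apply h2
    unfold rnd
    rw [Pi.add_apply]
    have e1 : ed (Sum.inl (mix a.1 b.1 a.2 (t + 1), a.2 + (t : ZMod k)) : E k) (Sum.inl u) = 0 := by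
      unfold ed
      rw [Pi.single_eq_of_ne]
      intro hh
      exact hne (Sum.inl.inj hh).symm
    rw [e1, add_zero]
    split_ifs
    · rfl
    · unfold ed
      rw [Pi.single_eq_of_ne]
      exact (eX_ne_inl _ _).symm

theorem X_ne_zero_inr (a b : V k) (u : {v : V k // v.1 v.2 = 0}) (h : X a b (Sum.inr u) ≠ 0) :
    (∃ t ∈ range k, ((mix a.1 b.1 a.2 t, a.2 + (t : ZMod k)) : V k) = u.1) ∨
      (∃ t ∈ range k, ((mix a.1 b.1 a.2 t, a.2 + (t : ZMod k)) : V k) = flip u.1) := by
  unfold X at h
  rw [Pi.add_apply, Finset.sum_apply, Finset.sum_apply] at h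
  have h0 : ∑ s ∈ range (b.2 - a.2).val,
      ed (Sum.inl (b.1, a.2 + (s : ZMod k)) : E k) (Sum.inr u) = 0 := by
    apply sum_eq_zero
    intro s _
    unfold ed
    rw [Pi.single_eq_of_ne]
    simp
  rw [h0, add_zero] at h
  obtain ⟨t, ht, h2⟩ := ne_zero_of_sum _ _ h
  unfold rnd at h2
  rw [Pi.add_apply] at h2
  have e1 : ed (Sum.inl (mix a.1 b.1 a.2 (t + 1), a.2 + (t : ZMod k)) : E k) (Sum.inr u) = 0 := by
    unfold ed
    rw [Pi.single_eq_of_ne]
    simp
  rw [e1, add_zero] at h2
  have h3 : eX (st a.1 b.1 a.2 t) = Sum.inr u := by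
    by_contra hne
    apply h2
    split_ifs
    · rfl
    · unfold ed
      rw [Pi.single_eq_of_ne]
      exact fun hh => hne hh.symm
  rcases eX_eq_inr.1 h3 with h4 | h4
  · left; exact ⟨t, ht, h4⟩
  · right; exact ⟨t, ht, h4⟩

theorem card_exists_le {α : Type*} [Fintype α] (m N : ℕ) (P : ℕ → α → Prop)
    [∀ t, DecidablePred (P t)] [DecidablePred fun a => ∃ t ∈ range m, P t a]
    (h : ∀ t, #{a : α | P t a} ≤ N) : #{a : α | ∃ t ∈ range m, P t a} ≤ m * N := by
  classical
  calc #{a : α | ∃ t ∈ range m, P t a} ≤ #((range m).biUnion fun t => {a : α | P t a}) := by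
        apply card_le_card
        intro a ha
        simp only [mem_filter, mem_univ, true_and] at ha
        obtain ⟨t, ht, h1⟩ := ha
        simp only [mem_biUnion, mem_filter, mem_univ, true_and]
        exact ⟨t, ht, h1⟩
    _ ≤ ∑ t ∈ range m, #{a : α | P t a} := card_biUnion_le
    _ ≤ ∑ t ∈ range m, N := sum_le_sum fun t _ => h t
    _ = m * N := by rw [sum_const, card_range, smul_eq_mul]

/-- the congestion of the path system is `2 k`. -/
theorem card_X (e : E k) :
    #{p : V k × V k | X p.1 p.2 e ≠ 0} ≤ 2 * k * Fintype.card (V k) := by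
  classical
  rcases e with u | u
  · calc #{p : V k × V k | X p.1 p.2 (Sum.inl u) ≠ 0}
        ≤ #((univ.filter fun p : V k × V k => ∃ t ∈ range k,
            ((mix p.1.1 p.2.1 p.1.2 (t + 1), p.1.2 + (t : ZMod k)) : V k) = u) ∪
          (univ.filter fun p : V k × V k => ∃ s ∈ range k,
            ((p.2.1, p.1.2 + (s : ZMod k)) : V k) = u)) := by
          apply card_le_card
          intro p hp
          simp only [mem_filter, mem_univ, true_and] at hp
          rw [mem_union]
          simp only [mem_filter, mem_univ, true_and]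
          exact X_ne_zero_inl p.1 p.2 u hp
      _ ≤ _ := card_union_le _ _
      _ ≤ k * Fintype.card (V k) + k * Fintype.card (V k) := by
          apply add_le_add
          · exact card_exists_le k _
              (fun (t : ℕ) (p : V k × V k) =>
                ((mix p.1.1 p.2.1 p.1.2 (t + 1), p.1.2 + (t : ZMod k)) : V k) = u)
              (fun t => card_round (t + 1) t u)
          · exact card_exists_le k _
              (fun (s : ℕ) (p : V k × V k) => ((p.2.1, p.1.2 + (s : ZMod k)) : V k) = u)
              (fun s => card_last s u)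
      _ = 2 * k * Fintype.card (V k) := by ring
  · calc #{p : V k × V k | X p.1 p.2 (Sum.inr u) ≠ 0}
        ≤ #((univ.filter fun p : V k × V k => ∃ t ∈ range k,
            ((mix p.1.1 p.2.1 p.1.2 t, p.1.2 + (t : ZMod k)) : V k) = u.1) ∪
          (univ.filter fun p : V k × V k => ∃ t ∈ range k,
            ((mix p.1.1 p.2.1 p.1.2 t, p.1.2 + (t : ZMod k)) : V k) = flip u.1)) := by
          apply card_le_card
          intro p hp
          simp only [mem_filter, mem_univ, true_and] at hp
          rw [mem_union]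
          simp only [mem_filter, mem_univ, true_and]
          exact X_ne_zero_inr p.1 p.2 u hp
      _ ≤ _ := card_union_le _ _
      _ ≤ k * Fintype.card (V k) + k * Fintype.card (V k) := by
          apply add_le_add
          · exact card_exists_le k _
              (fun (t : ℕ) (p : V k × V k) =>
                ((mix p.1.1 p.2.1 p.1.2 t, p.1.2 + (t : ZMod k)) : V k) = u.1)
              (fun t => card_round t t u.1)
          · exact card_exists_le k _
              (fun (t : ℕ) (p : V k × V k) =>
                ((mix p.1.1 p.2.1 p.1.2 t, p.1.2 + (t : ZMod k)) : V k) = flip u.1)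
              (fun t => card_round t t (flip u.1))
      _ = 2 * k * Fintype.card (V k) := by ring

theorem card_V : Fintype.card (V k) = k * 2 ^ k := by
  rw [Fintype.card_prod, Fintype.card_fun, ZMod.card, ZMod.card, mul_comm]

theorem two_card_low : 2 * Fintype.card {v : V k // v.1 v.2 = 0} = Fintype.card (V k) := by
  classical
  have h1 : Fintype.card {v : V k // v.1 v.2 = 0} = Fintype.card {v : V k // ¬ v.1 v.2 = 0} := by
    apply Fintype.card_congr
    refine ⟨fun v => ⟨flip v.1, ?_⟩, fun v => ⟨flip v.1, ?_⟩, ?_, ?_⟩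
    · rw [flip_bit, v.2]; decide
    · rcases two_val (v.1.1 v.1.2) with h | h
      · exact absurd h v.2
      · rw [flip_bit, h]; decide
    · intro v; ext1; exact flip_flip v.1
    · intro v; ext1; exact flip_flip v.1
  have h2 := Fintype.card_subtype_compl (fun v : V k => v.1 v.2 = 0)
  have h3 := Fintype.card_subtype_le (fun v : V k => v.1 v.2 = 0)
  omega

theorem two_card_E : 2 * Fintype.card (E k) = 3 * Fintype.card (V k) := by
  rw [Fintype.card_sum]
  have := two_card_low (k := k)
  omega

theorem mem_star {e : E k} {v : V k} :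
    (src e = v ∨ tgt e = v) ↔
      (e = Sum.inl v ∨ e = Sum.inl (v.1, v.2 - 1) ∨ e = eX v) := by
  rcases e with u | u
  · simp only [src, tgt, Sum.inl.injEq]
    have h1 : (Sum.inl u : E k) ≠ eX v := (eX_ne_inl v u).symm
    constructor
    · rintro (h | h)
      · left; exact h
      · right; left
        rw [← h]
        unfold nxt
        simp
    · rintro (h | h | h)
      · left; exact h
      · right
        rw [h]
        unfold nxt
        simp
      · exact absurd h h1
  · simp only [src, tgt]
    constructor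
    · rintro (h | h)
      · right; right
        exact (eX_eq_inr.2 (Or.inl h.symm)).symm
      · right; right
        exact (eX_eq_inr.2 (Or.inr h.symm)).symm
    · rintro (h | h | h)
      · simp at h
      · simp at h
      · rcases eX_eq_inr.1 h.symm with h | h
        · left; exact h.symm
        · right; exact h.symm

theorem card_star_le (v : V k) : #{e : E k | src e = v ∨ tgt e = v} ≤ 3 := by
  classical
  calc #{e : E k | src e = v ∨ tgt e = v}
      ≤ #({Sum.inl v, Sum.inl (v.1, v.2 - 1), eX v} : Finset (E k)) := by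
        apply card_le_card
        intro e he
        simp only [mem_filter, mem_univ, true_and] at he
        simp only [mem_insert, mem_singleton]
        exact mem_star.1 he
    _ ≤ 3 := card_le_three

theorem src_ne_tgt (hk : 2 ≤ k) (e : E k) : src e ≠ tgt e := by
  rcases e with u | u
  · simp only [src, tgt, nxt]
    intro h
    have h1 := congrArg Prod.snd h
    simp only at h1
    have h2 : (1 : ZMod k) = 0 := by
      have := add_left_cancel (a := u.2) (b := 0) (c := 1) (by rw [add_zero]; exact h1)
      exact this.symm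
    have : Fact (1 < k) := ⟨by omega⟩
    exact one_ne_zero h2
  · simp only [src, tgt]
    exact (flip_ne _).symm

/-- for `k ≥ 2` the three edges at a vertex are different -/
theorem star_distinct (hk : 2 ≤ k) (v : V k) :
    (Sum.inl v : E k) ≠ Sum.inl (v.1, v.2 - 1) ∧ (Sum.inl v : E k) ≠ eX v ∧
      (Sum.inl (v.1, v.2 - 1) : E k) ≠ eX v := by
  refine ⟨?_, (eX_ne_inl _ _).symm, (eX_ne_inl _ _).symm⟩
  intro h
  have h1 := congrArg Prod.snd (Sum.inl.inj h)
  simp only at h1
  have : Fact (1 < k) := ⟨by omega⟩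
  have h2 : (1 : ZMod k) = 0 := by
    have : v.2 - 1 = v.2 := h1.symm
    have h3 : v.2 - 1 - v.2 = 0 := by rw [this]; ring
    have h4 : v.2 - 1 - v.2 = -1 := by ring
    rw [h4] at h3
    exact neg_eq_zero.1 h3
  exact one_ne_zero h2

end

end CCC

end Pool.Agent.EFT
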