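import Pool.Agent.Lib.EFT.CCC

/-! The path system of CCC in the transposed form needed for a world. -/

namespace Pool.Agent.EFT

namespace CCC

open Finset

variable {k : ℕ} [NeZero k]

theorem pair_bd (x : E k → ZMod 2) (W : V k → ZMod 2) :
    ∑ v, bd x v * W v = ∑ e, x e * (W (src e) + W (tgt e)) := by
  unfold bd
  simp only [sum_mul]
  rw [sum_comm]
  apply sum_congr rfl
  intro e _
  simp only [mul_assoc, add_mul, ite_mul, one_mul, zero_mul]
  rw [← mul_sum, sum_add_distrib]
  simp

theorem bdX (p q : V k) (W : V k → ZMod 2) :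
    ∑ e, X p q e * (W (src e) + W (tgt e)) = W p + W q := by
  rw [← pair_bd, bd_X]
  simp only [pt, Pi.add_apply, add_mul, sum_add_distrib, Pi.single_apply, ite_mul, one_mul,
    zero_mul]
  simp

/-- sum over the edges at a vertex, `k ≥ 2` -/
theorem sum_star {M : Type*} [AddCommMonoid M] (hk : 2 ≤ k) (v : V k) (f : E k → M) :
    ∑ e with (src e = v ∨ tgt e = v), f e =
      f (Sum.inl v) + f (Sum.inl (v.1, v.2 - 1)) + f (eX v) := by
  classical
  obtain ⟨h1, h2, h3⟩ := star_distinct hk v
  have h : (univ.filter fun e : E k => src e = v ∨ tgt e = v) =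
      {Sum.inl v, Sum.inl (v.1, v.2 - 1), eX v} := by
    ext e
    simp only [mem_filter, mem_univ, true_and, mem_insert, mem_singleton]
    exact mem_star
  rw [h, sum_insert, sum_insert, sum_singleton, add_assoc]
  · simp only [mem_singleton]; exact h3
  · simp only [mem_insert, mem_singleton, not_or]; exact ⟨h1, h2⟩

theorem card_star (hk : 2 ≤ k) (v : V k) : #{e : E k | src e = v ∨ tgt e = v} = 3 := by
  have := sum_star hk v (fun _ => (1 : ℕ))
  rw [card_eq_sum_ones, this]

end CCC

end Pool.Agent.EFT
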