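import Mathlib

/-!
# EF project (MP_e81270): worlds, cuts, signs, the operators `Z_T` (rows R1, R2; helper18)
-/

namespace Pool.Agent.EFT

open Finset

noncomputable section

/-- the sign character of `F_2` -/
def chi (a : ZMod 2) : ℝ := if a = 0 then 1 else -1

/-- Hamming weight -/
def wt {A : Type} [Fintype A] (T : A → ZMod 2) : ℕ := (univ.filter fun e => T e ≠ 0).card

/-- A world: multigraph with charge `b`, path system `X` and congestion `Lam`. -/
structure World (V E : Type) [Fintype V] [Fintype E] where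
  src : E → V
  tgt : E → V
  b : V → ZMod 2
  X : V → V → E → ZMod 2
  Lam : ℕ
  bdX : ∀ (p q : V) (W : V → ZMod 2), ∑ e, X p q e * (W (src e) + W (tgt e)) = W p + W q
  cong : ∀ e, (univ.filter fun pq : V × V => X pq.1 pq.2 e ≠ 0).card ≤ Lam * Fintype.card V

namespace World

variable {V E : Type} [Fintype V] [Fintype E]

/-- `cut W (e) = W (src e) + W (tgt e)` -/
def cut (G : World V E) : (V → ZMod 2) →ₗ[ZMod 2] (E → ZMod 2) where
  toFun W e := W (G.src e) + W (G.tgt e)
  map_add' W W' := by ext e; simp only [Pi.add_apply]; ring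
  map_smul' c W := by ext e; simp [mul_add]

/-- the cut space -/
def Cut (G : World V E) : Submodule (ZMod 2) (E → ZMod 2) := LinearMap.range G.cut

/-- the class group `K = M_E / Cut` -/
abbrev K (G : World V E) : Type := (E → ZMod 2) ⧸ G.Cut

/-- the class of `T` -/
def cls (G : World V E) (T : E → ZMod 2) : G.K := Submodule.Quotient.mk T

def small (_G : World V E) (W : V → ZMod 2) : Prop := 4 * wt W < Fintype.card V

open Classical in
/-- sign of a cut with a small side -/
def sg (G : World V E) (C : E → ZMod 2) : ℝ :=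
  if h : ∃ W, G.small W ∧ G.cut W = C then chi (∑ v, G.b v * h.choose v) else 1

/-- least weight in the class -/
def deg (G : World V E) (s : G.K) : ℕ := sInf {m | ∃ T, G.cls T = s ∧ wt T = m}

open Classical in
/-- a representative of least weight, `rep 0 = 0` -/
def rep (G : World V E) (s : G.K) : E → ZMod 2 :=
  if s = 0 then 0 else
    if h : ∃ T, G.cls T = s ∧ wt T = G.deg s then h.choose else 0

/-! ### weights -/

lemma zmod2_add_self (a : ZMod 2) : a + a = 0 := CharTwo.add_self_eq_zero a

lemma zmod2_cases (a : ZMod 2) : a = 0 ∨ a = 1 := by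
  revert a; decide

lemma wt_zero {A : Type} [Fintype A] : wt (0 : A → ZMod 2) = 0 := by simp [wt]

lemma wt_add {A : Type} [Fintype A] (S T : A → ZMod 2) : wt (S + T) ≤ wt S + wt T := by
  classical
  unfold wt
  rw [← card_union_add_card_inter]
  refine le_trans (card_le_card ?_) (Nat.le_add_right _ _)
  intro e he
  simp only [mem_union, mem_filter, mem_univ, true_and, Pi.add_apply] at *
  by_contra h
  push Not at h
  rw [h.1, h.2] at he
  exact he (add_zero 0)

lemma wt_add3 {A : Type} [Fintype A] (S T U : A → ZMod 2) :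
    wt (S + T + U) ≤ wt S + wt T + wt U :=
  (wt_add _ _).trans (Nat.add_le_add_right (wt_add _ _) _)

lemma wt_compl {A : Type} [Fintype A] (W : A → ZMod 2) :
    wt (fun v => W v + 1) = Fintype.card A - wt W := by
  classical
  unfold wt
  rw [← Finset.card_univ, ← Finset.card_sdiff_of_subset (filter_subset _ _)]
  congr 1
  ext v
  simp only [mem_filter, mem_univ, true_and, mem_sdiff, not_not]
  rcases zmod2_cases (W v) with h | h <;> rw [h] <;> decide

lemma wt_le {A : Type} [Fintype A] (W : A → ZMod 2) : wt W ≤ Fintype.card A := by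
  unfold wt; rw [← Finset.card_univ]; exact card_le_card (filter_subset _ _)

lemma chi_add (a b : ZMod 2) : chi (a + b) = chi a * chi b := by
  rcases zmod2_cases a with h | h <;> rcases zmod2_cases b with h' | h' <;> rw [h, h'] <;>
    simp [chi, show (1 : ZMod 2) + 1 = 0 from by decide]

lemma chi_zero : chi 0 = 1 := by simp [chi]

lemma chi_mul_self (a : ZMod 2) : chi a * chi a = 1 := by
  rw [← chi_add, zmod2_add_self, chi_zero]

lemma chi_abs (a : ZMod 2) : |chi a| = 1 := by
  unfold chi; split_ifs <;> simp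

/-! ### W1 - W3 -/

lemma pair_cut (G : World V E) (p q : V) (W : V → ZMod 2) :
    ∑ e, G.X p q e * G.cut W e = W p + W q := G.bdX p q W

/-- (W1) -/
lemma W1 (G : World V E) (W : V → ZMod 2) (h : G.cut W = 0) (p q : V) : W p = W q := by
  have := G.pair_cut p q W
  rw [h] at this
  simp only [Pi.zero_apply, mul_zero, sum_const_zero] at this
  have h2 : W p + W q = 0 := this.symm
  exact CharTwo.add_eq_zero.mp h2

/-- (W2), isoperimetry -/
lemma W2 (G : World V E) (W : V → ZMod 2) :
    min (wt W) (Fintype.card V - wt W) ≤ G.Lam * wt (G.cut W) := by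
  classical
  set n := Fintype.card V with hn
  -- pairs separated by W
  set P : Finset (V × V) := univ.filter fun pq => W pq.1 ≠ W pq.2 with hP
  have hcount : 2 * (wt W * (n - wt W)) ≤ P.card := by
    have h1 : ((univ.filter fun v => W v ≠ 0) ×ˢ (univ.filter fun v => ¬ (W v ≠ 0))) ⊆ P := by
      intro pq h
      simp only [mem_product, mem_filter, mem_univ, true_and, not_not] at h
      simp only [hP, mem_filter, mem_univ, true_and]
      rw [h.2]; exact h.1
    have h2 : ((univ.filter fun v => ¬ (W v ≠ 0)) ×ˢ (univ.filter fun v => W v ≠ 0)) ⊆ P := by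
      intro pq h
      simp only [mem_product, mem_filter, mem_univ, true_and, not_not] at h
      simp only [hP, mem_filter, mem_univ, true_and]
      rw [h.1]; exact fun h' => h.2 h'.symm
    have hd : Disjoint ((univ.filter fun v => W v ≠ 0) ×ˢ (univ.filter fun v => ¬ (W v ≠ 0)))
        ((univ.filter fun v => ¬ (W v ≠ 0)) ×ˢ (univ.filter fun v => W v ≠ 0)) := by
      rw [Finset.disjoint_left]
      intro pq h h'
      simp only [mem_product, mem_filter, mem_univ, true_and, not_not] at h h'
      exact h.1 h'.1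
    have h3 := card_le_card (union_subset h1 h2)
    rw [card_union_of_disjoint hd, card_product, card_product] at h3
    have h4 : (univ.filter fun v => ¬ (W v ≠ 0)).card = n - wt W := by
      have := Finset.card_filter_add_card_filter_not (s := (univ : Finset V)) (fun v => W v ≠ 0)
      rw [Finset.card_univ] at this
      unfold wt
      omega
    rw [h4] at h3
    change wt W * (n - wt W) + (n - wt W) * wt W ≤ P.card at h3
    rw [mul_comm (n - wt W)] at h3
    omega
  have hcov : P ⊆ (univ.filter fun e => G.cut W e ≠ 0).biUnion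
      (fun e => univ.filter fun pq : V × V => G.X pq.1 pq.2 e ≠ 0) := by
    intro pq h
    simp only [hP, mem_filter, mem_univ, true_and] at h
    simp only [mem_biUnion, mem_filter, mem_univ, true_and]
    by_contra hc
    push Not at hc
    apply h
    have h1 := G.pair_cut pq.1 pq.2 W
    rw [Finset.sum_eq_zero] at h1
    · exact CharTwo.add_eq_zero.mp h1.symm
    · intro e _
      by_cases he : G.cut W e = 0
      · rw [he, mul_zero]
      · rw [hc e he, zero_mul]
  have hle : P.card ≤ wt (G.cut W) * (G.Lam * n) := by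
    refine (card_le_card hcov).trans ?_
    refine card_biUnion_le_card_mul _ _ _ ?_
    intro e _
    exact G.cong e
  have hmain : 2 * (wt W * (n - wt W)) ≤ wt (G.cut W) * (G.Lam * n) := hcount.trans hle
  have hw : wt W ≤ n := wt_le W
  by_contra hlt
  push Not at hlt
  obtain ⟨hl1, hl2⟩ := lt_min_iff.mp hlt
  have hn0 : 0 < n := by omega
  -- 2 w (n-w) > Lam wt n
  rcases le_total (wt W) (n - wt W) with h | h
  · have h5 : n ≤ 2 * (n - wt W) := by omega
    have h6 : wt W * n ≤ wt (G.cut W) * (G.Lam * n) := by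
      calc wt W * n ≤ wt W * (2 * (n - wt W)) := Nat.mul_le_mul_left _ h5
        _ = 2 * (wt W * (n - wt W)) := by ring
        _ ≤ _ := hmain
    have h7 : wt W * n ≤ (G.Lam * wt (G.cut W)) * n := by
      calc _ ≤ _ := h6
        _ = _ := by ring
    have := Nat.le_of_mul_le_mul_right h7 hn0
    omega
  · have h5 : n ≤ 2 * wt W := by omega
    have h6 : (n - wt W) * n ≤ wt (G.cut W) * (G.Lam * n) := by
      calc (n - wt W) * n ≤ (n - wt W) * (2 * wt W) := Nat.mul_le_mul_left _ h5
        _ = 2 * (wt W * (n - wt W)) := by ring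
        _ ≤ _ := hmain
    have h7 : (n - wt W) * n ≤ (G.Lam * wt (G.cut W)) * n := by
      calc _ ≤ _ := h6
        _ = _ := by ring
    have := Nat.le_of_mul_le_mul_right h7 hn0
    omega

/-- uniqueness of the small side -/
lemma small_unique (G : World V E) {W W' : V → ZMod 2} (h : G.small W) (h' : G.small W')
    (hc : G.cut W = G.cut W') : W = W' := by
  classical
  have h0 : G.cut (W + W') = 0 := by
    rw [map_add, hc]; ext e; exact zmod2_add_self _
  rcases isEmpty_or_nonempty V with hV | ⟨⟨v0⟩⟩
  · ext v; exact hV.elim v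
  have hconst : ∀ v, (W + W') v = (W + W') v0 := fun v => G.W1 _ h0 v v0
  rcases zmod2_cases ((W + W') v0) with h1 | h1
  · funext v
    have := hconst v
    rw [h1] at this
    exact CharTwo.add_eq_zero.mp (show W v + W' v = 0 from this)
  · exfalso
    have h2 : wt (W + W') = Fintype.card V := by
      unfold wt
      rw [← Finset.card_univ]
      congr 1
      ext v
      simp only [mem_filter, mem_univ, true_and, iff_true]
      rw [hconst v, h1]; decide
    have h3 := wt_add W W'
    unfold small at h h'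
    omega

/-- existence of the small side -/
lemma small_exists (G : World V E) {C : E → ZMod 2} (hC : C ∈ G.Cut)
    (hw : 4 * G.Lam * wt C < Fintype.card V) : ∃ W, G.small W ∧ G.cut W = C := by
  obtain ⟨W, hW⟩ := hC
  have h2 := G.W2 W
  rw [hW] at h2
  rcases min_le_iff.mp h2 with h | h
  · refine ⟨W, ?_, hW⟩
    unfold small
    have : 4 * (G.Lam * wt C) < Fintype.card V := by rw [← mul_assoc]; exact hw
    omega
  · refine ⟨fun v => W v + 1, ?_, ?_⟩
    · unfold small
      rw [wt_compl]
      have : 4 * (G.Lam * wt C) < Fintype.card V := by rw [← mul_assoc]; exact hw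
      omega
    · rw [← hW]
      ext e
      change W (G.src e) + 1 + (W (G.tgt e) + 1) = W (G.src e) + W (G.tgt e)
      have : W (G.src e) + 1 + (W (G.tgt e) + 1) = W (G.src e) + W (G.tgt e) + (1 + 1) := by ring
      rw [this, show (1 : ZMod 2) + 1 = 0 from by decide, add_zero]

lemma sg_eq (G : World V E) {C : E → ZMod 2} {W : V → ZMod 2} (h : G.small W)
    (hc : G.cut W = C) : G.sg C = chi (∑ v, G.b v * W v) := by
  classical
  have hex : ∃ W, G.small W ∧ G.cut W = C := ⟨W, h, hc⟩
  unfold sg
  rw [dif_pos hex]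
  have := G.small_unique hex.choose_spec.1 h (hex.choose_spec.2.trans hc.symm)
  rw [this]

lemma sg_mul_self (G : World V E) (C : E → ZMod 2) : G.sg C * G.sg C = 1 := by
  classical
  unfold sg
  split_ifs
  · exact chi_mul_self _
  · norm_num

lemma sg_abs (G : World V E) (C : E → ZMod 2) : |G.sg C| = 1 := by
  classical
  unfold sg
  split_ifs
  · exact chi_abs _
  · norm_num

/-- (W3), multiplicativity of the sign -/
lemma sg_add (G : World V E) {C1 C2 : E → ZMod 2}
    (h1 : ∃ W, G.small W ∧ G.cut W = C1) (h2 : ∃ W, G.small W ∧ G.cut W = C2)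
    (h3 : ∃ W, G.small W ∧ G.cut W = C1 + C2) : G.sg (C1 + C2) = G.sg C1 * G.sg C2 := by
  classical
  obtain ⟨W1, s1, c1⟩ := h1
  obtain ⟨W2, s2, c2⟩ := h2
  obtain ⟨W3, s3, c3⟩ := h3
  -- W3 = W1 + W2
  have hW : W3 = W1 + W2 := by
    have h0 : G.cut (W3 + (W1 + W2)) = 0 := by
      rw [map_add, map_add, c1, c2, c3]; ext e; exact zmod2_add_self _
    rcases isEmpty_or_nonempty V with hV | ⟨⟨v0⟩⟩
    · ext v; exact hV.elim v
    have hconst : ∀ v, (W3 + (W1 + W2)) v = (W3 + (W1 + W2)) v0 := fun v => G.W1 _ h0 v v0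
    rcases zmod2_cases ((W3 + (W1 + W2)) v0) with h1 | h1
    · funext v
      have := hconst v
      rw [h1] at this
      exact CharTwo.add_eq_zero.mp (show W3 v + (W1 + W2) v = 0 from this)
    · exfalso
      have h2 : wt (W3 + (W1 + W2)) = Fintype.card V := by
        unfold wt
        rw [← Finset.card_univ]
        congr 1
        ext v
        simp only [mem_filter, mem_univ, true_and, iff_true]
        rw [hconst v, h1]; decide
      have h3 := wt_add W3 (W1 + W2)
      have h4 := wt_add W1 W2
      unfold small at s1 s2 s3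
      omega
  rw [G.sg_eq s3 c3, G.sg_eq s1 c1, G.sg_eq s2 c2, ← chi_add, hW, ← sum_add_distrib]
  congr 1
  refine sum_congr rfl fun v _ => ?_
  rw [Pi.add_apply, mul_add]

/-! ### representatives -/

lemma cls_surj (G : World V E) (s : G.K) : ∃ T, G.cls T = s := Submodule.Quotient.mk_surjective _ s

lemma cls_add (G : World V E) (S T : E → ZMod 2) : G.cls (S + T) = G.cls S + G.cls T := rfl

lemma cls_zero (G : World V E) : G.cls 0 = 0 := rfl

lemma cls_eq_zero (G : World V E) {T : E → ZMod 2} : G.cls T = 0 ↔ T ∈ G.Cut :=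
  Submodule.Quotient.mk_eq_zero _

lemma K_add_self (G : World V E) (s : G.K) : s + s = 0 := by
  obtain ⟨T, rfl⟩ := G.cls_surj s
  rw [← cls_add]
  have : T + T = 0 := by ext e; exact zmod2_add_self _
  rw [this, cls_zero]

lemma deg_spec (G : World V E) (s : G.K) : ∃ T, G.cls T = s ∧ wt T = G.deg s := by
  have : {m | ∃ T, G.cls T = s ∧ wt T = m}.Nonempty := by
    obtain ⟨T, hT⟩ := G.cls_surj s
    exact ⟨wt T, T, hT, rfl⟩
  exact Nat.sInf_mem this

lemma deg_le (G : World V E) (T : E → ZMod 2) : G.deg (G.cls T) ≤ wt T :=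
  Nat.sInf_le ⟨T, rfl, rfl⟩

lemma deg_zero (G : World V E) : G.deg 0 = 0 := by
  have := G.deg_le 0
  rw [wt_zero] at this
  exact Nat.le_zero.mp this

lemma rep_zero (G : World V E) : G.rep 0 = 0 := by simp [rep]

lemma cls_rep (G : World V E) (s : G.K) : G.cls (G.rep s) = s := by
  classical
  unfold rep
  split_ifs with h h'
  · rw [h]; rfl
  · exact h'.choose_spec.1
  · exact absurd (G.deg_spec s) h'

lemma wt_rep (G : World V E) (s : G.K) : wt (G.rep s) = G.deg s := by
  classical
  unfold rep
  split_ifs with h h'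
  · rw [h, deg_zero, wt_zero]
  · exact h'.choose_spec.2
  · exact absurd (G.deg_spec s) h'

lemma deg_add_le (G : World V E) (s : G.K) (T : E → ZMod 2) :
    G.deg (s + G.cls T) ≤ G.deg s + wt T := by
  have h : s + G.cls T = G.cls (G.rep s + T) := by rw [cls_add, cls_rep]
  rw [h, ← G.wt_rep s]
  exact (G.deg_le _).trans (wt_add _ _)

/-! ### the Hilbert space and the operators `Z_T` -/

/-- real `l^2(K)` -/
abbrev Hs (G : World V E) : Type := EuclideanSpace ℝ G.K

instance (G : World V E) : Finite G.K := Quotient.finite _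

noncomputable instance (G : World V E) : Fintype G.K := Fintype.ofFinite _

/-- vectors supported on degree at most `r` -/
def Low (G : World V E) (r : ℕ) : Submodule ℝ G.Hs where
  carrier := {v | ∀ s, r < G.deg s → v s = 0}
  zero_mem' := fun s _ => rfl
  add_mem' := fun {u v} hu hv s hs => by
    change u s + v s = 0
    rw [hu s hs, hv s hs, add_zero]
  smul_mem' := fun c v hv s hs => by
    change c * v s = 0
    rw [hv s hs, mul_zero]

/-- sign in the definition of `Z_T` -/
def zs (G : World V E) (T : E → ZMod 2) (s : G.K) : ℝ :=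
  G.sg (G.rep s + T + G.rep (s + G.cls T))

/-- `Z_T` -/
def Z (G : World V E) (T : E → ZMod 2) : G.Hs →ₗ[ℝ] G.Hs where
  toFun v := WithLp.toLp 2 fun s => G.zs T s * v (s + G.cls T)
  map_add' u v := by ext s; simp [mul_add]
  map_smul' c v := by ext s; simp; ring

lemma Z_apply (G : World V E) (T : E → ZMod 2) (v : G.Hs) (s : G.K) :
    G.Z T v s = G.zs T s * v (s + G.cls T) := rfl

lemma zs_symm (G : World V E) (T : E → ZMod 2) (s : G.K) :
    G.zs T (s + G.cls T) = G.zs T s := by
  unfold zs
  have h : s + G.cls T + G.cls T = s := by rw [add_assoc, K_add_self, add_zero]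
  rw [h]
  congr 1
  abel

lemma zs_mul_self (G : World V E) (T : E → ZMod 2) (s : G.K) : G.zs T s * G.zs T s = 1 :=
  G.sg_mul_self _

/-- `Z_T` is an involution -/
lemma Z_Z (G : World V E) (T : E → ZMod 2) (v : G.Hs) : G.Z T (G.Z T v) = v := by
  ext s
  rw [Z_apply, Z_apply, zs_symm, ← mul_assoc, zs_mul_self, one_mul, add_assoc, K_add_self,
    add_zero]

/-- `Z_T` is symmetric -/
lemma Z_symm (G : World V E) (T : E → ZMod 2) (u v : G.Hs) :
    inner ℝ (G.Z T u) v = inner ℝ u (G.Z T v) := by
  simp only [PiLp.inner_apply, Z_apply]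
  let φ : G.K ≃ G.K := Equiv.addRight (G.cls T)
  rw [← Equiv.sum_comp φ]
  refine sum_congr rfl fun s _ => ?_
  change inner ℝ (G.zs T (s + G.cls T) * u (s + G.cls T + G.cls T)) (v (s + G.cls T)) =
    inner ℝ (u s) (G.zs T s * v (s + G.cls T))
  have h : s + G.cls T + G.cls T = s := by rw [add_assoc, K_add_self, add_zero]
  rw [h, zs_symm]
  simp
  ring

lemma Z_norm (G : World V E) (T : E → ZMod 2) (v : G.Hs) : ‖G.Z T v‖ = ‖v‖ := by
  have h : inner ℝ (G.Z T v) (G.Z T v) = inner ℝ v v := by rw [Z_symm, Z_Z]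
  rw [real_inner_self_eq_norm_sq, real_inner_self_eq_norm_sq] at h
  exact (sq_eq_sq₀ (norm_nonneg _) (norm_nonneg _)).mp h

lemma Z_low (G : World V E) {T : E → ZMod 2} {r : ℕ} {v : G.Hs} (hv : v ∈ G.Low r) :
    G.Z T v ∈ G.Low (r + wt T) := by
  intro s hs
  rw [Z_apply]
  have : r < G.deg (s + G.cls T) := by
    have h := G.deg_add_le (s + G.cls T) T
    rw [add_assoc, K_add_self, add_zero] at h
    omega
  rw [hv _ this, mul_zero]

/-- the composite sign: (W5) in coordinates -/
lemma zs_mul (G : World V E) {r : ℕ} {T T' : E → ZMod 2} {s : G.K}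
    (hr : G.deg (s + G.cls T + G.cls T') ≤ r)
    (h : 8 * G.Lam * (r + wt T + wt T') < Fintype.card V) :
    G.zs T s * G.zs T' (s + G.cls T) = G.zs (T + T') s := by
  unfold zs
  set s2 := s + G.cls T with hs2
  set s3 := s2 + G.cls T' with hs3
  have e3 : s + G.cls (T + T') = s3 := by rw [cls_add, ← add_assoc]
  rw [e3]
  have hsum : G.rep s + (T + T') + G.rep s3 =
      (G.rep s + T + G.rep s2) + (G.rep s2 + T' + G.rep s3) := by
    have : G.rep s2 + G.rep s2 = 0 := by ext e; exact zmod2_add_self _
    calc G.rep s + (T + T') + G.rep s3 = G.rep s + (T + T') + G.rep s3 + 0 := by rw [add_zero]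
      _ = G.rep s + (T + T') + G.rep s3 + (G.rep s2 + G.rep s2) := by rw [this]
      _ = _ := by abel
  have d2 : G.deg s2 ≤ r + wt T' := by
    have h := G.deg_add_le s3 T'
    rw [hs3, add_assoc, K_add_self, add_zero] at h
    rw [← hs3] at h
    omega
  have d1 : G.deg s ≤ r + wt T' + wt T := by
    have h := G.deg_add_le s2 T
    rw [hs2, add_assoc, K_add_self, add_zero] at h
    rw [← hs2] at h
    omega
  have key : ∀ C : E → ZMod 2, C ∈ G.Cut → wt C ≤ 2 * (r + wt T + wt T') →
      ∃ W, G.small W ∧ G.cut W = C := by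
    intro C hC hw
    apply G.small_exists hC
    calc 4 * G.Lam * wt C ≤ 4 * G.Lam * (2 * (r + wt T + wt T')) := Nat.mul_le_mul_left _ hw
      _ = 8 * G.Lam * (r + wt T + wt T') := by ring
      _ < _ := h
  have c1 : G.rep s + T + G.rep s2 ∈ G.Cut := by
    rw [← cls_eq_zero, cls_add, cls_add, cls_rep, cls_rep, ← hs2, K_add_self]
  have c2 : G.rep s2 + T' + G.rep s3 ∈ G.Cut := by
    rw [← cls_eq_zero, cls_add, cls_add, cls_rep, cls_rep, ← hs3, K_add_self]
  have w1 : wt (G.rep s + T + G.rep s2) ≤ 2 * (r + wt T + wt T') := by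
    have := wt_add3 (G.rep s) T (G.rep s2)
    rw [wt_rep, wt_rep] at this
    omega
  have w2 : wt (G.rep s2 + T' + G.rep s3) ≤ 2 * (r + wt T + wt T') := by
    have := wt_add3 (G.rep s2) T' (G.rep s3)
    rw [wt_rep, wt_rep] at this
    omega
  have w3 : wt (G.rep s + (T + T') + G.rep s3) ≤ 2 * (r + wt T + wt T') := by
    have := wt_add3 (G.rep s) (T + T') (G.rep s3)
    have h' := wt_add T T'
    rw [wt_rep, wt_rep] at this
    omega
  have hc3 := key _ (by rw [hsum]; exact G.Cut.add_mem c1 c2) w3
  rw [hsum] at hc3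
  rw [hsum]
  exact (G.sg_add (key _ c1 w1) (key _ c2 w2) hc3).symm

/-- (W5) -/
lemma W5 (G : World V E) {r : ℕ} {T T' : E → ZMod 2} {v : G.Hs} (hv : v ∈ G.Low r)
    (h : 8 * G.Lam * (r + wt T + wt T') < Fintype.card V) :
    G.Z T (G.Z T' v) = G.Z (T + T') v := by
  ext s
  rw [Z_apply, Z_apply, Z_apply, cls_add, ← add_assoc]
  by_cases hd : G.deg (s + G.cls T + G.cls T') ≤ r
  · rw [← mul_assoc, G.zs_mul hd h]
  · rw [hv _ (not_le.mp hd), mul_zero, mul_zero, mul_zero]

/-- commutation -/
lemma W5_comm (G : World V E) {r : ℕ} {T T' : E → ZMod 2} {v : G.Hs} (hv : v ∈ G.Low r)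
    (h : 8 * G.Lam * (r + wt T + wt T') < Fintype.card V) :
    G.Z T (G.Z T' v) = G.Z T' (G.Z T v) := by
  rw [G.W5 hv h, G.W5 hv (by rw [add_assoc, add_comm (wt T'), ← add_assoc]; exact h), add_comm T]

end World

end

end Pool.Agent.EFT
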