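import Pool.Agent.Lib.EFT.CCCGlue
import Pool.Agent.Lib.EFT.World

/-! The world of the cube-connected cycles with an arbitrary charge. -/

namespace Pool.Agent.EFT

namespace CCC

open Finset

variable {k : ℕ} [NeZero k]

/-- the world `CCC_k` with charge `b`, congestion `2 k` -/
noncomputable def world (b : V k → ZMod 2) : World (V k) (E k) where
  src := src
  tgt := tgt
  b := b
  X := X
  Lam := 2 * k
  bdX := bdX
  cong := by
    classical
    intro e
    convert card_X e

@[simp] theorem world_src (b : V k → ZMod 2) : (world b).src = src := rfl
@[simp] theorem world_tgt (b : V k → ZMod 2) : (world b).tgt = tgt := rfl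
@[simp] theorem world_b (b : V k → ZMod 2) : (world b).b = b := rfl
@[simp] theorem world_X (b : V k → ZMod 2) : (world b).X = X := rfl
@[simp] theorem world_Lam (b : V k → ZMod 2) : (world b).Lam = 2 * k := rfl

end CCC

end Pool.Agent.EFT
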