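import Mathlib

/-!
# Formulas over negation and conjunction

The formulas used by the operator calculus (project EF): variables, negation, conjunction.
-/

set_option autoImplicit false

namespace Pool.Agent.EFT

/-- Formulas over `¬`, `∧` with variables in `α`. -/
inductive Fm (α : Type*)
  | var : α → Fm α
  | neg : Fm α → Fm α
  | and : Fm α → Fm α → Fm α

namespace Fm

variable {α : Type*}

/-- Number of leaves. -/
def lv : Fm α → ℕ
  | var _ => 1
  | neg f => f.lv
  | and f g => f.lv + g.lv

/-- Height counted in conjunctions only. -/
def ah : Fm α → ℕ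
  | var _ => 0
  | neg f => f.ah
  | and f g => max f.ah g.ah + 1

/-- `f.Sub g`: `g` is a subformula of `f` (`f` included). -/
def Sub : Fm α → Fm α → Prop
  | var a, g => g = var a
  | neg f, g => g = neg f ∨ f.Sub g
  | and f h, g => g = and f h ∨ f.Sub g ∨ h.Sub g

theorem lv_pos (f : Fm α) : 1 ≤ f.lv := by
  induction f with
  | var _ => exact le_refl _
  | neg f ih => exact ih
  | and f g ihf ihg => simp only [lv]; omega

theorem Sub.refl (f : Fm α) : f.Sub f := by
  cases f <;> simp [Sub]

theorem Sub.trans {f g h : Fm α} (h1 : f.Sub g) (h2 : g.Sub h) : f.Sub h := by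
  induction f with
  | var a => simp only [Sub] at h1; subst h1; exact h2
  | neg f ih =>
    rcases h1 with h1 | h1
    · subst h1; exact h2
    · exact Or.inr (ih h1)
  | and f k ihf ihk =>
    rcases h1 with h1 | h1 | h1
    · subst h1; exact h2
    · exact Or.inr (Or.inl (ihf h1))
    · exact Or.inr (Or.inr (ihk h1))

theorem Sub.lv_le {f g : Fm α} (h : f.Sub g) : g.lv ≤ f.lv := by
  induction f with
  | var a => simp only [Sub] at h; subst h; exact le_refl _
  | neg f ih =>
    rcases h with h | h
    · subst h; exact le_refl _
    · exact ih h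
  | and f k ihf ihk =>
    rcases h with h | h | h
    · subst h; exact le_refl _
    · exact (ihf h).trans (Nat.le_add_right _ _)
    · exact (ihk h).trans (Nat.le_add_left _ _)

theorem Sub.ah_le {f g : Fm α} (h : f.Sub g) : g.ah ≤ f.ah := by
  induction f with
  | var a => simp only [Sub] at h; subst h; exact le_refl _
  | neg f ih =>
    rcases h with h | h
    · subst h; exact le_refl _
    · exact ih h
  | and f k ihf ihk =>
    have e : (Fm.and f k).ah = max f.ah k.ah + 1 := rfl
    rcases h with h | h | h
    · subst h; exact le_refl _
    · have := ihf h; rw [e]; omega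
    · have := ihk h; rw [e]; omega

end Fm

end Pool.Agent.EFT
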