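import Pool.Agent.Lib.EFT.Graded
import Pool.Agent.Lib.EFT.Fm

/-!
# The operator calculus (row R5 of project EF, helper15)

A formula over commuting idempotent leaf operators becomes an operator of band `Dl` which is almost
idempotent, commutes almost with the others and has norm almost `1`, also after conjugation with
`exp (s * degree)`, the norm being `cosh s` to the number of leaves.
-/

set_option autoImplicit false

open Finset Matrix

namespace Pool.Agent.EFT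

variable {K : Type*} [Fintype K]

theorem conjW_mulVec (dg : K → ℕ) (s : ℝ) (X : Matrix K K ℝ) (v : K → ℝ) :
    (conjW dg s X).mulVec v = fun i => Real.exp (s * dg i) *
      X.mulVec (fun k => Real.exp (-(s * dg k)) * v k) i := by
  funext i
  simp only [Matrix.mulVec, dotProduct, conjW, Finset.mul_sum]
  refine Finset.sum_congr rfl fun k _ => ?_
  have : Real.exp (s * ((dg i : ℝ) - dg k)) = Real.exp (s * dg i) * Real.exp (-(s * dg k)) := by
    rw [← Real.exp_add]; congr 1; ring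
  rw [this]; ring

theorem Bd_zero_of {dg : K → ℕ} {s : ℝ} {r : ℕ} {X : Matrix K K ℝ}
    (h : ∀ v ∈ Low dg r, X.mulVec v = 0) : Bd dg s r 0 X := by
  intro v hv
  have h1 : (fun k => Real.exp (-(s * dg k)) * v k) ∈ Low dg r := fun k hk => by
    show Real.exp (-(s * dg k)) * v k = 0
    rw [hv k hk, mul_zero]
  rw [conjW_mulVec, h _ h1]
  simp [l2]

/-- commutator of an approximate product -/
theorem Bd_comm_left {dg : K → ℕ} {s : ℝ} {r D : ℕ} {b γ ε : ℝ} {A B T Y : Matrix K K ℝ}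
    (hb : 0 ≤ b) (hγ : 0 ≤ γ) (hε : 0 ≤ ε)
    (hA : Bd dg s (r + 2 * D) b A) (hBb : Band dg D B) (hB : Bd dg s r b B)
    (hYb : Band dg D Y) (hY : Bd dg s (r + 2 * D) b Y)
    (hTb : Band dg (2 * D) T) (hT : Bd dg s (r + D) ε T)
    (hAY : Bd dg s (r + D) γ (A * Y - Y * A)) (hBY : Bd dg s r γ (B * Y - Y * B)) :
    Bd dg s r (2 * b * γ + 2 * b * ε) ((A * B - T) * Y - Y * (A * B - T)) := by
  have e : (A * B - T) * Y - Y * (A * B - T) =
      (A * (B * Y - Y * B) + (A * Y - Y * A) * B) + (Y * T - T * Y) := by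
    noncomm_ring
  rw [e]
  have hBYb : Band dg (2 * D) (B * Y - Y * B) := by
    rw [two_mul]; exact (hBb.mul hYb).sub (hYb.mul hBb)
  have h1 : Bd dg s r (b * γ) (A * (B * Y - Y * B)) := Bd.mul hb hA hBYb hBY
  have h2 : Bd dg s r (γ * b) ((A * Y - Y * A) * B) := Bd.mul hγ hAY hBb hB
  have h3 : Bd dg s r (b * ε) (Y * T) := Bd.mul hb hY hTb (hT.mono (by omega) le_rfl)
  have h4 : Bd dg s r (ε * b) (T * Y) := Bd.mul hε hT hYb (hY.mono (by omega) le_rfl)
  exact ((h1.add h2).add (h3.sub h4)).mono le_rfl (by linarith)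

/-- idempotence of an approximate product -/
theorem Bd_idem {dg : K → ℕ} {s : ℝ} {r D : ℕ} {b γ ε : ℝ} {A B T : Matrix K K ℝ}
    (hb : 1 ≤ b) (hγ : 0 ≤ γ) (hε : 0 ≤ ε) (hε1 : ε ≤ 1)
    (hAb : Band dg D A) (hA : Bd dg s (r + 3 * D) b A) (hBb : Band dg D B)
    (hB : Bd dg s (r + 2 * D) b B) (hTb : Band dg (2 * D) T) (hT : Bd dg s (r + 2 * D) ε T)
    (hBA : Bd dg s (r + D) γ (B * A - A * B)) (hAA : Bd dg s (r + 2 * D) γ (A * A - A))
    (hBB : Bd dg s r γ (B * B - B)) :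
    Bd dg s r (3 * b ^ 2 * γ + 4 * b ^ 2 * ε)
      ((A * B - T) * (A * B - T) - (A * B - T)) := by
  have hb0 : 0 ≤ b := zero_le_one.trans hb
  have e : (A * B - T) * (A * B - T) - (A * B - T) =
      (A * ((B * A - A * B) * B) + (A * A - A) * (B * B) + A * (B * B - B)) +
      ((T * T + T) - (A * B * T + T * (A * B))) := by
    noncomm_ring
  rw [e]
  have hBAb : Band dg (2 * D) (B * A - A * B) := by
    rw [two_mul]; exact (hBb.mul hAb).sub (hAb.mul hBb)
  have hBBb : Band dg (2 * D) (B * B) := by rw [two_mul]; exact hBb.mul hBb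
  have hABb : Band dg (2 * D) (A * B) := by rw [two_mul]; exact hAb.mul hBb
  have hB' : ∀ r', r' ≤ r + 2 * D → Bd dg s r' b B := fun r' h => hB.mono h le_rfl
  have hA' : ∀ r', r' ≤ r + 3 * D → Bd dg s r' b A := fun r' h => hA.mono h le_rfl
  have h1 : Bd dg s r (b * (γ * b)) (A * ((B * A - A * B) * B)) := by
    refine Bd.mul (D := 3 * D) hb0 hA ?_ (Bd.mul hγ hBA hBb (hB' _ (by omega)))
    have := hBAb.mul hBb
    exact this.mono (by omega)
  have h2 : Bd dg s r (γ * (b * b)) ((A * A - A) * (B * B)) :=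
    Bd.mul hγ hAA hBBb (Bd.mul hb0 (hB' _ (by omega)) hBb (hB' _ (by omega)))
  have h3 : Bd dg s r (b * γ) (A * (B * B - B)) := by
    refine Bd.mul (D := 2 * D) hb0 (hA' _ (by omega)) ?_ hBB
    exact hBBb.sub (hBb.mono (by omega))
  have hT' : Bd dg s r ε T := hT.mono (by omega) le_rfl
  have h4 : Bd dg s r (ε * ε) (T * T) := Bd.mul hε hT hTb hT'
  have h5 : Bd dg s r (b * b * ε) (A * B * T) :=
    Bd.mul (mul_nonneg hb0 hb0) (Bd.mul hb0 (hA' _ (by omega)) hBb hB) hTb hT'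
  have h6 : Bd dg s r (ε * (b * b)) (T * (A * B)) :=
    Bd.mul hε hT hABb (Bd.mul hb0 (hA' _ (by omega)) hBb (hB' _ (by omega)))
  refine (((h1.add h2).add h3).add ((h4.add hT').sub (h5.add h6))).mono le_rfl ?_
  have hbb : b ≤ b ^ 2 := by nlinarith
  have hbb1 : 1 ≤ b ^ 2 := hb.trans hbb
  have k1 : b * γ ≤ b ^ 2 * γ := mul_le_mul_of_nonneg_right hbb hγ
  have k2 : ε * ε ≤ b ^ 2 * ε := mul_le_mul_of_nonneg_right (hε1.trans hbb1) hε
  have k3 : 1 * ε ≤ b ^ 2 * ε := mul_le_mul_of_nonneg_right hbb1 hε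
  nlinarith

variable [DecidableEq K]

/-- the operator of a formula -/
noncomputable def opQ (dg : K → ℕ) {α : Type*} (P : α → Matrix K K ℝ) (Dl : ℕ) :
    Fm α → Matrix K K ℝ
  | .var a => P a
  | .neg f => 1 - opQ dg P Dl f
  | .and f g => trunc dg Dl (opQ dg P Dl f * opQ dg P Dl g)

/-- the norm of a formula with `l` leaves at weight `s` -/
noncomputable def nb (θ s : ℝ) (l : ℕ) : ℝ := Real.cosh s ^ l * (1 + θ) ^ (2 * (l - 1))

/-- the truncation error -/
noncomputable def epsT (N Dl : ℕ) (τ b : ℝ) : ℝ := 2 * N * b ^ 2 * Real.exp (-(τ * Dl))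

/-- the errors at and-height `j` -/
noncomputable def gam (N Dl : ℕ) (τ b : ℝ) (j : ℕ) : ℝ := (12 * b ^ 2) ^ j * epsT N Dl τ b

/-- the radius at and-height `j` -/
def Rad (Rh Dl hh j : ℕ) : ℕ := Rh + 4 * (hh - j) * Dl

/-- the hypotheses of the operator calculus -/
structure Calc (dg : K → ℕ) {α : Type*} (P : α → Matrix K K ℝ) (N Rh Dl L hh : ℕ)
    (τ θ b : ℝ) : Prop where
  deg_le : ∀ k, dg k ≤ N
  one_le_Dl : 1 ≤ Dl
  tau_nonneg : 0 ≤ τ
  theta_nonneg : 0 ≤ θ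
  theta_le : θ ≤ 1
  b_ge : Real.cosh (hh * τ) ^ L * (1 + θ) ^ (2 * L) ≤ b
  small : gam N Dl τ b hh ≤ θ ^ 2 / 16
  band : ∀ a, Band dg 1 (P a)
  idem : ∀ a, P a * P a = P a
  bdP : ∀ a s, Bd dg s (Rad Rh Dl hh 0) (Real.cosh s) (P a)
  bdP' : ∀ a s, Bd dg s (Rad Rh Dl hh 0) (Real.cosh s) (1 - P a)
  comm : ∀ a c, ∀ v ∈ Low dg (Rad Rh Dl hh 0), (P a * P c - P c * P a).mulVec v = 0

/-- the claim at and-height `j` -/
structure Cl (dg : K → ℕ) {α : Type*} (P : α → Matrix K K ℝ) (N Rh Dl L hh : ℕ)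
    (τ θ b : ℝ) (j : ℕ) : Prop where
  nrm : ∀ (f : Fm α) (s : ℝ), f.ah ≤ j → f.lv ≤ L → |s| ≤ ((hh : ℝ) - j) * τ →
    Bd dg s (Rad Rh Dl hh j) (nb θ s f.lv) (opQ dg P Dl f) ∧
    Bd dg s (Rad Rh Dl hh j) (nb θ s f.lv) (1 - opQ dg P Dl f)
  comm : ∀ (f g : Fm α) (s : ℝ), f.ah ≤ j → g.ah ≤ j → f.lv ≤ L → g.lv ≤ L →
    |s| ≤ ((hh : ℝ) - j) * τ →
    Bd dg s (Rad Rh Dl hh j) (gam N Dl τ b j)
      (opQ dg P Dl f * opQ dg P Dl g - opQ dg P Dl g * opQ dg P Dl f)
  idem : ∀ (f : Fm α) (s : ℝ), f.ah ≤ j → f.lv ≤ L → |s| ≤ ((hh : ℝ) - j) * τ →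
    Bd dg s (Rad Rh Dl hh j) (gam N Dl τ b j)
      (opQ dg P Dl f * opQ dg P Dl f - opQ dg P Dl f)

omit [Fintype K] [DecidableEq K] in
theorem one_le_nb {θ : ℝ} (hθ : 0 ≤ θ) (s : ℝ) (l : ℕ) : 1 ≤ nb θ s l := by
  have h1 : 1 ≤ Real.cosh s ^ l := one_le_pow₀ (Real.one_le_cosh s)
  have h2 : 1 ≤ (1 + θ) ^ (2 * (l - 1)) := one_le_pow₀ (by linarith)
  calc (1 : ℝ) = 1 * 1 := (one_mul 1).symm
    _ ≤ _ := mul_le_mul h1 h2 zero_le_one (zero_le_one.trans h1)

omit [Fintype K] [DecidableEq K] in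
theorem nb_add (θ s : ℝ) {l m : ℕ} (hl : 1 ≤ l) (hm : 1 ≤ m) :
    nb θ s (l + m) = nb θ s l * nb θ s m * (1 + θ) ^ 2 := by
  have h : 2 * (l + m - 1) = 2 * (l - 1) + 2 * (m - 1) + 2 := by omega
  rw [nb, nb, nb, h, pow_add, pow_add, pow_add]; ring

namespace Calc

variable {dg : K → ℕ} {α : Type*} {P : α → Matrix K K ℝ} {N Rh Dl L hh : ℕ} {τ θ b : ℝ}

theorem band_opQ (H : Calc dg P N Rh Dl L hh τ θ b) (f : Fm α) :
    Band dg Dl (opQ dg P Dl f) := by
  induction f with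
  | var a => exact (H.band a).mono H.one_le_Dl
  | neg f ih => exact (band_one Dl).sub ih
  | and f g _ _ => exact band_trunc Dl _

theorem one_le_b (H : Calc dg P N Rh Dl L hh τ θ b) : 1 ≤ b := by
  refine le_trans ?_ H.b_ge
  have h1 : 1 ≤ Real.cosh (hh * τ) ^ L := one_le_pow₀ (Real.one_le_cosh _)
  have h2 : 1 ≤ (1 + θ) ^ (2 * L) := one_le_pow₀ (by linarith [H.theta_nonneg])
  calc (1 : ℝ) = 1 * 1 := (one_mul 1).symm
    _ ≤ _ := mul_le_mul h1 h2 zero_le_one (zero_le_one.trans h1)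

theorem nb_le (H : Calc dg P N Rh Dl L hh τ θ b) {s : ℝ} {l : ℕ} (hl : l ≤ L)
    (hs : |s| ≤ hh * τ) : nb θ s l ≤ b := by
  refine le_trans ?_ H.b_ge
  have h0 := H.theta_nonneg
  have h1 : Real.cosh s ≤ Real.cosh (hh * τ) := by
    rw [Real.cosh_le_cosh, abs_of_nonneg (mul_nonneg (Nat.cast_nonneg _) H.tau_nonneg)]
    exact hs
  have h2 : Real.cosh s ^ l ≤ Real.cosh (hh * τ) ^ L :=
    (pow_le_pow_left₀ (Real.cosh_pos s).le h1 l).trans
      (pow_le_pow_right₀ (Real.one_le_cosh _) hl)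
  have h3 : (1 + θ) ^ (2 * (l - 1)) ≤ (1 + θ) ^ (2 * L) :=
    pow_le_pow_right₀ (by linarith) (by omega)
  exact mul_le_mul h2 h3 (by positivity) (by positivity)

theorem epsT_nonneg : 0 ≤ epsT N Dl τ b := by
  rw [epsT]; positivity

theorem epsT_le_gam (H : Calc dg P N Rh Dl L hh τ θ b) (j : ℕ) :
    epsT N Dl τ b ≤ gam N Dl τ b j := by
  have := H.one_le_b
  exact le_mul_of_one_le_left epsT_nonneg (one_le_pow₀ (by nlinarith))

theorem gam_nonneg (H : Calc dg P N Rh Dl L hh τ θ b) (j : ℕ) : 0 ≤ gam N Dl τ b j :=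
  epsT_nonneg.trans (H.epsT_le_gam j)

theorem gam_mono (H : Calc dg P N Rh Dl L hh τ θ b) {i j : ℕ} (hij : i ≤ j) :
    gam N Dl τ b i ≤ gam N Dl τ b j := by
  have := H.one_le_b
  exact mul_le_mul_of_nonneg_right (pow_le_pow_right₀ (by nlinarith) hij) epsT_nonneg

theorem gam_le (H : Calc dg P N Rh Dl L hh τ θ b) {j : ℕ} (hj : j ≤ hh) :
    gam N Dl τ b j ≤ θ ^ 2 / 16 := (H.gam_mono hj).trans H.small

theorem gam_succ (H : Calc dg P N Rh Dl L hh τ θ b) (j : ℕ) :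
    6 * b ^ 2 * (gam N Dl τ b j + epsT N Dl τ b) ≤ gam N Dl τ b (j + 1) := by
  have h1 := H.epsT_le_gam j
  have h2 : gam N Dl τ b (j + 1) = 12 * b ^ 2 * gam N Dl τ b j := by
    rw [gam, gam, pow_succ]; ring
  rw [h2]
  have h3 : 0 ≤ b ^ 2 := sq_nonneg b
  nlinarith

theorem epsT_le_theta (H : Calc dg P N Rh Dl L hh τ θ b) : epsT N Dl τ b ≤ θ := by
  have h1 := (H.epsT_le_gam hh).trans H.small
  have h2 := H.theta_nonneg
  have h3 := H.theta_le
  nlinarith

omit [Fintype K] [DecidableEq K] in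
theorem rad_succ {j : ℕ} (hj : j < hh) :
    Rad Rh Dl hh j = Rad Rh Dl hh (j + 1) + 4 * Dl := by
  have : hh - j = hh - (j + 1) + 1 := by omega
  rw [Rad, Rad, this]; ring

omit [Fintype K] [DecidableEq K] in
theorem rad_anti {i j : ℕ} (hij : i ≤ j) : Rad Rh Dl hh j ≤ Rad Rh Dl hh i := by
  rw [Rad, Rad]
  have : hh - j ≤ hh - i := by omega
  have := Nat.mul_le_mul_right Dl (Nat.mul_le_mul_left 4 this)
  omega

theorem abs_le (H : Calc dg P N Rh Dl L hh τ θ b) {s : ℝ} {j : ℕ}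
    (hs : |s| ≤ ((hh : ℝ) - j) * τ) : |s| ≤ hh * τ := by
  have h1 := H.tau_nonneg
  have h2 : (0 : ℝ) ≤ j := Nat.cast_nonneg j
  nlinarith

/-- the truncation error -/
theorem trunc_err (H : Calc dg P N Rh Dl L hh τ θ b) {j : ℕ}
    (C : Cl dg P N Rh Dl L hh τ θ b j) {g h : Fm α} (hg : g.ah ≤ j) (hh' : h.ah ≤ j)
    (hgL : g.lv ≤ L) (hhL : h.lv ≤ L) {s : ℝ} (hs : |s| ≤ ((hh : ℝ) - (j + 1 : ℕ)) * τ)
    {r : ℕ} (hr : r + Dl ≤ Rad Rh Dl hh j) :
    Bd dg s r (epsT N Dl τ b) (opQ dg P Dl g * opQ dg P Dl h -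
      trunc dg Dl (opQ dg P Dl g * opQ dg P Dl h)) := by
  have hτ := H.tau_nonneg
  have hb := H.one_le_b
  push_cast at hs
  have key : ∀ s' : ℝ, |s'| ≤ ((hh : ℝ) - j) * τ →
      Bd dg s' r (b ^ 2) (opQ dg P Dl g * opQ dg P Dl h) := by
    intro s' hs'
    have hs'' := H.abs_le hs'
    have h1 := ((C.nrm g s' hg hgL hs').1).mono hr (H.nb_le hgL hs'')
    have h2 := ((C.nrm h s' hh' hhL hs').1).mono (show r ≤ _ by omega) (H.nb_le hhL hs'')
    rw [pow_two]
    exact Bd.mul (zero_le_one.trans hb) h1 (H.band_opQ h) h2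
  have h1 := key (s + τ) ((abs_add_le s τ).trans (by rw [abs_of_nonneg hτ]; linarith))
  have h2 := key (s - τ) ((abs_sub s τ).trans (by rw [abs_of_nonneg hτ]; linarith))
  exact Bd_sub_trunc H.deg_le (sq_nonneg b) hτ h1 h2

theorem leaf_comm (H : Calc dg P N Rh Dl L hh τ θ b) (a c : α) (s : ℝ) :
    Bd dg s (Rad Rh Dl hh 0) 0 (P a * P c - P c * P a) := Bd_zero_of (H.comm a c)

omit [DecidableEq K] in
theorem comm_swap {s γ : ℝ} {r : ℕ} {X Y : Matrix K K ℝ} (h : Bd dg s r γ (X * Y - Y * X)) :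
    Bd dg s r γ (Y * X - X * Y) := by
  have := h.neg
  rwa [neg_sub] at this

theorem comm_neg_left {s γ : ℝ} {r : ℕ} {X Y : Matrix K K ℝ}
    (h : Bd dg s r γ (X * Y - Y * X)) :
    Bd dg s r γ ((1 - X) * Y - Y * (1 - X)) := by
  have e : (1 - X) * Y - Y * (1 - X) = Y * X - X * Y := by noncomm_ring
  rw [e]; exact comm_swap h

theorem comm_neg_right {s γ : ℝ} {r : ℕ} {X Y : Matrix K K ℝ}
    (h : Bd dg s r γ (X * Y - Y * X)) :
    Bd dg s r γ (X * (1 - Y) - (1 - Y) * X) := by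
  have e : X * (1 - Y) - (1 - Y) * X = Y * X - X * Y := by noncomm_ring
  rw [e]; exact comm_swap h

theorem idem_neg {s γ : ℝ} {r : ℕ} {X : Matrix K K ℝ}
    (h : Bd dg s r γ (X * X - X)) : Bd dg s r γ ((1 - X) * (1 - X) - (1 - X)) := by
  have e : (1 - X) * (1 - X) - (1 - X) = X * X - X := by noncomm_ring
  rw [e]; exact h

theorem nrm_var (H : Calc dg P N Rh Dl L hh τ θ b) (a : α) (s : ℝ) {j : ℕ} :
    Bd dg s (Rad Rh Dl hh j) (nb θ s (Fm.var a : Fm α).lv) (opQ dg P Dl (.var a)) ∧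
    Bd dg s (Rad Rh Dl hh j) (nb θ s (Fm.var a : Fm α).lv) (1 - opQ dg P Dl (.var a)) := by
  have e : nb θ s (Fm.var a : Fm α).lv = Real.cosh s := by simp [nb, Fm.lv]
  rw [e]
  exact ⟨(H.bdP a s).mono (rad_anti (Nat.zero_le j)) le_rfl,
    (H.bdP' a s).mono (rad_anti (Nat.zero_le j)) le_rfl⟩

theorem idem_var (H : Calc dg P N Rh Dl L hh τ θ b) (a : α) (s : ℝ) (r : ℕ) {γ : ℝ}
    (hγ : 0 ≤ γ) : Bd dg s r γ
      (opQ dg P Dl (.var a) * opQ dg P Dl (.var a) - opQ dg P Dl (.var a)) := by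
  have e : opQ dg P Dl (.var a) * opQ dg P Dl (.var a) - opQ dg P Dl (.var a) = 0 := by
    rw [opQ, H.idem a, sub_self]
  rw [e]
  exact (Bd_zero_of (by intro v _; exact Matrix.zero_mulVec v)).mono le_rfl hγ

theorem cl_zero (H : Calc dg P N Rh Dl L hh τ θ b) : Cl dg P N Rh Dl L hh τ θ b 0 where
  nrm f s hf hL hs := by
    clear hL hs
    induction f with
    | var a => exact H.nrm_var a s
    | neg f ih =>
      obtain ⟨h1, h2⟩ := ih hf
      refine ⟨h2, ?_⟩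
      rw [opQ, sub_sub_cancel]
      exact h1
    | and f g _ _ => exact absurd hf (by simp [Fm.ah])
  comm f g s hf hg hL hgL _ := by
    clear hL hgL
    have h0 := H.gam_nonneg 0
    induction f with
    | var a =>
      induction g with
      | var c => exact (H.leaf_comm a c s).mono le_rfl h0
      | neg g ih => exact comm_neg_right (ih hg)
      | and g g' _ _ => exact absurd hg (by simp [Fm.ah])
    | neg f ih => exact comm_neg_left (ih hf)
    | and f g _ _ => exact absurd hf (by simp [Fm.ah])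
  idem f s hf hL _ := by
    clear hL
    induction f with
    | var a => exact H.idem_var a s _ (H.gam_nonneg 0)
    | neg f ih => exact idem_neg (ih hf)
    | and f g _ _ => exact absurd hf (by simp [Fm.ah])

section step

variable {j : ℕ} (H : Calc dg P N Rh Dl L hh τ θ b) (C : Cl dg P N Rh Dl L hh τ θ b j)

include H

theorem abs_le_pred {s : ℝ} (hs : |s| ≤ ((hh : ℝ) - (j + 1 : ℕ)) * τ) :
    |s| ≤ ((hh : ℝ) - j) * τ := by
  have h1 := H.tau_nonneg
  push_cast at hs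
  linarith

/-- the error of a conjunction has band `2 Dl` -/
theorem err_band (g h : Fm α) : Band dg (2 * Dl) (opQ dg P Dl g * opQ dg P Dl h -
      trunc dg Dl (opQ dg P Dl g * opQ dg P Dl h)) := by
  have h1 : Band dg (2 * Dl) (opQ dg P Dl g * opQ dg P Dl h) := by
    rw [two_mul]; exact (H.band_opQ g).mul (H.band_opQ h)
  exact h1.sub ((band_trunc Dl _).mono (by omega))

include C

/-- a conjunction, norm before the complement -/
theorem nrm_and {g h : Fm α} (hg : g.ah ≤ j) (hh' : h.ah ≤ j)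
    (hL : g.lv + h.lv ≤ L) {s : ℝ} (hs : |s| ≤ ((hh : ℝ) - (j + 1 : ℕ)) * τ)
    {r : ℕ} (hr : r + Dl ≤ Rad Rh Dl hh j) :
    Bd dg s r (nb θ s g.lv * nb θ s h.lv * (1 + θ)) (opQ dg P Dl (.and g h)) := by
  have hs' := H.abs_le_pred hs
  have hgL : g.lv ≤ L := by omega
  have hhL : h.lv ≤ L := by omega
  have h1 := ((C.nrm g s hg hgL hs').1).mono hr le_rfl
  have h2 := ((C.nrm h s hh' hhL hs').1).mono (show r ≤ _ by omega) le_rfl
  have n1 := one_le_nb H.theta_nonneg s g.lv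
  have n2 := one_le_nb H.theta_nonneg s h.lv
  have h3 := Bd.mul (zero_le_one.trans n1) h1 (H.band_opQ h) h2
  have h4 := H.trunc_err C hg hh' hgL hhL hs hr
  have e : opQ dg P Dl (.and g h) = opQ dg P Dl g * opQ dg P Dl h -
      (opQ dg P Dl g * opQ dg P Dl h - trunc dg Dl (opQ dg P Dl g * opQ dg P Dl h)) := by
    rw [opQ, sub_sub_cancel]
  rw [e]
  refine (h3.sub h4).mono le_rfl ?_
  have h5 := H.epsT_le_theta
  have h6 : 1 ≤ nb θ s g.lv * nb θ s h.lv := one_le_mul_of_one_le_of_one_le n1 n2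
  have h7 := H.theta_nonneg
  nlinarith

theorem idem_succ (f : Fm α) {s : ℝ} (hf : f.ah ≤ j + 1) (hL : f.lv ≤ L)
    (hs : |s| ≤ ((hh : ℝ) - (j + 1 : ℕ)) * τ) {r : ℕ} (hr : r + 3 * Dl ≤ Rad Rh Dl hh j) :
    Bd dg s r (gam N Dl τ b (j + 1)) (opQ dg P Dl f * opQ dg P Dl f - opQ dg P Dl f) := by
  induction f with
  | var a => exact H.idem_var a s _ (H.gam_nonneg _)
  | neg f ih => exact idem_neg (ih hf hL)
  | and g h _ _ =>
    have hg : g.ah ≤ j := by simp only [Fm.ah] at hf; omega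
    have hh' : h.ah ≤ j := by simp only [Fm.ah] at hf; omega
    have hL' : g.lv + h.lv ≤ L := hL
    have hgL : g.lv ≤ L := by omega
    have hhL : h.lv ≤ L := by omega
    have hs' := H.abs_le_pred hs
    have hs'' := H.abs_le hs'
    have hb := H.one_le_b
    have hγ := H.gam_nonneg j
    have hε : 0 ≤ epsT N Dl τ b := epsT_nonneg
    have hε1 : epsT N Dl τ b ≤ 1 := H.epsT_le_theta.trans H.theta_le
    have e : opQ dg P Dl (.and g h) = opQ dg P Dl g * opQ dg P Dl h -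
        (opQ dg P Dl g * opQ dg P Dl h - trunc dg Dl (opQ dg P Dl g * opQ dg P Dl h)) := by
      rw [opQ, sub_sub_cancel]
    rw [e]
    refine (Bd_idem hb hγ hε hε1 (H.band_opQ g)
      (((C.nrm g s hg hgL hs').1).mono hr (H.nb_le hgL hs'')) (H.band_opQ h)
      (((C.nrm h s hh' hhL hs').1).mono (by omega) (H.nb_le hhL hs''))
      (H.err_band g h) (H.trunc_err C hg hh' hgL hhL hs (by omega))
      ((C.comm h g s hh' hg hhL hgL hs').mono (by omega) le_rfl)
      ((C.idem g s hg hgL hs').mono (by omega) le_rfl)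
      ((C.idem h s hh' hhL hs').mono (by omega) le_rfl)).mono le_rfl ?_
    refine le_trans ?_ (H.gam_succ j)
    have hb2 : 0 ≤ b ^ 2 := sq_nonneg b
    nlinarith [mul_nonneg hb2 hγ, mul_nonneg hb2 hε]

theorem nrm_succ (hj : j < hh) (f : Fm α) {s : ℝ} (hf : f.ah ≤ j + 1) (hL : f.lv ≤ L)
    (hs : |s| ≤ ((hh : ℝ) - (j + 1 : ℕ)) * τ) :
    Bd dg s (Rad Rh Dl hh (j + 1)) (nb θ s f.lv) (opQ dg P Dl f) ∧
    Bd dg s (Rad Rh Dl hh (j + 1)) (nb θ s f.lv) (1 - opQ dg P Dl f) := by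
  induction f with
  | var a => exact H.nrm_var a s
  | neg f ih =>
    obtain ⟨h1, h2⟩ := ih hf hL
    refine ⟨h2, ?_⟩
    rw [opQ, sub_sub_cancel]
    exact h1
  | and g h _ _ =>
    have hg : g.ah ≤ j := by simp only [Fm.ah] at hf; omega
    have hh' : h.ah ≤ j := by simp only [Fm.ah] at hf; omega
    have hL' : g.lv + h.lv ≤ L := hL
    have hrad := rad_succ (Rh := Rh) (Dl := Dl) hj
    have h0 := H.theta_nonneg
    have h1' := H.theta_le
    have n1 := one_le_nb h0 s g.lv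
    have n2 := one_le_nb h0 s h.lv
    have n3 : 1 ≤ nb θ s g.lv * nb θ s h.lv := one_le_mul_of_one_le_of_one_le n1 n2
    have hB := H.nrm_and C hg hh' hL' hs (r := Rad Rh Dl hh (j + 1) + Dl) (by omega)
    have hid := H.idem_succ C (.and g h) hf hL hs (r := Rad Rh Dl hh (j + 1)) (by omega)
    have hγ := H.gam_le (j := j + 1) hj
    have hγ0 := H.gam_nonneg (j + 1)
    have e : nb θ s (Fm.and g h).lv = nb θ s g.lv * nb θ s h.lv * (1 + θ) ^ 2 :=
      nb_add θ s g.lv_pos h.lv_pos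
    have hsq : 4 * √(gam N Dl τ b (j + 1)) ≤ θ := by
      have : √(gam N Dl τ b (j + 1)) ≤ θ / 4 := by
        rw [Real.sqrt_le_left (by linarith)]
        calc gam N Dl τ b (j + 1) ≤ θ ^ 2 / 16 := hγ
          _ = (θ / 4) ^ 2 := by ring
      linarith
    rw [e]
    constructor
    · refine hB.mono (by omega) ?_
      nlinarith
    · refine (Bd_not (by nlinarith) hγ0 (by nlinarith) (H.band_opQ _) hB hid).mono le_rfl ?_
      calc nb θ s g.lv * nb θ s h.lv * (1 + θ) * (1 + 4 * √(gam N Dl τ b (j + 1)))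
          ≤ nb θ s g.lv * nb θ s h.lv * (1 + θ) * (1 + θ) := by
            apply mul_le_mul_of_nonneg_left (by linarith)
            nlinarith
        _ = _ := by ring

theorem commA (f g : Fm α) {s : ℝ} (hf : f.ah ≤ j + 1) (hg : g.ah ≤ j)
    (hL : f.lv ≤ L) (hgL : g.lv ≤ L) (hs : |s| ≤ ((hh : ℝ) - (j + 1 : ℕ)) * τ) {r : ℕ}
    (hr : r + 2 * Dl ≤ Rad Rh Dl hh j) :
    Bd dg s r (2 * b * gam N Dl τ b j + 2 * b * epsT N Dl τ b)
      (opQ dg P Dl f * opQ dg P Dl g - opQ dg P Dl g * opQ dg P Dl f) := by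
  have hs' := H.abs_le_pred hs
  have hs'' := H.abs_le hs'
  have hb := H.one_le_b
  have hγ := H.gam_nonneg j
  have hε : 0 ≤ epsT N Dl τ b := epsT_nonneg
  induction f with
  | var a =>
    refine (C.comm (.var a) g s (Nat.zero_le j) hg hL hgL hs').mono (by omega) ?_
    nlinarith
  | neg f ih => exact comm_neg_left (ih hf hL)
  | and f1 f2 _ _ =>
    have h1 : f1.ah ≤ j := by simp only [Fm.ah] at hf; omega
    have h2 : f2.ah ≤ j := by simp only [Fm.ah] at hf; omega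
    have hL' : f1.lv + f2.lv ≤ L := hL
    have h1L : f1.lv ≤ L := by omega
    have h2L : f2.lv ≤ L := by omega
    have e : opQ dg P Dl (.and f1 f2) = opQ dg P Dl f1 * opQ dg P Dl f2 -
        (opQ dg P Dl f1 * opQ dg P Dl f2 - trunc dg Dl (opQ dg P Dl f1 * opQ dg P Dl f2)) := by
      rw [opQ, sub_sub_cancel]
    rw [e]
    exact Bd_comm_left (zero_le_one.trans hb) hγ hε
      (((C.nrm f1 s h1 h1L hs').1).mono hr (H.nb_le h1L hs'')) (H.band_opQ f2)
      (((C.nrm f2 s h2 h2L hs').1).mono (by omega) (H.nb_le h2L hs'')) (H.band_opQ g)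
      (((C.nrm g s hg hgL hs').1).mono hr (H.nb_le hgL hs'')) (H.err_band f1 f2)
      (H.trunc_err C h1 h2 h1L h2L hs (by omega))
      ((C.comm f1 g s h1 hg h1L hgL hs').mono (by omega) le_rfl)
      ((C.comm f2 g s h2 hg h2L hgL hs').mono (by omega) le_rfl)

theorem commB (hj : j < hh) (f g : Fm α) {s : ℝ} (hf : f.ah ≤ j + 1) (hg : g.ah ≤ j + 1)
    (hL : f.lv ≤ L) (hgL : g.lv ≤ L) (hs : |s| ≤ ((hh : ℝ) - (j + 1 : ℕ)) * τ) :
    Bd dg s (Rad Rh Dl hh (j + 1)) (gam N Dl τ b (j + 1))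
      (opQ dg P Dl f * opQ dg P Dl g - opQ dg P Dl g * opQ dg P Dl f) := by
  have hs' := H.abs_le_pred hs
  have hs'' := H.abs_le hs'
  have hb := H.one_le_b
  have hγ := H.gam_nonneg j
  have hε : 0 ≤ epsT N Dl τ b := epsT_nonneg
  have hrad := rad_succ (Rh := Rh) (Dl := Dl) hj
  have hbb : b ≤ b ^ 2 := by nlinarith
  have kA : 2 * b * gam N Dl τ b j + 2 * b * epsT N Dl τ b ≤ gam N Dl τ b (j + 1) := by
    refine le_trans ?_ (H.gam_succ j)
    nlinarith [mul_le_mul_of_nonneg_right hbb hγ, mul_le_mul_of_nonneg_right hbb hε]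
  induction f with
  | var a =>
    exact comm_swap ((H.commA C g (.var a) hg (Nat.zero_le j) hgL hL hs
      (by omega)).mono le_rfl kA)
  | neg f ih => exact comm_neg_left (ih hf hL)
  | and f1 f2 ih1 ih2 =>
    clear ih1 ih2
    induction g with
    | var a =>
      exact (H.commA C (.and f1 f2) (.var a) hf (Nat.zero_le j) hL hgL hs
        (by omega)).mono le_rfl kA
    | neg g ih => exact comm_neg_right (ih hg hgL)
    | and g1 g2 _ _ =>
      have h1 : g1.ah ≤ j := by simp only [Fm.ah] at hg; omega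
      have h2 : g2.ah ≤ j := by simp only [Fm.ah] at hg; omega
      have hL' : g1.lv + g2.lv ≤ L := hgL
      have h1L : g1.lv ≤ L := by omega
      have h2L : g2.lv ≤ L := by omega
      have k1 : f1.ah ≤ j := by simp only [Fm.ah] at hf; omega
      have k2 : f2.ah ≤ j := by simp only [Fm.ah] at hf; omega
      have kL : f1.lv + f2.lv ≤ L := hL
      have hX : Bd dg s (Rad Rh Dl hh (j + 1) + 2 * Dl) b (opQ dg P Dl (.and f1 f2)) := by
        refine (H.nrm_and C k1 k2 kL hs (r := Rad Rh Dl hh (j + 1) + 2 * Dl)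
          (by omega)).mono le_rfl ?_
        refine le_trans ?_ (H.nb_le (l := f1.lv + f2.lv) kL hs'')
        rw [nb_add θ s f1.lv_pos f2.lv_pos]
        have n1 := one_le_nb H.theta_nonneg s f1.lv
        have n2 := one_le_nb H.theta_nonneg s f2.lv
        have n3 : 1 ≤ nb θ s f1.lv * nb θ s f2.lv := one_le_mul_of_one_le_of_one_le n1 n2
        have h0 := H.theta_nonneg
        exact mul_le_mul_of_nonneg_left (by nlinarith) (by linarith)
      have e : opQ dg P Dl (.and g1 g2) = opQ dg P Dl g1 * opQ dg P Dl g2 -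
          (opQ dg P Dl g1 * opQ dg P Dl g2 -
            trunc dg Dl (opQ dg P Dl g1 * opQ dg P Dl g2)) := by
        rw [opQ, sub_sub_cancel]
      apply comm_swap
      rw [e]
      have hγ' : 0 ≤ 2 * b * gam N Dl τ b j + 2 * b * epsT N Dl τ b := by
        have : 0 ≤ b := zero_le_one.trans hb
        positivity
      refine (Bd_comm_left (zero_le_one.trans hb) hγ' hε
        (((C.nrm g1 s h1 h1L hs').1).mono (by omega) (H.nb_le h1L hs'')) (H.band_opQ g2)
        (((C.nrm g2 s h2 h2L hs').1).mono (by omega) (H.nb_le h2L hs''))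
        (H.band_opQ (.and f1 f2)) hX (H.err_band g1 g2)
        (H.trunc_err C h1 h2 h1L h2L hs (by omega))
        (comm_swap (H.commA C (.and f1 f2) g1 hf h1 hL h1L hs (by omega)))
        (comm_swap (H.commA C (.and f1 f2) g2 hf h2 hL h2L hs (by omega)))).mono
          le_rfl ?_
      refine le_trans ?_ (H.gam_succ j)
      nlinarith [mul_le_mul_of_nonneg_right hbb hγ, mul_le_mul_of_nonneg_right hbb hε]

theorem cl_succ (hj : j < hh) : Cl dg P N Rh Dl L hh τ θ b (j + 1) where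
  nrm f s hf hL hs := H.nrm_succ C hj f hf hL hs
  comm f g s hf hg hL hgL hs := H.commB C hj f g hf hg hL hgL hs
  idem f s hf hL hs := H.idem_succ C f hf hL hs (by
    have := rad_succ (Rh := Rh) (Dl := Dl) hj
    omega)

end step

/-- **the claim** -/
theorem cl (H : Calc dg P N Rh Dl L hh τ θ b) : ∀ j ≤ hh, Cl dg P N Rh Dl L hh τ θ b j
  | 0, _ => H.cl_zero
  | j + 1, hj => H.cl_succ (H.cl j (by omega)) hj

/-! ### the output at weight `0` -/

omit [Fintype K] [DecidableEq K] in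
theorem rad_self : Rad Rh Dl hh hh = Rh := by simp [Rad]

omit [DecidableEq K] in
theorem Bd_at_zero {r : ℕ} {c : ℝ} {X : Matrix K K ℝ} (h : Bd dg 0 r c X) {v : K → ℝ}
    (hv : v ∈ Low dg r) : l2 (X.mulVec v) ≤ c * l2 v := by
  have := h v hv
  rwa [conjW_zero] at this

theorem out_nrm (H : Calc dg P N Rh Dl L hh τ θ b) {f : Fm α} (hf : f.ah ≤ hh) (hL : f.lv ≤ L)
    {v : K → ℝ} (hv : v ∈ Low dg Rh) :
    l2 ((opQ dg P Dl f).mulVec v) ≤ (1 + θ) ^ (2 * L) * l2 v := by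
  have h1 := ((H.cl hh le_rfl).nrm f 0 hf hL (by simp)).1
  rw [rad_self] at h1
  refine (Bd_at_zero h1 hv).trans (mul_le_mul_of_nonneg_right ?_ (l2_nonneg v))
  rw [nb, Real.cosh_zero, one_pow, one_mul]
  exact pow_le_pow_right₀ (by linarith [H.theta_nonneg]) (by omega)

theorem out_nrm_neg (H : Calc dg P N Rh Dl L hh τ θ b) {f : Fm α} (hf : f.ah ≤ hh)
    (hL : f.lv ≤ L) {v : K → ℝ} (hv : v ∈ Low dg Rh) :
    l2 ((1 - opQ dg P Dl f).mulVec v) ≤ (1 + θ) ^ (2 * L) * l2 v :=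
  H.out_nrm (f := .neg f) hf hL hv

theorem out_comm (H : Calc dg P N Rh Dl L hh τ θ b) {f g : Fm α} (hf : f.ah ≤ hh)
    (hg : g.ah ≤ hh) (hL : f.lv ≤ L) (hgL : g.lv ≤ L) {v : K → ℝ} (hv : v ∈ Low dg Rh) :
    l2 ((opQ dg P Dl f * opQ dg P Dl g - opQ dg P Dl g * opQ dg P Dl f).mulVec v) ≤
      gam N Dl τ b hh * l2 v := by
  have h1 := (H.cl hh le_rfl).comm f g 0 hf hg hL hgL (by simp)
  rw [rad_self] at h1
  exact Bd_at_zero h1 hv

theorem out_idem (H : Calc dg P N Rh Dl L hh τ θ b) {f : Fm α} (hf : f.ah ≤ hh)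
    (hL : f.lv ≤ L) {v : K → ℝ} (hv : v ∈ Low dg Rh) :
    l2 ((opQ dg P Dl f * opQ dg P Dl f - opQ dg P Dl f).mulVec v) ≤
      gam N Dl τ b hh * l2 v := by
  have h1 := (H.cl hh le_rfl).idem f 0 hf hL (by simp)
  rw [rad_self] at h1
  exact Bd_at_zero h1 hv

/-- the truncation error at weight `0` -/
theorem out_err (H : Calc dg P N Rh Dl L hh τ θ b) {g h : Fm α}
    (hf : (Fm.and g h).ah ≤ hh) (hL : (Fm.and g h).lv ≤ L) {v : K → ℝ} (hv : v ∈ Low dg Rh) :
    l2 ((opQ dg P Dl g * opQ dg P Dl h - opQ dg P Dl (.and g h)).mulVec v) ≤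
      epsT N Dl τ b * l2 v := by
  have hf' : max g.ah h.ah + 1 ≤ hh := hf
  have hL' : g.lv + h.lv ≤ L := hL
  obtain ⟨j, rfl⟩ : ∃ j, hh = j + 1 := ⟨hh - 1, by omega⟩
  have C := H.cl j (by omega)
  have hrad := rad_succ (Rh := Rh) (Dl := Dl) (hh := j + 1) (j := j) (by omega)
  rw [rad_self] at hrad
  have h1 := H.trunc_err C (g := g) (h := h) (by omega) (by omega) (by omega) (by omega)
    (s := 0) (by simp) (r := Rh) (by omega)
  exact Bd_at_zero h1 hv

end Calc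

end Pool.Agent.EFT
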