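import Pool.Agent.Lib.EFT.NotLemma

/-!
# Graded operators on `ℝ^K` (row R3 of project EF, helper15)

`K` is a finite set with a degree function `dg`.  Operators are matrices.  `conjW dg s X` is
`E_s X E_(-s)` with `E_s = diag (exp (s * dg))`.
-/

set_option autoImplicit false

open Finset Matrix

namespace Pool.Agent.EFT

variable {K : Type*} [Fintype K]

/-- the euclidean norm -/
noncomputable def l2 (v : K → ℝ) : ℝ := √(∑ k, v k ^ 2)

theorem l2_eq_norm (v : K → ℝ) : l2 v = ‖(WithLp.toLp 2 v : EuclideanSpace ℝ K)‖ := by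
  rw [EuclideanSpace.norm_eq, l2]
  simp

theorem l2_nonneg (v : K → ℝ) : 0 ≤ l2 v := Real.sqrt_nonneg _

theorem l2_sq (v : K → ℝ) : l2 v ^ 2 = ∑ k, v k ^ 2 :=
  Real.sq_sqrt (Finset.sum_nonneg fun _ _ => sq_nonneg _)

theorem l2_add_le (v w : K → ℝ) : l2 (v + w) ≤ l2 v + l2 w := by
  rw [l2_eq_norm, l2_eq_norm, l2_eq_norm, WithLp.toLp_add]
  exact norm_add_le _ _

theorem l2_smul (a : ℝ) (v : K → ℝ) : l2 (a • v) = |a| * l2 v := by
  rw [l2_eq_norm, l2_eq_norm, WithLp.toLp_smul, norm_smul, Real.norm_eq_abs]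

theorem l2_neg (v : K → ℝ) : l2 (-v) = l2 v := by
  rw [l2_eq_norm, l2_eq_norm, WithLp.toLp_neg, norm_neg]

theorem l2_sub_le (v w : K → ℝ) : l2 (v - w) ≤ l2 v + l2 w := by
  rw [sub_eq_add_neg, ← l2_neg w]; exact l2_add_le _ _

theorem l2_sum_le {ι : Type*} (s : Finset ι) (f : ι → K → ℝ) :
    l2 (∑ i ∈ s, f i) ≤ ∑ i ∈ s, l2 (f i) := by
  classical
  induction s using Finset.induction_on with
  | empty => simp [l2]
  | insert a s ha ih =>
    rw [Finset.sum_insert ha, Finset.sum_insert ha]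
    exact (l2_add_le _ _).trans (add_le_add le_rfl ih)

section low
variable (dg : K → ℕ)

/-- the vectors supported in degrees `≤ r` -/
def Low (r : ℕ) : Submodule ℝ (K → ℝ) where
  carrier := {v | ∀ k, r < dg k → v k = 0}
  add_mem' {v w} hv hw k hk := by simp [hv k hk, hw k hk]
  zero_mem' _ _ := rfl
  smul_mem' a v hv k hk := by simp [hv k hk]

variable {dg}

omit [Fintype K] in
theorem mem_Low {r : ℕ} {v : K → ℝ} : v ∈ Low dg r ↔ ∀ k, r < dg k → v k = 0 := Iff.rfl

omit [Fintype K] in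
theorem Low_mono {r r' : ℕ} (h : r ≤ r') : Low dg r ≤ Low dg r' :=
  fun _ hv k hk => hv k (h.trans_lt hk)

variable (dg)

/-- `E_s X E_(-s)` -/
noncomputable def conjW (s : ℝ) (X : Matrix K K ℝ) : Matrix K K ℝ :=
  fun i j => Real.exp (s * ((dg i : ℝ) - dg j)) * X i j

/-- the entries vanish unless the degrees differ by at most `D` -/
def Band (D : ℕ) (X : Matrix K K ℝ) : Prop :=
  ∀ i j, X i j ≠ 0 → dg i ≤ dg j + D ∧ dg j ≤ dg i + D

/-- the part of band `D` -/
def trunc (D : ℕ) (X : Matrix K K ℝ) : Matrix K K ℝ :=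
  fun i j => if dg i ≤ dg j + D ∧ dg j ≤ dg i + D then X i j else 0

/-- `‖E_s X E_(-s) v‖ ≤ b ‖v‖` for `v` of degree `≤ r` -/
def Bd (s : ℝ) (r : ℕ) (b : ℝ) (X : Matrix K K ℝ) : Prop :=
  ∀ v ∈ Low dg r, l2 ((conjW dg s X).mulVec v) ≤ b * l2 v

variable {dg}

theorem conjW_mul (s : ℝ) (X Y : Matrix K K ℝ) :
    conjW dg s (X * Y) = conjW dg s X * conjW dg s Y := by
  ext i j
  simp only [conjW, Matrix.mul_apply, Finset.mul_sum]
  refine Finset.sum_congr rfl fun k _ => ?_
  have : Real.exp (s * ((dg i : ℝ) - dg j)) =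
      Real.exp (s * ((dg i : ℝ) - dg k)) * Real.exp (s * ((dg k : ℝ) - dg j)) := by
    rw [← Real.exp_add]; congr 1; ring
  rw [this]; ring

omit [Fintype K] in
theorem conjW_add (s : ℝ) (X Y : Matrix K K ℝ) :
    conjW dg s (X + Y) = conjW dg s X + conjW dg s Y := by
  ext i j; simp only [conjW, Matrix.add_apply]; ring

omit [Fintype K] in
theorem conjW_sub (s : ℝ) (X Y : Matrix K K ℝ) :
    conjW dg s (X - Y) = conjW dg s X - conjW dg s Y := by
  ext i j; simp only [conjW, Matrix.sub_apply]; ring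

omit [Fintype K] in
theorem conjW_neg (s : ℝ) (X : Matrix K K ℝ) : conjW dg s (-X) = -conjW dg s X := by
  ext i j; simp only [conjW, Matrix.neg_apply]; ring

omit [Fintype K] in
theorem conjW_one [DecidableEq K] (s : ℝ) : conjW dg s (1 : Matrix K K ℝ) = 1 := by
  ext i j
  simp only [conjW, Matrix.one_apply]
  by_cases h : i = j
  · subst h; simp
  · simp [h]

omit [Fintype K] in
theorem conjW_zero (X : Matrix K K ℝ) : conjW dg 0 X = X := by
  ext i j; simp [conjW]

omit [Fintype K] in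
theorem conjW_apply_ne {s : ℝ} {X : Matrix K K ℝ} {i j : K} (h : conjW dg s X i j ≠ 0) :
    X i j ≠ 0 := by
  intro h0; apply h; simp [conjW, h0]

omit [Fintype K] in
theorem Band.conjW {D : ℕ} {X : Matrix K K ℝ} (h : Band dg D X) (s : ℝ) :
    Band dg D (conjW dg s X) := fun i j hij => h i j (conjW_apply_ne hij)

omit [Fintype K] in
theorem band_trunc (D : ℕ) (X : Matrix K K ℝ) : Band dg D (trunc dg D X) := by
  intro i j h
  by_contra h'
  exact h (if_neg h')

omit [Fintype K] in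
theorem Band.mono {D D' : ℕ} (hD : D ≤ D') {X : Matrix K K ℝ} (h : Band dg D X) :
    Band dg D' X := fun i j hij => ⟨(h i j hij).1.trans (by omega), (h i j hij).2.trans (by omega)⟩

omit [Fintype K] in
theorem band_one [DecidableEq K] (D : ℕ) : Band dg D (1 : Matrix K K ℝ) := by
  intro i j h
  have : i = j := by
    by_contra h'
    exact h (by simp [h'])
  subst this
  exact ⟨by omega, by omega⟩

omit [Fintype K] in
theorem Band.sub {D : ℕ} {X Y : Matrix K K ℝ} (h : Band dg D X) (h' : Band dg D Y) :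
    Band dg D (X - Y) := by
  intro i j hij
  by_cases h0 : X i j = 0
  · refine h' i j fun h1 => hij ?_
    simp [h0, h1]
  · exact h i j h0

omit [Fintype K] in
theorem Band.add {D : ℕ} {X Y : Matrix K K ℝ} (h : Band dg D X) (h' : Band dg D Y) :
    Band dg D (X + Y) := by
  intro i j hij
  by_cases h0 : X i j = 0
  · refine h' i j fun h1 => hij ?_
    simp [h0, h1]
  · exact h i j h0

theorem Band.mul {D D' : ℕ} {X Y : Matrix K K ℝ} (h : Band dg D X) (h' : Band dg D' Y) :
    Band dg (D + D') (X * Y) := by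
  intro i j hij
  rw [Matrix.mul_apply] at hij
  obtain ⟨k, -, hk⟩ := Finset.exists_ne_zero_of_sum_ne_zero hij
  obtain ⟨h1, h2⟩ := h i k (left_ne_zero_of_mul hk)
  obtain ⟨h3, h4⟩ := h' k j (right_ne_zero_of_mul hk)
  exact ⟨by omega, by omega⟩

theorem Band.mulVec {D : ℕ} {X : Matrix K K ℝ} (h : Band dg D X) {r : ℕ} {v : K → ℝ}
    (hv : v ∈ Low dg r) : X.mulVec v ∈ Low dg (r + D) := by
  intro i hi
  rw [Matrix.mulVec, dotProduct]
  refine Finset.sum_eq_zero fun j _ => ?_
  by_cases h0 : X i j = 0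
  · rw [h0, zero_mul]
  · rw [hv j (by have := (h i j h0).1; omega), mul_zero]

omit [Fintype K] in
theorem Band.of_not {D : ℕ} {X : Matrix K K ℝ} : trunc dg D X = X ↔ Band dg D X := by
  constructor
  · intro h; rw [← h]; exact band_trunc D X
  · intro h
    ext i j
    by_cases h0 : dg i ≤ dg j + D ∧ dg j ≤ dg i + D
    · exact if_pos h0
    · rw [trunc, if_neg h0]
      by_contra h1
      exact h0 (h i j (Ne.symm h1))

/-! ### bounds -/

theorem Bd.mono {s : ℝ} {r r' : ℕ} {b b' : ℝ} {X : Matrix K K ℝ} (h : Bd dg s r' b X)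
    (hr : r ≤ r') (hb : b ≤ b') : Bd dg s r b' X := fun v hv =>
  (h v (Low_mono hr hv)).trans (mul_le_mul_of_nonneg_right hb (l2_nonneg v))

theorem Bd.add {s : ℝ} {r : ℕ} {b b' : ℝ} {X Y : Matrix K K ℝ} (h : Bd dg s r b X)
    (h' : Bd dg s r b' Y) : Bd dg s r (b + b') (X + Y) := by
  intro v hv
  rw [conjW_add, Matrix.add_mulVec, add_mul]
  exact (l2_add_le _ _).trans (add_le_add (h v hv) (h' v hv))

theorem Bd.sub {s : ℝ} {r : ℕ} {b b' : ℝ} {X Y : Matrix K K ℝ} (h : Bd dg s r b X)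
    (h' : Bd dg s r b' Y) : Bd dg s r (b + b') (X - Y) := by
  intro v hv
  rw [conjW_sub, Matrix.sub_mulVec, add_mul]
  exact (l2_sub_le _ _).trans (add_le_add (h v hv) (h' v hv))

theorem Bd.neg {s : ℝ} {r : ℕ} {b : ℝ} {X : Matrix K K ℝ} (h : Bd dg s r b X) :
    Bd dg s r b (-X) := by
  intro v hv
  rw [conjW_neg, Matrix.neg_mulVec, l2_neg]
  exact h v hv

theorem Bd.one [DecidableEq K] {s : ℝ} {r : ℕ} : Bd dg s r 1 (1 : Matrix K K ℝ) := by
  intro v _
  rw [conjW_one, Matrix.one_mulVec, one_mul]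

theorem Bd.mul {s : ℝ} {r D : ℕ} {a b : ℝ} {X Y : Matrix K K ℝ} (ha : 0 ≤ a)
    (h : Bd dg s (r + D) a X) (hY : Band dg D Y) (h' : Bd dg s r b Y) :
    Bd dg s r (a * b) (X * Y) := by
  intro v hv
  rw [conjW_mul, ← Matrix.mulVec_mulVec]
  calc l2 ((conjW dg s X).mulVec ((conjW dg s Y).mulVec v))
      ≤ a * l2 ((conjW dg s Y).mulVec v) := h _ ((hY.conjW s).mulVec hv)
    _ ≤ a * (b * l2 v) := mul_le_mul_of_nonneg_left (h' v hv) ha
    _ = a * b * l2 v := by ring

theorem Bd.sum {ι : Type*} (S : Finset ι) {s : ℝ} {r : ℕ} {b : ι → ℝ} {X : ι → Matrix K K ℝ}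
    (h : ∀ i ∈ S, Bd dg s r (b i) (X i)) : Bd dg s r (∑ i ∈ S, b i) (∑ i ∈ S, X i) := by
  classical
  induction S using Finset.induction_on with
  | empty =>
    intro v _
    have : conjW dg s (0 : Matrix K K ℝ) = 0 := by ext i j; simp [conjW]
    simp [this, l2]
  | insert a S ha ih =>
    rw [Finset.sum_insert ha, Finset.sum_insert ha]
    exact (h a (Finset.mem_insert_self _ _)).add
      (ih fun i hi => h i (Finset.mem_insert_of_mem hi))

variable (dg) in
/-- the block of degree shift `i` -/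
def blk (i : ℤ) (X : Matrix K K ℝ) : Matrix K K ℝ :=
  fun a c => if (dg a : ℤ) = dg c + i then X a c else 0

theorem l2_blk_le {r : ℕ} {b : ℝ} (hb : 0 ≤ b) {Y : Matrix K K ℝ}
    (hY : ∀ v ∈ Low dg r, l2 (Y.mulVec v) ≤ b * l2 v) (i : ℤ) {v : K → ℝ} (hv : v ∈ Low dg r) :
    l2 ((blk dg i Y).mulVec v) ≤ b * l2 v := by
  classical
  rw [l2]
  refine Real.sqrt_le_iff.mpr ⟨mul_nonneg hb (l2_nonneg v), ?_⟩
  set T : Finset ℕ := Finset.univ.image dg with hT
  set w : ℕ → K → ℝ := fun m c => if dg c = m then v c else 0 with hw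
  have hwL : ∀ m, w m ∈ Low dg r := fun m k hk => by
    simp only [hw]; rw [hv k hk, ite_self]
  have h1 : ∀ a, ((blk dg i Y).mulVec v a) ^ 2 ≤ ∑ m ∈ T, ((Y.mulVec (w m)) a) ^ 2 := by
    intro a
    by_cases ha : ∃ m ∈ T, (dg a : ℤ) = m + i
    · obtain ⟨m, hm, hma⟩ := ha
      have e : (blk dg i Y).mulVec v a = (Y.mulVec (w m)) a := by
        simp only [Matrix.mulVec, dotProduct, blk, hw]
        refine Finset.sum_congr rfl fun c _ => ?_
        by_cases hc : dg c = m
        · have : (dg a : ℤ) = dg c + i := by rw [hc]; exact hma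
          rw [if_pos this, if_pos hc]
        · have : ¬ (dg a : ℤ) = dg c + i := by intro h; apply hc; omega
          rw [if_neg this, if_neg hc, zero_mul, mul_zero]
      rw [e]
      exact Finset.single_le_sum (f := fun m => ((Y.mulVec (w m)) a) ^ 2)
        (fun _ _ => sq_nonneg _) hm
    · have e : (blk dg i Y).mulVec v a = 0 := by
        simp only [Matrix.mulVec, dotProduct, blk]
        refine Finset.sum_eq_zero fun c _ => ?_
        rw [if_neg, zero_mul]
        intro h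
        exact ha ⟨dg c, Finset.mem_image_of_mem _ (Finset.mem_univ c), h⟩
      rw [e]
      have : (0 : ℝ) ≤ ∑ m ∈ T, ((Y.mulVec (w m)) a) ^ 2 :=
        Finset.sum_nonneg fun _ _ => sq_nonneg _
      simpa using this
  have h2 : ∀ m, l2 (w m) ^ 2 = ∑ c, if dg c = m then v c ^ 2 else 0 := by
    intro m
    rw [l2_sq]
    refine Finset.sum_congr rfl fun c _ => ?_
    simp only [hw]
    split_ifs <;> simp
  calc ∑ a, ((blk dg i Y).mulVec v a) ^ 2
      ≤ ∑ a, ∑ m ∈ T, ((Y.mulVec (w m)) a) ^ 2 := Finset.sum_le_sum fun a _ => h1 a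
    _ = ∑ m ∈ T, l2 (Y.mulVec (w m)) ^ 2 := by
        rw [Finset.sum_comm]
        exact Finset.sum_congr rfl fun m _ => (l2_sq _).symm
    _ ≤ ∑ m ∈ T, (b * l2 (w m)) ^ 2 := Finset.sum_le_sum fun m _ =>
        pow_le_pow_left₀ (l2_nonneg _) (hY _ (hwL m)) 2
    _ = b ^ 2 * ∑ m ∈ T, ∑ c, if dg c = m then v c ^ 2 else 0 := by
        rw [Finset.mul_sum]
        exact Finset.sum_congr rfl fun m _ => by rw [mul_pow, h2]
    _ = b ^ 2 * ∑ c, v c ^ 2 := by
        rw [Finset.sum_comm]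
        congr 1
        refine Finset.sum_congr rfl fun c _ => ?_
        rw [Finset.sum_ite_eq, if_pos (Finset.mem_image_of_mem _ (Finset.mem_univ c))]
    _ = (b * l2 v) ^ 2 := by rw [mul_pow, l2_sq]

theorem Bd.blk {s τ : ℝ} {r : ℕ} {b : ℝ} (hb : 0 ≤ b) {X : Matrix K K ℝ}
    (h : Bd dg (s + τ) r b X) (i : ℤ) :
    Bd dg s r (b * Real.exp (-(τ * i))) (blk dg i X) := by
  intro v hv
  have e : conjW dg s (EFT.blk dg i X) =
      Real.exp (-(τ * i)) • EFT.blk dg i (conjW dg (s + τ) X) := by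
    ext a c
    simp only [conjW, EFT.blk, Matrix.smul_apply, smul_eq_mul]
    by_cases hac : (dg a : ℤ) = dg c + i
    · rw [if_pos hac, if_pos hac]
      have h1 : ((dg a : ℝ) - dg c) = i := by
        have : (dg a : ℝ) = dg c + i := by exact_mod_cast hac
        rw [this]; ring
      rw [h1, ← mul_assoc, ← Real.exp_add]
      congr 2; ring
    · rw [if_neg hac, if_neg hac]; simp
  rw [e, Matrix.smul_mulVec, l2_smul, abs_of_pos (Real.exp_pos _)]
  calc Real.exp (-(τ * i)) * l2 ((EFT.blk dg i (conjW dg (s + τ) X)).mulVec v)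
      ≤ Real.exp (-(τ * i)) * (b * l2 v) :=
        mul_le_mul_of_nonneg_left (l2_blk_le hb h i hv) (Real.exp_pos _).le
    _ = b * Real.exp (-(τ * i)) * l2 v := by ring

omit [Fintype K] in
theorem sub_trunc_eq_sum {N D : ℕ} (hN : ∀ k, dg k ≤ N) (X : Matrix K K ℝ) :
    X - trunc dg D X =
      ∑ i ∈ (Finset.Icc (-(N : ℤ)) N).filter (fun i => (D : ℤ) < |i|), blk dg i X := by
  ext a c
  rw [Matrix.sub_apply, Matrix.sum_apply]
  simp only [blk, trunc]
  have hNa := hN a
  have hNc := hN c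
  by_cases h : dg a ≤ dg c + D ∧ dg c ≤ dg a + D
  · rw [if_pos h, sub_self]
    symm
    refine Finset.sum_eq_zero fun i hi => ?_
    rw [if_neg]
    intro h'
    have := (Finset.mem_filter.mp hi).2
    rw [lt_abs] at this
    omega
  · rw [if_neg h, sub_zero]
    symm
    rw [Finset.sum_eq_single ((dg a : ℤ) - dg c)]
    · rw [if_pos (by ring)]
    · intro i _ hi
      rw [if_neg]
      intro h'
      apply hi
      omega
    · intro h'
      exfalso
      apply h'
      rw [Finset.mem_filter, Finset.mem_Icc, lt_abs]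
      omega

/-- **block lemma**: the part of `X` outside the band `D` is tiny. -/
theorem Bd_sub_trunc {s τ : ℝ} {r N D : ℕ} {b : ℝ} {X : Matrix K K ℝ} (hN : ∀ k, dg k ≤ N)
    (hb : 0 ≤ b) (hτ : 0 ≤ τ) (h1 : Bd dg (s + τ) r b X) (h2 : Bd dg (s - τ) r b X) :
    Bd dg s r (2 * N * b * Real.exp (-(τ * D))) (X - trunc dg D X) := by
  rw [sub_trunc_eq_sum hN]
  set S := (Finset.Icc (-(N : ℤ)) N).filter (fun i => (D : ℤ) < |i|) with hS
  have hcard : (S.card : ℝ) ≤ 2 * N := by
    have h3 : S ⊆ (Finset.Icc (-(N : ℤ)) N).erase 0 := by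
      intro i hi
      rw [hS, Finset.mem_filter] at hi
      rw [Finset.mem_erase]
      refine ⟨?_, hi.1⟩
      rintro rfl
      have := hi.2
      simp at this
      omega
    have h4 := Finset.card_le_card h3
    rw [Finset.card_erase_of_mem (by rw [Finset.mem_Icc]; omega), Int.card_Icc] at h4
    have h5 : S.card ≤ 2 * N := by omega
    exact_mod_cast h5
  have h3 : ∀ i ∈ S, Bd dg s r (b * Real.exp (-(τ * D))) (EFT.blk dg i X) := by
    intro i hi
    have hi' := (Finset.mem_filter.mp hi).2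
    rw [lt_abs] at hi'
    rcases hi' with hi' | hi'
    · refine (Bd.blk hb h1 i).mono le_rfl ?_
      apply mul_le_mul_of_nonneg_left _ hb
      apply Real.exp_le_exp.mpr
      have : (D : ℝ) ≤ i := by exact_mod_cast hi'.le
      nlinarith
    · rw [sub_eq_add_neg] at h2
      refine (Bd.blk hb h2 i).mono le_rfl ?_
      apply mul_le_mul_of_nonneg_left _ hb
      apply Real.exp_le_exp.mpr
      have : (D : ℝ) ≤ -i := by exact_mod_cast hi'.le
      nlinarith
  refine (Bd.sum S h3).mono le_rfl ?_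
  rw [Finset.sum_const, nsmul_eq_mul]
  have : 0 ≤ b * Real.exp (-(τ * D)) := by positivity
  calc (S.card : ℝ) * (b * Real.exp (-(τ * D))) ≤ (2 * N) * (b * Real.exp (-(τ * D))) :=
        mul_le_mul_of_nonneg_right hcard this
    _ = _ := by ring

/-- **the complement**: `1 - X` has almost the norm of the almost idempotent `X`. -/
theorem Bd_not [DecidableEq K] {s : ℝ} {r D : ℕ} {B η : ℝ} {X : Matrix K K ℝ} (hB : 1 ≤ B)
    (hη0 : 0 ≤ η) (hη : η ≤ 1 / 4) (hX : Band dg D X) (h : Bd dg s (r + D) B X)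
    (hid : Bd dg s r η (X * X - X)) : Bd dg s r (B * (1 + 4 * √η)) (1 - X) := by
  intro v hv
  set e := WithLp.linearEquiv 2 ℝ (K → ℝ) with he
  set Y : EuclideanSpace ℝ K →ₗ[ℝ] EuclideanSpace ℝ K :=
    e.symm.toLinearMap ∘ₗ (conjW dg s X).mulVecLin ∘ₗ e.toLinearMap with hY
  have hYv : ∀ u : K → ℝ, Y (WithLp.toLp 2 u) = WithLp.toLp 2 ((conjW dg s X).mulVec u) :=
    fun u => rfl
  have key := not_lemma (L0 := (Low dg r).comap e.toLinearMap)
    (L1 := (Low dg (r + D)).comap e.toLinearMap) Y hB hη0 hη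
    (fun u hu => Low_mono (Nat.le_add_right r D) hu)
    (fun u hu => (hX.conjW s).mulVec hu)
    (fun u hu => by
      have := h u.ofLp hu
      rwa [l2_eq_norm, l2_eq_norm] at this)
    (fun u hu => by
      have := hid u.ofLp hu
      rw [conjW_sub, conjW_mul, Matrix.sub_mulVec, ← Matrix.mulVec_mulVec, l2_eq_norm,
        l2_eq_norm] at this
      exact this) (v := WithLp.toLp 2 v) hv
  rw [conjW_sub, conjW_one, Matrix.sub_mulVec, Matrix.one_mulVec, l2_eq_norm, l2_eq_norm]
  exact key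

end low

end Pool.Agent.EFT
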