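import Pool.Agent.Lib.EFT.World
import Pool.Agent.Lib.EFT.Graded

/-!
# EF project (MP_e81270): leaf operators, clauses, conjugated norms (row R2; helper18)
-/

namespace Pool.Agent.EFT

open Finset

noncomputable section

namespace World

variable {V E : Type} [Fintype V] [Fintype E]

open Classical in
/-- indicator vector of one edge (or vertex) -/
def one {A : Type} (e : A) : A → ZMod 2 := fun e' => if e' = e then 1 else 0

lemma wt_one {A : Type} [Fintype A] (e : A) : wt (one e) = 1 := by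
  classical
  unfold wt one
  rw [Finset.card_eq_one]
  refine ⟨e, ?_⟩
  ext e'
  simp only [mem_filter, mem_univ, true_and, mem_singleton]
  by_cases h : e' = e <;> simp [h]

open Classical in
/-- basis vectors -/
def dl (G : World V E) (s : G.K) : G.Hs := WithLp.toLp 2 fun t => if t = s then (1 : ℝ) else 0

lemma dl_self (G : World V E) (s : G.K) : G.dl s s = 1 := if_pos rfl

lemma dl_ne (G : World V E) {s t : G.K} (h : t ≠ s) : G.dl s t = 0 := if_neg h

lemma dl_low (G : World V E) (s : G.K) : G.dl s ∈ G.Low (G.deg s) := by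
  intro t ht
  apply dl_ne
  rintro rfl
  exact lt_irrefl _ ht

lemma dl_zero_low (G : World V E) (r : ℕ) : G.dl 0 ∈ G.Low r := by
  intro t ht
  apply dl_ne
  rintro rfl
  rw [deg_zero] at ht
  exact Nat.not_lt_zero _ ht

lemma norm_dl (G : World V E) (s : G.K) : ‖G.dl s‖ = 1 := by
  rw [EuclideanSpace.norm_eq, Finset.sum_eq_single s]
  · rw [dl_self]; simp
  · intro t _ ht; rw [G.dl_ne ht]; simp
  · intro h; exact absurd (mem_univ _) h

lemma low_mono (G : World V E) {r r' : ℕ} (h : r ≤ r') : G.Low r ≤ G.Low r' :=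
  fun _ hv s hs => hv s (lt_of_le_of_lt h hs)

/-- `Z_T` on basis vectors -/
lemma Z_dl (G : World V E) (T : E → ZMod 2) (s : G.K) :
    G.Z T (G.dl s) = G.zs T s • G.dl (s + G.cls T) := by
  ext t
  rw [Z_apply, PiLp.smul_apply, smul_eq_mul]
  by_cases h : t = s + G.cls T
  · have h2 : t + G.cls T = s := by rw [h, add_assoc, K_add_self, add_zero]
    rw [h2, h, dl_self, dl_self, zs_symm]
  · have h2 : t + G.cls T ≠ s := by
      rintro rfl
      apply h
      rw [add_assoc, K_add_self, add_zero]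
    rw [G.dl_ne h2, G.dl_ne h, mul_zero, mul_zero]

/-- the leaf operator `P_e = (1 - Z_e)/2` -/
def P (G : World V E) (e : E) : G.Hs →ₗ[ℝ] G.Hs :=
  (1 / 2 : ℝ) • (LinearMap.id - G.Z (one e))

lemma P_apply (G : World V E) (e : E) (v : G.Hs) :
    G.P e v = (1 / 2 : ℝ) • (v - G.Z (one e) v) := rfl

lemma P_idem (G : World V E) (e : E) (v : G.Hs) : G.P e (G.P e v) = G.P e v := by
  rw [P_apply, P_apply, map_smul, map_sub, Z_Z]
  module

lemma P_low (G : World V E) {e : E} {r : ℕ} {v : G.Hs} (hv : v ∈ G.Low r) :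
    G.P e v ∈ G.Low (r + 1) := by
  rw [P_apply]
  refine Submodule.smul_mem _ _ (Submodule.sub_mem _ (G.low_mono (Nat.le_succ r) hv) ?_)
  have := G.Z_low (T := one e) hv
  rwa [wt_one] at this

lemma P_comm (G : World V E) {e e' : E} {r : ℕ} {v : G.Hs} (hv : v ∈ G.Low r)
    (h : 8 * G.Lam * (r + 2) < Fintype.card V) : G.P e (G.P e' v) = G.P e' (G.P e v) := by
  have := G.W5_comm (T := one e) (T' := one e') hv (by rw [wt_one, wt_one]; exact h)
  rw [P_apply, P_apply, P_apply, P_apply, map_smul, map_smul, map_sub, map_sub, this]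
  module

/-! ### (W7) -/

/-- `E_x = diag (exp (x deg))` -/
def Ex (G : World V E) (x : ℝ) : G.Hs →ₗ[ℝ] G.Hs where
  toFun v := WithLp.toLp 2 fun s => Real.exp (x * G.deg s) * v s
  map_add' u v := by ext s; simp [mul_add]
  map_smul' c v := by ext s; simp; ring

lemma Ex_apply (G : World V E) (x : ℝ) (v : G.Hs) (s : G.K) :
    G.Ex x v s = Real.exp (x * G.deg s) * v s := rfl

lemma Ex_Ex (G : World V E) (x y : ℝ) (v : G.Hs) : G.Ex x (G.Ex y v) = G.Ex (x + y) v := by
  ext s
  rw [Ex_apply, Ex_apply, Ex_apply, ← mul_assoc, ← Real.exp_add, add_mul]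

lemma Ex_zero (G : World V E) (v : G.Hs) : G.Ex 0 v = v := by
  ext s
  rw [Ex_apply, zero_mul, Real.exp_zero, one_mul]

lemma Ex_low (G : World V E) {x : ℝ} {r : ℕ} {v : G.Hs} (hv : v ∈ G.Low r) :
    G.Ex x v ∈ G.Low r := by
  intro s hs
  rw [Ex_apply, hv s hs, mul_zero]

lemma norm_sq_eq (G : World V E) (v : G.Hs) : ‖v‖ ^ 2 = ∑ s, v s ^ 2 := by
  rw [EuclideanSpace.norm_sq_eq]
  simp

private lemma pair_bound {a b z q : ℝ} (hz : z * z = 1) (hq : 0 < q) :
    ((a - z * q * b) / 2) ^ 2 + ((b - z * q⁻¹ * a) / 2) ^ 2 ≤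
      ((q + q⁻¹) / 2) ^ 2 * (a ^ 2 + b ^ 2) := by
  have h1 : b - z * q⁻¹ * a = q⁻¹ * z * (z * q * b - a) := by
    field_simp
    linear_combination (-b * q) * hz
  have h2 : (q⁻¹ * z * (z * q * b - a)) ^ 2 = (q⁻¹) ^ 2 * (a - z * q * b) ^ 2 := by
    linear_combination ((q⁻¹) ^ 2 * (a - z * q * b) ^ 2) * hz
  have h3 : (a - z * q * b) ^ 2 ≤ (1 + q ^ 2) * (a ^ 2 + b ^ 2) := by
    have : (1 + q ^ 2) * (a ^ 2 + b ^ 2) - (a - z * q * b) ^ 2 = (z * q * a + b) ^ 2 +
        (1 - z * z) * (q ^ 2 * (a ^ 2 + b ^ 2)) := by ring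
    rw [hz] at this
    nlinarith [sq_nonneg (z * q * a + b)]
  have h4 : ((q + q⁻¹) / 2) ^ 2 = (1 + q⁻¹ ^ 2) * (1 + q ^ 2) / 4 := by
    field_simp
    ring
  rw [div_pow, div_pow, h1, h2, h4]
  have h5 : 0 ≤ 1 + q⁻¹ ^ 2 := by positivity
  have := mul_le_mul_of_nonneg_left h3 h5
  nlinarith

/-- general form: `(v + c Z_e v)/2`, `c = ±1` -/
lemma W7_aux (G : World V E) (e : E) (c : ℝ) (hc : c * c = 1) (x : ℝ) (v : G.Hs) :
    ‖G.Ex x ((1 / 2 : ℝ) • (G.Ex (-x) v - c • G.Z (one e) (G.Ex (-x) v)))‖ ≤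
      Real.cosh x * ‖v‖ := by
  set w := G.Ex x ((1 / 2 : ℝ) • (G.Ex (-x) v - c • G.Z (one e) (G.Ex (-x) v))) with hw
  have hval : ∀ s, w s = (v s - (c * G.zs (one e) s) *
      Real.exp (x * ((G.deg s : ℝ) - G.deg (s + G.cls (one e)))) * v (s + G.cls (one e))) / 2 := by
    intro s
    rw [hw, Ex_apply, PiLp.smul_apply, PiLp.sub_apply, PiLp.smul_apply, Z_apply, Ex_apply,
      Ex_apply, smul_eq_mul, smul_eq_mul, mul_sub x, sub_eq_add_neg (x * _), Real.exp_add]
    have h1 : Real.exp (x * G.deg s) * Real.exp (-x * G.deg s) = 1 := by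
      rw [← Real.exp_add, neg_mul, add_neg_cancel, Real.exp_zero]
    have h2 : Real.exp (-x * G.deg (s + G.cls (one e))) =
        Real.exp (-(x * G.deg (s + G.cls (one e)))) := by rw [neg_mul]
    rw [h2]
    linear_combination (v s / 2) * h1
  have hdeg : ∀ s, |(G.deg s : ℝ) - G.deg (s + G.cls (one e))| ≤ 1 := by
    intro s
    have h1 := G.deg_add_le s (one e)
    have h2 := G.deg_add_le (s + G.cls (one e)) (one e)
    rw [add_assoc, K_add_self, add_zero] at h2
    rw [wt_one] at h1 h2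
    rw [abs_le]
    constructor
    · have : (G.deg (s + G.cls (one e)) : ℝ) ≤ G.deg s + 1 := by exact_mod_cast h1
      linarith
    · have : (G.deg s : ℝ) ≤ G.deg (s + G.cls (one e)) + 1 := by exact_mod_cast h2
      linarith
  have hpair : ∀ s, w s ^ 2 + w (s + G.cls (one e)) ^ 2 ≤
      Real.cosh x ^ 2 * (v s ^ 2 + v (s + G.cls (one e)) ^ 2) := by
    intro s
    set t := s + G.cls (one e) with ht
    have hts : t + G.cls (one e) = s := by rw [ht, add_assoc, K_add_self, add_zero]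
    set q := Real.exp (x * ((G.deg s : ℝ) - G.deg t)) with hq
    have hqi : Real.exp (x * ((G.deg t : ℝ) - G.deg s)) = q⁻¹ := by
      rw [hq, ← Real.exp_neg]; congr 1; ring
    have hz : (c * G.zs (one e) s) * (c * G.zs (one e) s) = 1 := by
      have := G.zs_mul_self (one e) s
      calc _ = (c * c) * (G.zs (one e) s * G.zs (one e) s) := by ring
        _ = 1 := by rw [hc, this, one_mul]
    have h1 := pair_bound (a := v s) (b := v t) hz (Real.exp_pos _ : 0 < q)
    have hws : w s = (v s - (c * G.zs (one e) s) * q * v t) / 2 := by rw [hval s]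
    have hwt : w t = (v t - (c * G.zs (one e) s) * q⁻¹ * v s) / 2 := by
      rw [hval t, hts, hqi, ht, zs_symm]
    rw [hws, hwt]
    refine h1.trans ?_
    refine mul_le_mul_of_nonneg_right ?_ (by positivity)
    have h2 : (q + q⁻¹) / 2 = Real.cosh (x * ((G.deg s : ℝ) - G.deg t)) := by
      rw [Real.cosh_eq, hq, ← Real.exp_neg]
    rw [h2]
    have h3 : Real.cosh (x * ((G.deg s : ℝ) - G.deg t)) ≤ Real.cosh x := by
      rw [Real.cosh_le_cosh, abs_mul]
      exact mul_le_of_le_one_right (abs_nonneg _) (hdeg s)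
    exact pow_le_pow_left₀ (Real.cosh_pos _).le h3 2
  have hsum : ∀ u : G.Hs, ∑ s, (u s ^ 2 + u (s + G.cls (one e)) ^ 2) = 2 * ‖u‖ ^ 2 := by
    intro u
    rw [sum_add_distrib, norm_sq_eq]
    have := Equiv.sum_comp (Equiv.addRight (G.cls (one e))) (fun s => u s ^ 2)
    rw [show (∑ s, u (s + G.cls (one e)) ^ 2) = ∑ s, u s ^ 2 from this]
    ring
  have h := Finset.sum_le_sum (s := univ) fun s _ => hpair s
  rw [hsum, ← mul_sum, hsum] at h
  have h2 : ‖w‖ ^ 2 ≤ (Real.cosh x * ‖v‖) ^ 2 := by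
    rw [mul_pow]; linarith
  exact (sq_le_sq₀ (norm_nonneg _) (mul_nonneg (Real.cosh_pos _).le (norm_nonneg _))).mp h2

/-- (W7) -/
lemma W7 (G : World V E) (e : E) (x : ℝ) (v : G.Hs) :
    ‖G.Ex x (G.P e (G.Ex (-x) v))‖ ≤ Real.cosh x * ‖v‖ := by
  have := G.W7_aux e 1 (by norm_num) x v
  rw [one_smul] at this
  exact this

/-- (W7) for `1 - P_e` -/
lemma W7' (G : World V E) (e : E) (x : ℝ) (v : G.Hs) :
    ‖G.Ex x (G.Ex (-x) v - G.P e (G.Ex (-x) v))‖ ≤ Real.cosh x * ‖v‖ := by
  have := G.W7_aux e (-1) (by norm_num) x v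
  have h : G.Ex (-x) v - G.P e (G.Ex (-x) v) =
      (1 / 2 : ℝ) • (G.Ex (-x) v - (-1 : ℝ) • G.Z (one e) (G.Ex (-x) v)) := by
    rw [P_apply]; module
  rw [h]
  exact this

/-! ### (W6) -/

/-- the star of a vertex acts on the vacuum by the charge -/
lemma W6_star (G : World V E) (w : V) (h4 : 4 < Fintype.card V) :
    G.Z (G.cut (one w)) (G.dl 0) = chi (G.b w) • G.dl 0 := by
  classical
  have hc : G.cls (G.cut (one w)) = 0 := G.cls_eq_zero.mpr ⟨one w, rfl⟩
  rw [Z_dl, hc, add_zero]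
  congr 1
  unfold zs
  rw [hc, add_zero, rep_zero, zero_add, add_zero]
  have hs : G.small (one w) := by unfold small; rw [wt_one]; exact h4
  rw [G.sg_eq hs rfl]
  congr 1
  rw [Finset.sum_eq_single w]
  · simp [one]
  · intro v _ hv; simp [one, hv]
  · intro h; exact absurd (mem_univ _) h

/-- the projection onto `x_e = a` -/
def Pa (G : World V E) (e : E) (a : ZMod 2) : G.Hs →ₗ[ℝ] G.Hs :=
  (1 / 2 : ℝ) • (LinearMap.id + chi a • G.Z (one e))

lemma Pa_apply (G : World V E) (e : E) (a : ZMod 2) (v : G.Hs) :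
    G.Pa e a v = (1 / 2 : ℝ) • (v + chi a • G.Z (one e) v) := rfl

lemma Pa_one (G : World V E) (e : E) (v : G.Hs) : G.Pa e 1 v = G.P e v := by
  rw [Pa_apply, P_apply, show chi 1 = -1 from by simp [chi]]
  module

lemma Pa_zero (G : World V E) (e : E) (v : G.Hs) : G.Pa e 0 v = v - G.P e v := by
  rw [Pa_apply, P_apply, chi_zero]
  module

/-- (W6): the clauses of the Tseitin contradiction hold on the vacuum -/
lemma W6 (G : World V E) (w : V) (e1 e2 e3 : E)
    (hstar : G.cut (one w) = one e1 + one e2 + one e3) (a1 a2 a3 : ZMod 2)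
    (ha : a1 + a2 + a3 ≠ G.b w) (hn : 8 * G.Lam * 3 < Fintype.card V)
    (h4 : 4 < Fintype.card V) :
    G.Pa e1 a1 (G.Pa e2 a2 (G.Pa e3 a3 (G.dl 0))) = 0 := by
  have hd0 : G.dl 0 ∈ G.Low 0 := G.dl_zero_low 0
  have hZ : ∀ T T' : E → ZMod 2, wt T + wt T' ≤ 3 →
      G.Z T (G.Z T' (G.dl 0)) = G.Z (T + T') (G.dl 0) := by
    intro T T' hT
    apply G.W5 hd0
    refine lt_of_le_of_lt (Nat.mul_le_mul_left _ ?_) hn
    omega
  set A := one (A := E) e1 with hA
  set B := one (A := E) e2 with hB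
  set C := one (A := E) e3 with hC
  have wA : wt A = 1 := wt_one e1
  have wB : wt B = 1 := wt_one e2
  have wC : wt C = 1 := wt_one e3
  have wBC : wt (B + C) ≤ 2 := (wt_add _ _).trans (by omega)
  have hABC : G.Z (A + (B + C)) (G.dl 0) = chi (G.b w) • G.dl 0 := by
    rw [← add_assoc, ← hstar]; exact G.W6_star w h4
  have self0 : ∀ T : E → ZMod 2, T + T = 0 := fun T => by ext e; exact zmod2_add_self _
  -- the complementary relations
  have hBC : G.Z (B + C) (G.dl 0) = chi (G.b w) • G.Z A (G.dl 0) := by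
    have h := congrArg (G.Z A) hABC
    rw [← hZ A (B + C) (by omega), Z_Z, map_smul] at h
    exact h
  have hAC : G.Z (A + C) (G.dl 0) = chi (G.b w) • G.Z B (G.dl 0) := by
    have h := congrArg (G.Z B) hABC
    have e : A + (B + C) = B + (A + C) := by abel
    have wAC : wt (A + C) ≤ 2 := (wt_add _ _).trans (by omega)
    rw [e, ← hZ B (A + C) (by omega), Z_Z, map_smul] at h
    exact h
  have hAB : G.Z (A + B) (G.dl 0) = chi (G.b w) • G.Z C (G.dl 0) := by
    have h := congrArg (G.Z C) hABC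
    have e : A + (B + C) = C + (A + B) := by abel
    have wAB : wt (A + B) ≤ 2 := (wt_add _ _).trans (by omega)
    rw [e, ← hZ C (A + B) (by omega), Z_Z, map_smul] at h
    exact h
  have hchi : chi a1 * chi a2 * chi a3 = - chi (G.b w) := by
    rw [← chi_add, ← chi_add]
    have : a1 + a2 + a3 = G.b w + 1 := by
      revert ha
      generalize a1 + a2 + a3 = p
      generalize G.b w = q
      revert p q; decide
    rw [this, chi_add, show chi 1 = -1 from by simp [chi]]
    ring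
  have s1 := chi_mul_self a1
  have s2 := chi_mul_self a2
  have s3 := chi_mul_self a3
  have sb := chi_mul_self (G.b w)
  have h12 : chi a1 * chi a2 * chi (G.b w) = - chi a3 := by
    have : chi (G.b w) = -(chi a1 * chi a2 * chi a3) := by rw [hchi]; ring
    rw [this]
    linear_combination (-chi a3 * (chi a2 * chi a2)) * s1 + (-chi a3) * s2
  have h13 : chi a1 * chi a3 * chi (G.b w) = - chi a2 := by
    have : chi (G.b w) = -(chi a1 * chi a2 * chi a3) := by rw [hchi]; ring
    rw [this]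
    linear_combination (-chi a2 * (chi a3 * chi a3)) * s1 + (-chi a2) * s3
  have h23 : chi a2 * chi a3 * chi (G.b w) = - chi a1 := by
    have : chi (G.b w) = -(chi a1 * chi a2 * chi a3) := by rw [hchi]; ring
    rw [this]
    linear_combination (-chi a1 * (chi a3 * chi a3)) * s2 + (-chi a1) * s3
  have h123 : chi a1 * chi a2 * chi a3 * chi (G.b w) = -1 := by
    rw [hchi]; linear_combination -sb
  rw [Pa_apply, Pa_apply, Pa_apply]
  simp only [map_smul, map_add, smul_add, smul_smul]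
  rw [hZ B C (by omega), hZ A C (by omega), hZ A B (by omega), hZ A (B + C) (by omega), hABC,
    hBC, hAC, hAB]
  simp only [smul_smul]
  rw [show G.Z A (G.dl 0) = G.Z A (G.dl 0) from rfl]
  generalize G.Z A (G.dl 0) = zA
  generalize G.Z B (G.dl 0) = zB
  generalize G.Z C (G.dl 0) = zC
  generalize G.dl 0 = z0
  match_scalars
  · linear_combination (1 / 8 : ℝ) * h123
  · linear_combination (1 / 8 : ℝ) * h12
  · linear_combination (1 / 8 : ℝ) * h13
  · linear_combination (1 / 8 : ℝ) * h23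

/-! ### matrix forms (for `Graded.lean`) -/

open Classical in
/-- matrix of `Z_T` -/
def ZM (G : World V E) (T : E → ZMod 2) : Matrix G.K G.K ℝ :=
  fun i j => if j = i + G.cls T then G.zs T i else 0

lemma ZM_mulVec (G : World V E) (T : E → ZMod 2) (v : G.K → ℝ) (s : G.K) :
    (G.ZM T).mulVec v s = G.Z T (WithLp.toLp 2 v) s := by
  classical
  rw [Z_apply, Matrix.mulVec, dotProduct, Finset.sum_eq_single (s + G.cls T)]
  · unfold ZM
    rw [if_pos rfl]
  · intro t _ ht
    unfold ZM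
    rw [if_neg ht, zero_mul]
  · intro h; exact absurd (mem_univ _) h

open Classical in
/-- matrix of `P_e` -/
def PM (G : World V E) (e : E) : Matrix G.K G.K ℝ := (1 / 2 : ℝ) • (1 - G.ZM (one e))

lemma PM_mulVec (G : World V E) (e : E) (v : G.K → ℝ) :
    (G.PM e).mulVec v = (G.P e (WithLp.toLp 2 v)).ofLp := by
  classical
  funext s
  rw [P_apply, PiLp.smul_apply, PiLp.sub_apply, ← ZM_mulVec]
  unfold PM
  rw [Matrix.smul_mulVec, Matrix.sub_mulVec, Matrix.one_mulVec]
  rfl

lemma PM_mulVec_toLp (G : World V E) (e : E) (v : G.K → ℝ) :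
    WithLp.toLp 2 ((G.PM e).mulVec v) = G.P e (WithLp.toLp 2 v) := by
  rw [PM_mulVec]

lemma mem_Low_iff (G : World V E) {r : ℕ} {v : G.K → ℝ} :
    v ∈ EFT.Low G.deg r ↔ WithLp.toLp 2 v ∈ G.Low r := Iff.rfl

lemma band_PM (G : World V E) (e : E) : Band G.deg 1 (G.PM e) := by
  classical
  intro i j h
  unfold PM at h
  rw [Matrix.smul_apply, Matrix.sub_apply, Matrix.one_apply] at h
  by_cases hij : i = j
  · subst hij; omega
  · rw [if_neg hij] at h
    unfold ZM at h
    by_cases hj : j = i + G.cls (one e)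
    · have h1 := G.deg_add_le i (one e)
      have h2 := G.deg_add_le (i + G.cls (one e)) (one e)
      rw [add_assoc, K_add_self, add_zero] at h2
      rw [wt_one] at h1 h2
      rw [hj]
      exact ⟨h2, h1⟩
    · rw [if_neg hj] at h
      simp at h

open Classical in
lemma PM_idem (G : World V E) (e : E) : G.PM e * G.PM e = G.PM e := by
  apply Matrix.ext_of_mulVec_single
  intro i
  rw [← Matrix.mulVec_mulVec, PM_mulVec, PM_mulVec_toLp, P_idem, PM_mulVec]

lemma conjW_PM_mulVec (G : World V E) (s : ℝ) (X : Matrix G.K G.K ℝ) (v : G.K → ℝ) :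
    (conjW G.deg s X).mulVec v =
      (G.Ex s (WithLp.toLp 2 (X.mulVec (G.Ex (-s) (WithLp.toLp 2 v)).ofLp))).ofLp := by
  funext i
  rw [Ex_apply]
  simp only [Matrix.mulVec, dotProduct, conjW, mul_sum]
  refine sum_congr rfl fun j _ => ?_
  rw [Ex_apply]
  have : Real.exp (s * ((G.deg i : ℝ) - G.deg j)) =
      Real.exp (s * G.deg i) * Real.exp (-s * G.deg j) := by
    rw [← Real.exp_add]; congr 1; ring
  rw [this]
  ring

lemma Bd_PM (G : World V E) (e : E) (s : ℝ) (r : ℕ) : Bd G.deg s r (Real.cosh s) (G.PM e) := by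
  intro v _
  rw [conjW_PM_mulVec, PM_mulVec, l2_eq_norm, l2_eq_norm]
  exact G.W7 e s (WithLp.toLp 2 v)

open Classical in
lemma Bd_one_sub_PM (G : World V E) (e : E) (s : ℝ) (r : ℕ) :
    Bd G.deg s r (Real.cosh s) (1 - G.PM e) := by
  intro v _
  rw [conjW_PM_mulVec, Matrix.sub_mulVec, Matrix.one_mulVec, PM_mulVec, l2_eq_norm, l2_eq_norm]
  exact G.W7' e s (WithLp.toLp 2 v)

lemma PM_comm (G : World V E) {r : ℕ} (h : 8 * G.Lam * (r + 2) < Fintype.card V) (e e' : E)
    {v : G.K → ℝ} (hv : v ∈ EFT.Low G.deg r) :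
    (G.PM e * G.PM e' - G.PM e' * G.PM e).mulVec v = 0 := by
  rw [Matrix.sub_mulVec, ← Matrix.mulVec_mulVec, ← Matrix.mulVec_mulVec, sub_eq_zero,
    PM_mulVec, PM_mulVec, PM_mulVec, PM_mulVec]
  exact congrArg WithLp.ofLp (G.P_comm (e := e) (e' := e') (v := WithLp.toLp 2 v) hv h)

end World

end

end Pool.Agent.EFT
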