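import Pool.Agent.Lib.EFT.CCCWorld
import Pool.Agent.Lib.EFT.Claim
import Pool.Agent.Lib.EFT.Star

/-!
# The clauses of the Tseitin contradiction in the operator calculus (project EF, helper64)
-/

set_option autoImplicit false

open Finset Matrix

namespace Pool.Agent.EFT

namespace World

noncomputable section

variable {V E : Type} [Fintype V] [Fintype E]

/-- the star of a vertex is the cut of this vertex -/
theorem cut_star (G : World V E) (hloop : ∀ e, G.src e ≠ G.tgt e) {v : V} {e1 e2 e3 : E}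
    (h12 : e1 ≠ e2) (h13 : e1 ≠ e3) (h23 : e2 ≠ e3)
    (h : ∀ e, (G.src e = v ∨ G.tgt e = v) ↔ (e = e1 ∨ e = e2 ∨ e = e3)) :
    G.cut (one v) = one e1 + one e2 + one e3 := by
  classical
  funext e
  have hl : G.cut (one v) e = (if G.src e = v then 1 else 0) + (if G.tgt e = v then 1 else 0) := by
    show one v (G.src e) + one v (G.tgt e) = _
    simp only [one]
  have hr : (one e1 + one e2 + one e3 : E → ZMod 2) e =
      (if e = e1 then 1 else 0) + (if e = e2 then 1 else 0) + (if e = e3 then 1 else 0) := by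
    simp only [Pi.add_apply, one]
  rw [hl, hr]
  have hlo := hloop e
  have hh := h e
  by_cases k1 : e = e1
  · have k2 : e ≠ e2 := fun hh => h12 (k1.symm.trans hh)
    have k3 : e ≠ e3 := fun hh => h13 (k1.symm.trans hh)
    rw [if_pos k1, if_neg k2, if_neg k3, add_zero, add_zero]
    rcases hh.2 (Or.inl k1) with h1 | h1
    · rw [if_pos h1, if_neg (fun h2 => hlo (h1.trans h2.symm)), add_zero]
    · rw [if_pos h1, if_neg (fun h2 => hlo (h2.trans h1.symm)), zero_add]
  · by_cases k2 : e = e2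
    · have k3 : e ≠ e3 := fun hh => h23 (k2.symm.trans hh)
      rw [if_neg k1, if_pos k2, if_neg k3, add_zero, zero_add]
      rcases hh.2 (Or.inr (Or.inl k2)) with h1 | h1
      · rw [if_pos h1, if_neg (fun h2 => hlo (h1.trans h2.symm)), add_zero]
      · rw [if_pos h1, if_neg (fun h2 => hlo (h2.trans h1.symm)), zero_add]
    · by_cases k3 : e = e3
      · rw [if_neg k1, if_neg k2, if_pos k3, zero_add, zero_add]
        rcases hh.2 (Or.inr (Or.inr k3)) with h1 | h1
        · rw [if_pos h1, if_neg (fun h2 => hlo (h1.trans h2.symm)), add_zero]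
        · rw [if_pos h1, if_neg (fun h2 => hlo (h2.trans h1.symm)), zero_add]
      · have hn : ¬ (G.src e = v ∨ G.tgt e = v) := fun hc => by
          rcases hh.1 hc with h1 | h1 | h1
          · exact k1 h1
          · exact k2 h1
          · exact k3 h1
        rw [if_neg k1, if_neg k2, if_neg k3, if_neg (fun h1 => hn (Or.inl h1)),
          if_neg (fun h1 => hn (Or.inr h1)), add_zero, add_zero]

/-- the matrix of the projection onto `x_e = a` -/
def PaM (G : World V E) [DecidableEq G.K] (e : E) (a : ZMod 2) : Matrix G.K G.K ℝ :=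
  if a = 1 then G.PM e else 1 - G.PM e

theorem PaM_mulVec (G : World V E) [DecidableEq G.K] (e : E) (a : ZMod 2) (v : G.K → ℝ) :
    (G.PaM e a).mulVec v = (G.Pa e a (WithLp.toLp 2 v)).ofLp := by
  unfold PaM
  rcases zmod2_cases a with h | h
  · subst h
    rw [if_neg (by decide), Matrix.sub_mulVec, Matrix.one_mulVec, PM_mulVec, Pa_zero]
    rfl
  · subst h
    rw [if_pos rfl, PM_mulVec, Pa_one]

theorem band_PaM (G : World V E) [DecidableEq G.K] (e : E) (a : ZMod 2) :
    Band G.deg 1 (G.PaM e a) := by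
  unfold PaM
  split_ifs
  · exact G.band_PM e
  · exact (band_one 1).sub (G.band_PM e)

/-- three literals: the truncations do nothing -/
theorem opQ_three (G : World V E) [DecidableEq G.K] {Dl : ℕ} (hDl : 3 ≤ Dl) {f1 f2 f3 : Fm E}
    {e1 e2 e3 : E} {a1 a2 a3 : ZMod 2} (h1 : opQ G.deg G.PM Dl f1 = G.PaM e1 a1)
    (h2 : opQ G.deg G.PM Dl f2 = G.PaM e2 a2) (h3 : opQ G.deg G.PM Dl f3 = G.PaM e3 a3) :
    opQ G.deg G.PM Dl (.and f1 (.neg (.neg (.and f2 f3)))) =
      G.PaM e1 a1 * (G.PaM e2 a2 * G.PaM e3 a3) := by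
  have b23 : Band G.deg 2 (G.PaM e2 a2 * G.PaM e3 a3) := (G.band_PaM e2 a2).mul (G.band_PaM e3 a3)
  have b123 : Band G.deg 3 (G.PaM e1 a1 * (G.PaM e2 a2 * G.PaM e3 a3)) :=
    ((G.band_PaM e1 a1).mul b23).mono (by omega)
  have t23 : opQ G.deg G.PM Dl (.and f2 f3) = G.PaM e2 a2 * G.PaM e3 a3 := by
    show trunc G.deg Dl (opQ G.deg G.PM Dl f2 * opQ G.deg G.PM Dl f3) = _
    rw [h2, h3]
    exact Band.of_not.2 (b23.mono (by omega))
  show trunc G.deg Dl (opQ G.deg G.PM Dl f1 * (1 - (1 - opQ G.deg G.PM Dl (.and f2 f3)))) = _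
  rw [h1, t23, sub_sub_cancel]
  exact Band.of_not.2 (b123.mono hDl)

/-- the same with the other bracketing and without the double negation -/
theorem opQ_three' (G : World V E) [DecidableEq G.K] {Dl : ℕ} (hDl : 3 ≤ Dl) {f1 f2 f3 : Fm E}
    {e1 e2 e3 : E} {a1 a2 a3 : ZMod 2} (h1 : opQ G.deg G.PM Dl f1 = G.PaM e1 a1)
    (h2 : opQ G.deg G.PM Dl f2 = G.PaM e2 a2) (h3 : opQ G.deg G.PM Dl f3 = G.PaM e3 a3) :
    opQ G.deg G.PM Dl (.and f1 (.and f2 f3)) =
      G.PaM e1 a1 * (G.PaM e2 a2 * G.PaM e3 a3) := by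
  rw [← opQ_three G hDl h1 h2 h3]
  show trunc G.deg Dl (opQ G.deg G.PM Dl f1 * opQ G.deg G.PM Dl (.and f2 f3)) =
    trunc G.deg Dl (opQ G.deg G.PM Dl f1 * (1 - (1 - opQ G.deg G.PM Dl (.and f2 f3))))
  rw [sub_sub_cancel]

/-- (W6) in matrix form -/
theorem three_vac (G : World V E) [DecidableEq G.K] (v : V) {e1 e2 e3 : E} {a1 a2 a3 : ZMod 2}
    (hstar : G.cut (one v) = one e1 + one e2 + one e3)
    (ha : a1 + a2 + a3 ≠ G.b v) (hn : 8 * G.Lam * 3 < Fintype.card V)
    (h4 : 4 < Fintype.card V) :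
    (G.PaM e1 a1 * (G.PaM e2 a2 * G.PaM e3 a3)).mulVec (G.dl 0).ofLp = 0 := by
  rw [← Matrix.mulVec_mulVec, ← Matrix.mulVec_mulVec, PaM_mulVec, PaM_mulVec, PaM_mulVec]
  have := G.W6 v e1 e2 e3 hstar a1 a2 a3 ha hn h4
  exact congrArg WithLp.ofLp this

/-- the negated literal `x_e = a` (as the negation of the literal `x_e = a + 1`) -/
theorem opQ_lit_neg (G : World V E) [DecidableEq G.K] (Dl : ℕ) (e : E) (a : ZMod 2) :
    opQ G.deg G.PM Dl (.neg (if a + 1 = 1 then .var e else .neg (.var e))) = G.PaM e a := by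
  rcases zmod2_cases a with h | h
  · subst h
    rw [if_pos (by decide)]
    show 1 - G.PM e = _
    rw [PaM, if_neg (by decide)]
  · subst h
    rw [if_neg (by decide)]
    show 1 - (1 - G.PM e) = _
    rw [PaM, if_pos rfl, sub_sub_cancel]

/-- the literal `x_e = a` -/
theorem opQ_lit (G : World V E) [DecidableEq G.K] (Dl : ℕ) (e : E) (a : ZMod 2) :
    opQ G.deg G.PM Dl (if a = 1 then .var e else .neg (.var e)) = G.PaM e a := by
  rcases zmod2_cases a with h | h
  · subst h
    rw [if_neg (by decide)]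
    show 1 - G.PM e = _
    rw [PaM, if_neg (by decide)]
  · subst h
    rw [if_pos rfl]
    show G.PM e = _
    rw [PaM, if_pos rfl]

end

end World

end Pool.Agent.EFT
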