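import Pool.Agent.Lib.EFT.Rules
import Pool.Agent.Lib.EFT.CCC

/-!
# Extended Frege refutations

Lemmas on formulas over `¬, ∧, ∨, →`, the unfolding of the extension variables, the translation
to formulas over `¬, ∧`.
-/

set_option autoImplicit false

open Finset

namespace Pool.Agent.EFT

/-! ## Lemmas on formulas -/

namespace Form
variable {α β γ : Type*}

/-- Nesting depth of the binary connectives. -/
def depth : Form α → ℕ
  | var _ => 0
  | neg f => f.depth
  | and f g => max f.depth g.depth + 1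
  | or f g => max f.depth g.depth + 1
  | imp f g => max f.depth g.depth + 1

/-- The variable `x` occurs in the formula. -/
def Occ (x : α) : Form α → Prop
  | var y => y = x
  | neg f => f.Occ x
  | and f g => f.Occ x ∨ g.Occ x
  | or f g => f.Occ x ∨ g.Occ x
  | imp f g => f.Occ x ∨ g.Occ x

/-- Translation to negation and conjunction. -/
def tr : Form α → Fm α
  | var x => .var x
  | neg f => .neg f.tr
  | and f g => .and f.tr g.tr
  | or f g => .neg (.and (.neg f.tr) (.neg g.tr))
  | imp f g => .neg (.and f.tr (.neg g.tr))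

theorem lv_tr (f : Form α) : f.tr.lv = f.leaves := by
  induction f with
  | var x => rfl
  | neg f ih => exact ih
  | and f g ihf ihg => simp only [tr, Fm.lv, leaves, ihf, ihg]
  | or f g ihf ihg => simp only [tr, Fm.lv, leaves, ihf, ihg]
  | imp f g ihf ihg => simp only [tr, Fm.lv, leaves, ihf, ihg]

theorem ah_tr (f : Form α) : f.tr.ah = f.depth := by
  induction f with
  | var x => rfl
  | neg f ih => exact ih
  | and f g ihf ihg => simp only [tr, Fm.ah, depth, ihf, ihg]
  | or f g ihf ihg => simp only [tr, Fm.ah, depth, ihf, ihg]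
  | imp f g ihf ihg => simp only [tr, Fm.ah, depth, ihf, ihg]

theorem eval_tr (a : α → Bool) (f : Form α) : f.tr.eval a = f.eval a := by
  induction f with
  | var x => rfl
  | neg f ih => simp only [tr, Fm.eval, eval, ih]
  | and f g ihf ihg => simp only [tr, Fm.eval, eval, ihf, ihg]
  | or f g ihf ihg =>
    simp only [tr, Fm.eval, eval, ihf, ihg]
    cases f.eval a <;> cases g.eval a <;> rfl
  | imp f g ihf ihg =>
    simp only [tr, Fm.eval, eval, ihf, ihg]
    cases f.eval a <;> cases g.eval a <;> rfl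

theorem tr_subst (θ : α → Form β) (f : Form α) :
    (f.subst θ).tr = f.tr.subst fun i => (θ i).tr := by
  induction f with
  | var x => rfl
  | neg f ih => simp only [subst, tr, Fm.subst, ih]
  | and f g ihf ihg => simp only [subst, tr, Fm.subst, ihf, ihg]
  | or f g ihf ihg => simp only [subst, tr, Fm.subst, ihf, ihg]
  | imp f g ihf ihg => simp only [subst, tr, Fm.subst, ihf, ihg]

theorem subst_subst (θ : α → Form β) (η : β → Form γ) (f : Form α) :
    (f.subst θ).subst η = f.subst fun i => (θ i).subst η := by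
  induction f with
  | var x => rfl
  | neg f ih => simp only [subst, ih]
  | and f g ihf ihg => simp only [subst, ihf, ihg]
  | or f g ihf ihg => simp only [subst, ihf, ihg]
  | imp f g ihf ihg => simp only [subst, ihf, ihg]

theorem subst_var (f : Form α) : (f.subst fun x => .var x) = f := by
  induction f with
  | var x => rfl
  | neg f ih => simp only [subst, ih]
  | and f g ihf ihg => simp only [subst, ihf, ihg]
  | or f g ihf ihg => simp only [subst, ihf, ihg]
  | imp f g ihf ihg => simp only [subst, ihf, ihg]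

theorem subst_congr (θ η : α → Form β) (f : Form α) (h : ∀ x, f.Occ x → θ x = η x) :
    f.subst θ = f.subst η := by
  induction f with
  | var x => exact h x rfl
  | neg f ih => simp only [subst]; rw [ih h]
  | and f g ihf ihg =>
    simp only [subst]
    rw [ihf fun x hx => h x (Or.inl hx), ihg fun x hx => h x (Or.inr hx)]
  | or f g ihf ihg =>
    simp only [subst]
    rw [ihf fun x hx => h x (Or.inl hx), ihg fun x hx => h x (Or.inr hx)]
  | imp f g ihf ihg =>
    simp only [subst]
    rw [ihf fun x hx => h x (Or.inl hx), ihg fun x hx => h x (Or.inr hx)]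

end Form

/-- The clauses written with `∨` and with `¬, →` have the same translation. -/
theorem tseitin_tr {k : ℕ} {b : CCC.V k → ZMod 2} {c : Form (CCC.E k)} (hc : c ∈ tseitin b) :
    ∃ (v : CCC.V k) (e₁ e₂ e₃ : CCC.E k) (a₁ a₂ a₃ : ZMod 2),
      e₁ ≠ e₂ ∧ e₁ ≠ e₃ ∧ e₂ ≠ e₃ ∧
      (∀ e, (CCC.src e = v ∨ CCC.tgt e = v) ↔ (e = e₁ ∨ e = e₂ ∨ e = e₃)) ∧
      a₁ + a₂ + a₃ ≠ b v ∧
      c.tr = (Form.or (.lit e₁ (a₁ + 1)) (.or (.lit e₂ (a₂ + 1)) (.lit e₃ (a₃ + 1)))).tr := by
  obtain ⟨v, e1, e2, e3, a1, a2, a3, h12, h13, h23, hinc, ha, h⟩ := hc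
  refine ⟨v, e1, e2, e3, a1, a2, a3, h12, h13, h23, hinc, ha, ?_⟩
  rcases h with rfl | rfl <;> rfl

/-! ## Unfolding -/

section Unfold
variable {α : Type*} {m : ℕ}

theorem unfold_lift (U : Fin m → Form α) (A : Form α) : unfold U A.lift = A := by
  unfold unfold Form.lift
  rw [Form.subst_subst]
  exact Form.subst_var A

theorem unfold_subst (U : Fin m → Form α) {n : ℕ} (θ : Fin n → Form (α ⊕ Fin m))
    (f : Form (Fin n)) : unfold U (f.subst θ) = f.subst fun i => unfold U (θ i) :=
  Form.subst_subst _ _ f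

theorem unfold_ext (U : Fin m → Form α) (D : Fin m → Form (α ⊕ Fin m))
    (hU : ∀ i, U i = unfold U (D i)) (i : Fin m) :
    unfold U (Form.iff (.var (Sum.inr i)) (D i)) = Form.iff (U i) (U i) := by
  have h : unfold U (Form.iff (.var (Sum.inr i)) (D i)) =
      Form.iff (U i) (unfold U (D i)) := rfl
  rw [h, ← hU i]

theorem unfold_ext' (U : Fin m → Form α) (D : Fin m → Form (α ⊕ Fin m))
    (hU : ∀ i, U i = unfold U (D i)) (i : Fin m) :
    unfold U (Form.iff' (.var (Sum.inr i)) (D i)) = Form.iff' (U i) (U i) := by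
  have h : unfold U (Form.iff' (.var (Sum.inr i)) (D i)) =
      Form.iff' (U i) (unfold U (D i)) := rfl
  rw [h, ← hU i]

/-- If `D i` only mentions extension variables `j < i`, then there is exactly one unfolding. -/
theorem existsUnique_unfolding [Nonempty α] (D : Fin m → Form (α ⊕ Fin m))
    (hD : ∀ i j, (D i).Occ (Sum.inr j) → j < i) :
    ∃! U : Fin m → Form α, ∀ i, U i = unfold U (D i) := by
  classical
  have hcongr : ∀ (U U' : Fin m → Form α) (i : Fin m), (∀ j < i, U j = U' j) →
      unfold U (D i) = unfold U' (D i) := by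
    intro U U' i h
    apply Form.subst_congr
    rintro (x | j) hx
    · rfl
    · exact h j (hD i j hx)
  have hex : ∀ n : ℕ, ∃ U : Fin m → Form α, ∀ i : Fin m, i.1 < n → U i = unfold U (D i) := by
    intro n
    induction n with
    | zero =>
      exact ⟨fun _ => .var (Classical.arbitrary α), fun i hi => absurd hi (Nat.not_lt_zero _)⟩
    | succ n ih =>
      obtain ⟨U, hU⟩ := ih
      by_cases hn : n < m
      · refine ⟨Function.update U ⟨n, hn⟩ (unfold U (D ⟨n, hn⟩)), ?_⟩
        intro i hi
        have hlt : ∀ j < i, U j = Function.update U ⟨n, hn⟩ (unfold U (D ⟨n, hn⟩)) j := by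
          intro j hj
          have hj' : j ≠ ⟨n, hn⟩ := by
            intro h
            rw [h] at hj
            have : n < i.1 := hj
            omega
          rw [Function.update_of_ne hj']
        rw [← hcongr U _ i hlt]
        by_cases hin : i.1 = n
        · have : i = ⟨n, hn⟩ := Fin.ext hin
          subst this
          rw [Function.update_self]
        · have hi' : i ≠ ⟨n, hn⟩ := fun h => hin (congrArg Fin.val h)
          rw [Function.update_of_ne hi']
          exact hU i (by omega)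
      · exact ⟨U, fun i hi => hU i (by have := i.2; omega)⟩
  obtain ⟨U, hU⟩ := hex m
  refine ⟨U, fun i => hU i i.2, ?_⟩
  intro U' hU'
  funext i
  induction i using WellFoundedLT.induction with
  | ind i ih =>
    rw [hU' i, hU i i.2]
    exact hcongr U' U i ih

end Unfold

/-! ## Translation of the rules -/

/-- The translated rule. -/
def FrRule.toRule (ρ : FrRule) : Rule where
  n := ρ.n
  prem := ρ.prem.map Form.tr
  concl := ρ.concl.tr

theorem FrRule.toRule_sound (ρ : FrRule) (h : ρ.Sound) : ρ.toRule.Sound := by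
  intro (a : Fin ρ.n → Bool) (ha : ∀ p ∈ ρ.prem.map Form.tr, p.eval a = true)
  refine (Form.eval_tr a ρ.concl).trans (h a fun A hA => ?_)
  rw [← Form.eval_tr]
  exact ha _ (List.mem_map_of_mem hA)

/-- `p ↔ p`. -/
def idRule : FrRule where
  n := 1
  prem := []
  concl := Form.iff (.var 0) (.var 0)

/-- `p ↔ p`. -/
def idRule' : FrRule where
  n := 1
  prem := []
  concl := Form.iff' (.var 0) (.var 0)

/-- From `p` and `q` infer `p ∧ q`. -/
def andRule : FrRule where
  n := 2
  prem := [.var 0, .var 1]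
  concl := .and (.var 0) (.var 1)

/-- From `p` and `q` infer `p ∧ q`. -/
def andRule' : FrRule where
  n := 2
  prem := [.var 0, .var 1]
  concl := .and' (.var 0) (.var 1)

theorem idRule_sound : idRule.Sound := by
  intro (a : Fin 1 → Bool) _
  change ((!(a 0) || a 0) && (!(a 0) || a 0)) = true
  cases a 0 <;> rfl

theorem andRule_sound : andRule.Sound := by
  intro (a : Fin 2 → Bool) (h : ∀ A ∈ [Form.var (0 : Fin 2), Form.var 1], A.eval a = true)
  have h0 : a 0 = true := h (.var 0) (by simp)
  have h1 : a 1 = true := h (.var 1) (by simp)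
  change (a 0 && a 1) = true
  rw [h0, h1]
  rfl

theorem idRule'_sound : idRule'.Sound := by
  intro (a : Fin 1 → Bool) _
  change (!(!(!(a 0) || a 0) || !(!(a 0) || a 0))) = true
  cases a 0 <;> rfl

theorem andRule'_sound : andRule'.Sound := by
  intro (a : Fin 2 → Bool) (h : ∀ A ∈ [Form.var (0 : Fin 2), Form.var 1], A.eval a = true)
  have h0 : a 0 = true := h (.var 0) (by simp)
  have h1 : a 1 = true := h (.var 1) (by simp)
  change (!(!(a 0) || !(a 1))) = true
  rw [h0, h1]
  rfl

/-- All rules which are used. -/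
def allRules (𝓡 : List FrRule) : List FrRule := idRule :: andRule :: idRule' :: andRule' :: 𝓡

theorem allRules_sound (𝓡 : List FrRule) (h : ∀ ρ ∈ 𝓡, ρ.Sound) : ∀ ρ ∈ allRules 𝓡, ρ.Sound := by
  intro ρ hρ
  simp only [allRules, List.mem_cons] at hρ
  rcases hρ with rfl | rfl | rfl | rfl | hρ
  · exact idRule_sound
  · exact andRule_sound
  · exact idRule'_sound
  · exact andRule'_sound
  · exact h ρ hρ

/-- Number of schematic variables which are needed. -/
noncomputable def ruleN (𝓡 : List FrRule) : ℕ := ((allRules 𝓡).map fun ρ => ρ.n).sum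

/-- Constant of the rules. -/
noncomputable def ruleC (𝓡 : List FrRule) : ℝ := ((allRules 𝓡).map fun ρ => ρ.toRule.cst).sum

theorem ruleC_nonneg (𝓡 : List FrRule) : 0 ≤ ruleC 𝓡 :=
  list_sum_nonneg' _ _ fun ρ => ρ.toRule.cst_nonneg

theorem le_ruleC (𝓡 : List FrRule) : ∀ ρ ∈ allRules 𝓡, ρ.toRule.cst ≤ ruleC 𝓡 := fun ρ hρ =>
  list_le_sum _ (fun ρ : FrRule => ρ.toRule.cst) (fun ρ => ρ.toRule.cst_nonneg) ρ hρ

theorem le_ruleN (𝓡 : List FrRule) : ∀ ρ ∈ allRules 𝓡, ρ.n ≤ ruleN 𝓡 := fun _ hρ =>
  List.single_le_sum (fun _ _ => Nat.zero_le _) _ (List.mem_map_of_mem (f := fun ρ => ρ.n) hρ)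

/-! ## No refutation -/

section
variable {V : Type*} [AddCommGroup V] [Module ℝ V] {G : TAlg V} {α : Type*}
  {Sub : Fm α → Prop} {F : Fm α → V} {d Mv : ℕ} {B I : ℝ}

/-- One rule of `allRules`. -/
theorem Val.frRule (hV : Val G Sub F d Mv B I) (𝓡 : List FrRule) (h𝓡 : ∀ ρ ∈ 𝓡, ρ.Sound)
    (hM : (ruleN 𝓡 + 4) * d ≤ Mv) (hsmall : G.A d * (ruleC 𝓡 * (B + I)) ≤ 1 / 2)
    (ρ : FrRule) (hρ : ρ ∈ allRules 𝓡) (θ : Fin ρ.n → Form α)
    (hp : ∀ A ∈ ρ.prem, Sub (A.subst θ).tr ∧ G.nm (G.one - F (A.subst θ).tr) ≤ 2 * I)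
    (hc : Sub (ρ.concl.subst θ).tr) :
    G.nm (G.one - F (ρ.concl.subst θ).tr) ≤ 2 * I := by
  have h1 := ρ.toRule_sound (allRules_sound 𝓡 h𝓡 ρ hρ)
  have h2 : (ρ.toRule.n + 4) * d ≤ Mv :=
    le_trans (Nat.mul_le_mul_right _ (Nat.add_le_add_right (le_ruleN 𝓡 ρ hρ) 4)) hM
  have h3 : G.A d * (ρ.toRule.cst * (B + I)) ≤ 1 / 2 := by
    refine le_trans (mul_le_mul_of_nonneg_left ?_ (G.A_nonneg d)) hsmall
    exact mul_le_mul_of_nonneg_right (le_ruleC 𝓡 ρ hρ) (add_nonneg hV.Bpos hV.Ipos)
  rw [Form.tr_subst] at hc ⊢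
  refine hV.rule ρ.toRule h1 h2 h3 (fun i => (θ i).tr) ?_ hc
  intro p hp'
  obtain ⟨A, hA, rfl⟩ := List.mem_map.mp hp'
  have h4 := hp A hA
  rw [Form.tr_subst] at h4
  exact h4

/-- There is no Extended Frege refutation when the lines have values in the algebra and the
clauses are close to one. -/
theorem syn_false (hV : Val G Sub F d Mv B I) (𝓡 : List FrRule) (h𝓡 : ∀ ρ ∈ 𝓡, ρ.Sound)
    (hM : (ruleN 𝓡 + 4) * d ≤ Mv) (hsmall : G.A d * (ruleC 𝓡 * (B + I)) ≤ 1 / 2)
    (hI : 4 * I < 1) {m M : ℕ} (Cl : Set (Form α)) (D : Fin m → Form (α ⊕ Fin m))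
    (C : Fin M → Form (α ⊕ Fin m)) (U : Fin m → Form α) (hU : ∀ i, U i = unfold U (D i))
    (href : IsRefutation 𝓡 Cl D C) (hSub : ∀ t, Sub (unfold U (C t)).tr)
    (hCl : ∀ c ∈ Cl, Sub c.tr → G.nm (G.one - F c.tr) ≤ 2 * I) : False := by
  have hrule := hV.frRule 𝓡 h𝓡 hM hsmall
  -- all lines are close to one
  have hall : ∀ t, G.nm (G.one - F (unfold U (C t)).tr) ≤ 2 * I := by
    intro t
    induction t using WellFoundedLT.induction with
    | ind t ih =>
      have hSt := hSub t
      rcases href.line t with ⟨A, hA, hC⟩ | ⟨i, hC | hC⟩ | ⟨ρ, hρ, θ, hC, hp⟩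
      · rw [hC, unfold_lift] at hSt ⊢
        exact hCl A hA hSt
      · rw [hC, unfold_ext U D hU] at hSt ⊢
        exact hrule idRule (by simp [allRules]) (fun _ => U i)
          (fun A hA => absurd hA List.not_mem_nil) hSt
      · rw [hC, unfold_ext' U D hU] at hSt ⊢
        exact hrule idRule' (by simp [allRules]) (fun _ => U i)
          (fun A hA => absurd hA List.not_mem_nil) hSt
      · rw [hC, unfold_subst] at hSt ⊢
        refine hrule ρ (by simp [allRules, hρ]) _ ?_ hSt
        intro A hA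
        obtain ⟨t', ht', hC'⟩ := hp A hA
        rw [← unfold_subst, ← hC']
        exact ⟨hSub t', ih t' ht'⟩
  -- conjunctions of clauses are close to one
  have hconj : ∀ A, Conj Cl A → Sub A.tr → G.nm (G.one - F A.tr) ≤ 2 * I := by
    intro A hA
    induction hA with
    | base h => exact hCl _ h
    | @and A B _ _ ihA ihB =>
      intro hS
      have hA' : Sub A.tr := hV.sub.left _ _ hS
      have hB' : Sub B.tr := hV.sub.right _ _ hS
      have hp : ∀ P ∈ [Form.var (0 : Fin 2), Form.var 1],
          Sub (P.subst ![A, B]).tr ∧ G.nm (G.one - F (P.subst ![A, B]).tr) ≤ 2 * I := by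
        intro P hP
        simp only [List.mem_cons, List.not_mem_nil, or_false] at hP
        rcases hP with hP | hP
        · rw [hP]
          exact ⟨hA', ihA hA'⟩
        · rw [hP]
          exact ⟨hB', ihB hB'⟩
      exact hrule andRule (by simp [allRules]) ![A, B] hp hS
    | @and' A B _ _ ihA ihB =>
      intro hS
      have hn := hV.sub.neg _ hS
      have hn' := hV.sub.neg _ hn
      have hA' : Sub A.tr := hV.sub.left _ _ hn'
      have hB' : Sub B.tr := hV.sub.neg _ (hV.sub.neg _ (hV.sub.right _ _ hn'))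
      have hp : ∀ P ∈ [Form.var (0 : Fin 2), Form.var 1],
          Sub (P.subst ![A, B]).tr ∧ G.nm (G.one - F (P.subst ![A, B]).tr) ≤ 2 * I := by
        intro P hP
        simp only [List.mem_cons, List.not_mem_nil, or_false] at hP
        rcases hP with hP | hP
        · rw [hP]
          exact ⟨hA', ihA hA'⟩
        · rw [hP]
          exact ⟨hB', ihB hB'⟩
      exact hrule andRule' (by simp [allRules]) ![A, B] hp hS
  rcases href.contra with ⟨t, t', h⟩ | ⟨t, A, hA, h⟩
  · have e : unfold U (C t') = .neg (unfold U (C t)) := by rw [h]; rfl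
    have h1 := hall t'
    have h2 := hSub t'
    rw [e] at h1 h2
    exact hV.contra (unfold U (C t)).tr h2 (hall t) h1 hI
  · have e : unfold U (C t) = .neg A := by
      rw [h]
      change Form.neg (unfold U A.lift) = _
      rw [unfold_lift]
    have h1 := hall t
    have h2 := hSub t
    rw [e] at h1 h2
    exact hV.contra A.tr h2 (hconj A hA (hV.sub.neg _ h2)) h1 hI

end

end Pool.Agent.EFT
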