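import Pool.Agent.Lib.EFT.Star
import Pool.Agent.Lib.EFT.Claim

/-! EF: the operators of formulas as linear maps on `l^2(K)` of a world. helper33. -/

set_option autoImplicit false

namespace Pool.Agent.EFT

open Finset

noncomputable section

namespace World

variable {V E : Type} [Fintype V] [Fintype E] (G : World V E)

open Classical in
/-- Matrix of the operator of a formula. -/
def Qm (Dl : ℕ) (f : Fm E) : Matrix G.K G.K ℝ := opQ G.deg G.PM Dl f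

/-- The operator of a formula. -/
def Qf (Dl : ℕ) (f : Fm E) : G.Hs →ₗ[ℝ] G.Hs where
  toFun y := WithLp.toLp 2 ((G.Qm Dl f).mulVec y.ofLp)
  map_add' u v := by
    rw [WithLp.ofLp_add, Matrix.mulVec_add, WithLp.toLp_add]
  map_smul' c v := by
    rw [WithLp.ofLp_smul, Matrix.mulVec_smul, WithLp.toLp_smul]
    rfl

lemma Qf_ofLp (Dl : ℕ) (f : Fm E) (y : G.Hs) :
    (G.Qf Dl f y).ofLp = (G.Qm Dl f).mulVec y.ofLp := rfl

lemma Qf_var (Dl : ℕ) (e : E) : G.Qf Dl (.var e) = G.P e := by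
  refine LinearMap.ext fun y => ?_
  show WithLp.toLp 2 ((G.PM e).mulVec y.ofLp) = _
  exact G.PM_mulVec_toLp e y.ofLp

lemma Qf_neg (Dl : ℕ) (f : Fm E) (y : G.Hs) : G.Qf Dl (.neg f) y = y - G.Qf Dl f y := by
  classical
  have h : (G.Qm Dl (.neg f)) = 1 - G.Qm Dl f := by
    unfold Qm
    rfl
  show WithLp.toLp 2 ((G.Qm Dl (.neg f)).mulVec y.ofLp) = _
  rw [h, Matrix.sub_mulVec, Matrix.one_mulVec, WithLp.toLp_sub]
  rfl

/-- `Qf f` changes degrees by at most `a`. -/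
def Bq (Dl a : ℕ) (f : Fm E) : Prop := Band G.deg a (G.Qm Dl f)

lemma Bq.mono {G : World V E} {Dl a c : ℕ} (h : a ≤ c) {f : Fm E} (hf : G.Bq Dl a f) :
    G.Bq Dl c f := Band.mono h hf

lemma Bq_var (Dl : ℕ) (e : E) : G.Bq Dl 1 (.var e) := G.band_PM e

lemma Bq_neg {Dl a : ℕ} {f : Fm E} (h : G.Bq Dl a f) : G.Bq Dl a (.neg f) := by
  classical
  have e : (G.Qm Dl (.neg f)) = 1 - G.Qm Dl f := by
    unfold Qm
    rfl
  unfold Bq
  rw [e]
  exact (band_one a).sub h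

lemma Bq_and (Dl : ℕ) (f g : Fm E) : G.Bq Dl Dl (.and f g) := by
  classical
  exact band_trunc Dl _

lemma Bq_all {Dl : ℕ} (hD : 1 ≤ Dl) (f : Fm E) : G.Bq Dl Dl f := by
  induction f with
  | var a => exact (G.Bq_var Dl a).mono hD
  | neg f ih => exact G.Bq_neg ih
  | and f g _ _ => exact G.Bq_and Dl f g

lemma Bq.low {G : World V E} {Dl a r : ℕ} {f : Fm E} (h : G.Bq Dl a f) {y : G.Hs}
    (hy : y ∈ G.Low r) : G.Qf Dl f y ∈ G.Low (r + a) :=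
  (G.mem_Low_iff (v := (G.Qm Dl f).mulVec y.ofLp)).1 (Band.mulVec h hy)

lemma Qf_low {Dl r : ℕ} (hD : 1 ≤ Dl) (f : Fm E) {y : G.Hs} (hy : y ∈ G.Low r) :
    G.Qf Dl f y ∈ G.Low (r + Dl) := (G.Bq_all hD f).low hy

lemma Qm_and_of_band {Dl a c : ℕ} {g h : Fm E} (hg : G.Bq Dl a g) (hh : G.Bq Dl c h)
    (hac : a + c ≤ Dl) : G.Qm Dl (.and g h) = G.Qm Dl g * G.Qm Dl h := by
  classical
  have e : G.Qm Dl (.and g h) = trunc G.deg Dl (G.Qm Dl g * G.Qm Dl h) := by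
    unfold Qm
    rfl
  rw [e]
  exact Band.of_not.2 ((Band.mul hg hh).mono hac)

lemma Bq_and_of_band {Dl a c : ℕ} {g h : Fm E} (hg : G.Bq Dl a g) (hh : G.Bq Dl c h)
    (hac : a + c ≤ Dl) : G.Bq Dl (a + c) (.and g h) := by
  unfold Bq
  rw [G.Qm_and_of_band hg hh hac]
  exact Band.mul hg hh

lemma Qf_and_of_band {Dl a c : ℕ} {g h : Fm E} (hg : G.Bq Dl a g) (hh : G.Bq Dl c h)
    (hac : a + c ≤ Dl) (y : G.Hs) : G.Qf Dl (.and g h) y = G.Qf Dl g (G.Qf Dl h y) := by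
  show WithLp.toLp 2 ((G.Qm Dl (.and g h)).mulVec y.ofLp) = _
  rw [G.Qm_and_of_band hg hh hac, ← Matrix.mulVec_mulVec]
  rfl

/-- The numerical hypotheses of the operator calculus. -/
structure GCalc (G : World V E) (Rh Dl L hh : ℕ) (τ θ b : ℝ) : Prop where
  one_le : 1 ≤ Dl
  tau : 0 ≤ τ
  theta : 0 ≤ θ
  theta1 : θ ≤ 1
  b_ge : Real.cosh (hh * τ) ^ L * (1 + θ) ^ (2 * L) ≤ b
  small : gam (Fintype.card E) Dl τ b hh ≤ θ ^ 2 / 16
  rad : 8 * G.Lam * (Rh + 4 * hh * Dl + 2) < Fintype.card V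

lemma deg_le_card (s : G.K) : G.deg s ≤ Fintype.card E := by
  rw [← G.wt_rep s]
  exact wt_le _

namespace GCalc

variable {G} {Rh Dl L hh : ℕ} {τ θ b : ℝ} (H : GCalc G Rh Dl L hh τ θ b)

include H

open Classical in
theorem toCalc : Calc G.deg G.PM (Fintype.card E) Rh Dl L hh τ θ b where
  deg_le := G.deg_le_card
  one_le_Dl := H.one_le
  tau_nonneg := H.tau
  theta_nonneg := H.theta
  theta_le := H.theta1
  b_ge := H.b_ge
  small := H.small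
  band := G.band_PM
  idem := G.PM_idem
  bdP e s := G.Bd_PM e s _
  bdP' e s := G.Bd_one_sub_PM e s _
  comm e e' v hv := by
    refine G.PM_comm ?_ e e' hv
    unfold Rad
    rw [Nat.sub_zero]
    exact H.rad

theorem Qf_norm {f : Fm E} (hf : f.ah ≤ hh) (hL : f.lv ≤ L) {y : G.Hs} (hy : y ∈ G.Low Rh) :
    ‖G.Qf Dl f y‖ ≤ (1 + θ) ^ (2 * L) * ‖y‖ := by
  classical
  have h := H.toCalc.out_nrm hf hL (v := y.ofLp) hy
  rw [l2_eq_norm, l2_eq_norm] at h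
  exact h

theorem Qf_err {g h : Fm E} (hf : (Fm.and g h).ah ≤ hh) (hL : (Fm.and g h).lv ≤ L) {y : G.Hs}
    (hy : y ∈ G.Low Rh) :
    ‖G.Qf Dl g (G.Qf Dl h y) - G.Qf Dl (.and g h) y‖ ≤
      epsT (Fintype.card E) Dl τ b * ‖y‖ := by
  classical
  have h1 := H.toCalc.out_err hf hL (v := y.ofLp) hy
  rw [l2_eq_norm, l2_eq_norm, Matrix.sub_mulVec, ← Matrix.mulVec_mulVec] at h1
  exact h1

theorem Qf_idem {f : Fm E} (hf : f.ah ≤ hh) (hL : f.lv ≤ L) {y : G.Hs} (hy : y ∈ G.Low Rh) :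
    ‖G.Qf Dl f (G.Qf Dl f y) - G.Qf Dl f y‖ ≤ gam (Fintype.card E) Dl τ b hh * ‖y‖ := by
  classical
  have h1 := H.toCalc.out_idem hf hL (v := y.ofLp) hy
  rw [l2_eq_norm, l2_eq_norm, Matrix.sub_mulVec, ← Matrix.mulVec_mulVec] at h1
  exact h1

end GCalc

end World

end

end Pool.Agent.EFT
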