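import Pool.Agent.Lib.EFT.Clause
import Pool.Agent.Lib.EFT.GQ
import Pool.Agent.Lib.EFT.Frege

/-!
# The Tseitin clauses hold on the vacuum of the world of the cube-connected cycles
-/

set_option autoImplicit false

open Finset Matrix

namespace Pool.Agent.EFT

theorem Form.tr_lit {α : Type*} (x : α) (a : ZMod 2) :
    (Form.lit x a).tr = if a = 1 then Fm.var x else Fm.neg (Fm.var x) := by
  unfold Form.lit
  split_ifs <;> rfl

namespace World

variable {V E : Type} [Fintype V] [Fintype E]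

/-- a clause with three literals: the negated part kills the vacuum -/
theorem Qf_clause (G : World V E) {Dl : ℕ} (hDl : 3 ≤ Dl) (v : V) {e1 e2 e3 : E}
    {a1 a2 a3 : ZMod 2} (hstar : G.cut (one v) = one e1 + one e2 + one e3)
    (ha : a1 + a2 + a3 ≠ G.b v) (hn : 8 * G.Lam * 3 < Fintype.card V)
    (h4 : 4 < Fintype.card V) :
    G.Qf Dl (.and (.neg (Form.lit e1 (a1 + 1)).tr)
      (.neg (.neg (.and (.neg (Form.lit e2 (a2 + 1)).tr) (.neg (Form.lit e3 (a3 + 1)).tr)))))
      (G.dl 0) = 0 := by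
  classical
  have h1 := G.opQ_lit_neg Dl e1 a1
  have h2 := G.opQ_lit_neg Dl e2 a2
  have h3 := G.opQ_lit_neg Dl e3 a3
  have h := G.opQ_three hDl h1 h2 h3
  rw [Form.tr_lit, Form.tr_lit, Form.tr_lit]
  have hv := G.three_vac v hstar ha hn h4
  rw [← h] at hv
  show WithLp.toLp 2 ((G.Qm Dl _).mulVec (G.dl 0).ofLp) = 0
  have hq : G.Qm Dl (.and (.neg (if a1 + 1 = 1 then Fm.var e1 else Fm.neg (Fm.var e1)))
      (.neg (.neg (.and (.neg (if a2 + 1 = 1 then Fm.var e2 else Fm.neg (Fm.var e2)))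
        (.neg (if a3 + 1 = 1 then Fm.var e3 else Fm.neg (Fm.var e3))))))) =
      opQ G.deg G.PM Dl (.and (.neg (if a1 + 1 = 1 then Fm.var e1 else Fm.neg (Fm.var e1)))
      (.neg (.neg (.and (.neg (if a2 + 1 = 1 then Fm.var e2 else Fm.neg (Fm.var e2)))
        (.neg (if a3 + 1 = 1 then Fm.var e3 else Fm.neg (Fm.var e3))))))) := by
    unfold Qm
    congr!
  rw [hq, hv]
  rfl

end World

namespace CCC

variable {k : ℕ} [NeZero k]

/-- the Tseitin clauses of `CCC_k` -/
theorem clause_vac (b : V k → ZMod 2) {Dl : ℕ} (hDl : 3 ≤ Dl)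
    (hn : 8 * (2 * k) * 3 < k * 2 ^ k) {c : Form (E k)} (hc : c ∈ tseitin b) :
    ∃ g h : Fm (E k), c.tr = .neg (.and g h) ∧
      (world b).Qf Dl (.and g h) ((world b).dl 0) = 0 := by
  obtain ⟨v, e1, e2, e3, a1, a2, a3, h12, h13, h23, hinc, ha, hct⟩ := tseitin_tr hc
  have hk0 : 0 < k := Nat.pos_of_ne_zero (NeZero.ne k)
  have hk2 : 2 ≤ k := by
    by_contra hlt
    have : k = 1 := by omega
    subst this
    omega
  have hcard : Fintype.card (V k) = k * 2 ^ k := card_V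
  rw [hct]
  refine ⟨_, _, rfl, ?_⟩
  refine (world b).Qf_clause hDl v ?_ ha ?_ ?_
  · exact (world b).cut_star (fun e => src_ne_tgt hk2 e) h12 h13 h23 hinc
  · rw [hcard]
    exact hn
  · rw [hcard]
    omega

end CCC

end Pool.Agent.EFT
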