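import Mathlib

/-!
# Extended Frege refutations of the Tseitin contradictions of the cube-connected cycles

All definitions which are used in the statement: formulas, rule schemes, the cube-connected cycles
and their Tseitin contradictions, Extended Frege refutations, unfolding of the extension variables.
-/

set_option autoImplicit false

namespace Pool.Agent.EFT

/-! ## The cube-connected cycles `CCC_k` -/

namespace CCC

/-- Vertices: a vector `w` of `k` bits and a position `i` on the cycle `ℤ / k`. -/
abbrev V (k : ℕ) := (ZMod k → ZMod 2) × ZMod k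

/-- The next vertex on the cycle: `(w, i + 1)`. -/
def nxt {k : ℕ} (v : V k) : V k := (v.1, v.2 + 1)

/-- Flip the bit at the position: `(w + e_i, i)`. -/
def flip {k : ℕ} (v : V k) : V k := (v.1 + Pi.single v.2 1, v.2)

/-- Edges: `inl v` joins `v` and `nxt v`; `inr v`, where the bit of `v` at its position is `0`,
joins `v` and `flip v`. -/
abbrev E (k : ℕ) := V k ⊕ {v : V k // v.1 v.2 = 0}

/-- First end of an edge. -/
def src {k : ℕ} : E k → V k
  | .inl v => v
  | .inr v => v.1

/-- Second end of an edge. -/
def tgt {k : ℕ} : E k → V k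
  | .inl v => nxt v
  | .inr v => flip v.1

end CCC

/-! ## Formulas, rules, refutations -/

/-- Formulas over `¬, ∧, ∨, →`. -/
inductive Form (α : Type*)
  | var : α → Form α
  | neg : Form α → Form α
  | and : Form α → Form α → Form α
  | or : Form α → Form α → Form α
  | imp : Form α → Form α → Form α

namespace Form
variable {α β : Type*}

/-- Number of leaves (occurrences of variables). -/
def leaves : Form α → ℕ
  | var _ => 1
  | neg f => f.leaves
  | and f g => f.leaves + g.leaves
  | or f g => f.leaves + g.leaves
  | imp f g => f.leaves + g.leaves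

/-- Truth value. -/
def eval (a : α → Bool) : Form α → Bool
  | var x => a x
  | neg f => !(f.eval a)
  | and f g => f.eval a && g.eval a
  | or f g => f.eval a || g.eval a
  | imp f g => !(f.eval a) || g.eval a

/-- Simultaneous substitution. -/
def subst (θ : α → Form β) : Form α → Form β
  | var x => θ x
  | neg f => neg (f.subst θ)
  | and f g => and (f.subst θ) (g.subst θ)
  | or f g => or (f.subst θ) (g.subst θ)
  | imp f g => imp (f.subst θ) (g.subst θ)

/-- `p ∧ q` over `¬, →`. -/
def and' (p q : Form α) : Form α := neg (imp p (neg q))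

/-- `p ∨ q` over `¬, →`. -/
def or' (p q : Form α) : Form α := imp (neg p) q

/-- `p ↔ q`. -/
def iff (p q : Form α) : Form α := and (imp p q) (imp q p)

/-- `p ↔ q` over `¬, →`. -/
def iff' (p q : Form α) : Form α := and' (imp p q) (imp q p)

/-- The literal `x = a`. -/
def lit (x : α) (a : ZMod 2) : Form α := if a = 1 then var x else neg (var x)

end Form

/-- An inference rule scheme with `n` schematic variables; an axiom scheme is a rule without
premises. -/
structure FrRule where
  n : ℕ
  prem : List (Form (Fin n))
  concl : Form (Fin n)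

/-- Soundness of a rule: whenever the premises are true, the conclusion is true. -/
def FrRule.Sound (ρ : FrRule) : Prop :=
  ∀ a : Fin ρ.n → Bool, (∀ A ∈ ρ.prem, A.eval a = true) → ρ.concl.eval a = true

/-- Conjunctions, with any bracketing, of formulas of `P` (one formula of `P` is allowed). -/
inductive Conj {α : Type*} (P : Set (Form α)) : Form α → Prop
  | base {A : Form α} : A ∈ P → Conj P A
  | and {A B : Form α} : Conj P A → Conj P B → Conj P (Form.and A B)
  | and' {A B : Form α} : Conj P A → Conj P B → Conj P (Form.and' A B)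

/-- A formula without extension variables, seen as a formula with extension variables. -/
def Form.lift {α : Type*} {m : ℕ} (A : Form α) : Form (α ⊕ Fin m) :=
  A.subst fun x => .var (Sum.inl x)

/-- `C 0, …, C (M - 1)` are the lines of an Extended Frege refutation of the clauses `Cl` with
the rules `𝓡` and the extension axioms `z i ↔ D i`: each line is in `Cl`, is an extension axiom,
or is inferred by a rule from earlier lines. The contradiction: a formula and its negation are
lines, or the negation of a conjunction, with any bracketing, of formulas of `Cl` is a line (so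
proofs, without initial clauses, of such a negation are included). -/
structure IsRefutation {α : Type*} {m M : ℕ} (𝓡 : List FrRule) (Cl : Set (Form α))
    (D : Fin m → Form (α ⊕ Fin m)) (C : Fin M → Form (α ⊕ Fin m)) : Prop where
  line : ∀ t, (∃ A ∈ Cl, C t = A.lift) ∨
    (∃ i, C t = Form.iff (.var (Sum.inr i)) (D i) ∨ C t = Form.iff' (.var (Sum.inr i)) (D i)) ∨
    ∃ ρ ∈ 𝓡, ∃ θ : Fin ρ.n → Form (α ⊕ Fin m), C t = ρ.concl.subst θ ∧
      ∀ A ∈ ρ.prem, ∃ t' < t, C t' = A.subst θ
  contra : (∃ t t', C t' = .neg (C t)) ∨ ∃ t A, Conj Cl A ∧ C t = .neg A.lift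

/-- Unfolding: put the formula `U i` for the extension variable `i`. -/
def unfold {α : Type*} {m : ℕ} (U : Fin m → Form α) (f : Form (α ⊕ Fin m)) : Form α :=
  f.subst (Sum.elim (fun x => .var x) U)

/-- The clauses of the Tseitin contradiction of the cube-connected cycles with the charges `b`:
for each vertex `v` with the incident edges `e₁, e₂, e₃` and each `a₁ + a₂ + a₃ ≠ b v` the clause
which excludes `x(e₁) = a₁, x(e₂) = a₂, x(e₃) = a₃`, written with `∨` and also with `¬, →`. -/
def tseitin {k : ℕ} (b : CCC.V k → ZMod 2) : Set (Form (CCC.E k)) :=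
  {c | ∃ (v : CCC.V k) (e₁ e₂ e₃ : CCC.E k) (a₁ a₂ a₃ : ZMod 2),
    e₁ ≠ e₂ ∧ e₁ ≠ e₃ ∧ e₂ ≠ e₃ ∧
    (∀ e, (CCC.src e = v ∨ CCC.tgt e = v) ↔ (e = e₁ ∨ e = e₂ ∨ e = e₃)) ∧
    a₁ + a₂ + a₃ ≠ b v ∧
    (c = .or (.lit e₁ (a₁ + 1)) (.or (.lit e₂ (a₂ + 1)) (.lit e₃ (a₃ + 1))) ∨
      c = .or' (.lit e₁ (a₁ + 1)) (.or' (.lit e₂ (a₂ + 1)) (.lit e₃ (a₃ + 1))))}

end Pool.Agent.EFT
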