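import Pool.Agent.Lib.EFT.TAlg

/-!
# Discrepancy of a restriction: (H1) and (H2) (row R11 of project EF)

`Rs V T W α` collects the data of one good restriction: the operators `Q f` of the big space `W`,
the restriction map `R : W → V`, and the elements `F f` of the truncated algebra `T` on `V`.
-/

set_option autoImplicit false

namespace Pool.Agent.EFT

/-- Data of one restriction. `d` = degree of the elements `F f`, `D` = degree of the range of `R`. -/
structure Rs {V : Type*} [AddCommGroup V] [Module ℝ V] (T : TAlg V)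
    (W : Type*) [AddCommGroup W] [Module ℝ W] (α : Type*) where
  Q : Fm α → W →ₗ[ℝ] W
  dl : W
  R : W →ₗ[ℝ] V
  F : Fm α → V
  d : ℕ
  D : ℕ
  Q_neg : ∀ g y, Q (.neg g) y = y - Q g y
  R_dl : R dl = T.one
  F_neg : ∀ g, F (.neg g) = T.one - F g
  F_low : ∀ f, F f ∈ T.Low d
  F_var : ∀ a, T.mul (F (.var a)) (F (.var a)) = F (.var a)
  R_low : ∀ y, R y ∈ T.Low D
  hrad : D + 4 * d ≤ T.rad

namespace Rs

variable {V : Type*} [AddCommGroup V] [Module ℝ V] {T : TAlg V}
  {W : Type*} [AddCommGroup W] [Module ℝ W] {α : Type*} (S : Rs T W α)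

/-- the discrepancy `R (Q_f y) - F_f * R y` -/
def disc (f : Fm α) (y : W) : V := S.R (S.Q f y) - T.mul (S.F f) (S.R y)

/-- the defect `F_g * F_h - F_(g ∧ h)` -/
def gap (g h : Fm α) : V := T.mul (S.F g) (S.F h) - S.F (.and g h)

/-- the error of the calculus, `R ((Q_g Q_h - Q_(g ∧ h)) y)` -/
def tr (g h : Fm α) (y : W) : V := S.R (S.Q g (S.Q h y) - S.Q (.and g h) y)

/-- total badness of a formula at `y` -/
noncomputable def bad : Fm α → W → ℝ
  | .var a, y => T.nm (S.disc (.var a) y)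
  | .neg g, y => bad g y
  | .and g h, y => bad h y + bad g (S.Q h y) + T.nm (S.tr g h y)

theorem bad_nonneg (f : Fm α) (y : W) : 0 ≤ S.bad f y := by
  induction f generalizing y with
  | var a => exact T.nm_nonneg _
  | neg g ih => exact ih y
  | and g h ihg ihh => exact add_nonneg (add_nonneg (ihh _) (ihg _)) (T.nm_nonneg _)

theorem disc_neg (g : Fm α) (y : W) : S.disc (.neg g) y = -S.disc g y := by
  simp only [disc, S.Q_neg, S.F_neg, map_sub, LinearMap.sub_apply, T.one_mul]
  abel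

theorem rad_le {a b c : ℕ} (h : a + b + c ≤ S.D + 4 * S.d) : a + b + c ≤ T.rad := h.trans S.hrad

/-- exact recursion for a conjunction -/
theorem disc_and (g h : Fm α) (y : W) :
    S.disc (.and g h) y = T.mul (S.gap g h) (S.R y) + T.mul (S.F g) (S.disc h y)
      + S.disc g (S.Q h y) - S.tr g h y := by
  have e1 : T.mul (T.mul (S.F g) (S.F h)) (S.R y) = T.mul (S.F g) (T.mul (S.F h) (S.R y)) :=
    T.assoc (S.rad_le (by omega)) (S.F_low g) (S.F_low h) (S.R_low y)
  simp only [disc, gap, tr, map_sub, LinearMap.sub_apply, e1]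
  abel

theorem gap_eq (g h : Fm α) :
    S.gap g h = (S.R (S.Q (.and g h) S.dl) - S.F (.and g h))
      - T.mul (S.F g) (S.R (S.Q h S.dl) - S.F h) - S.disc g (S.Q h S.dl) + S.tr g h S.dl := by
  simp only [disc, gap, tr, map_sub]
  abel

theorem gap_low (g h : Fm α) : S.gap g h ∈ T.Low (2 * S.d) := by
  rw [two_mul]
  exact sub_mem (T.mul_low (S.F_low g) (S.F_low h))
    (T.low_mono (Nat.le_add_left _ _) (S.F_low _))

theorem disc_low (f : Fm α) (y : W) : S.disc f y ∈ T.Low (S.d + S.D) :=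
  sub_mem (T.low_mono (Nat.le_add_left _ _) (S.R_low _)) (T.mul_low (S.F_low f) (S.R_low y))

/-- **(H1)**: the discrepancy of `f` at `y` is at most
`κ ^ lv f * (bad + 2 B (lv f - 1) + om (lv f - 1) e)`. -/
theorem disc_le {hh : ℕ} (hD : (hh + 1) * S.d ≤ S.D) {B lam om κ k : ℝ} {L : ℕ}
    (hB : 0 ≤ B) (hlam : 1 ≤ lam) (hlam2 : lam ^ (hh + 1) ≤ 2) (hom : T.A (2 * S.d) * B ≤ om)
    (hk : 0 ≤ k) (hκ : κ = 1 + 2 * k) (hlk : lam ≤ 1 + k) (hok : κ ^ L * (om * L) ≤ k)
    (f : Fm α) (hL : f.lv ≤ L)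
    (hgap : ∀ g h, f.Sub (.and g h) → T.nm (S.gap g h) ≤ B)
    (hmul : ∀ g, f.Sub g → ∀ u ∈ T.Low (S.D + 2 * S.d), T.nm (T.mul (S.F g) u) ≤ lam * T.nm u)
    (m : ℕ) (hm : m + f.ah ≤ hh + 1) (y : W) (Y : V) (hY : Y ∈ T.Low (m * S.d))
    (hYm : ∀ G ∈ T.Low (2 * S.d), T.nm (T.mul Y G) ≤ lam ^ m * T.nm G)
    {e : ℝ} (he : T.nm (S.R y - Y) ≤ e) :
    T.nm (S.disc f y) ≤ κ ^ f.lv * (S.bad f y + 2 * B * (f.lv - 1) + om * (f.lv - 1) * e) := by
  have hA := T.A_nonneg (2 * S.d)
  have hom0 : 0 ≤ om := (mul_nonneg hA hB).trans hom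
  have hκ1 : 1 ≤ κ := by rw [hκ]; linarith
  induction f generalizing m y Y e with
  | var a =>
    simp only [bad, Fm.lv, Nat.cast_one, sub_self, mul_zero, zero_mul, add_zero, pow_one]
    exact le_mul_of_one_le_left (T.nm_nonneg _) hκ1
  | neg g ih =>
    rw [disc_neg, T.nm_neg]
    exact ih hL (fun g' h' hs => hgap g' h' (Or.inr hs)) (fun g' hs => hmul g' (Or.inr hs))
      m hm y Y hY hYm he
  | and g h ihg ihh =>
    have e0 : 0 ≤ e := (T.nm_nonneg _).trans he
    have hlg : (1 : ℝ) ≤ g.lv := by exact_mod_cast g.lv_pos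
    have hlh : (1 : ℝ) ≤ h.lv := by exact_mod_cast h.lv_pos
    have elv : (Fm.and g h).lv = g.lv + h.lv := rfl
    have eah : (Fm.and g h).ah = max g.ah h.ah + 1 := rfl
    rw [elv] at hL
    rw [eah] at hm
    have hm1 : m ≤ hh := by omega
    have hmd : m * S.d ≤ S.D := (Nat.mul_le_mul_right _ (by omega)).trans hD
    have hYD : Y ∈ T.Low S.D := T.low_mono hmd hY
    have hRY : S.R y - Y ∈ T.Low S.D := sub_mem (S.R_low y) hYD
    have hlm2 : lam ^ m ≤ 2 :=
      (pow_le_pow_right₀ hlam (by omega)).trans hlam2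
    have hgB : T.nm (S.gap g h) ≤ B := hgap g h (Or.inl rfl)
    -- the first term
    have t1 : T.nm (T.mul (S.gap g h) (S.R y)) ≤ 2 * B + om * e := by
      have e1 : T.mul (S.gap g h) (S.R y)
          = T.mul Y (S.gap g h) + T.mul (S.gap g h) (S.R y - Y) := by
        rw [T.comm Y, map_sub]; abel
      rw [e1]
      refine (T.nm_add _ _).trans (add_le_add ?_ ?_)
      · refine (hYm _ (S.gap_low g h)).trans ?_
        exact mul_le_mul hlm2 hgB (T.nm_nonneg _) (by norm_num)
      · refine (T.bound (S.gap_low g h) _).trans ?_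
        refine mul_le_mul ((mul_le_mul_of_nonneg_left hgB hA).trans hom) he (T.nm_nonneg _) hom0
    -- the second
    set Uh := T.nm (S.disc h y) with hUh
    have hUh0 : 0 ≤ Uh := T.nm_nonneg _
    have t2 : T.nm (T.mul (S.F g) (S.disc h y)) ≤ lam * Uh :=
      hmul g (Or.inr (Or.inl (Fm.Sub.refl g))) _
        (T.low_mono (by omega) (S.disc_low h y))
    have ih1 : Uh ≤ κ ^ h.lv * (S.bad h y + 2 * B * (h.lv - 1) + om * (h.lv - 1) * e) :=
      ihh (by omega) (fun g' h' hs => hgap g' h' (Or.inr (Or.inr hs)))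
        (fun g' hs => hmul g' (Or.inr (Or.inr hs))) m (by omega) y Y hY hYm he
    -- the third
    have e' : T.nm (S.R (S.Q h y) - T.mul (S.F h) Y) ≤ Uh + lam * e := by
      have e1 : S.R (S.Q h y) - T.mul (S.F h) Y
          = S.disc h y + T.mul (S.F h) (S.R y - Y) := by
        simp only [disc, map_sub]; abel
      rw [e1]
      refine (T.nm_add _ _).trans (add_le_add le_rfl ?_)
      refine (hmul h (Or.inr (Or.inr (Fm.Sub.refl h))) _ (T.low_mono (by omega) hRY)).trans ?_
      exact mul_le_mul_of_nonneg_left he (by linarith)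
    have hY' : T.mul (S.F h) Y ∈ T.Low ((m + 1) * S.d) := by
      rw [add_mul, one_mul, add_comm]
      exact T.mul_low (S.F_low h) hY
    have hYm' : ∀ G ∈ T.Low (2 * S.d), T.nm (T.mul (T.mul (S.F h) Y) G) ≤ lam ^ (m + 1) * T.nm G := by
      intro G hG
      have hYG : T.mul Y G ∈ T.Low (S.D + 2 * S.d) :=
        T.low_mono (by omega) (T.mul_low hYD hG)
      rw [T.assoc (S.rad_le (by omega)) (S.F_low h) hYD hG]
      refine (hmul h (Or.inr (Or.inr (Fm.Sub.refl h))) _ hYG).trans ?_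
      rw [pow_succ, mul_comm (lam ^ m) lam, mul_assoc]
      exact mul_le_mul_of_nonneg_left (hYm G hG) (by linarith)
    set Ug := T.nm (S.disc g (S.Q h y)) with hUg
    have ih2 : Ug ≤ κ ^ g.lv * (S.bad g (S.Q h y) + 2 * B * (g.lv - 1)
        + om * (g.lv - 1) * (Uh + lam * e)) :=
      ihg (by omega) (fun g' h' hs => hgap g' h' (Or.inr (Or.inl hs)))
        (fun g' hs => hmul g' (Or.inr (Or.inl hs))) (m + 1) (by omega) (S.Q h y) _ hY' hYm' e'
    -- total
    have htot : T.nm (S.disc (.and g h) y) ≤ (2 * B + om * e) + lam * Uh + Ug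
        + T.nm (S.tr g h y) := by
      rw [disc_and]
      refine (T.nm_sub _ _).trans (add_le_add ((T.nm_add _ _).trans
        (add_le_add ((T.nm_add _ _).trans (add_le_add t1 t2)) le_rfl)) le_rfl)
    refine htot.trans ?_
    have ebad : S.bad (.and g h) y = S.bad h y + S.bad g (S.Q h y) + T.nm (S.tr g h y) := rfl
    rw [ebad, elv, pow_add]
    push_cast
    set bh := S.bad h y
    set bg := S.bad g (S.Q h y)
    set t := T.nm (S.tr g h y)
    have hbh : 0 ≤ bh := S.bad_nonneg _ _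
    have hbg : 0 ≤ bg := S.bad_nonneg _ _
    have ht : 0 ≤ t := T.nm_nonneg _
    set lg : ℝ := (g.lv : ℝ)
    set lh : ℝ := (h.lv : ℝ)
    set P := κ ^ g.lv with hP
    set P' := κ ^ h.lv with hP'
    have hP1 : κ ≤ P := by
      calc κ = κ ^ 1 := (pow_one _).symm
        _ ≤ _ := pow_le_pow_right₀ hκ1 g.lv_pos
    have hP'1 : κ ≤ P' := by
      calc κ = κ ^ 1 := (pow_one _).symm
        _ ≤ _ := pow_le_pow_right₀ hκ1 h.lv_pos
    have hP0 : 0 ≤ P := by linarith
    have hP'0 : 0 ≤ P' := by linarith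
    have hPL : P * (om * (lg - 1)) ≤ k := by
      refine le_trans ?_ hok
      have h1 : P ≤ κ ^ L := pow_le_pow_right₀ hκ1 (by omega)
      have h2 : lg - 1 ≤ (L : ℝ) := by
        have : (g.lv : ℝ) ≤ L := by exact_mod_cast (by omega : g.lv ≤ L)
        show (g.lv : ℝ) - 1 ≤ L
        linarith
      exact mul_le_mul h1 (mul_le_mul_of_nonneg_left h2 hom0)
        (mul_nonneg hom0 (by linarith)) (by positivity)
    -- coefficient of `Uh`
    have c1 : lam + P * (om * (lg - 1)) ≤ P := by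
      have : lam + P * (om * (lg - 1)) ≤ κ := by rw [hκ]; linarith
      linarith
    set X := bh + 2 * B * (lh - 1) + om * (lh - 1) * e with hX
    have hX0 : 0 ≤ X := by
      have h1 : 0 ≤ 2 * B * (lh - 1) := mul_nonneg (by linarith) (by linarith)
      have h2 : 0 ≤ om * (lh - 1) * e := mul_nonneg (mul_nonneg hom0 (by linarith)) e0
      linarith
    have c2 : (lam + P * (om * (lg - 1))) * Uh ≤ P * P' * X := by
      calc (lam + P * (om * (lg - 1))) * Uh ≤ P * Uh := mul_le_mul_of_nonneg_right c1 hUh0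
        _ ≤ P * (P' * X) := mul_le_mul_of_nonneg_left ih1 hP0
        _ = _ := by ring
    have hlP' : lam ≤ P' := by linarith
    have hP'1' : 1 ≤ P' := by linarith
    have c3 : P * (bg + 2 * B * (lg - 1) + om * (lg - 1) * (lam * e))
        ≤ P * P' * (bg + 2 * B * (lg - 1) + om * (lg - 1) * e) := by
      have h1 : 0 ≤ om * (lg - 1) * e := mul_nonneg (mul_nonneg hom0 (by linarith)) e0
      have h2 : 0 ≤ bg + 2 * B * (lg - 1) := add_nonneg hbg (mul_nonneg (by linarith) (by linarith))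
      have h3 : bg + 2 * B * (lg - 1) + om * (lg - 1) * (lam * e)
          ≤ P' * (bg + 2 * B * (lg - 1) + om * (lg - 1) * e) := by
        have h4 : om * (lg - 1) * (lam * e) = lam * (om * (lg - 1) * e) := by ring
        rw [h4, mul_add]
        exact add_le_add (le_mul_of_one_le_left h2 hP'1') (mul_le_mul_of_nonneg_right hlP' h1)
      calc _ ≤ P * (P' * (bg + 2 * B * (lg - 1) + om * (lg - 1) * e)) :=
            mul_le_mul_of_nonneg_left h3 hP0
        _ = _ := by ring
    have hPP : 1 ≤ P * P' := by nlinarith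
    have c4 : 2 * B + om * e + t ≤ P * P' * (2 * B + om * e + t) :=
      le_mul_of_one_le_left (by positivity) hPP
    calc 2 * B + om * e + lam * Uh + Ug + t
        ≤ 2 * B + om * e + lam * Uh + P * (bg + 2 * B * (lg - 1)
          + om * (lg - 1) * (Uh + lam * e)) + t := by linarith
      _ = (2 * B + om * e + t) + (lam + P * (om * (lg - 1))) * Uh
          + P * (bg + 2 * B * (lg - 1) + om * (lg - 1) * (lam * e)) := by ring
      _ ≤ P * P' * (2 * B + om * e + t) + P * P' * X
          + P * P' * (bg + 2 * B * (lg - 1) + om * (lg - 1) * e) := by linarith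
      _ = P * P' * (bh + bg + t + 2 * B * (lg + lh - 1) + om * (lg + lh - 1) * e) := by
        rw [hX]; ring

end Rs

end Pool.Agent.EFT
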