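import Pool.Agent.Lib.EFT.Disc

/-!
# (H2): growth of the defects (row R11 of project EF)
-/

set_option autoImplicit false

namespace Pool.Agent.EFT

namespace Rs

variable {V : Type*} [AddCommGroup V] [Module ℝ V] {T : TAlg V}
  {W : Type*} [AddCommGroup W] [Module ℝ W] {α : Type*} (S : Rs T W α)

/-- `F_f * F_f - F_f` -/
def idem (f : Fm α) : V := T.mul (S.F f) (S.F f) - S.F f

theorem idem_low (f : Fm α) : S.idem f ∈ T.Low (2 * S.d) := by
  rw [two_mul]
  exact sub_mem (T.mul_low (S.F_low _) (S.F_low _)) (T.low_mono (Nat.le_add_left _ _) (S.F_low _))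

theorem idem_neg (f : Fm α) : S.idem (.neg f) = S.idem f := by
  simp only [idem, S.F_neg, map_sub, LinearMap.sub_apply, T.one_mul, T.mul_one]
  abel

/-- the elements `F f` against `R (Q_f δ)` -/
theorem rf_le {Sb : Fm α → Prop} (hcl : ∀ f g, Sb f → f.Sub g → Sb g) {e0 : ℝ}
    (h1 : ∀ g h, Sb (.and g h) → S.bad g (S.Q h S.dl) + T.nm (S.tr g h S.dl)
      + T.nm (S.R (S.Q (.and g h) S.dl) - S.F (.and g h)) ≤ e0)
    (h2 : ∀ a, Sb (.var a) → T.nm (S.R (S.Q (.var a) S.dl) - S.F (.var a)) ≤ e0)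
    (f : Fm α) (hf : Sb f) : T.nm (S.R (S.Q f S.dl) - S.F f) ≤ e0 := by
  induction f with
  | var a => exact h2 a hf
  | neg g ih =>
    have e1 : S.R (S.Q (.neg g) S.dl) - S.F (.neg g) = -(S.R (S.Q g S.dl) - S.F g) := by
      rw [S.Q_neg, S.F_neg, map_sub, S.R_dl]; abel
    rw [e1, T.nm_neg]
    exact ih (hcl _ _ hf (Or.inr (Fm.Sub.refl g)))
  | and g h _ _ =>
    have := h1 g h hf
    have h3 := S.bad_nonneg g (S.Q h S.dl)
    have h4 := T.nm_nonneg (S.tr g h S.dl)
    linarith

/-- the product of a conjunction, expanded -/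
theorem idem_and (hrad : 4 * S.d ≤ T.rad) (g h : Fm α) :
    S.idem (.and g h) = T.mul (S.F h) (S.idem g) + T.mul (S.F g) (S.idem h)
      + T.mul (S.idem g) (S.idem h)
      - (2 : ℝ) • T.mul (S.F g) (T.mul (S.F h) (S.gap g h))
      + T.mul (S.gap g h) (S.gap g h) + S.gap g h := by
  set a := S.F g
  set b := S.F h
  have ha : a ∈ T.Low S.d := S.F_low g
  have hb : b ∈ T.Low S.d := S.F_low h
  have hab : T.mul a b ∈ T.Low (2 * S.d) := by rw [two_mul]; exact T.mul_low ha hb
  have hbb : T.mul b b ∈ T.Low (2 * S.d) := by rw [two_mul]; exact T.mul_low hb hb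
  have hG : S.gap g h ∈ T.Low (2 * S.d) := S.gap_low g h
  have eF : S.F (.and g h) = T.mul a b - S.gap g h := by simp only [gap, a, b]; abel
  have e1 : T.mul (T.mul a b) (T.mul a b) = T.mul (T.mul a a) (T.mul b b) := by
    rw [T.assoc (by omega) ha hb hab, T.comm a b, ← T.assoc (by omega) hb hb ha,
      T.comm (T.mul b b) a, ← T.assoc (by omega) ha ha hbb]
  have e2 : T.mul (T.mul a b) (S.gap g h) = T.mul a (T.mul b (S.gap g h)) :=
    T.assoc (by omega) ha hb hG
  have e3 : T.mul a a = a + S.idem g := by simp only [idem, a]; abel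
  have e4 : T.mul b b = b + S.idem h := by simp only [idem, b]; abel
  have e5 : S.idem (.and g h) = T.mul (T.mul a b) (T.mul a b)
      - (2 : ℝ) • T.mul (T.mul a b) (S.gap g h) + T.mul (S.gap g h) (S.gap g h)
      - T.mul a b + S.gap g h := by
    simp only [idem, eF, map_sub, LinearMap.sub_apply, two_smul]
    rw [T.comm (S.gap g h) (T.mul a b)]
    abel
  rw [e5, e1, e2, e3, e4]
  simp only [map_add, LinearMap.add_apply]
  rw [T.comm (S.idem g) b]
  abel

theorem pow_bound {x : ℝ} (hx : 0 ≤ x) (n : ℕ) : (1 + x) ^ n ≤ Real.exp (n * x) := by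
  have h : 1 + x ≤ Real.exp x := by linarith [Real.add_one_le_exp x]
  calc (1 + x) ^ n ≤ (Real.exp x) ^ n := pow_le_pow_left₀ (by linarith) h n
    _ = _ := (Real.exp_nat_mul x n).symm

theorem exp_quarter : Real.exp (1 / 4) ≤ 1.3 := by
  have h := Real.exp_bound' (x := 1 / 4) (by norm_num) (by norm_num) (n := 3) (by norm_num)
  refine h.trans ?_
  norm_num [Finset.sum_range_succ, Nat.factorial]

/-- **(H2)**: all defects are small. -/
theorem main {Sb : Fm α → Prop} (hcl : ∀ f g, Sb f → f.Sub g → Sb g) {L hh : ℕ}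
    (hL1 : hh + 1 ≤ L) (hL : ∀ f, Sb f → f.lv ≤ L) (hh' : ∀ f, Sb f → f.ah ≤ hh)
    (hD : (hh + 1) * S.d ≤ S.D) {e0 : ℝ} (he0 : 0 ≤ e0)
    (h1 : ∀ g h, Sb (.and g h) → S.bad g (S.Q h S.dl) + T.nm (S.tr g h S.dl)
      + T.nm (S.R (S.Q (.and g h) S.dl) - S.F (.and g h)) ≤ e0)
    (h2 : ∀ a, Sb (.var a) → T.nm (S.R (S.Q (.var a) S.dl) - S.F (.var a)) ≤ e0)
    (hs : T.A (2 * S.d) * (8 * 3 ^ hh * (8 * e0 * (5 * L) ^ hh)) ≤ 1 / (100 * (L : ℝ) ^ 2)) :
    (∀ g h, Sb (.and g h) → T.nm (S.gap g h) ≤ 8 * e0 * (5 * L) ^ hh) ∧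
    (∀ f, Sb f → T.nm (S.idem f) ≤ 8 * 3 ^ hh * (8 * e0 * (5 * L) ^ hh)) ∧
    (∀ f, Sb f → ∀ u ∈ T.Low (S.D + 2 * S.d),
      T.nm (T.mul (S.F f) u) ≤ (1 + 1 / (100 * (L : ℝ) ^ 2)) * T.nm u) := by
  have hA := T.A_nonneg (2 * S.d)
  have hLr : (1 : ℝ) ≤ L := by exact_mod_cast (by omega : 1 ≤ L)
  have hrad4 : 4 * S.d ≤ T.rad := le_trans (by omega) S.hrad
  set x : ℝ := 1 / (100 * (L : ℝ) ^ 2) with hx
  have hx0 : 0 ≤ x := by positivity
  have hxL : x * (L : ℝ) ^ 2 = 1 / 100 := by rw [hx]; field_simp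
  have hxL1 : x * L ≤ 1 / 100 := by
    calc x * L ≤ x * (L : ℝ) ^ 2 := mul_le_mul_of_nonneg_left (by nlinarith) hx0
      _ = _ := hxL
  have hx1 : x ≤ 1 / 100 := le_trans (le_mul_of_one_le_right hx0 hLr) hxL1
  -- monotonicity of the bounds
  have hB : ∀ j ≤ hh, 8 * e0 * (5 * (L : ℝ)) ^ j ≤ 8 * e0 * (5 * L) ^ hh := fun j hj =>
    mul_le_mul_of_nonneg_left (pow_le_pow_right₀ (by linarith) hj) (by linarith)
  have hI : ∀ j ≤ hh, 8 * 3 ^ j * (8 * e0 * (5 * (L : ℝ)) ^ j)
      ≤ 8 * 3 ^ hh * (8 * e0 * (5 * L) ^ hh) := fun j hj =>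
    mul_le_mul (mul_le_mul_of_nonneg_left (pow_le_pow_right₀ (by norm_num) hj) (by norm_num))
      (hB j hj) (by positivity) (by positivity)
  have hAI : ∀ j ≤ hh, T.A (2 * S.d) * (8 * 3 ^ j * (8 * e0 * (5 * (L : ℝ)) ^ j)) ≤ x := fun j hj =>
    (mul_le_mul_of_nonneg_left (hI j hj) hA).trans hs
  have hAB : ∀ j ≤ hh, T.A (2 * S.d) * (8 * e0 * (5 * (L : ℝ)) ^ j) ≤ x / 8 := by
    intro j hj
    have h3 := hAI j hj
    have h4 : 8 * (T.A (2 * S.d) * (8 * e0 * (5 * (L : ℝ)) ^ j))
        ≤ T.A (2 * S.d) * (8 * 3 ^ j * (8 * e0 * (5 * (L : ℝ)) ^ j)) := by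
      have h5 : (1 : ℝ) ≤ 3 ^ j := one_le_pow₀ (by norm_num)
      have h6 : 0 ≤ T.A (2 * S.d) * (8 * e0 * (5 * (L : ℝ)) ^ j) := by positivity
      calc _ ≤ 3 ^ j * (8 * (T.A (2 * S.d) * (8 * e0 * (5 * (L : ℝ)) ^ j))) :=
            le_mul_of_one_le_left (by positivity) h5
        _ = _ := by ring
    linarith
  have hrf := S.rf_le hcl h1 h2
  -- lambda
  have hlam : ∀ j ≤ hh, ∀ f, T.nm (S.idem f) ≤ 8 * 3 ^ j * (8 * e0 * (5 * (L : ℝ)) ^ j) →
      ∀ u ∈ T.Low (S.D + 2 * S.d), T.nm (T.mul (S.F f) u) ≤ (1 + x) * T.nm u := by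
    intro j hj f hf u hu
    refine (T.nm_mul_le (S.F_low f) hu (le_trans (by omega) S.hrad) hf).trans ?_
    refine mul_le_mul_of_nonneg_right ?_ (T.nm_nonneg u)
    have := hAI j hj
    linarith
  have key : ∀ j ≤ hh,
      (∀ g h, Sb (.and g h) → (Fm.and g h).ah ≤ j →
        T.nm (S.gap g h) ≤ 8 * e0 * (5 * (L : ℝ)) ^ j) ∧
      (∀ f, Sb f → f.ah ≤ j → T.nm (S.idem f) ≤ 8 * 3 ^ j * (8 * e0 * (5 * (L : ℝ)) ^ j)) := by
    intro j
    induction j with
    | zero =>
      intro _
      refine ⟨fun g h _ hah => ?_, fun f hSf hah => ?_⟩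
      · simp only [Fm.ah] at hah; omega
      · induction f with
        | var a =>
          have : S.idem (.var a) = 0 := by rw [idem, S.F_var, sub_self]
          rw [this, T.nm_zero]; positivity
        | neg g ih =>
          rw [idem_neg]
          exact ih (hcl _ _ hSf (Or.inr (Fm.Sub.refl g))) hah
        | and g h _ _ => simp only [Fm.ah] at hah; omega
    | succ j ihj =>
      intro hj
      obtain ⟨ihB, ihI⟩ := ihj (by omega)
      set Bj := 8 * e0 * (5 * (L : ℝ)) ^ j with hBj
      have hBj0 : 0 ≤ Bj := by positivity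
      have hABj := hAB j (by omega)
      have hgapj : ∀ g h, Sb (.and g h) → (Fm.and g h).ah ≤ j + 1 →
          T.nm (S.gap g h) ≤ 8 * e0 * (5 * (L : ℝ)) ^ (j + 1) := by
        intro g h hS hah
        have eah : (Fm.and g h).ah = max g.ah h.ah + 1 := rfl
        rw [eah] at hah
        have hSg : Sb g := hcl _ _ hS (Or.inr (Or.inl (Fm.Sub.refl g)))
        have hSh : Sb h := hcl _ _ hS (Or.inr (Or.inr (Fm.Sub.refl h)))
        have hlg : (1 : ℝ) ≤ g.lv := by exact_mod_cast g.lv_pos
        have hlgL : (g.lv : ℝ) ≤ L := by exact_mod_cast hL g hSg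
        have hmulS : ∀ f, Sb f → f.ah ≤ j → ∀ u ∈ T.Low (S.D + 2 * S.d),
            T.nm (T.mul (S.F f) u) ≤ (1 + x) * T.nm u := fun f hf hfa =>
          hlam j (by omega) f (ihI f hf hfa)
        have hF_D : ∀ f, S.F f ∈ T.Low S.D := fun f =>
          T.low_mono (by nlinarith [Nat.zero_le (hh * S.d)]) (S.F_low f)
        -- (H1)
        have hdisc := S.disc_le (hh := hh) hD (B := Bj) (lam := 1 + x)
          (om := T.A (2 * S.d) * Bj) (κ := 1 + 2 * (1 / (8 * (L : ℝ)))) (k := 1 / (8 * (L : ℝ)))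
          (L := L) hBj0 (by linarith)
          (by
            refine (pow_bound hx0 (hh + 1)).trans ?_
            have h5 : ((hh + 1 : ℕ) : ℝ) * x ≤ 1 / 4 := by
              calc ((hh + 1 : ℕ) : ℝ) * x ≤ L * x :=
                    mul_le_mul_of_nonneg_right (by exact_mod_cast hL1) hx0
                _ = x * L := mul_comm _ _
                _ ≤ 1 / 4 := by linarith
            linarith [Real.exp_le_exp.mpr h5, exp_quarter])
          le_rfl (by positivity) rfl
          (by
            have : x ≤ 1 / (8 * (L : ℝ)) := by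
              rw [le_div_iff₀ (by positivity)]
              nlinarith
            linarith)
          (by
            have h5 : (1 + 2 * (1 / (8 * (L : ℝ)))) ^ L ≤ 1.3 := by
              refine (pow_bound (by positivity) L).trans (le_trans ?_ exp_quarter)
              refine Real.exp_le_exp.mpr (le_of_eq ?_)
              field_simp
              norm_num
            have h6 : T.A (2 * S.d) * Bj * L ≤ x / 8 * L :=
              mul_le_mul_of_nonneg_right hABj (by linarith)
            have h7 : x / 8 * L ≤ 1 / (800 * (L : ℝ)) := by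
              rw [hx]
              have : (L : ℝ) ≠ 0 := by positivity
              field_simp
              norm_num
            calc (1 + 2 * (1 / (8 * (L : ℝ)))) ^ L * (T.A (2 * S.d) * Bj * L)
                ≤ 1.3 * (1 / (800 * (L : ℝ))) :=
                  mul_le_mul h5 (h6.trans h7) (by positivity) (by norm_num)
              _ ≤ 1 / (8 * (L : ℝ)) := by
                have : 0 < (L : ℝ) := by linarith
                rw [mul_one_div, div_le_div_iff₀ (by positivity) (by positivity)]
                nlinarith)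
          g (hL g hSg)
          (fun g' h' hs' => ihB g' h' (hcl _ _ hSg hs') ((Fm.Sub.ah_le hs').trans (by omega)))
          (fun g' hs' => hmulS g' (hcl _ _ hSg hs') ((Fm.Sub.ah_le hs').trans (by omega)))
          1 (by omega) (S.Q h S.dl) (S.F h) (by rw [_root_.one_mul]; exact S.F_low h)
          (fun G hG => by
            rw [pow_one]
            exact hmulS h hSh (by omega) G (T.low_mono (by omega) hG))
          (hrf h hSh)
        have hκL : (1 + 2 * (1 / (8 * (L : ℝ)))) ^ g.lv ≤ 1.3 := by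
          have h8 : (1 + 2 * (1 / (8 * (L : ℝ)))) ^ g.lv ≤ (1 + 2 * (1 / (8 * (L : ℝ)))) ^ L :=
            pow_le_pow_right₀ (by
              have : 0 ≤ 1 / (8 * (L : ℝ)) := by positivity
              linarith) (hL g hSg)
          refine h8.trans ((pow_bound (by positivity) L).trans (le_trans ?_ exp_quarter))
          refine Real.exp_le_exp.mpr (le_of_eq ?_)
          field_simp
          norm_num
        set bg := S.bad g (S.Q h S.dl) with hbg
        have hbg0 : 0 ≤ bg := S.bad_nonneg _ _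
        set t := T.nm (S.tr g h S.dl) with ht
        have ht0 : 0 ≤ t := T.nm_nonneg _
        set r := T.nm (S.R (S.Q (.and g h) S.dl) - S.F (.and g h)) with hr
        have hr0 : 0 ≤ r := T.nm_nonneg _
        have hsum : bg + t + r ≤ e0 := h1 g h hS
        have hd2 : T.nm (S.disc g (S.Q h S.dl)) ≤ 1.3 * (bg + 2 * Bj * L + 1 / 100 * e0) := by
          refine hdisc.trans ?_
          have h9 : T.A (2 * S.d) * Bj * (g.lv - 1) * e0 ≤ 1 / 100 * e0 := by
            refine mul_le_mul_of_nonneg_right ?_ he0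
            calc T.A (2 * S.d) * Bj * (g.lv - 1) ≤ x / 8 * L :=
                  mul_le_mul hABj (by linarith) (by linarith) (by positivity)
              _ ≤ 1 / 100 := by linarith
          have h10 : 2 * Bj * ((g.lv : ℝ) - 1) ≤ 2 * Bj * L :=
            mul_le_mul_of_nonneg_left (by linarith) (by positivity)
          have h11 : 0 ≤ bg + 2 * Bj * ((g.lv : ℝ) - 1)
              + T.A (2 * S.d) * Bj * (g.lv - 1) * e0 := by
            have h12 : 0 ≤ (g.lv : ℝ) - 1 := by linarith
            positivity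
          exact mul_le_mul hκL (by linarith) h11 (by norm_num)
        have hm2 : T.nm (T.mul (S.F g) (S.R (S.Q h S.dl) - S.F h)) ≤ (1 + x) * e0 := by
          refine (hmulS g hSg (by omega) _ (T.low_mono (by omega)
            (sub_mem (S.R_low _) (hF_D h)))).trans ?_
          exact mul_le_mul_of_nonneg_left (hrf h hSh) (by linarith)
        have htot : T.nm (S.gap g h) ≤ r + (1 + x) * e0
            + 1.3 * (bg + 2 * Bj * L + 1 / 100 * e0) + t := by
          rw [gap_eq]
          exact (T.nm_add _ _).trans (add_le_add ((T.nm_sub _ _).trans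
            (add_le_add ((T.nm_sub _ _).trans (add_le_add le_rfl hm2)) hd2)) le_rfl)
        refine htot.trans ?_
        have hBje : 8 * e0 ≤ Bj := by
          rw [hBj]
          exact le_mul_of_one_le_right (by linarith) (one_le_pow₀ (by linarith))
        have hxe : x * e0 ≤ 1 / 100 * e0 := mul_le_mul_of_nonneg_right hx1 he0
        have hBL : Bj ≤ Bj * L := le_mul_of_one_le_right hBj0 hLr
        have e9 : 8 * e0 * (5 * (L : ℝ)) ^ (j + 1) = 5 * (Bj * L) := by
          rw [hBj, pow_succ]; ring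
        rw [e9]
        nlinarith
      refine ⟨hgapj, fun f => ?_⟩
      induction f with
      | var a =>
        intro _ _
        have : S.idem (.var a) = 0 := by rw [idem, S.F_var, sub_self]
        rw [this, T.nm_zero]; positivity
      | neg g ih =>
        intro hS hah
        rw [idem_neg]
        exact ih (hcl _ _ hS (Or.inr (Fm.Sub.refl g))) hah
      | and g h _ _ =>
        intro hS hah
        have hgB := hgapj g h hS hah
        have eah : (Fm.and g h).ah = max g.ah h.ah + 1 := rfl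
        rw [eah] at hah
        have hSg : Sb g := hcl _ _ hS (Or.inr (Or.inl (Fm.Sub.refl g)))
        have hSh : Sb h := hcl _ _ hS (Or.inr (Or.inr (Fm.Sub.refl h)))
        have hIg := ihI g hSg (by omega)
        have hIh := ihI h hSh (by omega)
        set B := 8 * e0 * (5 * (L : ℝ)) ^ (j + 1) with hBdef
        have hB0 : 0 ≤ B := by positivity
        set Ij := 8 * 3 ^ j * Bj with hIj
        have hIj0 : 0 ≤ Ij := by positivity
        have hlg := hlam j (by omega) g hIg
        have hlh := hlam j (by omega) h hIh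
        have hAIj : T.A (2 * S.d) * Ij ≤ 1 / 100 := (hAI j (by omega)).trans hx1
        have hABj1 : T.A (2 * S.d) * B ≤ 1 / 100 := by
          have := hAB (j + 1) hj
          linarith
        have low2 : ∀ {u : V}, u ∈ T.Low (2 * S.d) → u ∈ T.Low (S.D + 2 * S.d) := fun hu =>
          T.low_mono (by omega) hu
        have b1 : T.nm (T.mul (S.F h) (S.idem g)) ≤ 1.01 * Ij :=
          (hlh _ (low2 (S.idem_low g))).trans
            (mul_le_mul (by linarith) hIg (T.nm_nonneg _) (by norm_num))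
        have b2 : T.nm (T.mul (S.F g) (S.idem h)) ≤ 1.01 * Ij :=
          (hlg _ (low2 (S.idem_low h))).trans
            (mul_le_mul (by linarith) hIh (T.nm_nonneg _) (by norm_num))
        have b3 : T.nm (T.mul (S.idem g) (S.idem h)) ≤ 1 / 100 * Ij := by
          refine (T.bound (S.idem_low g) _).trans ?_
          refine mul_le_mul ((mul_le_mul_of_nonneg_left hIg hA).trans hAIj) hIh
            (T.nm_nonneg _) (by norm_num)
        have b4a : T.nm (T.mul (S.F h) (S.gap g h)) ≤ 1.01 * B :=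
          (hlh _ (low2 (S.gap_low g h))).trans
            (mul_le_mul (by linarith) hgB (T.nm_nonneg _) (by norm_num))
        have hlow3 : T.mul (S.F h) (S.gap g h) ∈ T.Low (S.D + 2 * S.d) := by
          refine T.low_mono ?_ (T.mul_low (S.F_low h) (S.gap_low g h))
          nlinarith [Nat.zero_le (hh * S.d)]
        have b4 : T.nm (T.mul (S.F g) (T.mul (S.F h) (S.gap g h))) ≤ 1.01 * (1.01 * B) :=
          (hlg _ hlow3).trans (mul_le_mul (by linarith) b4a (T.nm_nonneg _) (by norm_num))
        have b5 : T.nm (T.mul (S.gap g h) (S.gap g h)) ≤ 1 / 100 * B := by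
          refine (T.bound (S.gap_low g h) _).trans ?_
          exact mul_le_mul ((mul_le_mul_of_nonneg_left hgB hA).trans hABj1) hgB
            (T.nm_nonneg _) (by norm_num)
        rw [S.idem_and hrad4 g h, two_smul]
        have htot : T.nm (T.mul (S.F h) (S.idem g) + T.mul (S.F g) (S.idem h)
            + T.mul (S.idem g) (S.idem h)
            - (T.mul (S.F g) (T.mul (S.F h) (S.gap g h))
              + T.mul (S.F g) (T.mul (S.F h) (S.gap g h)))
            + T.mul (S.gap g h) (S.gap g h) + S.gap g h)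
            ≤ 1.01 * Ij + 1.01 * Ij + 1 / 100 * Ij + (1.01 * (1.01 * B) + 1.01 * (1.01 * B))
              + 1 / 100 * B + B := by
          refine (T.nm_add _ _).trans (add_le_add ((T.nm_add _ _).trans
            (add_le_add ((T.nm_sub _ _).trans (add_le_add ((T.nm_add _ _).trans
              (add_le_add ((T.nm_add _ _).trans (add_le_add b1 b2)) b3))
              ((T.nm_add _ _).trans (add_le_add b4 b4)))) b5)) hgB)
        refine htot.trans ?_
        have e9 : B = 5 * L * Bj := by rw [hBdef, hBj, pow_succ]; ring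
        have e10 : (3 : ℝ) ^ (j + 1) = 3 * 3 ^ j := pow_succ' _ _
        have h3j : (1 : ℝ) ≤ 3 ^ j := one_le_pow₀ (by norm_num)
        have hBjB : 5 * Bj ≤ B := by
          rw [e9]; nlinarith
        have hIjB : Ij ≤ 8 / 5 * (3 ^ j * B) := by
          rw [hIj]
          have := mul_le_mul_of_nonneg_left hBjB (by positivity : (0 : ℝ) ≤ 3 ^ j)
          linarith
        have hB3 : B ≤ 3 ^ j * B := le_mul_of_one_le_left hB0 h3j
        rw [e10]
        nlinarith
  refine ⟨fun g h hS => (key hh le_rfl).1 g h hS (hh' _ hS),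
    fun f hS => (key hh le_rfl).2 f hS (hh' _ hS),
    fun f hS => hlam hh le_rfl f ((key hh le_rfl).2 f hS (hh' _ hS))⟩

end Rs

end Pool.Agent.EFT
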