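import Pool.Agent.Lib.EFT.TAlg

/-!
# Rules of a Frege system in an almost boolean graded algebra (row R12, section 4.5)
-/

set_option autoImplicit false

namespace Pool.Agent.EFT

open Finset

namespace Fm

variable {α β : Type*}

/-- Simultaneous substitution. -/
def subst (θ : α → Fm β) : Fm α → Fm β
  | var i => θ i
  | neg f => neg (f.subst θ)
  | and f g => and (f.subst θ) (g.subst θ)

/-- Truth value. -/
def eval (v : α → Bool) : Fm α → Bool
  | var i => v i
  | neg f => !(f.eval v)
  | and f g => (f.eval v) && (g.eval v)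

/-- The variable `i` occurs in the formula. -/
def Occ (i : α) : Fm α → Prop
  | var j => j = i
  | neg f => f.Occ i
  | and f g => f.Occ i ∨ g.Occ i

/-- The constant of a formula in `n` schematic variables. -/
def cst (n : ℕ) : Fm α → ℝ
  | var _ => 3 ^ n
  | neg f => f.cst n
  | and f g => f.cst n + 2 * g.cst n + 3 ^ n

theorem cst_nonneg (n : ℕ) (f : Fm α) : 0 ≤ f.cst n := by
  induction f with
  | var i => simp only [cst]; positivity
  | neg f ih => simpa only [cst] using ih
  | and f g ihf ihg => simp only [cst]; positivity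

theorem subst_congr (θ θ' : α → Fm β) (f : Fm α) (h : ∀ i, f.Occ i → θ i = θ' i) :
    f.subst θ = f.subst θ' := by
  induction f with
  | var i => exact h i rfl
  | neg f ih => simp only [subst]; rw [ih h]
  | and f g ihf ihg =>
    simp only [subst]
    rw [ihf (fun i hi => h i (Or.inl hi)), ihg (fun i hi => h i (Or.inr hi))]

end Fm

/-- A family of formulas closed under subformulas. -/
structure SubClosed {β : Type*} (Sub : Fm β → Prop) : Prop where
  neg : ∀ f, Sub (Fm.neg f) → Sub f
  left : ∀ f g, Sub (Fm.and f g) → Sub f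
  right : ∀ f g, Sub (Fm.and f g) → Sub g

theorem SubClosed.of_occ {α β : Type*} {Sub : Fm β → Prop} (hS : SubClosed Sub)
    (θ : α → Fm β) (i : α) (f : Fm α) (hi : f.Occ i) (hf : Sub (f.subst θ)) : Sub (θ i) := by
  induction f with
  | var j =>
    have : j = i := hi
    subst this
    exact hf
  | neg f ih => exact ih hi (hS.neg _ hf)
  | and f g ihf ihg =>
    rcases hi with hi | hi
    · exact ihf hi (hS.left _ _ hf)
    · exact ihg hi (hS.right _ _ hf)

theorem SubClosed.of_sub {β : Type*} {S : Fm β → Prop}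
    (h : ∀ f g, S f → Fm.Sub f g → S g) : SubClosed S where
  neg f hf := h _ f hf (Or.inr (Fm.Sub.refl f))
  left f _ hf := h _ f hf (Or.inr (Or.inl (Fm.Sub.refl f)))
  right _ g hf := h _ g hf (Or.inr (Or.inr (Fm.Sub.refl g)))

/-- The values of the formulas in the algebra, with all bounds. -/
structure Val {V : Type*} [AddCommGroup V] [Module ℝ V] (G : TAlg V) {β : Type*}
    (Sub : Fm β → Prop) (F : Fm β → V) (d M : ℕ) (B I : ℝ) : Prop where
  sub : SubClosed Sub
  mem : ∀ f, Sub f → F f ∈ G.Low d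
  neg : ∀ f, Sub (Fm.neg f) → F (Fm.neg f) = G.one - F f
  and : ∀ f g, Sub (Fm.and f g) → G.nm (G.mul (F f) (F g) - F (Fm.and f g)) ≤ B
  idem : ∀ f, Sub f → G.nm (G.mul (F f) (F f) - F f) ≤ I
  lam : ∀ f, Sub f → ∀ u ∈ G.Low M, G.nm (G.mul (F f) u) ≤ 2 * G.nm u
  M_le : M ≤ G.rad
  Bpos : 0 ≤ B
  Ipos : 0 ≤ I

section

variable {V : Type*} [AddCommGroup V] [Module ℝ V] {G : TAlg V} {β : Type*}
  {Sub : Fm β → Prop} {F : Fm β → V} {d M : ℕ} {B I : ℝ}

/-- Truth value as a real number. -/
def bv (b : Bool) : ℝ := cond b 1 0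

@[simp] theorem bv_true : bv true = 1 := rfl
@[simp] theorem bv_false : bv false = 0 := rfl

theorem bv_and (a b : Bool) : bv (a && b) = bv b * bv a := by cases a <;> cases b <;> simp

/-- The literal `x` or `1 - x`. -/
def TAlg.lit (G : TAlg V) (x : V) (b : Bool) : V := if b then x else G.one - x

/-- The atom of an assignment. -/
def TAlg.atom (G : TAlg V) : (n : ℕ) → (Fin n → V) → (Fin n → Bool) → V
  | 0, _, _ => G.one
  | n + 1, x, a => G.mul (G.lit (x 0) (a 0)) (G.atom n (fun i => x i.succ) (fun i => a i.succ))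

theorem TAlg.one_mem' (G : TAlg V) (a : ℕ) : G.one ∈ G.Low a := G.low_mono (Nat.zero_le _) G.one_low

theorem TAlg.nm_sum (G : TAlg V) {ι : Type*} (s : Finset ι) (f : ι → V) :
    G.nm (∑ i ∈ s, f i) ≤ ∑ i ∈ s, G.nm (f i) := by
  classical
  induction s using Finset.induction_on with
  | empty => simp [G.nm_zero]
  | insert a s ha ih =>
    rw [sum_insert ha, sum_insert ha]
    have := G.nm_add (f a) (∑ i ∈ s, f i)
    linarith

theorem TAlg.lit_mem {x : V} (hx : x ∈ G.Low d) (b : Bool) : G.lit x b ∈ G.Low d := by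
  unfold TAlg.lit
  split_ifs
  · exact hx
  · exact Submodule.sub_mem _ (G.one_mem' d) hx

theorem TAlg.atom_mem (n : ℕ) : ∀ (x : Fin n → V) (a : Fin n → Bool),
    (∀ i, x i ∈ G.Low d) → G.atom n x a ∈ G.Low (n * d) := by
  induction n with
  | zero =>
    intro x a _
    simpa [TAlg.atom] using G.one_low
  | succ n ih =>
    intro x a hx
    have h1 := ih (fun i => x i.succ) (fun i => a i.succ) (fun i => hx i.succ)
    have h2 := G.mul_low (TAlg.lit_mem (hx 0) (a 0)) h1
    have h3 : d + n * d = (n + 1) * d := by ring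
    rw [h3] at h2
    exact h2

theorem TAlg.sum_atom (n : ℕ) : ∀ (x : Fin n → V), ∑ a : Fin n → Bool, G.atom n x a = G.one := by
  induction n with
  | zero => intro x; simp [TAlg.atom]
  | succ n ih =>
    intro x
    rw [← (Fin.consEquiv (fun _ : Fin (n + 1) => Bool)).sum_comp, Fintype.sum_prod_type]
    simp only [Fin.consEquiv_apply, TAlg.atom, Fin.cons_zero, Fin.cons_succ]
    have h1 : ∀ b : Bool, ∑ a : Fin n → Bool,
        G.mul (G.lit (x 0) b) (G.atom n (fun i => x i.succ) (fun i => a i)) =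
        G.mul (G.lit (x 0) b) G.one := by
      intro b
      rw [← map_sum]
      congr 1
      exact ih _
    rw [Fintype.sum_bool, h1, h1, ← LinearMap.add_apply, ← map_add]
    have : G.lit (x 0) true + G.lit (x 0) false = G.one := by simp [TAlg.lit]
    rw [this, G.one_mul]

/-- `x` acts with norm at most two on `Low M`. -/
theorem lit_bound {x : V} (hlam : ∀ u ∈ G.Low M, G.nm (G.mul x u) ≤ 2 * G.nm u) (b : Bool) (u : V)
    (hu : u ∈ G.Low M) : G.nm (G.mul (G.lit x b) u) ≤ 3 * G.nm u := by
  have h := hlam u hu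
  have h0 := G.nm_nonneg u
  unfold TAlg.lit
  split_ifs
  · linarith
  · rw [map_sub, LinearMap.sub_apply, G.one_mul]
    have := G.nm_sub u (G.mul x u)
    linarith

theorem atom_bound (n : ℕ) : ∀ (x : Fin n → V) (a : Fin n → Bool) (m : ℕ) (u : V),
    (∀ i, x i ∈ G.Low d) → (∀ i, ∀ u ∈ G.Low M, G.nm (G.mul (x i) u) ≤ 2 * G.nm u) →
    u ∈ G.Low m → n * d + m ≤ M → M ≤ G.rad →
    G.nm (G.mul (G.atom n x a) u) ≤ 3 ^ n * G.nm u := by
  induction n with
  | zero =>
    intro x a m u _ _ _ _ _
    simp [TAlg.atom, G.one_mul]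
  | succ n ih =>
    intro x a m u hx hl hu hm hMR
    have e0 : (n + 1) * d = d + n * d := by ring
    have h1 := TAlg.atom_mem (G := G) n (fun i => x i.succ) (fun i => a i.succ)
      (fun i => hx i.succ)
    have h2 := ih (fun i => x i.succ) (fun i => a i.succ) m u (fun i => hx i.succ)
      (fun i => hl i.succ) hu (by omega) hMR
    simp only [TAlg.atom]
    rw [G.assoc (by omega) (TAlg.lit_mem (hx 0) (a 0)) h1 hu]
    have h3 : G.mul (G.atom n (fun i => x i.succ) fun i => a i.succ) u ∈ G.Low M :=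
      G.low_mono (by omega) (G.mul_low h1 hu)
    have h4 := lit_bound (hl 0) (a 0) _ h3
    calc _ ≤ _ := h4
      _ ≤ 3 * (3 ^ n * G.nm u) := by linarith
      _ = _ := by ring

/-- `x` times its literal is almost `0` or the literal. -/
theorem lit_idem {x : V} (hx : x ∈ G.Low d) (hd : d + d ≤ G.rad)
    (hI : G.nm (G.mul x x - x) ≤ I) (b : Bool) :
    ∃ δ : V, δ ∈ G.Low (d + d) ∧ G.nm δ ≤ I ∧
      G.mul x (G.lit x b) = bv b • G.lit x b + δ := by
  have hmem : G.mul x x - x ∈ G.Low (d + d) :=
    Submodule.sub_mem _ (G.mul_low hx hx) (G.low_mono (by omega) hx)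
  cases b with
  | true =>
    refine ⟨G.mul x x - x, hmem, hI, ?_⟩
    simp [TAlg.lit]
  | false =>
    refine ⟨-(G.mul x x - x), Submodule.neg_mem _ hmem, by rwa [G.nm_neg], ?_⟩
    simp only [TAlg.lit, Bool.false_eq_true, if_false, bv_false, zero_smul, zero_add, map_sub]
    rw [G.mul_one]
    abel

theorem atom_var (n : ℕ) : ∀ (x : Fin n → V) (a : Fin n → Bool) (i : Fin n),
    (∀ i, x i ∈ G.Low d) → (∀ i, ∀ u ∈ G.Low M, G.nm (G.mul (x i) u) ≤ 2 * G.nm u) →
    (∀ i, G.nm (G.mul (x i) (x i) - x i) ≤ I) → 0 ≤ I →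
    (n + 1) * d + d ≤ M → M ≤ G.rad →
    G.nm (G.mul (x i) (G.atom n x a) - bv (a i) • G.atom n x a) ≤ 3 ^ n * I := by
  induction n with
  | zero => intro x a i; exact i.elim0
  | succ n ih =>
    intro x a i hx hl hi hI0 hm hMR
    have e0 : (n + 1 + 1) * d = d + (n + 1) * d := by ring
    have e1 : (n + 1) * d = d + n * d := by ring
    have h1 := TAlg.atom_mem (G := G) n (fun i => x i.succ) (fun i => a i.succ)
      (fun i => hx i.succ)
    set E := G.atom n (fun i => x i.succ) (fun i => a i.succ) with hE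
    have hatom : G.atom (n + 1) x a = G.mul (G.lit (x 0) (a 0)) E := rfl
    rw [hatom]
    refine Fin.cases ?_ (fun i => ?_) i
    · obtain ⟨δ, hδ, hδI, heq⟩ := lit_idem (hx 0) (by omega) (hi 0) (a 0)
      rw [← G.assoc (by omega) (hx 0) (TAlg.lit_mem (hx 0) (a 0)) h1, heq, map_add,
        LinearMap.add_apply, map_smul, LinearMap.smul_apply, add_sub_cancel_left]
      rw [G.comm δ]
      have h2 := atom_bound n (fun i => x i.succ) (fun i => a i.succ) (d + d) δ
        (fun i => hx i.succ) (fun i => hl i.succ) hδ (by omega) hMR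
      have h3 : (3 : ℝ) ^ n * G.nm δ ≤ 3 ^ n * I := mul_le_mul_of_nonneg_left hδI (by positivity)
      have h4 : (3 : ℝ) ^ n * I ≤ 3 ^ (n + 1) * I := by
        apply mul_le_mul_of_nonneg_right _ hI0
        rw [pow_succ]; have : (0 : ℝ) < 3 ^ n := by positivity
        linarith
      exact h2.trans (h3.trans h4)
    · have h2 := ih (fun i => x i.succ) (fun i => a i.succ) i (fun i => hx i.succ)
        (fun i => hl i.succ) (fun i => hi i.succ) hI0 (by omega) hMR
      have hL := TAlg.lit_mem (G := G) (hx 0) (a 0)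
      have h3 : G.mul (x i.succ) (G.mul (G.lit (x 0) (a 0)) E)
          = G.mul (G.lit (x 0) (a 0)) (G.mul (x i.succ) E) := by
        rw [← G.assoc (by omega) (hx i.succ) hL h1, G.comm (x i.succ) (G.lit (x 0) (a 0)),
          G.assoc (by omega) hL (hx i.succ) h1]
      rw [h3, ← map_smul, ← map_sub]
      have h4 : G.mul (x i.succ) E - bv (a i.succ) • E ∈ G.Low M :=
        Submodule.sub_mem _ (G.low_mono (by omega) (G.mul_low (hx i.succ) h1))
          (Submodule.smul_mem _ _ (G.low_mono (by omega) h1))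
      have h5 := lit_bound (hl 0) (a 0) _ h4
      calc _ ≤ _ := h5
        _ ≤ 3 * (3 ^ n * I) := by linarith
        _ = _ := by ring

/-- The value of a substitution instance on an atom. -/
theorem Val.inst (hV : Val G Sub F d M B I) (n : ℕ) (hM : (n + 4) * d ≤ M)
    (θ : Fin n → Fm β) (hθ : ∀ i, Sub (θ i)) (a : Fin n → Bool) (f : Fm (Fin n))
    (hf : Sub (f.subst θ)) :
    G.nm (G.mul (F (f.subst θ)) (G.atom n (fun i => F (θ i)) a)
      - bv (f.eval a) • G.atom n (fun i => F (θ i)) a)
      ≤ f.cst n * (B + I) := by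
  have hB := hV.Bpos
  have hI := hV.Ipos
  have hMR := hV.M_le
  have e0 : (n + 4) * d = n * d + d + d + d + d := by ring
  set E := G.atom n (fun i => F (θ i)) a with hE
  have hEm : E ∈ G.Low (n * d) := TAlg.atom_mem n _ _ (fun i => hV.mem _ (hθ i))
  induction f with
  | var i =>
    have h1 := atom_var (G := G) (d := d) (M := M) (I := I) n (fun i => F (θ i)) a i
      (fun i => hV.mem _ (hθ i)) (fun i => hV.lam _ (hθ i)) (fun i => hV.idem _ (hθ i)) hI
      (by have : (n + 1) * d = n * d + d := by ring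
          omega) hMR
    simp only [Fm.subst, Fm.eval, Fm.cst]
    refine h1.trans ?_
    apply mul_le_mul_of_nonneg_left (by linarith) (by positivity)
  | neg f ih =>
    have h1 := ih (hV.sub.neg _ hf)
    simp only [Fm.subst, Fm.eval, Fm.cst]
    rw [hV.neg _ hf, map_sub, LinearMap.sub_apply, G.one_mul]
    have h2 : E - G.mul (F (f.subst θ)) E - bv (!f.eval a) • E
        = -(G.mul (F (f.subst θ)) E - bv (f.eval a) • E) := by
      cases f.eval a <;> simp
    rw [h2, G.nm_neg]
    exact h1
  | and f g ihf ihg =>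
    have hf1 : Sub (f.subst θ) := hV.sub.left _ _ hf
    have hg1 : Sub (g.subst θ) := hV.sub.right _ _ hf
    have h1 := ihf hf1
    have h2 := ihg hg1
    have hFf := hV.mem _ hf1
    have hFg := hV.mem _ hg1
    have hFfg := hV.mem _ hf
    have h3 := hV.and _ _ hf
    simp only [Fm.subst, Fm.eval, Fm.cst]
    set x := F (f.subst θ) with hx
    set y := F (g.subst θ) with hy
    set z := F ((f.subst θ).and (g.subst θ)) with hz
    set D := G.mul x y - z with hD
    have hDm : D ∈ G.Low (d + d) :=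
      Submodule.sub_mem _ (G.mul_low hFf hFg) (G.low_mono (by omega) hFfg)
    have e1 : z = G.mul x y - D := by rw [hD]; abel
    set p : ℝ := bv (f.eval a) with hp
    set q : ℝ := bv (g.eval a) with hq
    have e3 : G.mul z E - (q * p) • E
        = G.mul x (G.mul y E - q • E) + q • (G.mul x E - p • E) - G.mul D E := by
      have e4 : G.mul z E = G.mul x (G.mul y E) - G.mul D E := by
        rw [← G.assoc (by omega) hFf hFg hEm]
        conv_lhs => rw [e1]
        rw [map_sub, LinearMap.sub_apply]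
      rw [e4, map_sub (G.mul x) (G.mul y E) (q • E), map_smul (G.mul x) q E, smul_sub, smul_smul]
      abel
    rw [bv_and, e3]
    have b1 : G.nm (G.mul x (G.mul y E - q • E)) ≤ 2 * (g.cst n * (B + I)) := by
      have hmem : G.mul y E - q • E ∈ G.Low M :=
        Submodule.sub_mem _ (G.low_mono (by omega) (G.mul_low hFg hEm))
          (Submodule.smul_mem _ _ (G.low_mono (by omega) hEm))
      have := hV.lam _ hf1 _ hmem
      linarith
    have b2 : G.nm (q • (G.mul x E - p • E)) ≤ f.cst n * (B + I) := by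
      have h5 : 0 ≤ G.nm (G.mul x E - p • E) := G.nm_nonneg _
      have h6 : q = 1 ∨ q = 0 := by rw [hq]; cases g.eval a <;> simp
      rcases h6 with h6 | h6
      · rw [h6, one_smul]; exact h1
      · rw [h6, zero_smul, G.nm_zero]; exact h5.trans h1
    have b3 : G.nm (G.mul D E) ≤ 3 ^ n * (B + I) := by
      rw [G.comm D E]
      have h4 := atom_bound (G := G) (d := d) (M := M) n (fun i => F (θ i)) a (d + d) D
        (fun i => hV.mem _ (hθ i)) (fun i => hV.lam _ (hθ i)) hDm (by omega) hMR
      refine h4.trans ?_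
      apply mul_le_mul_of_nonneg_left _ (by positivity)
      linarith
    have b4 := G.nm_sub (G.mul x (G.mul y E - q • E) + q • (G.mul x E - p • E)) (G.mul D E)
    have b5 := G.nm_add (G.mul x (G.mul y E - q • E)) (q • (G.mul x E - p • E))
    have : (f.cst n + 2 * g.cst n + 3 ^ n) * (B + I)
        = f.cst n * (B + I) + 2 * (g.cst n * (B + I)) + 3 ^ n * (B + I) := by ring
    linarith

/-- A rule with `n` schematic variables. -/
structure Rule where
  n : ℕ
  prem : List (Fm (Fin n))
  concl : Fm (Fin n)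

/-- Soundness of a rule. -/
def Rule.Sound (r : Rule) : Prop :=
  ∀ a : Fin r.n → Bool, (∀ p ∈ r.prem, p.eval a = true) → r.concl.eval a = true

/-- The constant of a rule. -/
def Rule.cst (r : Rule) : ℝ :=
  2 ^ r.n * (r.concl.cst r.n + 3 * (2 * 3 ^ r.n + (r.prem.map (fun p => p.cst r.n)).sum))

theorem list_sum_nonneg' {α : Type*} (l : List α) (c : α → ℝ) (hc : ∀ a, 0 ≤ c a) :
    0 ≤ (l.map c).sum := by
  induction l with
  | nil => simp
  | cons a l ih => simp only [List.map_cons, List.sum_cons]; have := hc a; linarith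

theorem list_le_sum {α : Type*} (l : List α) (c : α → ℝ) (hc : ∀ a, 0 ≤ c a) (p : α)
    (hp : p ∈ l) : c p ≤ (l.map c).sum := by
  induction l with
  | nil => simp at hp
  | cons a l ih =>
    simp only [List.map_cons, List.sum_cons]
    rcases List.mem_cons.mp hp with h | h
    · subst h; have := list_sum_nonneg' l c hc; linarith
    · have := ih h; have := hc a; linarith

theorem Rule.cst_nonneg (r : Rule) : 0 ≤ r.cst := by
  unfold Rule.cst
  have h1 := r.concl.cst_nonneg r.n
  have h2 := list_sum_nonneg' r.prem (fun p => p.cst r.n) (fun p => p.cst_nonneg r.n)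
  positivity

/-- One rule, schematic variables instantiated inside `Sub`. -/
theorem Val.rule_aux (hV : Val G Sub F d M B I) (r : Rule) (hr : r.Sound)
    (hM : (r.n + 4) * d ≤ M) (hsmall : G.A d * (r.cst * (B + I)) ≤ 1 / 2)
    (θ : Fin r.n → Fm β) (hθ : ∀ i, Sub (θ i))
    (hp : ∀ p ∈ r.prem, Sub (p.subst θ) ∧ G.nm (G.one - F (p.subst θ)) ≤ 2 * I)
    (hc : Sub (r.concl.subst θ)) :
    G.nm (G.one - F (r.concl.subst θ)) ≤ 2 * I := by
  have hA := G.A_nonneg d
  have hB := hV.Bpos
  have hI := hV.Ipos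
  have hMR := hV.M_le
  have e0 : (r.n + 4) * d = r.n * d + d + d + d + d := by ring
  set y := G.one - F (r.concl.subst θ) with hy
  have hFc := hV.mem _ hc
  have hym : y ∈ G.Low d := Submodule.sub_mem _ (G.one_mem' d) hFc
  have hEm : ∀ a, G.atom r.n (fun i => F (θ i)) a ∈ G.Low (r.n * d) :=
    fun a => TAlg.atom_mem r.n _ _ (fun i => hV.mem _ (hθ i))
  -- first bound
  have hone : ∀ a : Fin r.n → Bool, G.nm (G.mul y (G.atom r.n (fun i => F (θ i)) a)) ≤
      (r.concl.cst r.n + 3 * (2 * 3 ^ r.n + (r.prem.map (fun p => p.cst r.n)).sum))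
        * (B + I) := by
    intro a
    set E := G.atom r.n (fun i => F (θ i)) a with hE
    have c1 := r.concl.cst_nonneg r.n
    have c2 := list_sum_nonneg' r.prem (fun p => p.cst r.n) (fun p => p.cst_nonneg r.n)
    have c3 : (0 : ℝ) < 3 ^ r.n := by positivity
    have hBI : 0 ≤ B + I := by linarith
    have hyE : G.mul y E = E - G.mul (F (r.concl.subst θ)) E := by
      rw [hy, map_sub, LinearMap.sub_apply, G.one_mul]
    have hinst := hV.inst r.n hM θ hθ a r.concl hc
    rw [← hE] at hinst
    by_cases hev : r.concl.eval a = true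
    · rw [hev, bv_true, one_smul, ← G.nm_neg, neg_sub] at hinst
      rw [hyE]
      refine hinst.trans ?_
      apply mul_le_mul_of_nonneg_right _ hBI
      nlinarith
    · -- some premise fails
      have h1 : ∃ p ∈ r.prem, ¬ p.eval a = true := by
        by_contra hcon
        push Not at hcon
        exact hev (hr a hcon)
      obtain ⟨p, hpm, hpe⟩ := h1
      obtain ⟨hps, hp2⟩ := hp p hpm
      have h2 := hV.inst r.n hM θ hθ a p hps
      rw [← hE, Bool.eq_false_iff.mpr hpe, bv_false, zero_smul, sub_zero] at h2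
      set w := G.one - F (p.subst θ) with hw
      have hwm : w ∈ G.Low d := Submodule.sub_mem _ (G.one_mem' d) (hV.mem _ hps)
      have h3 : G.nm (G.mul w E) ≤ 3 ^ r.n * (2 * I) := by
        rw [G.comm w E]
        have h4 := atom_bound (G := G) (d := d) (M := M) r.n (fun i => F (θ i)) a d w
          (fun i => hV.mem _ (hθ i)) (fun i => hV.lam _ (hθ i)) hwm (by omega) hMR
        exact h4.trans (mul_le_mul_of_nonneg_left hp2 c3.le)
      have h5 : G.nm E ≤ 3 ^ r.n * (2 * I) + p.cst r.n * (B + I) := by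
        have e : E = G.mul w E + G.mul (F (p.subst θ)) E := by
          rw [hw, map_sub, LinearMap.sub_apply, G.one_mul]; abel
        have h6 := G.nm_add (G.mul w E) (G.mul (F (p.subst θ)) E)
        rw [← e] at h6
        linarith
      have h7 : G.nm (G.mul y E) ≤ 3 * G.nm E := by
        have h8 := hV.lam _ hc E (G.low_mono (by omega) (hEm a))
        have h9 := G.nm_sub E (G.mul (F (r.concl.subst θ)) E)
        rw [← hyE] at h9
        linarith
      have h10 := list_le_sum r.prem (fun p => p.cst r.n) (fun p => p.cst_nonneg r.n) p hpm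
      have h11 : p.cst r.n * (B + I) ≤ (r.prem.map (fun p => p.cst r.n)).sum * (B + I) :=
        mul_le_mul_of_nonneg_right h10 hBI
      have h12 : 3 ^ r.n * (2 * I) ≤ 2 * 3 ^ r.n * (B + I) := by nlinarith
      have h13 : 0 ≤ r.concl.cst r.n * (B + I) := mul_nonneg c1 hBI
      calc G.nm (G.mul y E) ≤ 3 * G.nm E := h7
        _ ≤ 3 * (2 * 3 ^ r.n * (B + I) + (r.prem.map (fun p => p.cst r.n)).sum * (B + I)) := by
            linarith
        _ ≤ _ := by nlinarith
  have hfirst : G.nm y ≤ r.cst * (B + I) := by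
    have h1 : y = ∑ a : Fin r.n → Bool, G.mul y (G.atom r.n (fun i => F (θ i)) a) := by
      rw [← map_sum, TAlg.sum_atom, G.mul_one]
    calc G.nm y = G.nm (∑ a : Fin r.n → Bool, G.mul y (G.atom r.n (fun i => F (θ i)) a)) := by rw [← h1]
      _ ≤ ∑ a : Fin r.n → Bool, G.nm (G.mul y (G.atom r.n (fun i => F (θ i)) a)) := G.nm_sum _ _
      _ ≤ ∑ _a : Fin r.n → Bool,
          (r.concl.cst r.n + 3 * (2 * 3 ^ r.n + (r.prem.map (fun p => p.cst r.n)).sum))
            * (B + I) := sum_le_sum (fun a _ => hone a)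
      _ = r.cst * (B + I) := by
          rw [sum_const, card_univ, Fintype.card_fun, Fintype.card_bool, Fintype.card_fin]
          unfold Rule.cst
          simp only [nsmul_eq_mul, Nat.cast_pow, Nat.cast_ofNat]
          ring
  -- gap
  have hyy : G.mul y y - y = G.mul (F (r.concl.subst θ)) (F (r.concl.subst θ))
      - F (r.concl.subst θ) := by
    rw [hy]
    simp only [map_sub, LinearMap.sub_apply, G.one_mul]
    rw [G.mul_one]
    abel
  have hid := hV.idem _ hc
  rw [← hyy] at hid
  have h1 := G.bound hym y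
  have h2 : G.A d * G.nm y * G.nm y ≤ 1 / 2 * G.nm y := by
    apply mul_le_mul_of_nonneg_right _ (G.nm_nonneg _)
    calc G.A d * G.nm y ≤ G.A d * (r.cst * (B + I)) := mul_le_mul_of_nonneg_left hfirst hA
      _ ≤ 1 / 2 := hsmall
  have h3 : G.nm y ≤ G.nm (G.mul y y) + G.nm (G.mul y y - y) := by
    have := G.nm_sub (G.mul y y) (G.mul y y - y)
    rwa [sub_sub_cancel] at this
  linarith

/-- One rule, any substitution. -/
theorem Val.rule (hV : Val G Sub F d M B I) (r : Rule) (hr : r.Sound)
    (hM : (r.n + 4) * d ≤ M) (hsmall : G.A d * (r.cst * (B + I)) ≤ 1 / 2)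
    (θ : Fin r.n → Fm β)
    (hp : ∀ p ∈ r.prem, Sub (p.subst θ) ∧ G.nm (G.one - F (p.subst θ)) ≤ 2 * I)
    (hc : Sub (r.concl.subst θ)) :
    G.nm (G.one - F (r.concl.subst θ)) ≤ 2 * I := by
  classical
  set θ' : Fin r.n → Fm β := fun i =>
    if r.concl.Occ i ∨ ∃ p ∈ r.prem, p.Occ i then θ i else r.concl.subst θ with hθ'
  have hcc : r.concl.subst θ = r.concl.subst θ' := by
    apply Fm.subst_congr
    intro i hi
    rw [hθ']
    simp only
    rw [if_pos (Or.inl hi)]
  have hpp : ∀ p ∈ r.prem, p.subst θ = p.subst θ' := by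
    intro p hpm
    apply Fm.subst_congr
    intro i hi
    rw [hθ']
    simp only
    rw [if_pos (Or.inr ⟨p, hpm, hi⟩)]
  have hs : ∀ i, Sub (θ' i) := by
    intro i
    rw [hθ']
    simp only
    split_ifs with h
    · rcases h with h | ⟨p, hpm, h⟩
      · exact hV.sub.of_occ θ i r.concl h hc
      · exact hV.sub.of_occ θ i p h (hp p hpm).1
    · exact hc
  rw [hcc] at hc ⊢
  refine hV.rule_aux r hr hM hsmall θ' hs ?_ hc
  intro p hpm
  rw [← hpp p hpm]
  exact hp p hpm

/-- All lines of a proof are close to one. -/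
theorem Val.lines (hV : Val G Sub F d M B I) (rules : List Rule)
    (hr : ∀ r ∈ rules, r.Sound ∧ (r.n + 4) * d ≤ M ∧ G.A d * (r.cst * (B + I)) ≤ 1 / 2)
    (m : ℕ) (line : Fin m → Fm β) (hline : ∀ i, Sub (line i))
    (hstep : ∀ i, G.nm (G.one - F (line i)) ≤ 2 * I ∨
      ∃ r ∈ rules, ∃ θ : Fin r.n → Fm β, r.concl.subst θ = line i ∧
        ∀ p ∈ r.prem, ∃ j, j < i ∧ p.subst θ = line j) :
    ∀ i, G.nm (G.one - F (line i)) ≤ 2 * I := by
  intro i
  induction i using WellFoundedLT.induction with
  | ind i ih =>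
    rcases hstep i with h | ⟨r, hrm, θ, hc, hp⟩
    · exact h
    · obtain ⟨h1, h2, h3⟩ := hr r hrm
      rw [← hc]
      refine hV.rule r h1 h2 h3 θ ?_ (by rw [hc]; exact hline i)
      intro p hpm
      obtain ⟨j, hj, he⟩ := hp p hpm
      rw [he]
      exact ⟨hline j, ih j hj⟩

/-- A formula and its negation are not both close to one. -/
theorem Val.contra (hV : Val G Sub F d M B I) (f : Fm β) (hf : Sub (Fm.neg f))
    (h1 : G.nm (G.one - F f) ≤ 2 * I) (h2 : G.nm (G.one - F (Fm.neg f)) ≤ 2 * I)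
    (hI : 4 * I < 1) : False := by
  rw [hV.neg f hf, sub_sub_cancel] at h2
  have h3 := G.nm_add (G.one - F f) (F f)
  rw [sub_add_cancel, G.nm_one] at h3
  linarith

end

end Pool.Agent.EFT
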