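import Pool.Agent.Lib.EFT.Gap
import Pool.Agent.Lib.EFT.Rules

/-!
# Output of (H2) in the form wanted by the rules (row R11 of project EF)
-/

set_option autoImplicit false

namespace Pool.Agent.EFT

namespace Rs

variable {V : Type*} [AddCommGroup V] [Module ℝ V] {T : TAlg V}
  {W : Type*} [AddCommGroup W] [Module ℝ W] {α : Type*} (S : Rs T W α)

/-- The values of the formulas in `Sb` after a good restriction. -/
theorem val {Sb : Fm α → Prop} (hcl : ∀ f g, Sb f → f.Sub g → Sb g) {L hh : ℕ}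
    (hL1 : hh + 1 ≤ L) (hL : ∀ f, Sb f → f.lv ≤ L) (hh' : ∀ f, Sb f → f.ah ≤ hh)
    (hD : (hh + 1) * S.d ≤ S.D) {e0 : ℝ} (he0 : 0 ≤ e0)
    (h1 : ∀ g h, Sb (.and g h) → S.bad g (S.Q h S.dl) + T.nm (S.tr g h S.dl)
      + T.nm (S.R (S.Q (.and g h) S.dl) - S.F (.and g h)) ≤ e0)
    (h2 : ∀ a, Sb (.var a) → T.nm (S.R (S.Q (.var a) S.dl) - S.F (.var a)) ≤ e0)
    (hs : T.A (2 * S.d) * (8 * 3 ^ hh * (8 * e0 * (5 * L) ^ hh)) * (100 * (L : ℝ) ^ 2) ≤ 1) :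
    Val T Sb S.F S.d (S.D + 2 * S.d) (8 * e0 * (5 * L) ^ hh)
      (8 * 3 ^ hh * (8 * e0 * (5 * L) ^ hh)) := by
  have hLr : (1 : ℝ) ≤ L := by exact_mod_cast (by omega : 1 ≤ L)
  have hs' : T.A (2 * S.d) * (8 * 3 ^ hh * (8 * e0 * (5 * L) ^ hh)) ≤ 1 / (100 * (L : ℝ) ^ 2) := by
    rw [le_div_iff₀ (by positivity)]; exact hs
  obtain ⟨m1, m2, m3⟩ := S.main hcl hL1 hL hh' hD he0 h1 h2 hs'
  refine ⟨SubClosed.of_sub hcl, fun f _ => S.F_low f, fun f _ => S.F_neg f, m1, m2,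
    fun f hf u hu => (m3 f hf u hu).trans ?_, le_trans (by omega) S.hrad, by positivity,
    by positivity⟩
  refine mul_le_mul_of_nonneg_right ?_ (T.nm_nonneg u)
  have : 1 / (100 * (L : ℝ) ^ 2) ≤ 1 := by
    rw [div_le_one (by positivity)]
    nlinarith
  linarith

end Rs

end Pool.Agent.EFT
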