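import Mathlib

/-!
# The numbers of the EF project (interface between R14 and the assembly)
-/

set_option autoImplicit false

namespace Pool.Agent.EFT

/-- All numbers for one refutation with at most `M` lines with at most `L` leaves and and-height at
most `hh`; the big world is `CCC_k`, the small world `CCC_k'`; `nn`, `C` belong to the rules. -/
structure Nums (k k' hh L M nn : ℕ) (C : ℝ) where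
  Dl : ℕ
  d : ℕ
  p : ℕ
  τ : ℝ
  b : ℝ
  θ : ℝ
  th : ℝ
  hk : 3 ≤ k
  hk' : 3 ≤ k'
  D3 : 3 ≤ Dl
  τ0 : 0 ≤ τ
  θ0 : 0 ≤ θ
  θ1 : θ ≤ 1
  th0 : 0 ≤ th
  hL : hh + 1 ≤ L
  hn : nn ≤ hh
  /-- `hh ≥ 1` is convenient -/
  hh1 : 1 ≤ hh
  hb : Real.cosh (hh * τ) ^ L * (1 + θ) ^ (2 * L) ≤ b
  hγ : (12 * b ^ 2) ^ hh * (2 * (3 * k * 2 ^ (k - 1) : ℕ) * b ^ 2 * Real.exp (-(τ * Dl))) ≤
    θ ^ 2 / 16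
  hθ : (1 + θ) ^ (2 * L * (hh + 1)) ≤ 2
  rad : 8 * (2 * k) * ((5 * hh + 6) * Dl + 8) < k * 2 ^ k
  rad' : 16 * (2 * k') * (2 * ((hh + 6) * d)) < k' * 2 ^ k'
  qd : 12 * p ≤ d
  qn : 8 * p ≤ k' * 2 ^ k'
  th1 : (3 * k' * 2 ^ (k' - 1) : ℕ) * (((hh + 2) * Dl : ℕ) + 1 : ℝ) * (2 * k) / (k * 2 ^ k) ≤ th
  th2 : (k' * 2 ^ k' : ℕ) * (2 * (2 * k) * (((hh + 2) * Dl : ℕ) + 1) : ℝ) / (k * 2 ^ k) ≤ th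
  fin : ((3 * k' * 2 ^ (k' - 1) : ℕ) + 1 : ℝ) ^ (2 * d) * (8 * 3 ^ hh * (8 *
    ((M * L + (3 * k * 2 ^ (k - 1) : ℕ)) * (16 * L * (2 * th ^ p +
      2 * (3 * k * 2 ^ (k - 1) : ℕ) * b ^ 2 * Real.exp (-(τ * Dl))))) * (5 * L) ^ hh)) *
    ((C + 100) * L ^ 2) ≤ 1

/-- what R14 proves -/
def ExistsNums : Prop := ∀ (ε : ℝ), 0 < ε → ∀ (nn : ℕ) (C : ℝ), 0 ≤ C → ∃ c : ℝ, 0 < c ∧
    ∃ k₀ : ℕ, ∀ k ≥ k₀, ∀ hh L M : ℕ,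
    (L : ℝ) ≤ ((3 * k * 2 ^ (k - 1) : ℕ) : ℝ) ^ (2 - ε) →
    (hh : ℝ) ≤ ((3 * k * 2 ^ (k - 1) : ℕ) : ℝ) ^ c →
    (M : ℝ) < 2 ^ (((3 * k * 2 ^ (k - 1) : ℕ) : ℝ) ^ c) →
    ∃ k' hh' L' : ℕ, hh ≤ hh' ∧ L ≤ L' ∧ Nonempty (Nums k k' hh' L' M nn C)

end Pool.Agent.EFT
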