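import Pool.Agent.Lib.EFT.Gap

/-!
# Row R9b of project EF (helper61): the expected total error of a random restriction

Everything is abstract in an averaging functional `AvF`.  The output is one restriction for which
the hypotheses `h1`, `h2` of `Rs.main` hold for all subformulas of all lines.
-/

set_option autoImplicit false

open Finset

namespace Pool.Agent.EFT

/-- An averaging functional; `ok` = the support. -/
structure AvF (Ω : Type*) where
  av : (Ω → ℝ) → ℝ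
  ok : Ω → Prop
  add : ∀ f g : Ω → ℝ, av (fun ρ => f ρ + g ρ) = av f + av g
  mono : ∀ f g : Ω → ℝ, (∀ ρ, f ρ ≤ g ρ) → av f ≤ av g
  exists_le : ∀ f : Ω → ℝ, ∃ ρ, ok ρ ∧ f ρ ≤ av f

namespace AvF

variable {Ω : Type*} (A : AvF Ω)

theorem zero : A.av (fun _ => 0) = 0 := by
  have := A.add (fun _ => 0) (fun _ => 0)
  simp only [add_zero] at this
  linarith

theorem sum {ι : Type*} (s : Finset ι) (f : ι → Ω → ℝ) :
    A.av (fun ρ => ∑ i ∈ s, f i ρ) = ∑ i ∈ s, A.av (f i) := by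
  classical
  induction s using Finset.induction_on with
  | empty => simpa using A.zero
  | insert a s ha ih =>
    simp only [Finset.sum_insert ha]
    rw [A.add (f a) (fun ρ => ∑ i ∈ s, f i ρ), ih]

theorem list_sum {ι : Type*} (l : List ι) (f : ι → Ω → ℝ) :
    A.av (fun ρ => (l.map fun i => f i ρ).sum) = (l.map fun i => A.av (f i)).sum := by
  induction l with
  | nil => simpa using A.zero
  | cons a l ih =>
    simp only [List.map_cons, List.sum_cons]
    rw [A.add (f a) (fun ρ => (l.map fun i => f i ρ).sum), ih]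

end AvF

namespace Fm

variable {α : Type*}

/-- The conjunctions in a formula. -/
def ands : Fm α → List (Fm α × Fm α)
  | var _ => []
  | neg f => f.ands
  | and f g => (f, g) :: (f.ands ++ g.ands)

theorem length_ands (f : Fm α) : f.ands.length + 1 = f.lv := by
  induction f with
  | var _ => rfl
  | neg f ih => exact ih
  | and f g ihf ihg =>
    simp only [ands, List.length_cons, List.length_append, lv]
    omega

theorem mem_ands {f g h : Fm α} : (g, h) ∈ f.ands ↔ f.Sub (and g h) := by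
  induction f with
  | var _ => simp [ands, Sub]
  | neg f ih => simp [ands, Sub, ih]
  | and f k ihf ihk =>
    simp only [ands, Sub, List.mem_cons, List.mem_append, Prod.mk.injEq, ihf, ihk,
      Fm.and.injEq]

end Fm

/-- The total badness, from the norm `nr` of the restriction and the errors `dv` at the
variables. -/
noncomputable def badf {W α : Type*} [AddCommGroup W] [Module ℝ W] (Q : Fm α → W →ₗ[ℝ] W)
    (nr : W → ℝ) (dv : α → W → ℝ) : Fm α → W → ℝ
  | .var a, y => dv a y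
  | .neg g, y => badf Q nr dv g y
  | .and g h, y => badf Q nr dv h y + badf Q nr dv g (Q h y) +
      nr (Q g (Q h y) - Q (.and g h) y)

theorem Rs.bad_eq {V : Type*} [AddCommGroup V] [Module ℝ V] {T : TAlg V}
    {W : Type*} [AddCommGroup W] [Module ℝ W] {α : Type*} (S : Rs T W α) (f : Fm α) (y : W) :
    S.bad f y = badf S.Q (fun y => T.nm (S.R y)) (fun a y => T.nm (S.disc (.var a) y)) f y := by
  induction f generalizing y with
  | var a => rfl
  | neg g ih => exact ih y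
  | and g h ihg ihh =>
    simp only [Rs.bad, badf, ihg, ihh, Rs.tr]

theorem Rs.disc_dl {V : Type*} [AddCommGroup V] [Module ℝ V] {T : TAlg V}
    {W : Type*} [AddCommGroup W] [Module ℝ W] {α : Type*} (S : Rs T W α) (f : Fm α) :
    S.disc f S.dl = S.R (S.Q f S.dl) - S.F f := by
  simp only [Rs.disc, S.R_dl, T.mul_one]

section

variable {Ω W α : Type*} [NormedAddCommGroup W] [NormedSpace ℝ W]

theorem badf_nonneg (Q : Fm α → W →ₗ[ℝ] W) (nr : W → ℝ) (dv : α → W → ℝ)
    (h1 : ∀ y, 0 ≤ nr y) (h2 : ∀ a y, 0 ≤ dv a y) (f : Fm α) (y : W) :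
    0 ≤ badf Q nr dv f y := by
  induction f generalizing y with
  | var a => exact h2 a y
  | neg g ih => exact ih y
  | and g h ihg ihh => exact add_nonneg (add_nonneg (ihh _) (ihg _)) (h1 _)

/-- **The expected badness of a formula.** -/
theorem av_badf (A : AvF Ω) (LW : ℕ → Submodule ℝ W) (Q : Fm α → W →ₗ[ℝ] W)
    (nr : Ω → W → ℝ) (dv : Ω → α → W → ℝ) {r1 Rh Dl hh L : ℕ} {e1 εT c : ℝ}
    (hmono : ∀ {a b : ℕ}, a ≤ b → LW a ≤ LW b)
    (hnr : ∀ y, A.av (fun ρ => nr ρ y) ≤ ‖y‖)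
    (hdv : ∀ a, ∀ y ∈ LW r1, A.av (fun ρ => dv ρ a y) ≤ e1 * ‖y‖)
    (hQl : ∀ (f : Fm α) (r : ℕ) (y : W), y ∈ LW r → Q f y ∈ LW (r + Dl))
    (hQn : ∀ f : Fm α, f.ah ≤ hh → f.lv ≤ L → ∀ y ∈ LW Rh, ‖Q f y‖ ≤ c * ‖y‖)
    (hQe : ∀ g h : Fm α, (Fm.and g h).ah ≤ hh → (Fm.and g h).lv ≤ L → ∀ y ∈ LW Rh,
      ‖Q g (Q h y) - Q (.and g h) y‖ ≤ εT * ‖y‖)
    (he1 : 0 ≤ e1) (hεT : 0 ≤ εT) (hc : 1 ≤ c) (f : Fm α) (hah : f.ah ≤ hh) (hlv : f.lv ≤ L)
    (r : ℕ) (hr1 : r + f.ah * Dl ≤ r1) (hrh : r + f.ah * Dl ≤ Rh) (y : W) (hy : y ∈ LW r) :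
    A.av (fun ρ => badf Q (nr ρ) (dv ρ) f y) ≤
      (2 * f.lv - 1) * (e1 + εT) * c ^ f.ah * ‖y‖ := by
  induction f generalizing y r with
  | var a =>
    have h1 := hdv a y (hmono (le_trans (Nat.le_add_right _ _) hr1) hy)
    simp only [badf, Fm.lv, Fm.ah, Nat.cast_one, pow_zero, mul_one]
    have : 0 ≤ εT * ‖y‖ := mul_nonneg hεT (norm_nonneg y)
    nlinarith
  | neg g ih => exact ih hah hlv r hr1 hrh y hy
  | and g h ihg ihh =>
    have elv : (Fm.and g h).lv = g.lv + h.lv := rfl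
    have eah : (Fm.and g h).ah = max g.ah h.ah + 1 := rfl
    set m := max g.ah h.ah with hm
    have hgm : g.ah ≤ m := le_max_left _ _
    have hhm : h.ah ≤ m := le_max_right _ _
    rw [eah] at hr1 hrh
    have k1 : g.ah * Dl ≤ m * Dl := Nat.mul_le_mul_right _ hgm
    have k2 : h.ah * Dl ≤ m * Dl := Nat.mul_le_mul_right _ hhm
    have k3 : (m + 1) * Dl = m * Dl + Dl := by ring
    have hyR : y ∈ LW Rh := hmono (le_trans (Nat.le_add_right _ _) hrh) hy
    have hlg := g.lv_pos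
    have hlh := h.lv_pos
    have b1 := ihh (by omega) (by omega) r (by omega) (by omega) y hy
    have b2 := ihg (by omega) (by omega) (r + Dl) (by omega) (by omega) (Q h y) (hQl h r y hy)
    have b3 := hnr (Q g (Q h y) - Q (.and g h) y)
    have b4 := hQe g h hah hlv y hyR
    have b5 := hQn h (by omega) (by omega) y hyR
    have hav : A.av (fun ρ => badf Q (nr ρ) (dv ρ) (.and g h) y) =
        A.av (fun ρ => badf Q (nr ρ) (dv ρ) h y) +
          A.av (fun ρ => badf Q (nr ρ) (dv ρ) g (Q h y)) +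
          A.av (fun ρ => nr ρ (Q g (Q h y) - Q (.and g h) y)) := by
      simp only [badf]
      rw [A.add (fun ρ => badf Q (nr ρ) (dv ρ) h y + badf Q (nr ρ) (dv ρ) g (Q h y))
        (fun ρ => nr ρ (Q g (Q h y) - Q (.and g h) y)),
        A.add (fun ρ => badf Q (nr ρ) (dv ρ) h y) (fun ρ => badf Q (nr ρ) (dv ρ) g (Q h y))]
    rw [hav, elv, eah]
    push_cast
    set e := e1 + εT with he
    have he0 : 0 ≤ e := by positivity
    have hy0 : 0 ≤ ‖y‖ := norm_nonneg y
    have hcm : 1 ≤ c ^ (m + 1) := one_le_pow₀ hc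
    have hlg' : (1 : ℝ) ≤ g.lv := by exact_mod_cast hlg
    have hlh' : (1 : ℝ) ≤ h.lv := by exact_mod_cast hlh
    have c1 : c ^ h.ah ≤ c ^ (m + 1) := pow_le_pow_right₀ hc (by omega)
    have c2 : c ^ g.ah * c ≤ c ^ (m + 1) := by
      rw [← pow_succ]
      exact pow_le_pow_right₀ hc (by omega)
    have d1 : A.av (fun ρ => badf Q (nr ρ) (dv ρ) h y) ≤
        (2 * h.lv - 1) * e * c ^ (m + 1) * ‖y‖ := by
      refine b1.trans (mul_le_mul_of_nonneg_right ?_ hy0)
      exact mul_le_mul_of_nonneg_left c1 (mul_nonneg (by linarith) he0)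
    have d2 : A.av (fun ρ => badf Q (nr ρ) (dv ρ) g (Q h y)) ≤
        (2 * g.lv - 1) * e * c ^ (m + 1) * ‖y‖ := by
      have hX : 0 ≤ (2 * (g.lv : ℝ) - 1) * e := mul_nonneg (by linarith) he0
      have hcg : 0 ≤ c ^ g.ah := by positivity
      calc _ ≤ (2 * g.lv - 1) * e * c ^ g.ah * ‖Q h y‖ := b2
        _ ≤ (2 * g.lv - 1) * e * c ^ g.ah * (c * ‖y‖) :=
            mul_le_mul_of_nonneg_left b5 (mul_nonneg hX hcg)
        _ = (2 * g.lv - 1) * e * (c ^ g.ah * c) * ‖y‖ := by ring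
        _ ≤ _ := mul_le_mul_of_nonneg_right (mul_le_mul_of_nonneg_left c2 hX) hy0
    have d3 : A.av (fun ρ => nr ρ (Q g (Q h y) - Q (.and g h) y)) ≤
        e * c ^ (m + 1) * ‖y‖ := by
      refine (b3.trans b4).trans (mul_le_mul_of_nonneg_right ?_ hy0)
      calc εT ≤ e := by linarith
        _ ≤ e * c ^ (m + 1) := le_mul_of_one_le_right he0 hcm
    calc _ ≤ (2 * h.lv - 1) * e * c ^ (m + 1) * ‖y‖ + (2 * g.lv - 1) * e * c ^ (m + 1) * ‖y‖ +
          e * c ^ (m + 1) * ‖y‖ := add_le_add (add_le_add d1 d2) d3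
      _ = _ := by ring

/-- **One good restriction for all lines.** -/
theorem exists_good [Fintype α] (A : AvF Ω) (LW : ℕ → Submodule ℝ W) (Q : Fm α → W →ₗ[ℝ] W)
    (dl : W) (nr hi : Ω → W → ℝ) (dv : Ω → α → W → ℝ) (wd : Ω → α → ℕ)
    {r1 Rh Dl hh L M d : ℕ} {η εT c : ℝ} (C : Fin M → Fm α)
    (hmono : ∀ {a b : ℕ}, a ≤ b → LW a ≤ LW b) (hdl : dl ∈ LW 0) (hdl1 : ‖dl‖ ≤ 1)
    (hnr0 : ∀ ρ y, 0 ≤ nr ρ y) (hhi0 : ∀ ρ y, 0 ≤ hi ρ y) (hdv0 : ∀ ρ a y, 0 ≤ dv ρ a y)
    (hnr : ∀ y, A.av (fun ρ => nr ρ y) ≤ ‖y‖)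
    (hhi : ∀ y ∈ LW r1, A.av (fun ρ => hi ρ y) ≤ η * ‖y‖)
    (hdv : ∀ a, ∀ y ∈ LW r1, A.av (fun ρ => dv ρ a y) ≤ 2 * η * ‖y‖)
    (hwd : ∀ a, A.av (fun ρ => if d < wd ρ a then 1 else 0) ≤ η)
    (hQl : ∀ (f : Fm α) (r : ℕ) (y : W), y ∈ LW r → Q f y ∈ LW (r + Dl))
    (hQn : ∀ f : Fm α, f.ah ≤ hh → f.lv ≤ L → ∀ y ∈ LW Rh, ‖Q f y‖ ≤ c * ‖y‖)
    (hQe : ∀ g h : Fm α, (Fm.and g h).ah ≤ hh → (Fm.and g h).lv ≤ L → ∀ y ∈ LW Rh,
      ‖Q g (Q h y) - Q (.and g h) y‖ ≤ εT * ‖y‖)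
    (hη : 0 ≤ η) (hεT : 0 ≤ εT) (hc : 1 ≤ c) (hc2 : c ^ (hh + 1) ≤ 2) (hL : 1 ≤ L)
    (hr1 : (hh + 1) * Dl ≤ r1) (hrh : (hh + 1) * Dl ≤ Rh)
    (hC : ∀ i, (C i).lv ≤ L ∧ (C i).ah ≤ hh) {e0 : ℝ}
    (he0 : e0 = ((M * L : ℕ) + Fintype.card α : ℝ) * (16 * L * (2 * η + εT))) (he1 : e0 < 1) :
    ∃ ρ, A.ok ρ ∧ (∀ a, wd ρ a ≤ d) ∧ (∀ a, dv ρ a dl ≤ e0) ∧
      ∀ i g h, (C i).Sub (.and g h) →
        badf Q (nr ρ) (dv ρ) g (Q h dl) + nr ρ (Q g (Q h dl) - Q (.and g h) dl) +
          hi ρ (Q (.and g h) dl) ≤ e0 := by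
  classical
  set e := 2 * η + εT with he
  have hee : 0 ≤ e := by positivity
  have hLr : (1 : ℝ) ≤ L := by exact_mod_cast hL
  -- the cost of a conjunction
  set cost : Fm α × Fm α → Ω → ℝ := fun q ρ =>
    badf Q (nr ρ) (dv ρ) q.1 (Q q.2 dl) + nr ρ (Q q.1 (Q q.2 dl) - Q (.and q.1 q.2) dl) +
      hi ρ (Q (.and q.1 q.2) dl) with hcost
  have hcost0 : ∀ q ρ, 0 ≤ cost q ρ := fun q ρ =>
    add_nonneg (add_nonneg (badf_nonneg Q _ _ (hnr0 ρ) (hdv0 ρ) _ _) (hnr0 _ _)) (hhi0 _ _)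
  have hcostE : ∀ i, ∀ q ∈ (C i).ands, A.av (cost q) ≤ 4 * L * e := by
    rintro i ⟨g, h⟩ hq
    have hs : (C i).Sub (.and g h) := Fm.mem_ands.1 hq
    have hlv : (Fm.and g h).lv ≤ L := hs.lv_le.trans (hC i).1
    have hah : (Fm.and g h).ah ≤ hh := hs.ah_le.trans (hC i).2
    have elv : (Fm.and g h).lv = g.lv + h.lv := rfl
    have eah : (Fm.and g h).ah = max g.ah h.ah + 1 := rfl
    have hgm : g.ah ≤ max g.ah h.ah := le_max_left _ _
    have hhm : h.ah ≤ max g.ah h.ah := le_max_right _ _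
    have hlg := g.lv_pos
    have hlh := h.lv_pos
    have hg1 : Dl + g.ah * Dl ≤ (hh + 1) * Dl := by
      have : (g.ah + 1) * Dl ≤ (hh + 1) * Dl := Nat.mul_le_mul_right _ (by omega)
      linarith
    have hdR : dl ∈ LW Rh := hmono (Nat.zero_le _) hdl
    have hQh : Q h dl ∈ LW Dl := by
      have := hQl h 0 dl hdl
      rwa [zero_add] at this
    have hQa : Q (.and g h) dl ∈ LW r1 := by
      have := hQl (.and g h) 0 dl hdl
      rw [zero_add] at this
      refine hmono (le_trans ?_ hr1) this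
      exact Nat.le_mul_of_pos_left _ (Nat.succ_pos _)
    have b1 := av_badf A LW Q nr dv hmono hnr hdv hQl hQn hQe (by positivity) hεT hc g
      (by omega) (by omega) Dl (hg1.trans hr1) (hg1.trans hrh) (Q h dl) hQh
    have b2 := hnr (Q g (Q h dl) - Q (.and g h) dl)
    have b3 := hQe g h hah hlv dl hdR
    have b4 := hhi _ hQa
    have b5 := hQn h (by omega) (by omega) dl hdR
    have b6 := hQn (.and g h) hah hlv dl hdR
    have b5' : ‖Q h dl‖ ≤ c := b5.trans (by nlinarith)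
    have b6' : ‖Q (.and g h) dl‖ ≤ 2 := by
      have h1 : c ≤ c ^ (hh + 1) := by
        calc c = c ^ 1 := (pow_one c).symm
          _ ≤ _ := pow_le_pow_right₀ hc (by omega)
      have h2 : c * ‖dl‖ ≤ c := by nlinarith
      linarith
    have b3' : ‖Q g (Q h dl) - Q (.and g h) dl‖ ≤ εT := b3.trans (by nlinarith)
    have hav : A.av (cost (g, h)) = A.av (fun ρ => badf Q (nr ρ) (dv ρ) g (Q h dl)) +
        A.av (fun ρ => nr ρ (Q g (Q h dl) - Q (.and g h) dl)) +
        A.av (fun ρ => hi ρ (Q (.and g h) dl)) := by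
      simp only [hcost]
      rw [A.add (fun ρ => badf Q (nr ρ) (dv ρ) g (Q h dl) +
          nr ρ (Q g (Q h dl) - Q (.and g h) dl)) (fun ρ => hi ρ (Q (.and g h) dl)),
        A.add (fun ρ => badf Q (nr ρ) (dv ρ) g (Q h dl))
          (fun ρ => nr ρ (Q g (Q h dl) - Q (.and g h) dl))]
    have hlg' : (1 : ℝ) ≤ g.lv := by exact_mod_cast hlg
    have hgL : (g.lv : ℝ) ≤ L := by exact_mod_cast (by omega : g.lv ≤ L)
    have d1 : A.av (fun ρ => badf Q (nr ρ) (dv ρ) g (Q h dl)) ≤ (2 * L - 1) * e * 2 := by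
      have hX : 0 ≤ (2 * (g.lv : ℝ) - 1) * e := mul_nonneg (by linarith) hee
      have hcg : 0 ≤ c ^ g.ah := by positivity
      have h1 : c ^ g.ah * c ≤ 2 := by
        rw [← pow_succ]
        exact (pow_le_pow_right₀ hc (by omega)).trans hc2
      calc _ ≤ (2 * g.lv - 1) * e * c ^ g.ah * ‖Q h dl‖ := b1
        _ ≤ (2 * g.lv - 1) * e * c ^ g.ah * c :=
            mul_le_mul_of_nonneg_left b5' (mul_nonneg hX hcg)
        _ = (2 * g.lv - 1) * e * (c ^ g.ah * c) := by ring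
        _ ≤ (2 * g.lv - 1) * e * 2 := mul_le_mul_of_nonneg_left h1 hX
        _ ≤ (2 * L - 1) * e * 2 := by
            refine mul_le_mul_of_nonneg_right (mul_le_mul_of_nonneg_right ?_ hee) (by norm_num)
            linarith
    have d3 : A.av (fun ρ => hi ρ (Q (.and g h) dl)) ≤ 2 * η := by
      refine b4.trans ?_
      nlinarith
    rw [hav]
    have : (2 * (L : ℝ) - 1) * e * 2 + εT + 2 * η ≤ 4 * L * e := by
      rw [he] at hee ⊢
      nlinarith
    linarith
  -- the total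
  set tot : Ω → ℝ := fun ρ => (∑ i : Fin M, ((C i).ands.map fun q => cost q ρ).sum) +
    ∑ a : α, (dv ρ a dl + if d < wd ρ a then 1 else 0) with htot
  have hline : ∀ i ρ, 0 ≤ ((C i).ands.map fun q => cost q ρ).sum := fun i ρ => by
    refine List.sum_nonneg fun x hx => ?_
    obtain ⟨q, _, rfl⟩ := List.mem_map.1 hx
    exact hcost0 q ρ
  have hind : ∀ ρ a, (0 : ℝ) ≤ if d < wd ρ a then 1 else 0 := fun ρ a => by
    split_ifs
    · exact zero_le_one
    · exact le_rfl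
  have hvar : ∀ ρ a, 0 ≤ dv ρ a dl + if d < wd ρ a then 1 else 0 := fun ρ a =>
    add_nonneg (hdv0 _ _ _) (hind ρ a)
  have hE : A.av tot ≤ e0 := by
    have h1 : A.av tot = (∑ i : Fin M, ((C i).ands.map fun q => A.av (cost q)).sum) +
        ∑ a : α, (A.av (fun ρ => dv ρ a dl) +
          A.av (fun ρ => if d < wd ρ a then 1 else 0)) := by
      simp only [htot]
      rw [A.add (fun ρ => ∑ i : Fin M, ((C i).ands.map fun q => cost q ρ).sum)
        (fun ρ => ∑ a : α, (dv ρ a dl + if d < wd ρ a then 1 else 0)),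
        A.sum univ (fun i ρ => ((C i).ands.map fun q => cost q ρ).sum),
        A.sum univ (fun a ρ => dv ρ a dl + if d < wd ρ a then 1 else 0)]
      congr 1
      · exact sum_congr rfl fun i _ => A.list_sum _ _
      · exact sum_congr rfl fun a _ => A.add _ _
    have h2 : ∀ i, ((C i).ands.map fun q => A.av (cost q)).sum ≤ L * (4 * L * e) := fun i => by
      have h3 : ((C i).ands.map fun q => A.av (cost q)).sum ≤
          (C i).ands.length • (4 * L * e) := by
        have := List.sum_le_card_nsmul ((C i).ands.map fun q => A.av (cost q)) (4 * L * e)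
          (fun x hx => by
            obtain ⟨q, hq, rfl⟩ := List.mem_map.1 hx
            exact hcostE i q hq)
        rwa [List.length_map] at this
      rw [nsmul_eq_mul] at h3
      refine h3.trans (mul_le_mul_of_nonneg_right ?_ (by positivity))
      have := (C i).length_ands
      have := (hC i).1
      exact_mod_cast (by omega : (C i).ands.length ≤ L)
    have h4 : ∀ a : α, A.av (fun ρ => dv ρ a dl) +
        A.av (fun ρ => if d < wd ρ a then 1 else 0) ≤ 2 * e := fun a => by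
      have h5 := hdv a dl (hmono (Nat.zero_le _) hdl)
      have h6 := hwd a
      have h7 : 2 * η * ‖dl‖ ≤ 2 * η := by nlinarith
      rw [he]
      linarith
    rw [h1, he0]
    have h8 : (∑ i : Fin M, ((C i).ands.map fun q => A.av (cost q)).sum) ≤
        M * (L * (4 * L * e)) := by
      calc _ ≤ ∑ _i : Fin M, L * (4 * L * e) := sum_le_sum fun i _ => h2 i
        _ = _ := by rw [sum_const, card_univ, Fintype.card_fin, nsmul_eq_mul]
    have h9 : (∑ a : α, (A.av (fun ρ => dv ρ a dl) +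
          A.av (fun ρ => if d < wd ρ a then 1 else 0))) ≤ Fintype.card α * (2 * e) := by
      calc _ ≤ ∑ _a : α, 2 * e := sum_le_sum fun a _ => h4 a
        _ = _ := by rw [sum_const, card_univ, nsmul_eq_mul]
    have hLe : 0 ≤ L * e := by positivity
    have hLe1 : e ≤ L * e := le_mul_of_one_le_left hee hLr
    have hα : (0 : ℝ) ≤ Fintype.card α := Nat.cast_nonneg _
    have hML : (0 : ℝ) ≤ M * L := by positivity
    push_cast
    calc _ ≤ M * (L * (4 * L * e)) + Fintype.card α * (2 * e) := add_le_add h8 h9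
      _ = M * L * (4 * (L * e)) + Fintype.card α * (2 * e) := by ring
      _ ≤ M * L * (16 * (L * e)) + Fintype.card α * (16 * (L * e)) := by
          refine add_le_add (mul_le_mul_of_nonneg_left ?_ hML)
            (mul_le_mul_of_nonneg_left ?_ hα) <;> linarith
      _ = _ := by ring
  obtain ⟨ρ, hok, hρ⟩ := A.exists_le tot
  have hρ2 : tot ρ ≤ e0 := hρ.trans hE
  have hsum1 : 0 ≤ ∑ i : Fin M, ((C i).ands.map fun q => cost q ρ).sum :=
    sum_nonneg fun i _ => hline i ρ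
  have hsum2 : 0 ≤ ∑ a : α, (dv ρ a dl + if d < wd ρ a then 1 else 0) :=
    sum_nonneg fun a _ => hvar ρ a
  have hva : ∀ a, (dv ρ a dl + if d < wd ρ a then 1 else 0) ≤ e0 := fun a => by
    have h1 := single_le_sum (f := fun a => dv ρ a dl + if d < wd ρ a then (1 : ℝ) else 0)
      (fun a _ => hvar ρ a) (mem_univ a)
    simp only [htot] at hρ2
    linarith
  refine ⟨ρ, hok, fun a => ?_, fun a => ?_, fun i g h hs => ?_⟩
  · by_contra hcon
    have h1 := hva a
    rw [if_pos (not_le.1 hcon)] at h1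
    have h2 := hdv0 ρ a dl
    linarith
  · have h1 := hva a
    have h2 := hind ρ a
    linarith
  · have h1 : cost (g, h) ρ ≤ ((C i).ands.map fun q => cost q ρ).sum :=
      List.single_le_sum (fun x hx => by
        obtain ⟨q, _, rfl⟩ := List.mem_map.1 hx
        exact hcost0 q ρ) _ (List.mem_map.2 ⟨(g, h), Fm.mem_ands.2 hs, rfl⟩)
    have h2 := single_le_sum (f := fun i => ((C i).ands.map fun q => cost q ρ).sum)
      (fun i _ => hline i ρ) (mem_univ i)
    simp only [htot] at hρ2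
    have h3 : cost (g, h) ρ ≤ e0 := by linarith
    exact h3

end

end Pool.Agent.EFT
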