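import Pool.Agent.Lib.EFT.RestAv
import Pool.Agent.Lib.EFT.Total

/-!
# Project EF: rows R7 and R9a are compatible (helper49)
-/

set_option autoImplicit false

namespace Pool.Agent.EFT

open Finset World

noncomputable section

namespace World

variable {V E V' E' : Type} [Fintype V] [Fintype E] [Fintype V'] [Fintype E']

/-- the orthogonality used in row R9a, from row R7 -/
theorem orth (G : World V E) (H : World V' E') : Orth G H :=
  fun κ w => G.sum_OmF_norm_sq H κ w

end World

end

end Pool.Agent.EFT
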