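import Pool.Agent.Lib.EFT.OneRho
import Pool.Agent.Lib.EFT.RestGlue
import Pool.Agent.Lib.EFT.GapVal
import Pool.Agent.Lib.EFT.CCCWorld
import Pool.Agent.Lib.EFT.Nums

/-!
# The good restriction for two cube-connected cycles (project EF, helper15)

From the numbers `Nums` and any two charges with the same sum we get the values (`Val`) of all
formulas of the lines in the algebra of the small world.
-/

set_option autoImplicit false

open Finset

namespace Pool.Agent.EFT

open CCC World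

noncomputable section

namespace Inst

variable {k k' hh L M nn : ℕ} {C : ℝ}

theorem card_E (k : ℕ) [NeZero k] : Fintype.card (E k) = 3 * k * 2 ^ (k - 1) := by
  have h1 := two_card_E (k := k)
  rw [card_V] at h1
  obtain ⟨j, rfl⟩ : ∃ j, k = j + 1 := ⟨k - 1, by have := NeZero.pos k; omega⟩
  rw [Nat.add_sub_cancel]
  have h2 : 2 * Fintype.card (E (j + 1)) = 2 * (3 * (j + 1) * 2 ^ j) := by
    rw [h1, pow_succ]; ring
  omega

variable [NeZero k] [NeZero k']

theorem numR (N : Nums k k' hh L M nn C) (b : V k → ZMod 2) (b' : V k' → ZMod 2) :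
    NumR (world b) (world b') ((hh + 2) * N.Dl) ((hh + 6) * N.d) 3 N.d N.p N.th where
  rad := by
    rw [world_Lam, card_V]
    refine lt_of_le_of_lt (Nat.mul_le_mul_left _ ?_) N.rad
    nlinarith [Nat.zero_le N.Dl, Nat.zero_le (hh * N.Dl)]
  rad' := by
    rw [world_Lam, card_V]
    refine lt_of_le_of_lt (Nat.mul_le_mul_left _ ?_) N.rad'
    omega
  degree a := by
    classical
    have h := card_star_le a
    convert h <;> rfl
  loop e' := src_ne_tgt (by have := N.hk'; omega) e'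
  D01 := by norm_num
  dD := by nlinarith [Nat.zero_le N.d, Nat.zero_le (hh * N.d)]
  qd := by have := N.qd; omega
  qn := by rw [card_V]; exact N.qn
  th1 := by
    have h := N.th1
    rw [card_E, card_V, world_Lam]
    push_cast at h ⊢
    exact h
  th2 := by
    have h := N.th2
    rw [card_V, card_V, world_Lam]
    push_cast at h ⊢
    exact h

theorem gCalc (N : Nums k k' hh L M nn C) (b : V k → ZMod 2) :
    GCalc (world b) ((hh + 2) * N.Dl) N.Dl L hh N.τ N.θ N.b where
  one_le := by have := N.D3; omega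
  tau := N.τ0
  theta := N.θ0
  theta1 := N.θ1
  b_ge := N.hb
  small := by
    rw [gam, epsT, card_E]
    exact N.hγ
  rad := by
    rw [world_Lam, card_V]
    refine lt_of_le_of_lt (Nat.mul_le_mul_left _ ?_) N.rad
    nlinarith [Nat.zero_le N.Dl, Nat.zero_le (hh * N.Dl)]

/-- The error of one cost. -/
def e0 (N : Nums k k' hh L M nn C) : ℝ :=
  ((M * L : ℕ) + Fintype.card (E k) : ℝ) *
    (16 * L * (2 * N.th ^ N.p + epsT (Fintype.card (E k)) N.Dl N.τ N.b))

theorem epsT_nn (N : ℕ) (Dl : ℕ) (τ b : ℝ) : 0 ≤ epsT N Dl τ b := by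
  unfold epsT; positivity

theorem e0_nonneg (N : Nums k k' hh L M nn C) : 0 ≤ e0 N := by
  have h1 := epsT_nn (Fintype.card (E k)) N.Dl N.τ N.b
  have h2 := N.th0
  unfold e0
  positivity

/-- The final inequality in terms of `e0`. -/
theorem fin' (N : Nums k k' hh L M nn C) :
    ((Fintype.card (E k') : ℝ) + 1) ^ (2 * N.d) * (8 * 3 ^ hh * (8 * e0 N * (5 * L) ^ hh)) *
      ((C + 100) * (L : ℝ) ^ 2) ≤ 1 := by
  have h := N.fin
  rw [e0, epsT, card_E, card_E]
  push_cast at h ⊢
  exact h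

/-- **The values of all formulas of the lines.** -/
theorem val_CCC (N : Nums k k' hh L M nn C) (hC : 0 ≤ C) (b : V k → ZMod 2)
    (b' : V k' → ZMod 2) (hsum : ∑ v, b v = ∑ v, b' v) (ln : Fin M → Fm (E k))
    (hl : ∀ i, (ln i).lv ≤ L ∧ (ln i).ah ≤ hh) :
    ∃ (T : TAlg (world b').Hs) (F : Fm (E k) → (world b').Hs) (B I : ℝ),
      Val T (fun f => ∃ i, (ln i).Sub f) F N.d ((hh + 8) * N.d) B I ∧
      (∀ g h, (world b).Qf N.Dl (.and g h) ((world b).dl 0) = 0 → F (.and g h) = 0) ∧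
      (∀ f, F (.neg f) = T.one - F f) ∧
      T.A N.d * (C * (B + I)) ≤ 1 / 2 ∧ 4 * I < 1 := by
  classical
  set G := world b with hG
  set H := world b' with hH
  have hsum' : ∑ v, G.b v = ∑ v, H.b v := hsum
  have hOm : ∀ κ, (G.OmF H κ).Nonempty := fun κ => G.OmF_nonempty H κ hsum'
  have hne : Nonempty (V k) := ⟨(0, 0)⟩
  have hR : 8 * H.Lam * (2 * ((hh + 6) * N.d)) < Fintype.card (V k') := by
    rw [hH, world_Lam, card_V]
    refine lt_of_le_of_lt ?_ N.rad'
    exact Nat.mul_le_mul_right _ (by omega)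
  have hRad : (hh + 6) * N.d + 4 * N.d ≤ 2 * ((hh + 6) * N.d) := by
    nlinarith [Nat.zero_le N.d, Nat.zero_le (hh * N.d)]
  have hL2 : 2 ≤ L := by have := N.hL; have := N.hh1; omega
  have he0 := e0_nonneg N
  have hfin := fin' N
  set X : ℝ := ((Fintype.card (E k') : ℝ) + 1) ^ (2 * N.d) with hX
  have hX1 : 1 ≤ X := one_le_pow₀ (by have : (0 : ℝ) ≤ Fintype.card (E k') := Nat.cast_nonneg _
                                      linarith)
  set B : ℝ := 8 * e0 N * (5 * L) ^ hh with hB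
  set I : ℝ := 8 * 3 ^ hh * B with hI
  have hLr : (2 : ℝ) ≤ L := by exact_mod_cast hL2
  have hL4 : (4 : ℝ) ≤ (L : ℝ) ^ 2 := by nlinarith
  have h5 : (1 : ℝ) ≤ (5 * L) ^ hh := one_le_pow₀ (by linarith)
  have h3 : (1 : ℝ) ≤ 3 ^ hh := one_le_pow₀ (by norm_num)
  have hB0 : 0 ≤ B := by positivity
  have hI0 : 0 ≤ I := by positivity
  have hBI : B ≤ I := by
    rw [hI]; exact le_mul_of_one_le_left hB0 (by linarith)
  have heB : 8 * e0 N ≤ B := by
    rw [hB]; exact le_mul_of_one_le_right (by positivity) h5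
  have hXI : 0 ≤ X * I := by positivity
  have hXI4 : X * I * (4 * (C + 100)) ≤ 1 := by
    refine le_trans ?_ hfin
    refine mul_le_mul_of_nonneg_left ?_ hXI
    nlinarith
  have hXIC : X * I * C ≤ 1 / 4 := by nlinarith
  have hXI1 : X * I ≤ 1 / 400 := by nlinarith
  have hIX : I ≤ X * I := le_mul_of_one_le_left hI0 hX1
  have he1 : e0 N < 1 := by linarith
  obtain ⟨S, hSd, hSD, hSQ, hSdl, hand, hc1, hc2⟩ := one_rho G H (numR N b b') N.th0 hOm
    (orth G H) (gCalc N b) (2 * ((hh + 6) * N.d)) hR hRad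
    (Nat.mul_le_mul_right _ (by omega)) (Nat.mul_le_mul_right _ (by omega)) N.hθ (by omega)
    ln hl (e0 := e0 N) rfl he1
  have hA : ∀ m, (H.talg (2 * ((hh + 6) * N.d)) hR).A m =
      ((Fintype.card (E k') : ℝ) + 1) ^ m := fun m => rfl
  have hV := S.val (Sb := fun f => ∃ i, (ln i).Sub f) (fun f g ⟨t, ht⟩ hg => ⟨t, ht.trans hg⟩)
    N.hL (fun f ⟨t, ht⟩ => ht.lv_le.trans (hl t).1) (fun f ⟨t, ht⟩ => ht.ah_le.trans (hl t).2)
    (by rw [hSd, hSD]; exact Nat.mul_le_mul_right _ (by omega)) he0 hc1 hc2 (by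
      rw [hA, hSd]
      refine le_trans ?_ hfin
      refine mul_le_mul_of_nonneg_left ?_ hXI
      nlinarith)
  rw [hSd, hSD] at hV
  refine ⟨_, S.F, B, I, ?_, ?_, S.F_neg, ?_, by linarith⟩
  · have e : (hh + 8) * N.d = (hh + 6) * N.d + 2 * N.d := by ring
    rw [e]
    exact hV
  · intro g h h0
    exact hand g h (by rw [hSQ, hSdl]; exact h0)
  · rw [hA]
    have hXd : ((Fintype.card (E k') : ℝ) + 1) ^ N.d ≤ X := by
      refine pow_le_pow_right₀ ?_ (by omega)
      have : (0 : ℝ) ≤ Fintype.card (E k') := Nat.cast_nonneg _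
      linarith
    calc ((Fintype.card (E k') : ℝ) + 1) ^ N.d * (C * (B + I)) ≤ X * (C * (I + I)) := by
          refine mul_le_mul hXd ?_ (by positivity) (by linarith)
          exact mul_le_mul_of_nonneg_left (by linarith) hC
      _ = 2 * (X * I * C) := by ring
      _ ≤ 1 / 2 := by linarith

end Inst

end

end Pool.Agent.EFT
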