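import Mathlib

/-!
# Project EF, row R9a: second moments for a fixed `κ` (abstract form) (helper49)
-/

set_option autoImplicit false

open scoped BigOperators

namespace Pool.Agent.EFT

section moment

variable {S R F : Type*} [Fintype S] [NormedAddCommGroup F] [InnerProductSpace ℝ F]

/-- `‖a + b‖² ≤ 2‖a‖² + 2‖b‖²` -/
lemma norm_sub_sq_le_two (a b : F) : ‖a - b‖ ^ 2 ≤ 2 * ‖a‖ ^ 2 + 2 * ‖b‖ ^ 2 := by
  have h := norm_sub_le a b
  have h1 : ‖a - b‖ ^ 2 ≤ (‖a‖ + ‖b‖) ^ 2 := by gcongr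
  nlinarith [sq_nonneg (‖a‖ - ‖b‖)]

/-- The second moment of the commutation defect is carried by the bad classes. -/
theorem moment_defect (Om : Finset R) (c : S → R → ℝ)
    (hR2 : ∀ w : S → F, ∑ r ∈ Om, ‖∑ s, c s r • w s‖ ^ 2 = (Om.card : ℝ) * ∑ s, ‖w s‖ ^ 2)
    (ξ : S → F) (hξ : ∀ s, ‖ξ s‖ ≤ 1) (σ : S → S) (hσ : ∀ s, σ (σ s) = s)
    (a : S → ℝ) (ha : ∀ s, |a s| = 1) (has : ∀ s, a (σ s) = a s)
    (ce : R → ℝ) (hce : ∀ r, |ce r| = 1) (Zp : F →ₗ[ℝ] F) (hZp : ∀ u, ‖Zp u‖ = ‖u‖)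
    (good : S → Prop) [DecidablePred good]
    (hgood : ∀ s, good s → ∀ r ∈ Om, (a s * c (σ s) r) • ξ (σ s) = (ce r * c s r) • Zp (ξ s))
    (y : S → ℝ) :
    ∑ r ∈ Om, ‖(1 / 2 : ℝ) • ((∑ s, (c s r * (a s * y (σ s))) • ξ s)
        - ce r • Zp (∑ s, (c s r * y s) • ξ s))‖ ^ 2
      ≤ (Om.card : ℝ) * ∑ s ∈ Finset.univ.filter (fun s => ¬ good s), (y s) ^ 2 := by
  classical
  -- reindex the first sum
  have hre : ∀ r, (∑ s, (c s r * (a s * y (σ s))) • ξ s)
      = ∑ s, (c (σ s) r * (a s * y s)) • ξ (σ s) := by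
    intro r
    let φ : S ≃ S := ⟨σ, σ, hσ, hσ⟩
    rw [← Equiv.sum_comp φ]
    apply Finset.sum_congr rfl
    intro s _
    change (c (σ s) r * (a (σ s) * y (σ (σ s)))) • ξ (σ s) = _
    rw [hσ, has]
  -- split off the good part
  have hsplit : ∀ r ∈ Om, (∑ s, (c s r * (a s * y (σ s))) • ξ s)
        - ce r • Zp (∑ s, (c s r * y s) • ξ s)
      = (∑ s, c (σ s) r • (if good s then (0 : F) else (a s * y s) • ξ (σ s)))
        - ce r • (∑ s, c s r • (if good s then (0 : F) else y s • Zp (ξ s))) := by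
    intro r hr
    rw [hre r, map_sum, Finset.smul_sum, Finset.smul_sum, ← Finset.sum_sub_distrib,
      ← Finset.sum_sub_distrib]
    apply Finset.sum_congr rfl
    intro s _
    by_cases hg : good s
    · rw [if_pos hg, if_pos hg, smul_zero, smul_zero, smul_zero, sub_zero, map_smul]
      have h1 := hgood s hg r hr
      have h2 : (c (σ s) r * (a s * y s)) • ξ (σ s) = y s • ((a s * c (σ s) r) • ξ (σ s)) := by
        rw [smul_smul]; congr 1; ring
      rw [h2, h1, smul_smul, smul_smul, ← sub_smul]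
      have : y s * (ce r * c s r) - ce r * (c s r * y s) = 0 := by ring
      rw [this, zero_smul]
    · rw [if_neg hg, if_neg hg, map_smul]
      simp only [smul_smul]
  have hterm : ∀ r ∈ Om, ‖(1 / 2 : ℝ) • ((∑ s, (c s r * (a s * y (σ s))) • ξ s)
        - ce r • Zp (∑ s, (c s r * y s) • ξ s))‖ ^ 2
      ≤ (1 / 2) * ‖∑ s, c (σ s) r • (if good s then (0 : F) else (a s * y s) • ξ (σ s))‖ ^ 2
        + (1 / 2) * ‖∑ s, c s r • (if good s then (0 : F) else y s • Zp (ξ s))‖ ^ 2 := by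
    intro r hr
    rw [hsplit r hr, norm_smul, mul_pow]
    have h1 := norm_sub_sq_le_two
      (∑ s, c (σ s) r • (if good s then (0 : F) else (a s * y s) • ξ (σ s)))
      (ce r • (∑ s, c s r • (if good s then (0 : F) else y s • Zp (ξ s))))
    rw [norm_smul (ce r), Real.norm_eq_abs (ce r), hce r, one_mul] at h1
    have h2 : ‖(1 / 2 : ℝ)‖ ^ 2 = 1 / 4 := by norm_num
    rw [h2]
    linarith
  refine (Finset.sum_le_sum hterm).trans ?_
  rw [Finset.sum_add_distrib, ← Finset.mul_sum, ← Finset.mul_sum, hR2]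
  have hfirst : ∑ r ∈ Om, ‖∑ s, c (σ s) r • (if good s then (0 : F) else (a s * y s) • ξ (σ s))‖ ^ 2
      = (Om.card : ℝ) * ∑ s, ‖(if good (σ s) then (0 : F) else (a s * y (σ s)) • ξ s)‖ ^ 2 := by
    rw [← hR2]
    apply Finset.sum_congr rfl
    intro r _
    congr 2
    let φ : S ≃ S := ⟨σ, σ, hσ, hσ⟩
    rw [← Equiv.sum_comp φ]
    apply Finset.sum_congr rfl
    intro s _
    change c (σ (σ s)) r • (if good (σ s) then (0 : F) else (a (σ s) * y (σ s)) • ξ (σ (σ s))) = _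
    rw [hσ, has]
  rw [hfirst]
  have hb1 : ∑ s, ‖(if good (σ s) then (0 : F) else (a s * y (σ s)) • ξ s)‖ ^ 2
      ≤ ∑ s ∈ Finset.univ.filter (fun s => ¬ good s), (y s) ^ 2 := by
    let φ : S ≃ S := ⟨σ, σ, hσ, hσ⟩
    rw [← Equiv.sum_comp φ, Finset.sum_filter]
    apply Finset.sum_le_sum
    intro s _
    change ‖(if good (σ (σ s)) then (0 : F) else (a (σ s) * y (σ (σ s))) • ξ (σ s))‖ ^ 2 ≤ _
    rw [hσ]
    by_cases hg : good s
    · simp [hg]
    · simp only [hg, if_false, not_false_eq_true, if_true]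
      rw [norm_smul, mul_pow, Real.norm_eq_abs, abs_mul, ha, one_mul, sq_abs]
      have := hξ (σ s)
      have h0 := norm_nonneg (ξ (σ s))
      have h1 : ‖ξ (σ s)‖ ^ 2 ≤ 1 := by nlinarith
      nlinarith [sq_nonneg (y s)]
  have hb2 : ∑ s, ‖(if good s then (0 : F) else y s • Zp (ξ s))‖ ^ 2
      ≤ ∑ s ∈ Finset.univ.filter (fun s => ¬ good s), (y s) ^ 2 := by
    rw [Finset.sum_filter]
    apply Finset.sum_le_sum
    intro s _
    by_cases hg : good s
    · simp [hg]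
    · simp only [hg, if_false, not_false_eq_true, if_true]
      rw [norm_smul, mul_pow, Real.norm_eq_abs, sq_abs, hZp]
      have := hξ s
      have h0 := norm_nonneg (ξ s)
      have h1 : ‖ξ s‖ ^ 2 ≤ 1 := by nlinarith
      nlinarith [sq_nonneg (y s)]
  have hc : (0 : ℝ) ≤ Om.card := Nat.cast_nonneg _
  have h3 := mul_le_mul_of_nonneg_left hb1 hc
  have h4 := mul_le_mul_of_nonneg_left hb2 hc
  linarith

/-- The part of `R v` selected by a condition on the classes. -/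
theorem moment_sel (Om : Finset R) (c : S → R → ℝ)
    (hR2 : ∀ w : S → F, ∑ r ∈ Om, ‖∑ s, c s r • w s‖ ^ 2 = (Om.card : ℝ) * ∑ s, ‖w s‖ ^ 2)
    (ξ : S → F) (Pj : F →ₗ[ℝ] F) (bad : S → Prop) [DecidablePred bad]
    (hP : ∀ s, ‖Pj (ξ s)‖ ≤ 1) (h0 : ∀ s, ¬ bad s → Pj (ξ s) = 0) (y : S → ℝ) :
    ∑ r ∈ Om, ‖Pj (∑ s, (c s r * y s) • ξ s)‖ ^ 2
      ≤ (Om.card : ℝ) * ∑ s ∈ Finset.univ.filter (fun s => bad s), (y s) ^ 2 := by
  have h1 : ∀ r, Pj (∑ s, (c s r * y s) • ξ s) = ∑ s, c s r • (y s • Pj (ξ s)) := by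
    intro r
    rw [map_sum]
    apply Finset.sum_congr rfl
    intro s _
    rw [map_smul, smul_smul]
  simp_rw [h1]
  rw [hR2]
  apply mul_le_mul_of_nonneg_left _ (Nat.cast_nonneg _)
  rw [Finset.sum_filter]
  apply Finset.sum_le_sum
  intro s _
  by_cases hb : bad s
  · rw [if_pos hb, norm_smul, mul_pow, Real.norm_eq_abs, sq_abs]
    have := hP s
    have h0 := norm_nonneg (Pj (ξ s))
    have h1 : ‖Pj (ξ s)‖ ^ 2 ≤ 1 := by nlinarith
    nlinarith [sq_nonneg (y s)]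
  · rw [if_neg hb, h0 s hb]; simp

end moment

end Pool.Agent.EFT
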