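import Pool.Agent.Lib.EFT.Gap
import Pool.Agent.Lib.EFT.Rules

/-!
# No refutation in a good restriction (assembly, abstract part)
-/

set_option autoImplicit false

namespace Pool.Agent.EFT

namespace Rs

variable {V : Type*} [AddCommGroup V] [Module ℝ V] {T : TAlg V}
  {W : Type*} [AddCommGroup W] [Module ℝ W] {α : Type*} (S : Rs T W α)

/-- In a good restriction the lines of a derivation cannot contain a formula and its negation. -/
theorem no_ref {M : ℕ} (ln : Fin M → Fm α) (rules : List Rule) (hsound : ∀ r ∈ rules, r.Sound)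
    {L hh : ℕ} {C : ℝ} (hC : 0 ≤ C) (hL1 : hh + 1 ≤ L) (hL : ∀ t, (ln t).lv ≤ L)
    (hh' : ∀ t, (ln t).ah ≤ hh) (hD : (hh + 6) * S.d ≤ S.D)
    (hn : ∀ r ∈ rules, r.n ≤ hh) (hcst : ∀ r ∈ rules, r.cst ≤ C)
    {e0 : ℝ} (he0 : 0 ≤ e0) (hAd : T.A S.d ≤ T.A (2 * S.d)) (hA1 : 1 ≤ T.A (2 * S.d))
    (h1 : ∀ g h, (∃ t, (ln t).Sub (.and g h)) → S.bad g (S.Q h S.dl) + T.nm (S.tr g h S.dl)
      + T.nm (S.R (S.Q (.and g h) S.dl) - S.F (.and g h)) ≤ e0)
    (h2 : ∀ a, (∃ t, (ln t).Sub (.var a)) → T.nm (S.R (S.Q (.var a) S.dl) - S.F (.var a)) ≤ e0)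
    (hs : T.A (2 * S.d) * (8 * 3 ^ hh * (8 * e0 * (5 * L) ^ hh)) * ((4 * C + 100) * (L : ℝ) ^ 2)
      ≤ 1)
    (hstep : ∀ i, S.F (ln i) = T.one ∨
      ∃ r ∈ rules, ∃ θ : Fin r.n → Fm α, r.concl.subst θ = ln i ∧
        ∀ p ∈ r.prem, ∃ j, j < i ∧ p.subst θ = ln j)
    (t t' : Fin M) (hcon : ln t' = .neg (ln t)) : False := by
  have hLr : (1 : ℝ) ≤ L := by exact_mod_cast (by omega : 1 ≤ L)
  have hL2 : (1 : ℝ) ≤ (L : ℝ) ^ 2 := one_le_pow₀ hLr
  set I : ℝ := 8 * 3 ^ hh * (8 * e0 * (5 * L) ^ hh) with hI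
  have hI0 : 0 ≤ I := by positivity
  set B : ℝ := 8 * e0 * (5 * L) ^ hh with hB
  have hB0 : 0 ≤ B := by positivity
  have hBI : B ≤ I := by
    rw [hI]
    refine le_mul_of_one_le_left hB0 ?_
    have : (1 : ℝ) ≤ 3 ^ hh := one_le_pow₀ (by norm_num)
    linarith
  have hAnn := T.A_nonneg (2 * S.d)
  have hAI : 0 ≤ T.A (2 * S.d) * I := mul_nonneg hAnn hI0
  have hs1 : T.A (2 * S.d) * I ≤ 1 / (100 * (L : ℝ) ^ 2) := by
    rw [le_div_iff₀ (by positivity)]
    refine le_trans ?_ hs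
    refine mul_le_mul_of_nonneg_left ?_ hAI
    nlinarith
  have hs2 : T.A (2 * S.d) * I * (4 * C + 100) ≤ 1 := by
    refine le_trans ?_ hs
    refine mul_le_mul_of_nonneg_left ?_ hAI
    nlinarith
  have hsC : T.A (2 * S.d) * I * (4 * C) ≤ 1 := by nlinarith
  have hsI : T.A (2 * S.d) * I * 100 ≤ 1 := by nlinarith
  have hI4 : 4 * I < 1 := by nlinarith
  set Sb : Fm α → Prop := fun f => ∃ t, (ln t).Sub f with hSb
  have hcl : ∀ f g, Sb f → f.Sub g → Sb g := fun f g ⟨t, ht⟩ hg => ⟨t, ht.trans hg⟩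
  have hmain := S.main (Sb := Sb) hcl hL1 (fun f ⟨t, ht⟩ => ht.lv_le.trans (hL t))
    (fun f ⟨t, ht⟩ => ht.ah_le.trans (hh' t)) (le_trans (Nat.mul_le_mul_right _ (by omega)) hD)
    he0 (fun g h hgh => h1 g h hgh) (fun a ha => h2 a ha) hs1
  obtain ⟨m1, m2, m3⟩ := hmain
  have hx2 : 1 + 1 / (100 * (L : ℝ) ^ 2) ≤ 2 := by
    have : 1 / (100 * (L : ℝ) ^ 2) ≤ 1 := by
      rw [div_le_one (by positivity)]; nlinarith
    linarith
  have hV : Val T Sb S.F S.d (S.D + 2 * S.d) B I :=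
    { sub := SubClosed.of_sub hcl
      mem := fun f _ => S.F_low f
      neg := fun f _ => S.F_neg f
      and := fun f g hf => m1 f g hf
      idem := fun f hf => m2 f hf
      lam := fun f hf u hu => (m3 f hf u hu).trans
        (mul_le_mul_of_nonneg_right hx2 (T.nm_nonneg u))
      M_le := le_trans (by omega) S.hrad
      Bpos := hB0
      Ipos := hI0 }
  have hlines := hV.lines rules (fun r hr => ⟨hsound r hr, by
      have h5 := hn r hr
      have : (r.n + 4) * S.d ≤ (hh + 6) * S.d := Nat.mul_le_mul_right _ (by omega)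
      omega, by
      have hc := hcst r hr
      have hc0 := r.cst_nonneg
      have hAd0 := T.A_nonneg S.d
      calc T.A S.d * (r.cst * (B + I)) ≤ T.A (2 * S.d) * (C * (I + I)) := by
            refine mul_le_mul hAd ?_ (by positivity) hAnn
            exact mul_le_mul hc (by linarith) (by positivity) hC
        _ = T.A (2 * S.d) * I * (4 * C) / 2 := by ring
        _ ≤ 1 / 2 := by linarith⟩) M ln (fun t => ⟨t, Fm.Sub.refl _⟩)
    (fun i => by
      rcases hstep i with h | h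
      · left
        rw [h, sub_self, T.nm_zero]
        positivity
      · exact Or.inr h)
  exact hV.contra (ln t) ⟨t', by rw [hcon]; exact Fm.Sub.refl _⟩ (hlines t)
    (by rw [← hcon]; exact hlines t') hI4

end Rs

end Pool.Agent.EFT
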