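import Mathlib

/-!
# The complement of an almost idempotent operator (NOT-lemma)
-/

set_option autoImplicit false

namespace Pool.Agent.EFT

/-- **NOT-lemma.** If `Y` is almost idempotent then `1 - Y` has almost the norm of `Y`. -/
theorem not_lemma {H : Type*} [NormedAddCommGroup H] [InnerProductSpace ℝ H]
    {L0 L1 : Submodule ℝ H} (Y : H →ₗ[ℝ] H) {B η : ℝ} (hB : 1 ≤ B) (hη0 : 0 ≤ η)
    (hη : η ≤ 1 / 4) (h01 : L0 ≤ L1) (hband : ∀ v ∈ L0, Y v ∈ L1)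
    (hY : ∀ v ∈ L1, ‖Y v‖ ≤ B * ‖v‖) (hid : ∀ v ∈ L0, ‖Y (Y v) - Y v‖ ≤ η * ‖v‖)
    {v : H} (hv : v ∈ L0) : ‖v - Y v‖ ≤ B * (1 + 4 * √η) * ‖v‖ := by
  set w : H := Y v with hw
  set u : H := v - w with hu
  have hwL : w ∈ L1 := hband v hv
  have huL : u ∈ L1 := sub_mem (h01 hv) hwL
  set r : ℝ := √η with hr
  have hr0 : 0 ≤ r := Real.sqrt_nonneg _
  have hrr : r * r = η := Real.mul_self_sqrt hη0
  have hr2 : r ≤ 1 / 2 := by
    nlinarith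
  have hvn : 0 ≤ ‖v‖ := norm_nonneg v
  have hwn : 0 ≤ ‖w‖ := norm_nonneg w
  have hun : 0 ≤ ‖u‖ := norm_nonneg u
  have hBr : 1 ≤ B * (1 + 4 * r) := by nlinarith
  have huw : ‖u‖ ≤ ‖v‖ + ‖w‖ := norm_sub_le v w
  have hvuw : ‖v‖ ≤ ‖u‖ + ‖w‖ := by
    have : v = u + w := by rw [hu]; abel
    calc ‖v‖ = ‖u + w‖ := by rw [← this]
      _ ≤ _ := norm_add_le _ _
  rcases eq_or_lt_of_le hwn with hw0 | hw0
  · -- `w = 0`
    calc ‖u‖ ≤ ‖v‖ := by linarith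
      _ ≤ _ := le_mul_of_one_le_left hvn hBr
  rcases eq_or_lt_of_le hun with hu0 | hu0
  · rw [← hu0]; positivity
  set a : ℝ := ‖u‖ / ‖w‖ with ha
  have ha0 : 0 < a := div_pos hu0 hw0
  have haw : a * ‖w‖ = ‖u‖ := div_mul_cancel₀ _ hw0.ne'
  by_cases h1 : a < r
  · have h2 : ‖w‖ ≤ B * ‖v‖ := hY v (h01 hv)
    calc ‖u‖ = a * ‖w‖ := haw.symm
      _ ≤ r * (B * ‖v‖) := mul_le_mul h1.le h2 hwn hr0
      _ ≤ B * (1 + 4 * r) * ‖v‖ := by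
        have : 0 ≤ B * ‖v‖ := by positivity
        nlinarith
  by_cases h2 : 1 < a * r
  · -- `‖w‖ ≤ r ‖u‖`
    have h3 : ‖w‖ ≤ r * ‖u‖ := by
      calc ‖w‖ ≤ (a * r) * ‖w‖ := le_mul_of_one_le_left hwn h2.le
        _ = r * ‖u‖ := by rw [← haw]; ring
    have h4 : ‖u‖ * (1 - r) ≤ ‖v‖ := by linarith
    have h5 : 1 ≤ (1 + 2 * r) * (1 - r) := by nlinarith
    have h6 : ‖u‖ ≤ (1 + 2 * r) * ‖v‖ := by
      calc ‖u‖ ≤ ((1 + 2 * r) * (1 - r)) * ‖u‖ := le_mul_of_one_le_left hun h5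
        _ = (1 + 2 * r) * (‖u‖ * (1 - r)) := by ring
        _ ≤ _ := mul_le_mul_of_nonneg_left h4 (by positivity)
    calc ‖u‖ ≤ (1 + 2 * r) * ‖v‖ := h6
      _ ≤ B * (1 + 4 * r) * ‖v‖ := by
        apply mul_le_mul_of_nonneg_right _ hvn
        nlinarith
  push Not at h1 h2
  -- the main case
  set ε : H := Y (Y v) - Y v with hε
  have hεn : ‖ε‖ ≤ r * r * ‖v‖ := by rw [hrr]; exact hid v hv
  set v' : H := a • w + a⁻¹ • u with hv'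
  have hv'L : v' ∈ L1 := add_mem (L1.smul_mem _ hwL) (L1.smul_mem _ huL)
  have hnorm : ‖v'‖ = ‖v‖ := by
    have e1 : ‖v'‖ ^ 2 = ‖v‖ ^ 2 := by
      have e2 : v = w + u := by rw [hu]; abel
      have e3 : ‖v‖ ^ 2 = ‖w‖ ^ 2 + 2 * inner ℝ w u + ‖u‖ ^ 2 := by
        rw [e2, norm_add_sq_real]
      have e4 : ‖v'‖ ^ 2 = (a * ‖w‖) ^ 2 + 2 * inner ℝ w u + (a⁻¹ * ‖u‖) ^ 2 := by
        rw [hv', norm_add_sq_real, norm_smul, norm_smul, inner_smul_left, inner_smul_right,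
          Real.norm_of_nonneg ha0.le, Real.norm_of_nonneg (inv_pos.mpr ha0).le]
        simp only [conj_trivial]
        have : a * (a⁻¹ * inner ℝ w u) = inner ℝ w u := by
          rw [← mul_assoc, mul_inv_cancel₀ ha0.ne', one_mul]
        rw [this]
      have e5 : a⁻¹ * ‖u‖ = ‖w‖ := by
        rw [← haw, ← mul_assoc, inv_mul_cancel₀ ha0.ne', one_mul]
      rw [e4, e5, haw, e3]; ring
    exact (pow_left_inj₀ (norm_nonneg _) hvn two_ne_zero).mp e1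
  have hYv' : Y v' = a • w + (a - a⁻¹) • ε := by
    have e1 : Y w = w + ε := by rw [hε, hw]; abel
    have e2 : Y u = -ε := by rw [hu, map_sub, hε, hw]; abel
    rw [hv', map_add, map_smul, map_smul, e1, e2, smul_add, smul_neg, sub_smul]
    abel
  have h3 : ‖u‖ ≤ B * ‖v‖ + |a - a⁻¹| * ‖ε‖ := by
    have e1 : a • w = Y v' - (a - a⁻¹) • ε := by rw [hYv']; abel
    calc ‖u‖ = ‖a • w‖ := by rw [norm_smul, Real.norm_of_nonneg ha0.le, haw]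
      _ = ‖Y v' - (a - a⁻¹) • ε‖ := by rw [e1]
      _ ≤ ‖Y v'‖ + ‖(a - a⁻¹) • ε‖ := norm_sub_le _ _
      _ ≤ B * ‖v‖ + |a - a⁻¹| * ‖ε‖ := by
        rw [norm_smul, Real.norm_eq_abs]
        have := hY v' hv'L
        rw [hnorm] at this
        linarith
  have h4 : |a - a⁻¹| * r ≤ 1 := by
    have hai : 0 < a⁻¹ := inv_pos.mpr ha0
    have h5 : a⁻¹ * r ≤ 1 := by
      calc a⁻¹ * r ≤ a⁻¹ * a := mul_le_mul_of_nonneg_left h1 hai.le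
        _ = 1 := inv_mul_cancel₀ ha0.ne'
    rcases le_total 0 (a - a⁻¹) with h6 | h6
    · rw [abs_of_nonneg h6]
      nlinarith
    · rw [abs_of_nonpos h6]
      nlinarith
  calc ‖u‖ ≤ B * ‖v‖ + |a - a⁻¹| * ‖ε‖ := h3
    _ ≤ B * ‖v‖ + |a - a⁻¹| * (r * r * ‖v‖) := by
        gcongr
    _ = B * ‖v‖ + (|a - a⁻¹| * r) * (r * ‖v‖) := by ring
    _ ≤ B * ‖v‖ + 1 * (r * ‖v‖) := by gcongr
    _ ≤ B * (1 + 4 * r) * ‖v‖ := by nlinarith [mul_nonneg hr0 hvn, mul_nonneg (by linarith : (0:ℝ) ≤ B - 1) (mul_nonneg hr0 hvn)]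

end Pool.Agent.EFT
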