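import Pool.Agent.Lib.EFT.OneRho
import Pool.Agent.Lib.EFT.NoRef
import Pool.Agent.Lib.EFT.Nums
import Pool.Agent.Lib.EFT.CCCWorld

/-!
# Project EF (helper61): from the numbers `Nums` to the absence of refutations in `CCC_k`
-/

set_option autoImplicit false

open Finset

namespace Pool.Agent.EFT

namespace CCC

variable {k k' hh L M nn : ℕ} [NeZero k] [NeZero k'] {C : ℝ}

theorem card_E : Fintype.card (E k) = 3 * k * 2 ^ (k - 1) := by
  have h1 := two_card_E (k := k)
  rw [card_V] at h1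
  have h2 : 2 ^ k = 2 * 2 ^ (k - 1) := by
    rw [← pow_succ', Nat.sub_add_cancel (Nat.one_le_iff_ne_zero.2 (NeZero.ne k))]
  rw [h2] at h1
  have h3 : 3 * (k * (2 * 2 ^ (k - 1))) = 2 * (3 * k * 2 ^ (k - 1)) := by ring
  rw [h3] at h1
  exact Nat.eq_of_mul_eq_mul_left (by norm_num) h1

theorem numR (N : Nums k k' hh L M nn C) (b : V k → ZMod 2) (b' : V k' → ZMod 2) :
    World.NumR (world b) (world b') ((hh + 2) * N.Dl) ((hh + 6) * N.d) 3 N.d N.p N.th where
  rad := by
    rw [world_Lam, card_V]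
    refine lt_of_le_of_lt (Nat.mul_le_mul_left _ ?_) N.rad
    have h1 : (hh + 2) * N.Dl ≤ (5 * hh + 6) * N.Dl := Nat.mul_le_mul_right _ (by omega)
    omega
  rad' := by
    rw [world_Lam, card_V]
    refine lt_of_le_of_lt (Nat.mul_le_mul_left _ ?_) N.rad'
    omega
  degree a := by
    refine le_trans (card_le_card fun e he => ?_) (card_star_le a)
    rw [mem_filter] at he ⊢
    exact he
  loop e := src_ne_tgt (by have := N.hk'; omega) e
  D01 := by norm_num
  dD := Nat.le_mul_of_pos_left _ (Nat.succ_pos _)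
  qd := by
    have := N.qd
    omega
  qn := by
    rw [card_V]
    exact N.qn
  th1 := by
    refine le_trans (le_of_eq ?_) N.th1
    rw [card_E, card_V, world_Lam]
    push_cast
    ring
  th2 := by
    refine le_trans (le_of_eq ?_) N.th2
    rw [card_V, card_V, world_Lam]
    push_cast
    ring

omit [NeZero k'] in
theorem gcalc (N : Nums k k' hh L M nn C) (b : V k → ZMod 2) :
    World.GCalc (world b) ((hh + 2) * N.Dl) N.Dl L hh N.τ N.θ N.b where
  one_le := by
    have := N.D3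
    omega
  tau := N.τ0
  theta := N.θ0
  theta1 := N.θ1
  b_ge := N.hb
  small := by
    refine le_trans (le_of_eq ?_) N.hγ
    unfold gam epsT
    rw [card_E]
  rad := by
    rw [world_Lam, card_V]
    refine lt_of_le_of_lt (Nat.mul_le_mul_left _ ?_) N.rad
    have h1 : (hh + 2) * N.Dl + 4 * hh * N.Dl = (5 * hh + 2) * N.Dl := by ring
    have h2 : (5 * hh + 2) * N.Dl ≤ (5 * hh + 6) * N.Dl := Nat.mul_le_mul_right _ (by omega)
    omega

/-- **No refutation**: lines with at most `L` leaves and and-height at most `hh`, each of them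
either `¬(g ∧ h)` where `g ∧ h` kills the vacuum, or obtained by a rule. -/
theorem no_ref (hC : 0 ≤ C) (N : Nums k k' hh L M nn C) (b : V k → ZMod 2)
    (hb : ∑ v, b v = 1) (rules : List Rule) (hsound : ∀ r ∈ rules, r.Sound)
    (hn : ∀ r ∈ rules, r.n ≤ nn) (hcst : ∀ r ∈ rules, 4 * r.cst ≤ C)
    (ln : Fin M → Fm (E k)) (hL : ∀ t, (ln t).lv ≤ L) (hh' : ∀ t, (ln t).ah ≤ hh)
    (hstep : ∀ i, (∃ g h, ln i = .neg (.and g h) ∧
        (world b).Qf N.Dl (.and g h) ((world b).dl 0) = 0) ∨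
      ∃ r ∈ rules, ∃ θ : Fin r.n → Fm (E k), r.concl.subst θ = ln i ∧
        ∀ p ∈ r.prem, ∃ j, j < i ∧ p.subst θ = ln j)
    (t t' : Fin M) (hcon : ln t' = .neg (ln t)) : False := by
  classical
  -- the small world
  set b' : V k' → ZMod 2 := Pi.single 0 1 with hb'
  have hbb : ∑ v, (world b).b v = ∑ v, (world b').b v := by
    rw [world_b, world_b, hb, hb', Finset.sum_pi_single']
    simp
  set R : ℕ := 2 * ((hh + 6) * N.d) with hR
  have hRad' : 8 * (world b').Lam * R < Fintype.card (V k') := by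
    rw [world_Lam, card_V]
    refine lt_of_le_of_lt ?_ N.rad'
    exact Nat.mul_le_mul_right _ (Nat.mul_le_mul_right _ (by norm_num))
  set A : ℝ := ((Fintype.card (E k') : ℝ) + 1) with hA
  have hA1 : 1 ≤ A := by
    rw [hA]
    have : (0 : ℝ) ≤ Fintype.card (E k') := Nat.cast_nonneg _
    linarith
  have hLr : (1 : ℝ) ≤ L := by
    have := N.hL
    exact_mod_cast (by omega : 1 ≤ L)
  set e0 : ℝ := ((M * L : ℕ) + Fintype.card (E k) : ℝ) *
    (16 * L * (2 * N.th ^ N.p + epsT (Fintype.card (E k)) N.Dl N.τ N.b)) with he0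
  have hth0 := N.th0
  have hε0 : 0 ≤ epsT (Fintype.card (E k)) N.Dl N.τ N.b := by
    unfold epsT
    positivity
  have he00 : 0 ≤ e0 := by
    rw [he0]
    positivity
  have hfin : A ^ (2 * N.d) * (8 * 3 ^ hh * (8 * e0 * (5 * L) ^ hh)) *
      ((C + 100) * (L : ℝ) ^ 2) ≤ 1 := by
    refine le_trans (le_of_eq ?_) N.fin
    rw [hA, he0, card_E, card_E]
    unfold epsT
    push_cast
    ring
  have hApow : 1 ≤ A ^ (2 * N.d) := one_le_pow₀ hA1
  have h5L : 1 ≤ (5 * (L : ℝ)) ^ hh := one_le_pow₀ (by linarith)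
  have h3 : (1 : ℝ) ≤ 3 ^ hh := one_le_pow₀ (by norm_num)
  have hL2 : (1 : ℝ) ≤ (L : ℝ) ^ 2 := one_le_pow₀ hLr
  have he01 : e0 < 1 := by
    have h6 : e0 * 100 ≤ A ^ (2 * N.d) * (8 * 3 ^ hh * (8 * e0 * (5 * L) ^ hh)) *
        ((C + 100) * (L : ℝ) ^ 2) := by
      have h7 : e0 ≤ 8 * e0 * (5 * L) ^ hh := by
        calc e0 = e0 * 1 := (mul_one _).symm
          _ ≤ (8 * e0) * (5 * L) ^ hh := mul_le_mul (by linarith) h5L zero_le_one (by linarith)
      have h8 : e0 ≤ 8 * 3 ^ hh * (8 * e0 * (5 * L) ^ hh) := by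
        calc e0 = 1 * e0 := (one_mul _).symm
          _ ≤ (8 * 3 ^ hh) * (8 * e0 * (5 * L) ^ hh) :=
            mul_le_mul (by linarith) h7 he00 (by linarith)
      have h9 : e0 ≤ A ^ (2 * N.d) * (8 * 3 ^ hh * (8 * e0 * (5 * L) ^ hh)) := by
        calc e0 = 1 * e0 := (one_mul _).symm
          _ ≤ _ := mul_le_mul hApow h8 he00 (by linarith)
      refine mul_le_mul h9 ?_ (by norm_num) (le_trans he00 h9)
      calc (100 : ℝ) = 100 * 1 := (mul_one _).symm
        _ ≤ (C + 100) * (L : ℝ) ^ 2 := mul_le_mul (by linarith) hL2 zero_le_one (by linarith)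
    linarith
  obtain ⟨S, hSd, hSD, hSQ, hSdl, hSF, h1, h2⟩ := World.one_rho (world b) (world b')
    (numR N b b') N.th0 (fun κ => (world b).OmF_nonempty (world b') κ hbb)
    (fun κ w => (world b).sum_OmF_norm_sq (world b') κ w) (gcalc N b) R hRad'
    (by
      rw [hR]
      have : 4 * N.d ≤ (hh + 6) * N.d := Nat.mul_le_mul_right _ (by omega)
      omega)
    (Nat.mul_le_mul_right _ (by omega)) (Nat.mul_le_mul_right _ (by omega)) N.hθ
    (by have := N.hL; omega) ln (fun i => ⟨hL i, hh' i⟩) he0 he01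
  refine S.no_ref ln rules hsound (C := C / 4) (L := L) (hh := hh) (e0 := e0) (by positivity)
    N.hL hL hh' ?_ (fun r hr => (hn r hr).trans N.hn)
    (fun r hr => by have := hcst r hr; linarith) he00 ?_ ?_ h1 h2 ?_ ?_ t t' hcon
  · rw [hSd, hSD]
  · rw [hSd]
    exact pow_le_pow_right₀ hA1 (by omega)
  · rw [hSd]
    exact hApow
  · rw [hSd]
    have h4 : 4 * (C / 4) = C := by ring
    rw [h4]
    exact hfin
  · intro i
    rcases hstep i with ⟨g, h, h3, h4⟩ | h3
    · left
      rw [h3, S.F_neg, hSF g h (by rw [hSQ, hSdl]; exact h4), sub_zero]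
    · exact Or.inr h3

end CCC

end Pool.Agent.EFT
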