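import Mathlib

/-!
Tail bounds for a uniformly random map `κ : V' → V` (row R8 of project EF).
-/

namespace Pool.Agent.EFT

open Finset

section Matching

variable {V' E' : Type*} [DecidableEq V'] [Fintype E'] [DecidableEq E']

/-- Two edges have no common end. -/
def Disj (src tgt : E' → V') (e f : E') : Prop :=
  src e ≠ src f ∧ src e ≠ tgt f ∧ tgt e ≠ src f ∧ tgt e ≠ tgt f

/-- Among `2 D0 q` edges there are `q` pairwise disjoint ones. -/
theorem exists_matching (src tgt : E' → V') (D0 : ℕ)
    (hD : 1 ≤ D0)
    (hdeg : ∀ v, (univ.filter fun e => src e = v ∨ tgt e = v).card ≤ D0) :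
    ∀ (q : ℕ) (S : Finset E'), 2 * D0 * q ≤ S.card →
      ∃ M ⊆ S, M.card = q ∧ ∀ e ∈ M, ∀ f ∈ M, e ≠ f → Disj src tgt e f := by
  intro q
  induction q with
  | zero => intro S _; exact ⟨∅, by simp, by simp, by simp⟩
  | succ q ih =>
    intro S hS
    have hne : S.Nonempty := by
      rw [← Finset.card_pos]
      have : 0 < 2 * D0 * (q + 1) := by positivity
      omega
    obtain ⟨e, he⟩ := hne
    set A : Finset E' := univ.filter fun f => src f = src e ∨ tgt f = src e with hA
    set C : Finset E' := univ.filter fun f => src f = tgt e ∨ tgt f = tgt e with hC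
    have hcard : 2 * D0 * q ≤ (S \ (A ∪ C)).card := by
      have h1 := Finset.le_card_sdiff (A ∪ C) S
      have h2 := Finset.card_union_le A C
      have h3 := hdeg (src e)
      have h4 := hdeg (tgt e)
      have h5 : 2 * D0 * (q + 1) = 2 * D0 * q + 2 * D0 := by ring
      have h3' : A.card ≤ D0 := h3
      have h4' : C.card ≤ D0 := h4
      omega
    obtain ⟨M, hMS, hMc, hMd⟩ := ih _ hcard
    have hMAC : ∀ f ∈ M, f ∉ A ∪ C := fun f hf => (Finset.mem_sdiff.1 (hMS hf)).2
    have hdis : ∀ f ∈ M, Disj src tgt e f := by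
      intro f hf
      have h := hMAC f hf
      simp only [hA, hC, Finset.mem_union, Finset.mem_filter, Finset.mem_univ, true_and,
        not_or] at h
      obtain ⟨⟨h1, h2⟩, h3, h4⟩ := h
      exact ⟨fun h => h1 h.symm, fun h => h2 h.symm, fun h => h3 h.symm, fun h => h4 h.symm⟩
    have heM : e ∉ M := by
      intro hf
      exact (hdis e hf).1 rfl
    refine ⟨insert e M, ?_, ?_, ?_⟩
    · intro f hf
      rcases Finset.mem_insert.1 hf with rfl | hf
      · exact he
      · exact (Finset.mem_sdiff.1 (hMS hf)).1
    · rw [Finset.card_insert_of_notMem heM, hMc]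
    · intro f hf g hg hfg
      rcases Finset.mem_insert.1 hf with hf1 | hf1
      · rcases Finset.mem_insert.1 hg with hg1 | hg1
        · exact absurd (hf1.trans hg1.symm) hfg
        · rw [hf1]; exact hdis g hg1
      · rcases Finset.mem_insert.1 hg with hg1 | hg1
        · rw [hg1]
          obtain ⟨h1, h2, h3, h4⟩ := hdis f hf1
          exact ⟨h1.symm, h3.symm, h2.symm, h4.symm⟩
        · exact hMd f hf1 g hg1 hfg

end Matching

section Count

variable {V' E' V : Type*} [Fintype V'] [DecidableEq V'] [Fintype V] [DecidableEq V]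

omit [DecidableEq V] in
/-- One step of independence: the pair `(κ s, κ t)` is independent of the rest. -/
theorem card_pair_step (B : V → V → Prop) [DecidableRel B] (s t : V') (hst : s ≠ t)
    (P : (V' → V) → Prop) [DecidablePred P]
    (hP : ∀ κ x y, P κ → P (Function.update (Function.update κ s x) t y)) :
    (univ.filter fun κ : V' → V => B (κ s) (κ t) ∧ P κ).card * Fintype.card V ^ 2
      ≤ (univ.filter fun p : V × V => B p.1 p.2).card * (univ.filter fun κ : V' → V => P κ).card := by
  classical
  have h1 : (univ.filter fun κ : V' → V => B (κ s) (κ t) ∧ P κ).card * Fintype.card V ^ 2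
      = ((univ.filter fun κ : V' → V => B (κ s) (κ t) ∧ P κ) ×ˢ (univ : Finset (V × V))).card := by
    rw [Finset.card_product, Finset.card_univ, Fintype.card_prod, sq]
  rw [h1, ← Finset.card_product]
  apply Finset.card_le_card_of_injOn
    (fun z : (V' → V) × (V × V) =>
      ((z.1 s, z.1 t), Function.update (Function.update z.1 s z.2.1) t z.2.2))
  · rintro ⟨κ, x, y⟩ hz
    have hz' := Finset.mem_coe.1 hz
    rw [Finset.mem_product, Finset.mem_filter] at hz'
    obtain ⟨⟨-, hB, hPκ⟩, -⟩ := hz'
    apply Finset.mem_coe.2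
    rw [Finset.mem_product, Finset.mem_filter, Finset.mem_filter]
    exact ⟨⟨Finset.mem_univ _, hB⟩, Finset.mem_univ _, hP κ x y hPκ⟩
  · rintro ⟨κ, x, y⟩ - ⟨κ', x', y'⟩ - hz
    simp only [Prod.mk.injEq] at hz
    obtain ⟨⟨h1, h2⟩, h3⟩ := hz
    have hx : x = x' := by
      have := congrFun h3 s
      simpa [Function.update_of_ne hst, Function.update_self] using this
    have hy : y = y' := by
      have := congrFun h3 t
      simpa using this
    have hκ : κ = κ' := by
      funext v
      by_cases hv : v = s
      · rw [hv]; exact h1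
      by_cases hv' : v = t
      · rw [hv']; exact h2
      have := congrFun h3 v
      simpa [Function.update_of_ne hv, Function.update_of_ne hv'] using this
    rw [hx, hy, hκ]

variable [Fintype E'] [DecidableEq E']

omit [DecidableEq V] in
/-- Independence along a matching. -/
theorem card_matching_le (B : V → V → Prop) [DecidableRel B] (src tgt : E' → V')
    (hloop : ∀ e, src e ≠ tgt e) (M : Finset E')
    (hM : ∀ e ∈ M, ∀ f ∈ M, e ≠ f → Disj src tgt e f) :
    (univ.filter fun κ : V' → V => ∀ e ∈ M, B (κ (src e)) (κ (tgt e))).card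
        * Fintype.card V ^ (2 * M.card)
      ≤ (univ.filter fun p : V × V => B p.1 p.2).card ^ M.card
        * Fintype.card V ^ Fintype.card V' := by
  classical
  induction M using Finset.induction_on with
  | empty => simp
  | insert e M heM ih =>
    have ih' := ih (fun f hf g hg hfg =>
      hM f (Finset.mem_insert_of_mem hf) g (Finset.mem_insert_of_mem hg) hfg)
    have hstep := card_pair_step B (src e) (tgt e) (hloop e)
      (fun κ : V' → V => ∀ f ∈ M, B (κ (src f)) (κ (tgt f))) (by
        intro κ x y hκ f hf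
        have hne : e ≠ f := by rintro rfl; exact heM hf
        obtain ⟨h1, h2, h3, h4⟩ := hM e (Finset.mem_insert_self _ _) f
          (Finset.mem_insert_of_mem hf) hne
        rw [Function.update_of_ne h3.symm, Function.update_of_ne h1.symm,
          Function.update_of_ne h4.symm, Function.update_of_ne h2.symm]
        exact hκ f hf)
    have heq : (univ.filter fun κ : V' → V => ∀ f ∈ insert e M, B (κ (src f)) (κ (tgt f)))
        = (univ.filter fun κ : V' → V => B (κ (src e)) (κ (tgt e)) ∧
            ∀ f ∈ M, B (κ (src f)) (κ (tgt f))) := by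
      ext κ
      simp
    rw [heq, Finset.card_insert_of_notMem heM]
    calc (univ.filter fun κ : V' → V => B (κ (src e)) (κ (tgt e)) ∧
            ∀ f ∈ M, B (κ (src f)) (κ (tgt f))).card * Fintype.card V ^ (2 * (M.card + 1))
        = ((univ.filter fun κ : V' → V => B (κ (src e)) (κ (tgt e)) ∧
            ∀ f ∈ M, B (κ (src f)) (κ (tgt f))).card * Fintype.card V ^ 2)
            * Fintype.card V ^ (2 * M.card) := by ring
      _ ≤ ((univ.filter fun p : V × V => B p.1 p.2).card *
            (univ.filter fun κ : V' → V => ∀ f ∈ M, B (κ (src f)) (κ (tgt f))).card)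
            * Fintype.card V ^ (2 * M.card) := Nat.mul_le_mul_right _ hstep
      _ = (univ.filter fun p : V × V => B p.1 p.2).card *
            ((univ.filter fun κ : V' → V => ∀ f ∈ M, B (κ (src f)) (κ (tgt f))).card
            * Fintype.card V ^ (2 * M.card)) := by ring
      _ ≤ (univ.filter fun p : V × V => B p.1 p.2).card *
            ((univ.filter fun p : V × V => B p.1 p.2).card ^ M.card
        * Fintype.card V ^ Fintype.card V') := Nat.mul_le_mul_left _ ih'
      _ = _ := by ring

/-- (R3), first half: few edges of `E'` are mapped to bad pairs. -/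
theorem card_tail_pairs (B : V → V → Prop) [DecidableRel B] (src tgt : E' → V')
    (hloop : ∀ e, src e ≠ tgt e) (D0 : ℕ) (hD : 1 ≤ D0)
    (hdeg : ∀ v, (univ.filter fun e => src e = v ∨ tgt e = v).card ≤ D0)
    (c : ℝ) (hV : 0 < Fintype.card V)
    (hB : ((univ.filter fun p : V × V => B p.1 p.2).card : ℝ) ≤ c * Fintype.card V) (q : ℕ) :
    ((univ.filter fun κ : V' → V =>
        2 * D0 * q ≤ (univ.filter fun e : E' => B (κ (src e)) (κ (tgt e))).card).card : ℝ)
      ≤ (Fintype.card E' * c / Fintype.card V) ^ q * (Fintype.card V : ℝ) ^ Fintype.card V' := by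
  classical
  set n : ℝ := (Fintype.card V : ℝ) with hn
  have hn0 : 0 < n := by rw [hn]; exact_mod_cast hV
  have hsub : (univ.filter fun κ : V' → V =>
        2 * D0 * q ≤ (univ.filter fun e : E' => B (κ (src e)) (κ (tgt e))).card)
      ⊆ ((Finset.powersetCard q (univ : Finset E')).filter fun M =>
          ∀ e ∈ M, ∀ f ∈ M, e ≠ f → Disj src tgt e f).biUnion fun M =>
          univ.filter fun κ : V' → V => ∀ e ∈ M, B (κ (src e)) (κ (tgt e)) := by
    intro κ hκ
    obtain ⟨M, hMS, hMc, hMd⟩ := exists_matching src tgt D0 hD hdeg q _ (Finset.mem_filter.1 hκ).2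
    rw [Finset.mem_biUnion]
    refine ⟨M, ?_, ?_⟩
    · rw [Finset.mem_filter, Finset.mem_powersetCard]
      exact ⟨⟨Finset.subset_univ _, hMc⟩, hMd⟩
    · rw [Finset.mem_filter]
      exact ⟨Finset.mem_univ _, fun e he => (Finset.mem_filter.1 (hMS he)).2⟩
  set b : ℝ := ((univ.filter fun p : V × V => B p.1 p.2).card : ℝ) with hb
  have hb0 : 0 ≤ b := by rw [hb]; positivity
  have hc0 : 0 ≤ c := by
    by_contra hc
    push Not at hc
    have : c * n < 0 := mul_neg_of_neg_of_pos hc hn0
    linarith
  have hone : ∀ M ∈ ((Finset.powersetCard q (univ : Finset E')).filter fun M =>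
          ∀ e ∈ M, ∀ f ∈ M, e ≠ f → Disj src tgt e f),
      ((univ.filter fun κ : V' → V => ∀ e ∈ M, B (κ (src e)) (κ (tgt e))).card : ℝ)
        ≤ (c / n) ^ q * n ^ Fintype.card V' := by
    intro M hM
    rw [Finset.mem_filter, Finset.mem_powersetCard] at hM
    obtain ⟨⟨-, hMc⟩, hMd⟩ := hM
    have h := card_matching_le (V := V) B src tgt hloop M hMd
    rw [hMc] at h
    have h' : ((univ.filter fun κ : V' → V => ∀ e ∈ M, B (κ (src e)) (κ (tgt e))).card : ℝ)
        * n ^ (2 * q) ≤ b ^ q * n ^ Fintype.card V' := by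
      rw [hn, hb]; exact_mod_cast h
    have h2 : b ^ q ≤ (c * n) ^ q := pow_le_pow_left₀ hb0 hB q
    have h3 : (c / n) ^ q * n ^ (2 * q) = (c * n) ^ q := by
      rw [pow_mul, ← mul_pow]
      congr 1
      field_simp
    have h4 : (0 : ℝ) < n ^ (2 * q) := by positivity
    have h5 : (0 : ℝ) ≤ n ^ Fintype.card V' := by positivity
    refine le_of_mul_le_mul_right ?_ h4
    calc _ ≤ b ^ q * n ^ Fintype.card V' := h'
      _ ≤ (c * n) ^ q * n ^ Fintype.card V' := mul_le_mul_of_nonneg_right h2 h5
      _ = _ := by rw [← h3]; ring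
  calc ((univ.filter fun κ : V' → V =>
        2 * D0 * q ≤ (univ.filter fun e : E' => B (κ (src e)) (κ (tgt e))).card).card : ℝ)
      ≤ ((((Finset.powersetCard q (univ : Finset E')).filter fun M =>
          ∀ e ∈ M, ∀ f ∈ M, e ≠ f → Disj src tgt e f).biUnion fun M =>
          univ.filter fun κ : V' → V => ∀ e ∈ M, B (κ (src e)) (κ (tgt e))).card : ℝ) := by
        exact_mod_cast Finset.card_le_card hsub
    _ ≤ ∑ M ∈ ((Finset.powersetCard q (univ : Finset E')).filter fun M =>
          ∀ e ∈ M, ∀ f ∈ M, e ≠ f → Disj src tgt e f),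
          ((univ.filter fun κ : V' → V => ∀ e ∈ M, B (κ (src e)) (κ (tgt e))).card : ℝ) := by
        exact_mod_cast Finset.card_biUnion_le
    _ ≤ ∑ M ∈ ((Finset.powersetCard q (univ : Finset E')).filter fun M =>
          ∀ e ∈ M, ∀ f ∈ M, e ≠ f → Disj src tgt e f), ((c / n) ^ q * n ^ Fintype.card V') :=
        Finset.sum_le_sum hone
    _ = (((Finset.powersetCard q (univ : Finset E')).filter fun M =>
          ∀ e ∈ M, ∀ f ∈ M, e ≠ f → Disj src tgt e f).card : ℝ)
          * ((c / n) ^ q * n ^ Fintype.card V') := by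
        rw [Finset.sum_const, nsmul_eq_mul]
    _ ≤ ((Fintype.card E' : ℝ) ^ q) * ((c / n) ^ q * n ^ Fintype.card V') := by
        apply mul_le_mul_of_nonneg_right _ (by positivity)
        have h1 := Finset.card_filter_le (Finset.powersetCard q (univ : Finset E'))
          (fun M => ∀ e ∈ M, ∀ f ∈ M, e ≠ f → Disj src tgt e f)
        rw [Finset.card_powersetCard, Finset.card_univ] at h1
        have h2 := Nat.choose_le_pow (Fintype.card E') q
        exact_mod_cast h1.trans h2
    _ = _ := by
        rw [← mul_assoc, ← mul_pow]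
        congr 2
        ring

/-- (R3), second half: few vertices of `V'` are mapped into a small set `W`. -/
theorem card_tail_set (W : Finset V) (hV : 0 < Fintype.card V) (q : ℕ) :
    ((univ.filter fun κ : V' → V => q ≤ (univ.filter fun v : V' => κ v ∈ W).card).card : ℝ)
      ≤ (Fintype.card V' * W.card / Fintype.card V) ^ q
        * (Fintype.card V : ℝ) ^ Fintype.card V' := by
  classical
  set n : ℝ := (Fintype.card V : ℝ) with hn
  have hn0 : 0 < n := by rw [hn]; exact_mod_cast hV
  have hsub : (univ.filter fun κ : V' → V => q ≤ (univ.filter fun v : V' => κ v ∈ W).card)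
      ⊆ (Finset.powersetCard q (univ : Finset V')).biUnion fun M =>
          univ.filter fun κ : V' → V => ∀ v ∈ M, κ v ∈ W := by
    intro κ hκ
    obtain ⟨M, hMS, hMc⟩ := Finset.exists_subset_card_eq (Finset.mem_filter.1 hκ).2
    rw [Finset.mem_biUnion]
    refine ⟨M, ?_, ?_⟩
    · rw [Finset.mem_powersetCard]
      exact ⟨Finset.subset_univ _, hMc⟩
    · rw [Finset.mem_filter]
      exact ⟨Finset.mem_univ _, fun e he => (Finset.mem_filter.1 (hMS he)).2⟩
  have hone : ∀ M ∈ (Finset.powersetCard q (univ : Finset V')),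
      ((univ.filter fun κ : V' → V => ∀ v ∈ M, κ v ∈ W).card : ℝ)
        ≤ (W.card / n) ^ q * n ^ Fintype.card V' := by
    intro M hM
    rw [Finset.mem_powersetCard] at hM
    obtain ⟨-, hMc⟩ := hM
    have h : (univ.filter fun κ : V' → V => ∀ v ∈ M, κ v ∈ W)
        = Fintype.piFinset fun v : V' => if v ∈ M then W else univ := by
      ext κ
      simp only [Finset.mem_filter, Finset.mem_univ, true_and, Fintype.mem_piFinset]
      constructor
      · intro h v
        by_cases hv : v ∈ M
        · simp [hv, h v hv]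
        · simp [hv]
      · intro h v hv
        have := h v
        simpa [hv] using this
    have h' : (univ.filter fun κ : V' → V => ∀ v ∈ M, κ v ∈ W).card
        * Fintype.card V ^ q = W.card ^ q * Fintype.card V ^ Fintype.card V' := by
      rw [h, Fintype.card_piFinset]
      have h1 : ∏ v : V', (if v ∈ M then W else (univ : Finset V)).card
          = (∏ v ∈ M, W.card) * ∏ v ∈ Mᶜ, Fintype.card V := by
        rw [← Finset.prod_mul_prod_compl M]
        congr 1
        · apply Finset.prod_congr rfl
          intro v hv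
          simp [hv]
        · apply Finset.prod_congr rfl
          intro v hv
          have : v ∉ M := by simpa using hv
          simp [this, Finset.card_univ]
      rw [h1, Finset.prod_const, Finset.prod_const, hMc, Finset.card_compl, hMc, mul_assoc,
        ← pow_add]
      congr 2
      have : M.card ≤ Fintype.card V' := Finset.card_le_univ M
      omega
    have h2 : ((univ.filter fun κ : V' → V => ∀ v ∈ M, κ v ∈ W).card : ℝ)
        * n ^ q = (W.card : ℝ) ^ q * n ^ Fintype.card V' := by
      rw [hn]; exact_mod_cast h'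
    have h4 : (0 : ℝ) < n ^ q := by positivity
    refine le_of_eq (mul_right_cancel₀ h4.ne' ?_)
    rw [h2, div_pow]
    field_simp
  calc ((univ.filter fun κ : V' → V =>
        q ≤ (univ.filter fun v : V' => κ v ∈ W).card).card : ℝ)
      ≤ (((Finset.powersetCard q (univ : Finset V')).biUnion fun M =>
          univ.filter fun κ : V' → V => ∀ v ∈ M, κ v ∈ W).card : ℝ) := by
        exact_mod_cast Finset.card_le_card hsub
    _ ≤ ∑ M ∈ (Finset.powersetCard q (univ : Finset V')),
          ((univ.filter fun κ : V' → V => ∀ v ∈ M, κ v ∈ W).card : ℝ) := by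
        exact_mod_cast Finset.card_biUnion_le
    _ ≤ ∑ M ∈ (Finset.powersetCard q (univ : Finset V')),
          ((W.card / n) ^ q * n ^ Fintype.card V') := Finset.sum_le_sum hone
    _ = ((Finset.powersetCard q (univ : Finset V')).card : ℝ)
          * ((W.card / n) ^ q * n ^ Fintype.card V') := by
        rw [Finset.sum_const, nsmul_eq_mul]
    _ ≤ ((Fintype.card V' : ℝ) ^ q) * ((W.card / n) ^ q * n ^ Fintype.card V') := by
        apply mul_le_mul_of_nonneg_right _ (by positivity)
        rw [Finset.card_powersetCard, Finset.card_univ]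
        exact_mod_cast Nat.choose_le_pow (Fintype.card V') q
    _ = _ := by
        rw [← mul_assoc, ← mul_pow]
        congr 2
        ring

end Count

end Pool.Agent.EFT
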