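import Pool.Agent.Lib.EFT.Pull
import Pool.Agent.Lib.EFT.Tails

/-!
# EF project (MP_e81270): the random coset and Parseval (row R7), tails (row R8); helper73
-/

set_option autoImplicit false

namespace Pool.Agent.EFT

open Finset World

noncomputable section

lemma dot_add_right {A : Type} [Fintype A] (S T T' : A → ZMod 2) :
    dot S (T + T') = dot S T + dot S T' := by
  rw [dot_comm, dot_add_left, dot_comm T, dot_comm T']

namespace World

variable {V E V' E' : Type} [Fintype V] [Fintype E] [Fintype V'] [Fintype E']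

open Classical in
/-- The coset `Om` as a finite set. -/
def OmF (G : World V E) (H : World V' E') (κ : V' → V) : Finset (E → ZMod 2) :=
  univ.filter fun r => G.Om H κ r

lemma mem_OmF (G : World V E) (H : World V' E') (κ : V' → V) (r : E → ZMod 2) :
    r ∈ G.OmF H κ ↔ G.Om H κ r := by
  classical
  simp [OmF]

/-- `Om` is not empty when the total charge is even. -/
lemma OmF_nonempty (G : World V E) (H : World V' E') (κ : V' → V)
    (h : ∑ v, G.b v = ∑ v, H.b v) : (G.OmF H κ).Nonempty := by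
  classical
  rcases isEmpty_or_nonempty V with hV | ⟨⟨v0⟩⟩
  · refine ⟨0, ?_⟩
    rw [mem_OmF]
    intro W
    have h1 : ∀ v', hV.elim (κ v') = (0 : ZMod 2) := fun v' => hV.elim (κ v')
    have h2 : ∑ v, G.b v * W v = 0 := Finset.sum_eq_zero fun v _ => hV.elim v
    have h3 : ∑ v, H.b v * W (κ v) = 0 := Finset.sum_eq_zero fun v _ => hV.elim (κ v)
    rw [h2, h3, dot_comm, dot_zero_left, add_zero]
  · refine ⟨(∑ v, G.b v • G.X v0 v) + ∑ v', H.b v' • G.X v0 (κ v'), ?_⟩
    rw [mem_OmF]
    intro W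
    have hX : ∀ p q, dot (G.cut W) (G.X p q) = W p + W q := by
      intro p q
      rw [dot_comm]
      exact G.pair_cut p q W
    have hsum : ∀ {ι : Type} (s : Finset ι) (f : ι → E → ZMod 2),
        dot (G.cut W) (∑ i ∈ s, f i) = ∑ i ∈ s, dot (G.cut W) (f i) := by
      intro ι s f
      unfold dot
      rw [Finset.sum_comm]
      refine sum_congr rfl fun e _ => ?_
      rw [Finset.sum_apply, Finset.mul_sum]
    have hsmul : ∀ (c : ZMod 2) (f : E → ZMod 2),
        dot (G.cut W) (c • f) = c * dot (G.cut W) f := by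
      intro c f
      unfold dot
      rw [Finset.mul_sum]
      refine sum_congr rfl fun e _ => ?_
      rw [Pi.smul_apply, smul_eq_mul]
      ring
    rw [dot_add_right, hsum, hsum]
    simp only [hsmul, hX, mul_add]
    rw [sum_add_distrib, sum_add_distrib, ← Finset.sum_mul, ← Finset.sum_mul, h]
    have h0 : (∑ v', H.b v') * W v0 + (∑ v', H.b v') * W v0 = 0 := zmod2_add_self _
    calc (∑ i, H.b i) * W v0 + ∑ x, G.b x * W x + ((∑ i, H.b i) * W v0 + ∑ x, H.b x * W (κ x))
        = ((∑ v', H.b v') * W v0 + (∑ v', H.b v') * W v0)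
          + (∑ x, G.b x * W x + ∑ x, H.b x * W (κ x)) := by ring
      _ = _ := by rw [h0, zero_add]

/-- Double annihilator: a vector outside of the cut space is detected by a cycle. -/
lemma exists_cycle (G : World V E) {S : E → ZMod 2} (hS : S ∉ G.Cut) :
    ∃ x : E → ZMod 2, (∀ W : V → ZMod 2, dot (G.cut W) x = 0) ∧ dot S x = 1 := by
  classical
  obtain ⟨f, hfS, hf⟩ := Submodule.exists_dual_map_eq_bot_of_notMem
    (p := G.Cut) hS inferInstance
  set x : E → ZMod 2 := fun e => f (Pi.single e 1) with hx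
  have hfx : ∀ y : E → ZMod 2, f y = dot y x := by
    intro y
    have h1 : y = ∑ e, y e • (Pi.single e (1 : ZMod 2) : E → ZMod 2) := by
      funext e'
      rw [Finset.sum_apply]
      simp [Pi.single_apply]
    conv_lhs => rw [h1]
    rw [map_sum]
    simp only [map_smul, smul_eq_mul, dot, hx]
  refine ⟨x, ?_, ?_⟩
  · intro W
    rw [← hfx]
    have : f (G.cut W) ∈ (G.Cut).map f := ⟨_, ⟨_, rfl⟩, rfl⟩
    rw [hf] at this
    exact (Submodule.mem_bot (ZMod 2)).1 this
  · rw [← hfx]
    rcases zmod2_cases (f S) with h | h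
    · exact absurd h hfS
    · exact h

/-- Characters outside of the cut space have mean zero on `Om`. -/
lemma sum_chr_OmF (G : World V E) (H : World V' E') (κ : V' → V) {S : E → ZMod 2}
    (hS : S ∉ G.Cut) : ∑ r ∈ G.OmF H κ, chr S r = 0 := by
  classical
  obtain ⟨x, hx0, hx1⟩ := G.exists_cycle hS
  have h2 : ∀ y : E → ZMod 2, y + x + x = y := by
    intro y
    funext e
    have : x e + x e = 0 := zmod2_add_self _
    simp [add_assoc, this]
  have hmem : ∀ r ∈ G.OmF H κ, r + x ∈ G.OmF H κ := by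
    intro r hr
    rw [mem_OmF] at hr ⊢
    intro W
    rw [dot_add_right, hx0, add_zero]
    exact hr W
  have h := Finset.sum_nbij' (s := G.OmF H κ) (t := G.OmF H κ)
    (f := fun r => chr S r) (g := fun r => chr S (r + x))
    (fun r => r + x) (fun r => r + x) hmem hmem (fun r _ => h2 r) (fun r _ => h2 r)
    (fun r _ => by
      show chr S r = chr S (r + x + x)
      rw [h2])
  have h3 : ∀ r : E → ZMod 2, chr S (r + x) = - chr S r := by
    intro r
    unfold chr
    rw [dot_add_right, chi_add, hx1]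
    simp [chi]
  simp only [h3, Finset.sum_neg_distrib] at h
  linarith

/-- (R2): Parseval for the random signs `χ_(rep s)(r)`. -/
theorem sum_OmF_norm_sq {F : Type*} [NormedAddCommGroup F] [InnerProductSpace ℝ F]
    (G : World V E) (H : World V' E') (κ : V' → V) (w : G.K → F) :
    ∑ r ∈ G.OmF H κ, ‖∑ s, chr (G.rep s) r • w s‖ ^ 2
      = ((G.OmF H κ).card : ℝ) * ∑ s, ‖w s‖ ^ 2 := by
  classical
  have h1 : ∀ r : E → ZMod 2, ‖∑ s, chr (G.rep s) r • w s‖ ^ 2
      = ∑ s, ∑ s', chr (G.rep s + G.rep s') r * inner ℝ (w s) (w s') := by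
    intro r
    rw [← real_inner_self_eq_norm_sq, sum_inner]
    refine Finset.sum_congr rfl fun s _ => ?_
    rw [inner_sum]
    refine Finset.sum_congr rfl fun s' _ => ?_
    rw [real_inner_smul_left, real_inner_smul_right, chr_add]
    ring
  simp only [h1]
  rw [Finset.sum_comm]
  simp only [Finset.sum_comm (s := G.OmF H κ)]
  simp only [← Finset.sum_mul]
  rw [Finset.mul_sum]
  refine Finset.sum_congr rfl fun s _ => ?_
  rw [Finset.sum_eq_single s]
  · have : G.rep s + G.rep s = 0 := by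
      funext e
      exact zmod2_add_self _
    rw [this]
    simp [chr_zero]
  · intro s' _ hne
    have hc : G.rep s + G.rep s' ∉ G.Cut := by
      intro h
      rw [← G.cls_eq_zero, G.cls_add, G.cls_rep, G.cls_rep, K_neg] at h
      exact hne h.symm
    rw [G.sum_chr_OmF H κ hc, zero_mul]
  · intro h; exact absurd (Finset.mem_univ _) h

/-- (R2) for `w s = v s • ξ s` with `‖ξ s‖ ≤ 1`, restricted to a set `P` of classes. -/
theorem sum_OmF_norm_sq_le_on {F : Type*} [NormedAddCommGroup F] [InnerProductSpace ℝ F]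
    (G : World V E) (H : World V' E') (κ : V' → V) (ξ : G.K → F) (hξ : ∀ s, ‖ξ s‖ ≤ 1)
    (v : G.K → ℝ) (P : Finset G.K) :
    ∑ r ∈ G.OmF H κ, ‖∑ s ∈ P, v s • (chr (G.rep s) r • ξ s)‖ ^ 2
      ≤ ((G.OmF H κ).card : ℝ) * ∑ s ∈ P, v s ^ 2 := by
  classical
  have h1 : ∀ r : E → ZMod 2, ∑ s ∈ P, v s • (chr (G.rep s) r • ξ s)
      = ∑ s, chr (G.rep s) r • (if s ∈ P then v s • ξ s else 0) := by
    intro r
    rw [← Finset.sum_filter_add_sum_filter_not univ (fun s => s ∈ P)
      (fun s => chr (G.rep s) r • (if s ∈ P then v s • ξ s else 0))]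
    rw [Finset.sum_eq_zero (s := univ.filter fun s => ¬ s ∈ P)
      (fun s hs => by rw [if_neg (Finset.mem_filter.1 hs).2, smul_zero]), add_zero]
    have h2 : (univ.filter fun s => s ∈ P) = P := by ext s; simp
    rw [h2]
    refine Finset.sum_congr rfl fun s hs => ?_
    rw [if_pos hs]
    exact smul_comm _ _ _
  simp only [h1]
  rw [G.sum_OmF_norm_sq H κ]
  refine mul_le_mul_of_nonneg_left ?_ (by positivity)
  have h3 : ∑ s ∈ P, v s ^ 2 = ∑ s, (if s ∈ P then v s ^ 2 else 0) := by
    rw [← Finset.sum_filter]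
    congr 1
    ext s; simp
  rw [h3]
  refine Finset.sum_le_sum fun s _ => ?_
  by_cases hs : s ∈ P
  · rw [if_pos hs, if_pos hs, norm_smul, mul_pow, Real.norm_eq_abs, sq_abs]
    have h2 : ‖ξ s‖ ^ 2 ≤ 1 := by
      have := hξ s
      have h0 := norm_nonneg (ξ s)
      nlinarith
    nlinarith [sq_nonneg (v s)]
  · rw [if_neg hs, if_neg hs]; simp

/-- (R2) for `w s = v s • ξ s` with `‖ξ s‖ ≤ 1`. -/
theorem sum_OmF_norm_sq_le {F : Type*} [NormedAddCommGroup F] [InnerProductSpace ℝ F]
    (G : World V E) (H : World V' E') (κ : V' → V) (ξ : G.K → F) (hξ : ∀ s, ‖ξ s‖ ≤ 1)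
    (v : G.Hs) :
    ∑ r ∈ G.OmF H κ, ‖∑ s, v s • (chr (G.rep s) r • ξ s)‖ ^ 2
      ≤ ((G.OmF H κ).card : ℝ) * ‖v‖ ^ 2 := by
  have h := G.sum_OmF_norm_sq_le_on H κ ξ hξ (fun s => v s) univ
  rw [EuclideanSpace.norm_sq_eq]
  simpa only [Real.norm_eq_abs, sq_abs] using h

/-- Second moment of the restriction. -/
theorem sum_OmF_Rs (G : World V E) (H : World V' E') (κ : V' → V) (D : ℕ) (v : G.Hs) :
    ∑ r ∈ G.OmF H κ, ‖G.Rs H κ D r v‖ ^ 2 ≤ ((G.OmF H κ).card : ℝ) * ‖v‖ ^ 2 :=
  G.sum_OmF_norm_sq_le H κ (fun s => H.Xi D (G.pull H κ (G.rep s)))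
    (fun _ => norm_Xi_le H _ _) v

/-! ### tails (row R8) -/

lemma card_pair_ne_zero (G : World V E) (S : E → ZMod 2) [DecidableEq V]
    [DecidablePred fun p : V × V => ∑ e, S e * G.X p.1 p.2 e ≠ 0] :
    (univ.filter fun p : V × V => ∑ e, S e * G.X p.1 p.2 e ≠ 0).card
      ≤ wt S * (G.Lam * Fintype.card V) := by
  classical
  have hsub : (univ.filter fun p : V × V => ∑ e, S e * G.X p.1 p.2 e ≠ 0)
      ⊆ (univ.filter fun e => S e ≠ 0).biUnion
        (fun e => univ.filter fun p : V × V => G.X p.1 p.2 e ≠ 0) := by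
    intro p hp
    rw [mem_filter] at hp
    rw [mem_biUnion]
    by_contra hcon
    push Not at hcon
    apply hp.2
    refine Finset.sum_eq_zero fun e _ => ?_
    by_cases he : S e = 0
    · rw [he, zero_mul]
    · have h1 := hcon e (mem_filter.2 ⟨mem_univ _, he⟩)
      rw [mem_filter] at h1
      push Not at h1
      rw [h1 (mem_univ _), mul_zero]
  refine (card_le_card hsub).trans ?_
  refine card_biUnion_le_card_mul _ _ _ fun e _ => ?_
  have := G.cong e
  convert this using 2

/-- (R3), first half. -/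
theorem tail_pull (G : World V E) (H : World V' E') [DecidableEq V'] (D0 : ℕ) (hD01 : 1 ≤ D0)
    (hD0 : ∀ a, (univ.filter fun e' => H.src e' = a ∨ H.tgt e' = a).card ≤ D0)
    (hloop : ∀ e', H.src e' ≠ H.tgt e') (hV : 0 < Fintype.card V) (S : E → ZMod 2) (q : ℕ) :
    ((univ.filter fun κ : V' → V => 2 * D0 * q ≤ wt (G.pull H κ S)).card : ℝ) ≤
      ((Fintype.card E' : ℝ) * (wt S * G.Lam) / Fintype.card V) ^ q *
        (Fintype.card V : ℝ) ^ Fintype.card V' := by
  classical
  have hB : ((univ.filter fun p : V × V => ∑ e, S e * G.X p.1 p.2 e ≠ 0).card : ℝ)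
      ≤ ((wt S : ℝ) * G.Lam) * Fintype.card V := by
    have := G.card_pair_ne_zero S
    rw [← mul_assoc] at this
    exact_mod_cast this
  exact card_tail_pairs (V' := V') (E' := E') (V := V)
    (fun a c => ∑ e, S e * G.X a c e ≠ 0) H.src H.tgt hloop D0 hD01 hD0
    ((wt S : ℝ) * G.Lam) hV hB q

/-- (R3), second half. -/
theorem tail_comp [DecidableEq V'] (hV : 0 < Fintype.card V) (W : V → ZMod 2) (q : ℕ) :
    ((univ.filter fun κ : V' → V => q ≤ wt (fun a => W (κ a))).card : ℝ) ≤
      ((Fintype.card V' : ℝ) * wt W / Fintype.card V) ^ q *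
        (Fintype.card V : ℝ) ^ Fintype.card V' := by
  classical
  have h := card_tail_set (V' := V') (V := V) (univ.filter fun v => W v ≠ 0) hV q
  have h2 : ∀ κ : V' → V, wt (fun a => W (κ a))
      = (univ.filter fun v : V' => κ v ∈ univ.filter fun v => W v ≠ 0).card := by
    intro κ
    unfold wt
    congr 1
    ext a
    simp
  simp only [h2]
  exact h

end World

end

end Pool.Agent.EFT
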