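import Pool.Agent.Lib.EFT.Fm

/-!
# Truncated algebras and the discrepancy of a restriction (row R11 of project EF)

`TAlg V` is a real inner product space `V` (norm `nm`, inner product `ip`) with a degree
filtration and a commutative product which is associative as long as the total degree is at most
`rad`.  `Disc` compares an operator on the big space with multiplication by an element of the
small algebra.
-/

set_option autoImplicit false

namespace Pool.Agent.EFT

/-- A commutative graded algebra, associative up to total degree `rad`, on a real inner product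
space; multiplications are symmetric and bounded by `A m` in degree `≤ m`. -/
structure TAlg (V : Type*) [AddCommGroup V] [Module ℝ V] where
  nm : V → ℝ
  ip : V → V → ℝ
  nm_nonneg : ∀ u, 0 ≤ nm u
  nm_add : ∀ u v, nm (u + v) ≤ nm u + nm v
  nm_neg : ∀ u, nm (-u) = nm u
  nm_sq : ∀ u, nm u ^ 2 = ip u u
  cs : ∀ u v, ip u v ≤ nm u * nm v
  ip_add : ∀ u v w, ip u (v + w) = ip u v + ip u w
  Low : ℕ → Submodule ℝ V
  low_mono : ∀ {a b : ℕ}, a ≤ b → Low a ≤ Low b
  one : V
  one_low : one ∈ Low 0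
  nm_one : nm one = 1
  mul : V →ₗ[ℝ] V →ₗ[ℝ] V
  mul_low : ∀ {a b : ℕ} {F u : V}, F ∈ Low a → u ∈ Low b → mul F u ∈ Low (a + b)
  one_mul : ∀ u, mul one u = u
  comm : ∀ u v, mul u v = mul v u
  A : ℕ → ℝ
  A_nonneg : ∀ m, 0 ≤ A m
  bound : ∀ {m : ℕ} {F : V}, F ∈ Low m → ∀ u, nm (mul F u) ≤ A m * nm F * nm u
  rad : ℕ
  assoc : ∀ {a b c : ℕ} {F G u : V}, a + b + c ≤ rad → F ∈ Low a → G ∈ Low b → u ∈ Low c →
    mul (mul F G) u = mul F (mul G u)
  symm : ∀ F u v, ip (mul F u) v = ip u (mul F v)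

namespace TAlg

variable {V : Type*} [AddCommGroup V] [Module ℝ V] (T : TAlg V)

theorem mul_one (u : V) : T.mul u T.one = u := by rw [T.comm, T.one_mul]

theorem nm_sub (u v : V) : T.nm (u - v) ≤ T.nm u + T.nm v := by
  rw [sub_eq_add_neg, ← T.nm_neg v]; exact T.nm_add _ _

theorem nm_sub_rev (u v : V) : T.nm (u - v) = T.nm (v - u) := by
  rw [← T.nm_neg (u - v), neg_sub]

theorem nm_zero : T.nm 0 = 0 := by
  have h := T.nm_sq 0
  have h2 : T.ip 0 0 = 0 := by
    have := T.ip_add 0 0 0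
    rw [add_zero] at this
    linarith
  rw [h2] at h
  exact pow_eq_zero_iff (two_ne_zero) |>.mp h

/-- **lambda bound**: an almost idempotent element has almost norm one as a multiplication. -/
theorem nm_mul_le {d c : ℕ} {F u : V} (hF : F ∈ T.Low d) (hu : u ∈ T.Low c)
    (hc : d + d + c ≤ T.rad) {I : ℝ} (hI : T.nm (T.mul F F - F) ≤ I) :
    T.nm (T.mul F u) ≤ (1 + T.A (2 * d) * I) * T.nm u := by
  have hn : 0 ≤ T.nm u := T.nm_nonneg u
  have hn2 : 0 ≤ T.nm (T.mul F u) := T.nm_nonneg _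
  have hI0 : 0 ≤ I := (T.nm_nonneg _).trans hI
  have hA := T.A_nonneg (2 * d)
  have hE : T.mul F F - F ∈ T.Low (2 * d) := by
    rw [two_mul]
    exact sub_mem (T.mul_low hF hF) (T.low_mono (Nat.le_add_left _ _) hF)
  have e1 : T.nm (T.mul F u) ^ 2 = T.ip u (T.mul F u) + T.ip u (T.mul (T.mul F F - F) u) := by
    rw [T.nm_sq, T.symm, ← T.assoc hc hF hF hu, ← T.ip_add, ← LinearMap.add_apply, ← map_add,
      add_sub_cancel]
  have h1 : T.ip u (T.mul F u) ≤ T.nm u * T.nm (T.mul F u) := T.cs _ _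
  have h2 : T.ip u (T.mul (T.mul F F - F) u) ≤ T.nm u * (T.A (2 * d) * I * T.nm u) := by
    refine (T.cs _ _).trans (mul_le_mul_of_nonneg_left ((T.bound hE u).trans ?_) hn)
    gcongr
  have h3 : T.nm (T.mul F u) ^ 2 ≤ T.nm u * T.nm (T.mul F u) + T.A (2 * d) * I * T.nm u ^ 2 := by
    rw [e1]; nlinarith
  set x := T.nm (T.mul F u)
  set a := T.A (2 * d) * I
  have ha : 0 ≤ a := mul_nonneg hA hI0
  by_contra hcon
  push Not at hcon
  have h4 : (1 + a) * T.nm u < x := hcon
  nlinarith [mul_nonneg ha hn, mul_nonneg ha (mul_nonneg hn hn)]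

end TAlg

end Pool.Agent.EFT
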