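import Pool.Agent.Lib.EFT.Star
import Pool.Agent.Lib.EFT.TAlg

/-! EF, row R10: the product on `l^2(K)`. helper33. -/

set_option autoImplicit false

namespace Pool.Agent.EFT

open Finset

noncomputable section

namespace World

variable {V E : Type} [Fintype V] [Fintype E] (G : World V E)

/-- The vector `δ_0`. -/
abbrev d0 : G.Hs := G.dl 0

lemma d0_zero : G.d0 0 = 1 := G.dl_self 0

lemma d0_ne {s : G.K} (h : s ≠ 0) : G.d0 s = 0 := G.dl_ne h

lemma norm_d0 : ‖G.d0‖ = 1 := G.norm_dl 0

lemma d0_low : G.d0 ∈ G.Low 0 := G.dl_zero_low 0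

lemma sg_zero : G.sg 0 = 1 := by
  rcases isEmpty_or_nonempty V with hV | hV
  · unfold sg
    rw [dif_neg]
    rintro ⟨W, h, -⟩
    unfold small at h
    simp [Fintype.card_eq_zero] at h
  · have h : G.small 0 := by
      unfold small
      rw [wt_zero]
      simpa using Fintype.card_pos
    rw [G.sg_eq h (map_zero _)]
    simp [chi_zero]

lemma Z_zero (v : G.Hs) : G.Z 0 v = v := by
  ext s
  rw [Z_apply, cls_zero, add_zero]
  unfold zs
  rw [cls_zero, add_zero, add_zero]
  have : G.rep s + G.rep s = 0 := by ext e; exact zmod2_add_self _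
  rw [this, sg_zero, one_mul]

lemma Z_add (T : E → ZMod 2) (u v : G.Hs) : G.Z T (u + v) = G.Z T u + G.Z T v := map_add _ _ _

/-- The product. -/
def star : G.Hs →ₗ[ℝ] G.Hs →ₗ[ℝ] G.Hs :=
  LinearMap.mk₂ ℝ (fun F u => ∑ s, F s • G.Z (G.rep s) u)
    (fun F F' u => by
      rw [← sum_add_distrib]
      exact sum_congr rfl fun s _ => add_smul _ _ _)
    (fun c F u => by
      rw [smul_sum]
      exact sum_congr rfl fun s _ => mul_smul _ _ _)
    (fun F u u' => by
      rw [← sum_add_distrib]
      exact sum_congr rfl fun s _ => by rw [map_add, smul_add])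
    (fun c F u => by
      rw [smul_sum]
      exact sum_congr rfl fun s _ => by rw [map_smul, smul_comm])

lemma star_def (F u : G.Hs) : G.star F u = ∑ s, F s • G.Z (G.rep s) u := rfl

/-- The cocycle. -/
def co (t s : G.K) : ℝ := G.sg (G.rep t + G.rep s + G.rep (t + s))

lemma zs_rep (s t : G.K) : G.zs (G.rep s) t = G.co t s := by
  unfold zs co
  rw [cls_rep]

lemma star_apply (F u : G.Hs) (t : G.K) :
    G.star F u t = ∑ s, F s * (G.co t s * u (t + s)) := by
  rw [star_def]
  have h : ∀ f : G.K → G.Hs, (∑ s, f s) t = ∑ s, f s t := by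
    intro f
    rw [WithLp.ofLp_sum, Finset.sum_apply]
  rw [h]
  refine sum_congr rfl fun s _ => ?_
  rw [PiLp.smul_apply, Z_apply, zs_rep, cls_rep, smul_eq_mul]

lemma add_add_self (t s : G.K) : t + (t + s) = s := by
  rw [← add_assoc, K_add_self, zero_add]

lemma star_comm (F u : G.Hs) : G.star F u = G.star u F := by
  ext t
  rw [star_apply, star_apply]
  let φ : G.K ≃ G.K := Equiv.addLeft t
  rw [← Equiv.sum_comp φ]
  refine sum_congr rfl fun s _ => ?_
  change F (t + s) * (G.co t (t + s) * u (t + (t + s))) = u s * (G.co t s * F (t + s))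
  rw [add_add_self]
  have h : G.co t (t + s) = G.co t s := by
    unfold co
    rw [add_add_self]
    congr 1
    abel
  rw [h]
  ring

lemma d0_star (u : G.Hs) : G.star G.d0 u = u := by
  rw [star_def, sum_eq_single 0]
  · rw [d0_zero, one_smul, rep_zero, Z_zero]
  · intro s _ hs
    rw [d0_ne _ hs, zero_smul]
  · intro h
    exact absurd (mem_univ _) h

lemma star_d0 (u : G.Hs) : G.star u G.d0 = u := by
  rw [star_comm, d0_star]

lemma star_low {m r : ℕ} {F u : G.Hs} (hF : F ∈ G.Low m) (hu : u ∈ G.Low r) :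
    G.star F u ∈ G.Low (m + r) := by
  rw [star_def]
  refine Submodule.sum_mem _ fun s _ => ?_
  by_cases h : m < G.deg s
  · rw [hF s h, zero_smul]
    exact Submodule.zero_mem _
  · refine Submodule.smul_mem _ _ (G.low_mono ?_ (G.Z_low hu))
    rw [wt_rep]
    omega

lemma star_symm (F u v : G.Hs) : inner ℝ (G.star F u) v = inner ℝ u (G.star F v) := by
  rw [star_def, star_def, sum_inner, inner_sum]
  refine sum_congr rfl fun s _ => ?_
  rw [inner_smul_left, inner_smul_right, Z_symm]
  rfl

lemma deg_add (s t : G.K) : G.deg (s + t) ≤ G.deg s + G.deg t := by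
  have h := G.deg_add_le s (G.rep t)
  rwa [cls_rep, wt_rep] at h

/-- a cut of small weight has a small side -/
lemma side {R : ℕ} (hR : 8 * G.Lam * R < Fintype.card V) {C : E → ZMod 2} (hC : G.cls C = 0)
    (hw : wt C ≤ 2 * R) : ∃ W, G.small W ∧ G.cut W = C := by
  refine G.small_exists (G.cls_eq_zero.1 hC) ?_
  calc 4 * G.Lam * wt C ≤ 4 * G.Lam * (2 * R) := Nat.mul_le_mul_left _ hw
    _ = 8 * G.Lam * R := by ring
    _ < _ := hR

lemma cocycle {R : ℕ} (hR : 8 * G.Lam * R < Fintype.card V) {x t s : G.K}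
    (h : G.deg s + G.deg (t + s) + G.deg (x + t) ≤ R) :
    G.co x t * G.co t s = G.co x s * G.co (x + s) (t + s) := by
  have e1 : s + (t + s) = t := by rw [add_comm t, add_add_self]
  have e2 : x + s + (t + s) = x + t := by
    calc x + s + (t + s) = x + (s + (t + s)) := by abel
      _ = x + t := by rw [e1]
  have e3 : x + t + t = x := by rw [add_assoc, K_add_self, add_zero]
  have dt : G.deg t ≤ G.deg s + G.deg (t + s) := by
    have := G.deg_add s (t + s)
    rwa [e1] at this
  have dx : G.deg x ≤ G.deg (x + t) + G.deg t := by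
    have := G.deg_add (x + t) t
    rwa [e3] at this
  have dxs : G.deg (x + s) ≤ G.deg (x + t) + G.deg (t + s) := by
    have := G.deg_add (x + t) (t + s)
    have e4 : x + t + (t + s) = x + s := by
      calc x + t + (t + s) = x + (t + (t + s)) := by abel
        _ = x + s := by rw [add_add_self]
    rwa [e4] at this
  have self : ∀ s : G.K, G.rep s + G.rep s = 0 := fun s => by ext e; exact zmod2_add_self _
  have cl : ∀ a b : G.K, G.cls (G.rep a + G.rep b + G.rep (a + b)) = 0 := fun a b => by
    rw [cls_add, cls_add, cls_rep, cls_rep, cls_rep, K_add_self]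
  have w3 : ∀ a b : G.K, wt (G.rep a + G.rep b + G.rep (a + b)) ≤
      G.deg a + G.deg b + G.deg (a + b) := fun a b => by
    have := wt_add3 (G.rep a) (G.rep b) (G.rep (a + b))
    rwa [wt_rep, wt_rep, wt_rep] at this
  have s1 := G.side hR (cl x t) ((w3 x t).trans (by omega))
  have s2 := G.side hR (cl t s) ((w3 t s).trans (by omega))
  have s3 := G.side hR (cl x s) ((w3 x s).trans (by omega))
  have s4 := G.side hR (cl (x + s) (t + s)) ((w3 (x + s) (t + s)).trans (by rw [e2]; omega))
  have e5 : G.rep x + G.rep t + G.rep (x + t) + (G.rep t + G.rep s + G.rep (t + s)) =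
      G.rep x + G.rep (x + t) + G.rep s + G.rep (t + s) := by
    calc _ = G.rep x + G.rep (x + t) + G.rep s + G.rep (t + s) + (G.rep t + G.rep t) := by abel
      _ = _ := by rw [self, add_zero]
  have e6 : G.rep x + G.rep s + G.rep (x + s) +
      (G.rep (x + s) + G.rep (t + s) + G.rep (x + s + (t + s))) =
      G.rep x + G.rep (x + t) + G.rep s + G.rep (t + s) := by
    rw [e2]
    calc _ = G.rep x + G.rep (x + t) + G.rep s + G.rep (t + s) +
          (G.rep (x + s) + G.rep (x + s)) := by abel
      _ = _ := by rw [self, add_zero]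
  have s5 := G.side hR (C := G.rep x + G.rep (x + t) + G.rep s + G.rep (t + s)) (by
      rw [← e5, cls_add, cl, cl, add_zero]) (by
      have h1 := wt_add (G.rep x + G.rep (x + t) + G.rep s) (G.rep (t + s))
      have h2 := wt_add3 (G.rep x) (G.rep (x + t)) (G.rep s)
      rw [wt_rep, wt_rep, wt_rep] at h2
      rw [wt_rep] at h1
      omega)
  unfold co
  rw [← G.sg_add s1 s2 (by rw [e5]; exact s5), ← G.sg_add s3 s4 (by rw [e6]; exact s5), e5, e6]

lemma star_assoc {R a b c : ℕ} (hR : 8 * G.Lam * R < Fintype.card V) (habc : a + b + c ≤ R)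
    {F H u : G.Hs} (hF : F ∈ G.Low a) (hH : H ∈ G.Low b) (hu : u ∈ G.Low c) :
    G.star (G.star F H) u = G.star F (G.star H u) := by
  ext x
  rw [star_apply, star_apply]
  simp only [star_apply]
  have h1 : ∀ s, F s * (G.co x s * ∑ s', H s' * (G.co (x + s) s' * u (x + s + s'))) =
      ∑ t, F s * (G.co x s * (H (t + s) * (G.co (x + s) (t + s) * u (x + t)))) := by
    intro s
    rw [mul_sum, mul_sum]
    let φ : G.K ≃ G.K := Equiv.addRight s
    rw [← Equiv.sum_comp φ]
    refine sum_congr rfl fun t _ => ?_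
    change F s * (G.co x s * (H (t + s) * (G.co (x + s) (t + s) * u (x + s + (t + s))))) = _
    have e : x + s + (t + s) = x + t := by
      calc x + s + (t + s) = x + t + (s + s) := by abel
        _ = _ := by rw [K_add_self, add_zero]
    rw [e]
  simp only [h1]
  rw [sum_comm]
  refine sum_congr rfl fun t _ => ?_
  rw [sum_mul]
  refine sum_congr rfl fun s _ => ?_
  by_cases hs : a < G.deg s
  · rw [hF s hs]; ring
  by_cases ht : b < G.deg (t + s)
  · rw [hH _ ht]; ring
  by_cases hx : c < G.deg (x + t)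
  · rw [hu _ hx]; ring
  have h2 := G.cocycle hR (x := x) (t := t) (s := s) (by omega)
  calc F s * (G.co t s * H (t + s)) * (G.co x t * u (x + t)) =
        F s * H (t + s) * u (x + t) * (G.co x t * G.co t s) := by ring
    _ = F s * H (t + s) * u (x + t) * (G.co x s * G.co (x + s) (t + s)) := by rw [h2]
    _ = _ := by ring

/-- `Z_T δ_0 * u = Z_T u` -/
lemma Zd_star {R c : ℕ} (hR : 8 * G.Lam * R < Fintype.card V) {T : E → ZMod 2} {u : G.Hs}
    (hu : u ∈ G.Low c) (hc : c + wt T ≤ R) : G.star (G.Z T G.d0) u = G.Z T u := by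
  ext x
  rw [star_apply, sum_eq_single (G.cls T)]
  · rw [Z_apply, Z_apply, K_add_self, d0_zero, mul_one]
    by_cases hx : c < G.deg (x + G.cls T)
    · rw [hu _ hx]; ring
    rw [← mul_assoc]
    congr 1
    unfold zs co
    rw [K_add_self, rep_zero, add_zero]
    have self : ∀ s : G.K, G.rep s + G.rep s = 0 := fun s => by ext e; exact zmod2_add_self _
    have dT := G.deg_le T
    have dx : G.deg x ≤ G.deg (x + G.cls T) + wt T := by
      have := G.deg_add_le (x + G.cls T) T
      rwa [add_assoc, K_add_self, add_zero] at this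
    have s1 := G.side hR (C := G.rep (G.cls T) + T) (by
      rw [cls_add, cls_rep, K_add_self]) (by
      have := wt_add (G.rep (G.cls T)) T
      rw [wt_rep] at this
      omega)
    have s2 := G.side hR (C := G.rep x + G.rep (G.cls T) + G.rep (x + G.cls T)) (by
      rw [cls_add, cls_add, cls_rep, cls_rep, cls_rep, K_add_self]) (by
      have := wt_add3 (G.rep x) (G.rep (G.cls T)) (G.rep (x + G.cls T))
      rw [wt_rep, wt_rep, wt_rep] at this
      omega)
    have e1 : G.rep (G.cls T) + T + (G.rep x + G.rep (G.cls T) + G.rep (x + G.cls T)) =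
        G.rep x + T + G.rep (x + G.cls T) := by
      calc _ = G.rep x + T + G.rep (x + G.cls T) + (G.rep (G.cls T) + G.rep (G.cls T)) := by abel
        _ = _ := by rw [self, add_zero]
    have s3 := G.side hR (C := G.rep x + T + G.rep (x + G.cls T)) (by
      rw [cls_add, cls_add, cls_rep, cls_rep, add_assoc, add_comm (G.cls T), add_assoc x,
        ← add_assoc x, K_add_self, zero_add, K_add_self]) (by
      have := wt_add3 (G.rep x) T (G.rep (x + G.cls T))
      rw [wt_rep, wt_rep] at this
      omega)
    rw [← e1, G.sg_add s1 s2 (by rw [e1]; exact s3)]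
  · intro s _ hs
    rw [Z_apply, d0_ne, mul_zero, zero_mul]
    intro h
    apply hs
    calc s = s + G.cls T + G.cls T := by rw [add_assoc, K_add_self, add_zero]
      _ = G.cls T := by rw [h, zero_add]
  · intro h
    exact absurd (mem_univ _) h

/-- few classes of small degree -/
lemma exists_list (m : ℕ) (T : E → ZMod 2) (h : wt T ≤ m) :
    ∃ f : Fin m → Option E, G.cls T = ∑ i, (f i).elim 0 fun e => G.cls (fun e' =>
      open Classical in if e' = e then 1 else 0) := by
  classical
  induction m generalizing T with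
  | zero =>
    refine ⟨fun _ => none, ?_⟩
    have h0 : T = 0 := by
      funext e
      by_contra he
      have : 0 < wt T := by
        unfold wt
        exact card_pos.2 ⟨e, by simpa using he⟩
      omega
    rw [h0, cls_zero]
    simp
  | succ m ih =>
    by_cases h0 : T = 0
    · refine ⟨fun _ => none, ?_⟩
      rw [h0, cls_zero]
      simp
    · obtain ⟨e, he⟩ := Function.ne_iff.1 h0
      have he1 : T e = 1 := by
        rcases zmod2_cases (T e) with h1 | h1
        · exact absurd h1 he
        · exact h1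
      set U : E → ZMod 2 := fun e' => if e' = e then 1 else 0 with hU
      have hw : wt (T + U) + 1 ≤ wt T := by
        unfold wt
        have h1 : e ∉ univ.filter fun e' => (T + U) e' ≠ 0 := by
          simp only [mem_filter, mem_univ, true_and, Pi.add_apply, not_not, hU, he1]
          decide
        rw [← card_insert_of_notMem h1]
        refine card_le_card fun e' he' => ?_
        rw [mem_insert, mem_filter] at he'
        rw [mem_filter]
        refine ⟨mem_univ _, ?_⟩
        rcases he' with rfl | ⟨-, h2⟩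
        · exact he
        · by_cases h3 : e' = e
          · rw [h3]; exact he
          · simpa [hU, h3] using h2
      obtain ⟨f, hf⟩ := ih (T + U) (by omega)
      refine ⟨Fin.cons (some e) f, ?_⟩
      rw [Fin.sum_univ_succ]
      simp only [Fin.cons_zero, Fin.cons_succ, Option.elim_some]
      rw [← hf, ← cls_add]
      congr 1
      have self : U + U = 0 := by ext e'; exact zmod2_add_self _
      calc T = T + (U + U) := by rw [self, add_zero]
        _ = U + (T + U) := by abel

open Classical in
lemma card_low (m : ℕ) :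
    (univ.filter fun s : G.K => G.deg s ≤ m).card ≤ (Fintype.card E + 1) ^ m := by
  have h : (univ.filter fun s : G.K => G.deg s ≤ m) ⊆
      univ.image fun f : Fin m → Option E => ∑ i, (f i).elim 0 fun e => G.cls (fun e' =>
        if e' = e then 1 else 0) := by
    intro s hs
    rw [mem_filter] at hs
    obtain ⟨f, hf⟩ := G.exists_list m (G.rep s) (by rw [wt_rep]; exact hs.2)
    rw [mem_image]
    exact ⟨f, mem_univ _, by rw [← hf, cls_rep]⟩
  refine (card_le_card h).trans (card_image_le.trans ?_)
  rw [card_univ, Fintype.card_fun, Fintype.card_option, Fintype.card_fin]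

lemma abs_le_norm (F : G.Hs) (s : G.K) : |F s| ≤ ‖F‖ := by
  have := PiLp.norm_apply_le F s
  rwa [Real.norm_eq_abs] at this

theorem star_bound {m : ℕ} {F : G.Hs} (hF : F ∈ G.Low m) (u : G.Hs) :
    ‖G.star F u‖ ≤ ((Fintype.card E : ℝ) + 1) ^ m * ‖F‖ * ‖u‖ := by
  classical
  rw [star_def]
  have h1 : ∑ s, F s • G.Z (G.rep s) u =
      ∑ s ∈ univ.filter (fun s : G.K => G.deg s ≤ m), F s • G.Z (G.rep s) u := by
    symm
    refine sum_subset (subset_univ _) fun s _ hs => ?_
    rw [mem_filter, not_and] at hs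
    rw [hF s (not_le.1 (hs (mem_univ _))), zero_smul]
  rw [h1]
  refine (norm_sum_le _ _).trans ?_
  have h2 : ∀ s ∈ univ.filter (fun s : G.K => G.deg s ≤ m),
      ‖F s • G.Z (G.rep s) u‖ ≤ ‖F‖ * ‖u‖ := by
    intro s _
    rw [norm_smul, Z_norm, Real.norm_eq_abs]
    exact mul_le_mul_of_nonneg_right (G.abs_le_norm F s) (norm_nonneg _)
  refine (sum_le_card_nsmul _ _ _ h2).trans ?_
  rw [nsmul_eq_mul, mul_assoc]
  refine mul_le_mul_of_nonneg_right ?_ (by positivity)
  exact_mod_cast G.card_low m

/-- The element of a variable: `(δ_0 - c Z_T δ_0) / 2`. -/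
def leaf (c : ℝ) (T : E → ZMod 2) : G.Hs := (1 / 2 : ℝ) • (G.d0 - c • G.Z T G.d0)

lemma leaf_low (c : ℝ) (T : E → ZMod 2) : G.leaf c T ∈ G.Low (wt T) := by
  refine Submodule.smul_mem _ _ (Submodule.sub_mem _ (G.low_mono (Nat.zero_le _) G.d0_low)
    (Submodule.smul_mem _ _ ?_))
  have := G.Z_low (T := T) G.d0_low
  rwa [zero_add] at this

lemma leaf_star {R a : ℕ} (hR : 8 * G.Lam * R < Fintype.card V) (c : ℝ) {T : E → ZMod 2}
    {u : G.Hs} (hu : u ∈ G.Low a) (ha : a + wt T ≤ R) :
    G.star (G.leaf c T) u = (1 / 2 : ℝ) • (u - c • G.Z T u) := by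
  unfold leaf
  rw [map_smul, map_sub, map_smul, LinearMap.smul_apply, LinearMap.sub_apply,
    LinearMap.smul_apply, d0_star, G.Zd_star hR hu ha]

lemma leaf_idem {R : ℕ} (hR : 8 * G.Lam * R < Fintype.card V) {c : ℝ} (hc : c * c = 1)
    {T : E → ZMod 2} (hT : wt T + wt T ≤ R) :
    G.star (G.leaf c T) (G.leaf c T) = G.leaf c T := by
  rw [G.leaf_star hR c (G.leaf_low c T) hT]
  unfold leaf
  rw [map_smul, map_sub, map_smul, Z_Z]
  have h : G.Z T G.d0 - c • G.d0 = -(c • (G.d0 - c • G.Z T G.d0)) := by
    rw [smul_sub, smul_smul, hc, one_smul]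
    abel
  rw [h, smul_neg, smul_neg, smul_comm (1 / 2 : ℝ) c, smul_smul c, hc, one_smul, sub_neg_eq_add,
    ← add_smul]
  norm_num

/-- The truncated algebra of a world. -/
def talg (R : ℕ) (hR : 8 * G.Lam * R < Fintype.card V) : TAlg G.Hs where
  nm u := ‖u‖
  ip u v := inner ℝ u v
  nm_nonneg u := norm_nonneg u
  nm_add u v := norm_add_le u v
  nm_neg u := norm_neg u
  nm_sq u := (real_inner_self_eq_norm_sq u).symm
  cs u v := real_inner_le_norm u v
  ip_add u v w := inner_add_right u v w
  Low := G.Low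
  low_mono h := G.low_mono h
  one := G.d0
  one_low := G.d0_low
  nm_one := G.norm_d0
  mul := G.star
  mul_low hF hu := G.star_low hF hu
  one_mul u := G.d0_star u
  comm u v := G.star_comm u v
  A m := ((Fintype.card E : ℝ) + 1) ^ m
  A_nonneg m := by positivity
  bound hF u := G.star_bound hF u
  rad := R
  assoc h hF hH hu := G.star_assoc hR h hF hH hu
  symm F u v := G.star_symm F u v

end World

end

end Pool.Agent.EFT
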