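import Pool.Agent.Lib.EFT.RestMom

/-!
# Project EF, row R9a: averages over `κ` and `r` (helper49)
-/

set_option autoImplicit false

namespace Pool.Agent.EFT

open Finset World

noncomputable section

namespace World

variable {V E V' E' : Type} [Fintype V] [Fintype E] [Fintype V'] [Fintype E']
  [DecidableEq V'] [DecidableEq E']

/-- average over the centres `κ` and the admissible `r` -/
def av (G : World V E) (H : World V' E') (φ : (V' → V) → (E → ZMod 2) → ℝ) : ℝ :=
  (∑ κ, (∑ r ∈ G.OmF H κ, φ κ r) / ((G.OmF H κ).card : ℝ)) / (Fintype.card (V' → V) : ℝ)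

lemma av_add (G : World V E) (H : World V' E') (φ ψ : (V' → V) → (E → ZMod 2) → ℝ) :
    G.av H (fun κ r => φ κ r + ψ κ r) = G.av H φ + G.av H ψ := by
  unfold av
  rw [← add_div, ← sum_add_distrib]
  congr 1
  refine sum_congr rfl fun κ _ => ?_
  rw [sum_add_distrib, add_div]

lemma av_smul (G : World V E) (H : World V' E') (c : ℝ) (φ : (V' → V) → (E → ZMod 2) → ℝ) :
    G.av H (fun κ r => c * φ κ r) = c * G.av H φ := by
  unfold av
  rw [← mul_div_assoc, mul_sum]
  congr 1
  refine sum_congr rfl fun κ _ => ?_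
  rw [← mul_sum, mul_div_assoc]

lemma av_zero (G : World V E) (H : World V' E') : G.av H (fun _ _ => 0) = 0 := by
  unfold av; simp

lemma av_sum (G : World V E) (H : World V' E') {ι : Type*} (s : Finset ι)
    (φ : ι → (V' → V) → (E → ZMod 2) → ℝ) :
    G.av H (fun κ r => ∑ i ∈ s, φ i κ r) = ∑ i ∈ s, G.av H (φ i) := by
  classical
  induction s using Finset.induction_on with
  | empty => simp [av_zero]
  | insert a s ha ih =>
    rw [sum_insert ha, ← ih, ← av_add]
    congr 1
    funext κ r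
    rw [sum_insert ha]

lemma av_mono (G : World V E) (H : World V' E') {φ ψ : (V' → V) → (E → ZMod 2) → ℝ}
    (h : ∀ κ, ∀ r ∈ G.OmF H κ, φ κ r ≤ ψ κ r) : G.av H φ ≤ G.av H ψ := by
  unfold av
  gcongr with κ _ r hr
  exact h κ r hr

lemma av_nonneg (G : World V E) (H : World V' E') {φ : (V' → V) → (E → ZMod 2) → ℝ}
    (h : ∀ κ, ∀ r ∈ G.OmF H κ, 0 ≤ φ κ r) : 0 ≤ G.av H φ := by
  rw [← G.av_zero H]
  exact G.av_mono H h

lemma av_const [Nonempty V] (G : World V E) (H : World V' E')
    (hOm : ∀ κ, (G.OmF H κ).Nonempty) (c : ℝ) : G.av H (fun _ _ => c) = c := by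
  unfold av
  have h1 : ∀ κ : V' → V, (∑ _r ∈ G.OmF H κ, c) / ((G.OmF H κ).card : ℝ) = c := by
    intro κ
    have : ((G.OmF H κ).card : ℝ) ≠ 0 := by
      have := Finset.card_pos.mpr (hOm κ)
      positivity
    rw [sum_const, nsmul_eq_mul]
    field_simp
  rw [sum_congr rfl fun κ _ => h1 κ, sum_const, nsmul_eq_mul, Finset.card_univ]
  have : (Fintype.card (V' → V) : ℝ) ≠ 0 := by
    have : 0 < Fintype.card (V' → V) := Fintype.card_pos
    positivity
  field_simp

/-- a point where the function is at most its average -/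
lemma av_exists [Nonempty V] (G : World V E) (H : World V' E')
    (hOm : ∀ κ, (G.OmF H κ).Nonempty) (φ : (V' → V) → (E → ZMod 2) → ℝ) :
    ∃ κ, ∃ r ∈ G.OmF H κ, φ κ r ≤ G.av H φ := by
  by_contra hcon
  push Not at hcon
  set c := G.av H φ with hc
  have h1 : ∀ κ : V' → V, c < (∑ r ∈ G.OmF H κ, φ κ r) / ((G.OmF H κ).card : ℝ) := by
    intro κ
    have hpos : 0 < ((G.OmF H κ).card : ℝ) := by
      have := Finset.card_pos.mpr (hOm κ)
      positivity
    rw [lt_div_iff₀ hpos]
    calc c * ((G.OmF H κ).card : ℝ) = ∑ _r ∈ G.OmF H κ, c := by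
          rw [sum_const, nsmul_eq_mul]; ring
      _ < ∑ r ∈ G.OmF H κ, φ κ r := sum_lt_sum_of_nonempty (hOm κ) fun r hr => hcon κ r hr
  have h2 : c < G.av H φ := by
    unfold av
    have hpos : 0 < (Fintype.card (V' → V) : ℝ) := by
      have : 0 < Fintype.card (V' → V) := Fintype.card_pos
      positivity
    rw [lt_div_iff₀ hpos]
    calc c * (Fintype.card (V' → V) : ℝ) = ∑ _κ : V' → V, c := by
          rw [sum_const, nsmul_eq_mul, Finset.card_univ]; ring
      _ < _ := sum_lt_sum_of_nonempty univ_nonempty fun κ _ => h1 κ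
  exact lt_irrefl _ h2

/-- Jensen / Cauchy-Schwarz -/
lemma av_sq_le [Nonempty V] (G : World V E) (H : World V' E')
    (hOm : ∀ κ, (G.OmF H κ).Nonempty) (φ : (V' → V) → (E → ZMod 2) → ℝ) :
    (G.av H φ) ^ 2 ≤ G.av H (fun κ r => φ κ r ^ 2) := by
  unfold av
  have hN : 0 < (Fintype.card (V' → V) : ℝ) := by
    have : 0 < Fintype.card (V' → V) := Fintype.card_pos
    positivity
  have h1 : ∀ κ : V' → V, ((∑ r ∈ G.OmF H κ, φ κ r) / ((G.OmF H κ).card : ℝ)) ^ 2
      ≤ (∑ r ∈ G.OmF H κ, φ κ r ^ 2) / ((G.OmF H κ).card : ℝ) := by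
    intro κ
    have hpos : 0 < ((G.OmF H κ).card : ℝ) := by
      have := Finset.card_pos.mpr (hOm κ)
      positivity
    have h := sq_sum_le_card_mul_sum_sq (s := G.OmF H κ) (f := fun r => φ κ r)
    rw [div_pow, div_le_div_iff₀ (by positivity) hpos]
    calc (∑ r ∈ G.OmF H κ, φ κ r) ^ 2 * ((G.OmF H κ).card : ℝ)
        ≤ ((G.OmF H κ).card * ∑ r ∈ G.OmF H κ, φ κ r ^ 2) * ((G.OmF H κ).card : ℝ) := by
          gcongr
      _ = _ := by ring
  set X : (V' → V) → ℝ := fun κ => (∑ r ∈ G.OmF H κ, φ κ r) / ((G.OmF H κ).card : ℝ) with hX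
  have h := sq_sum_le_card_mul_sum_sq (s := (univ : Finset (V' → V))) (f := X)
  rw [Finset.card_univ] at h
  rw [div_pow, div_le_div_iff₀ (by positivity) hN]
  have h2 : ∑ κ, X κ ^ 2 ≤ ∑ κ, (∑ r ∈ G.OmF H κ, φ κ r ^ 2) / ((G.OmF H κ).card : ℝ) :=
    sum_le_sum fun κ _ => h1 κ
  calc (∑ κ, X κ) ^ 2 * (Fintype.card (V' → V) : ℝ)
      ≤ ((Fintype.card (V' → V) : ℝ) * ∑ κ, X κ ^ 2) * (Fintype.card (V' → V) : ℝ) := by
        gcongr
    _ ≤ ((Fintype.card (V' → V) : ℝ) *
        ∑ κ, (∑ r ∈ G.OmF H κ, φ κ r ^ 2) / ((G.OmF H κ).card : ℝ))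
          * (Fintype.card (V' → V) : ℝ) := by gcongr
    _ = _ := by ring

/-- from a second moment to a first moment -/
lemma av_le_of_sq [Nonempty V] (G : World V E) (H : World V' E')
    (hOm : ∀ κ, (G.OmF H κ).Nonempty) {φ : (V' → V) → (E → ZMod 2) → ℝ} {c : ℝ} (hc : 0 ≤ c)
    (h : G.av H (fun κ r => φ κ r ^ 2) ≤ c ^ 2) : G.av H φ ≤ c :=
  abs_le_of_sq_le_sq' ((G.av_sq_le H hOm φ).trans h) hc |>.2

/-- average of a second moment which is carried by a random set of classes -/
lemma av_carried [Nonempty V] (G : World V E) (H : World V' E')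
    (bad : (V' → V) → G.K → Prop) [∀ κ, DecidablePred (bad κ)]
    (φ : (V' → V) → (E → ZMod 2) → ℝ) (y : G.Hs) (c : ℝ)
    (hφ : ∀ κ, ∑ r ∈ G.OmF H κ, φ κ r
      ≤ ((G.OmF H κ).card : ℝ) * ∑ s ∈ univ.filter (fun s => bad κ s), (y s) ^ 2)
    (hbad : ∀ s, y s ≠ 0 → ((univ.filter fun κ : V' → V => bad κ s).card : ℝ)
      ≤ c * (Fintype.card (V' → V) : ℝ)) :
    G.av H φ ≤ c * ‖y‖ ^ 2 := by
  classical
  have hN : 0 < (Fintype.card (V' → V) : ℝ) := by
    have : 0 < Fintype.card (V' → V) := Fintype.card_pos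
    positivity
  unfold av
  rw [div_le_iff₀ hN]
  calc ∑ κ, (∑ r ∈ G.OmF H κ, φ κ r) / ((G.OmF H κ).card : ℝ)
      ≤ ∑ κ, ∑ s ∈ univ.filter (fun s => bad κ s), (y s) ^ 2 := by
        refine sum_le_sum fun κ _ => ?_
        rcases Nat.eq_zero_or_pos (G.OmF H κ).card with h0 | h0
        · rw [h0, Nat.cast_zero, div_zero]
          exact sum_nonneg fun _ _ => sq_nonneg _
        · have hpos : 0 < ((G.OmF H κ).card : ℝ) := by exact_mod_cast h0
          rw [div_le_iff₀ hpos]
          calc _ ≤ _ := hφ κ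
            _ = _ := by ring
    _ = ∑ s, (y s) ^ 2 * ((univ.filter fun κ : V' → V => bad κ s).card : ℝ) := by
        simp_rw [sum_filter]
        rw [sum_comm]
        refine sum_congr rfl fun s _ => ?_
        rw [← sum_filter, sum_const, nsmul_eq_mul]
        ring
    _ ≤ ∑ s, (y s) ^ 2 * (c * (Fintype.card (V' → V) : ℝ)) := by
        refine sum_le_sum fun s _ => ?_
        by_cases hy : y s = 0
        · rw [hy]; simp
        · exact mul_le_mul_of_nonneg_left (hbad s hy) (sq_nonneg _)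
    _ = c * ‖y‖ ^ 2 * (Fintype.card (V' → V) : ℝ) := by
        rw [norm_sq_eq, mul_sum, sum_mul]
        refine sum_congr rfl fun s _ => ?_
        ring

/-- numeric hypotheses for the restriction -/
structure NumR (G : World V E) (H : World V' E') (r1 D D0 d p : ℕ) (th : ℝ) : Prop where
  rad : 8 * G.Lam * (r1 + 2) < Fintype.card V
  rad' : 16 * H.Lam * D < Fintype.card V'
  degree : ∀ a, (univ.filter fun e' => H.src e' = a ∨ H.tgt e' = a).card ≤ D0
  loop : ∀ e', H.src e' ≠ H.tgt e'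
  D01 : 1 ≤ D0
  dD : d ≤ D
  qd : 4 * D0 * p ≤ d
  qn : 8 * p ≤ Fintype.card V'
  th1 : (Fintype.card E' : ℝ) * (r1 + 1) * G.Lam / Fintype.card V ≤ th
  th2 : (Fintype.card V' : ℝ) * (2 * G.Lam * (r1 + 1)) / Fintype.card V ≤ th

lemma card_fun_real [Nonempty V] : (Fintype.card (V' → V) : ℝ)
    = (Fintype.card V : ℝ) ^ Fintype.card V' := by
  rw [Fintype.card_fun]; push_cast; rfl

/-- tail of a pull-back in terms of `th` -/
lemma tail_th [Nonempty V] {G : World V E} {H : World V' E'} {r1 D D0 d p : ℕ} {th : ℝ}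
    (h : NumR G H r1 D D0 d p th) {S : E → ZMod 2} (hS : wt S ≤ r1 + 1) {m : ℕ} (hm : d ≤ m) :
    ((univ.filter fun κ : V' → V => m < wt (G.pull H κ S)).card : ℝ)
      ≤ (th ^ p) ^ 2 * (Fintype.card (V' → V) : ℝ) := by
  have hV : 0 < Fintype.card V := Fintype.card_pos
  have hV' : (0 : ℝ) < Fintype.card V := by exact_mod_cast hV
  have h1 := G.card_pull_tail H h.loop D0 h.D01 h.degree hV S (2 * p) m
    (by have := h.qd; calc 2 * D0 * (2 * p) = 4 * D0 * p := by ring
          _ ≤ d := this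
          _ ≤ m := hm)
  refine h1.trans ?_
  rw [card_fun_real, ← pow_mul, mul_comm p 2]
  apply mul_le_mul_of_nonneg_right _ (by positivity)
  apply pow_le_pow_left₀ (by positivity)
  refine le_trans ?_ h.th1
  have : (wt S : ℝ) ≤ r1 + 1 := by exact_mod_cast hS
  calc (Fintype.card E' * (wt S * G.Lam) / Fintype.card V : ℝ)
      ≤ (Fintype.card E' * ((r1 + 1) * G.Lam) / Fintype.card V : ℝ) := by gcongr
    _ = _ := by ring

open Classical in
/-- tail of a composite with a small set -/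
lemma tail_set_th [Nonempty V] {G : World V E} {H : World V' E'} {r1 D D0 d p : ℕ} {th : ℝ}
    (h : NumR G H r1 D D0 d p th) {W : V → ZMod 2} (hW : wt W ≤ 2 * G.Lam * (r1 + 1)) :
    ((univ.filter fun κ : V' → V => ¬ H.small (fun v => W (κ v))).card : ℝ)
      ≤ (th ^ p) ^ 2 * (Fintype.card (V' → V) : ℝ) := by
  classical
  have hV : 0 < Fintype.card V := Fintype.card_pos
  have hV' : (0 : ℝ) < Fintype.card V := by exact_mod_cast hV
  have h1 := card_tail_set (V' := V') (univ.filter fun v : V => W v ≠ 0) hV (2 * p)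
  have h2 : ((univ.filter fun κ : V' → V => ¬ H.small (fun v => W (κ v))).card : ℝ)
      ≤ ((univ.filter fun κ : V' → V => 2 * p ≤
        (univ.filter fun v : V' => κ v ∈ (univ.filter fun v : V => W v ≠ 0)).card).card : ℝ) := by
    have hsub : (univ.filter fun κ : V' → V => ¬ H.small (fun v => W (κ v)))
        ⊆ (univ.filter fun κ : V' → V => 2 * p ≤
        (univ.filter fun v : V' => κ v ∈ (univ.filter fun v : V => W v ≠ 0)).card) := by
      intro κ hκ
      rw [mem_filter] at hκ ⊢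
      refine ⟨mem_univ _, ?_⟩
      have h3 := hκ.2
      unfold small wt at h3
      have h4 : (univ.filter fun v : V' => κ v ∈ (univ.filter fun v : V => W v ≠ 0)).card
          = (univ.filter fun v : V' => W (κ v) ≠ 0).card := by
        congr 1
        ext v; simp
      rw [h4]
      have h5 := h.qn
      have h6 : Fintype.card V' ≤ 4 * (univ.filter fun v : V' => W (κ v) ≠ 0).card := by
        convert not_lt.mp h3
      omega
    exact_mod_cast card_le_card hsub
  refine h2.trans (h1.trans ?_)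
  rw [card_fun_real, ← pow_mul, mul_comm p 2]
  apply mul_le_mul_of_nonneg_right _ (by positivity)
  apply pow_le_pow_left₀ (by positivity)
  refine le_trans ?_ h.th2
  have : (((univ.filter fun v : V => W v ≠ 0).card : ℕ) : ℝ) ≤ 2 * G.Lam * (r1 + 1) := by
    exact_mod_cast hW
  gcongr

/-- the proportion of the `κ` for which a class is bad -/
lemma card_bad [Nonempty V] {G : World V E} {H : World V' E'} {r1 D D0 d p : ℕ} {th : ℝ}
    (h : NumR G H r1 D D0 d p th) (e : E) {s : G.K} (hs : G.deg s ≤ r1)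
    [DecidablePred fun κ : V' → V => ¬ G.Good H κ D s (one e)] :
    ((univ.filter fun κ : V' → V => ¬ G.Good H κ D s (one e)).card : ℝ)
      ≤ (2 * th ^ p) ^ 2 * (Fintype.card (V' → V) : ℝ) := by
  classical
  have hd2 : G.deg (s + G.cls (one e)) ≤ r1 + 1 := by
    have := G.deg_add_le s (one e)
    rw [wt_one] at this
    omega
  have hCut : G.rep s + one e + G.rep (s + G.cls (one e)) ∈ G.Cut := by
    rw [← cls_eq_zero, cls_add, cls_add, cls_rep, cls_rep, K_add_self]
  have hwt : wt (G.rep s + one e + G.rep (s + G.cls (one e))) ≤ 2 * (r1 + 1) := by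
    have := wt_add3 (G.rep s) (one e) (G.rep (s + G.cls (one e)))
    rw [wt_rep, wt_rep, wt_one] at this
    omega
  obtain ⟨W, hW, hWc⟩ := G.small_exists hCut (by
    have h1 := h.rad
    calc 4 * G.Lam * wt (G.rep s + one e + G.rep (s + G.cls (one e)))
        ≤ 4 * G.Lam * (2 * (r1 + 1)) := Nat.mul_le_mul_left _ hwt
      _ = 8 * G.Lam * (r1 + 1) := by ring
      _ ≤ 8 * G.Lam * (r1 + 2) := Nat.mul_le_mul_left _ (by omega)
      _ < _ := h1)
  have hWwt : wt W ≤ 2 * G.Lam * (r1 + 1) := by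
    have h2 := G.W2 W
    rw [hWc] at h2
    have h3 : wt W ≤ Fintype.card V - wt W := by
      unfold small at hW; omega
    rw [min_eq_left h3] at h2
    calc wt W ≤ G.Lam * wt (G.rep s + one e + G.rep (s + G.cls (one e))) := h2
      _ ≤ G.Lam * (2 * (r1 + 1)) := Nat.mul_le_mul_left _ hwt
      _ = _ := by ring
  have hsub : (univ.filter fun κ : V' → V => ¬ G.Good H κ D s (one e))
      ⊆ (univ.filter fun κ : V' → V => D < wt (G.pull H κ (G.rep s))) ∪
        ((univ.filter fun κ : V' → V => D < wt (G.pull H κ (G.rep (s + G.cls (one e))))) ∪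
        ((univ.filter fun κ : V' → V => D < wt (G.pull H κ (one e))) ∪
        (univ.filter fun κ : V' → V => ¬ H.small (fun v => W (κ v))))) := by
    intro κ hκ
    rw [mem_filter] at hκ
    by_contra hcon
    simp only [mem_union, mem_filter, mem_univ, true_and, not_or, not_lt, not_not] at hcon
    exact hκ.2 ⟨hcon.1, hcon.2.1, hcon.2.2.1, W, hW, hWc, hcon.2.2.2⟩
  have c1 := tail_th h (S := G.rep s) (by rw [wt_rep]; omega) h.dD
  have c2 := tail_th h (S := G.rep (s + G.cls (one e))) (by rw [wt_rep]; omega) h.dD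
  have c3 := tail_th h (S := one e) (by rw [wt_one]; omega) h.dD
  have c4 := tail_set_th h hWwt
  have c5 : ((univ.filter fun κ : V' → V => ¬ G.Good H κ D s (one e)).card : ℝ)
      ≤ ((univ.filter fun κ : V' → V => D < wt (G.pull H κ (G.rep s))).card : ℝ) +
        (((univ.filter fun κ : V' → V => D < wt (G.pull H κ (G.rep (s + G.cls (one e))))).card : ℝ)
        + (((univ.filter fun κ : V' → V => D < wt (G.pull H κ (one e))).card : ℝ) +
        ((univ.filter fun κ : V' → V => ¬ H.small (fun v => W (κ v))).card : ℝ))) := by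
    have := (card_le_card hsub).trans ((card_union_le _ _).trans
      (Nat.add_le_add_left ((card_union_le _ _).trans
        (Nat.add_le_add_left (card_union_le _ _) _)) _))
    exact_mod_cast this
  calc _ ≤ _ := c5
    _ ≤ (th ^ p) ^ 2 * (Fintype.card (V' → V) : ℝ) + ((th ^ p) ^ 2 * (Fintype.card (V' → V) : ℝ)
        + ((th ^ p) ^ 2 * (Fintype.card (V' → V) : ℝ)
        + (th ^ p) ^ 2 * (Fintype.card (V' → V) : ℝ))) := by linarith
    _ = _ := by ring

section main

variable {G : World V E} {H : World V' E'} {r1 D D0 d p : ℕ} {th : ℝ}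

/-- orthogonality (row R7) in the form used here -/
def Orth (G : World V E) (H : World V' E') : Prop :=
  ∀ κ, ∀ w : G.K → H.Hs, ∑ r ∈ G.OmF H κ, ‖∑ s, chr (G.rep s) r • w s‖ ^ 2
      = ((G.OmF H κ).card : ℝ) * ∑ s, ‖w s‖ ^ 2

/-- (R4), first half -/
theorem av_Df [Nonempty V] (h : NumR G H r1 D D0 d p th) (hth : 0 ≤ th)
    (hOm : ∀ κ, (G.OmF H κ).Nonempty) (hO : Orth G H) (e : E) {y : G.Hs} (hy : y ∈ G.Low r1) :
    G.av H (fun κ r => ‖G.Df H κ D r (one e) y‖) ≤ 2 * th ^ p * ‖y‖ := by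
  classical
  apply G.av_le_of_sq H hOm (by positivity)
  have := G.av_carried H (fun κ s => ¬ G.Good H κ D s (one e))
    (fun κ r => ‖G.Df H κ D r (one e) y‖ ^ 2) y ((2 * th ^ p) ^ 2)
    (fun κ => G.Df_moment H κ D (one e) (hO κ)
      (fun s r hg hr => G.Rs_Z H κ hr hg h.rad') y)
    (fun s hs => card_bad h e (by
      by_contra hc
      exact hs (hy s (not_le.mp hc))))
  refine this.trans (le_of_eq ?_)
  ring

/-- (R4), second half -/
theorem av_Hi [Nonempty V] (h : NumR G H r1 D D0 d p th) (hth : 0 ≤ th)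
    (hOm : ∀ κ, (G.OmF H κ).Nonempty) (hO : Orth G H) {y : G.Hs} (hy : y ∈ G.Low r1) :
    G.av H (fun κ r => ‖H.Hi d (G.Rs H κ D r y)‖) ≤ th ^ p * ‖y‖ := by
  classical
  apply G.av_le_of_sq H hOm (by positivity)
  have := G.av_carried H (fun κ s => d < wt (G.pull H κ (G.rep s)))
    (fun κ r => ‖H.Hi d (G.Rs H κ D r y)‖ ^ 2) y ((th ^ p) ^ 2)
    (fun κ => G.Hi_moment H κ D d (hO κ) y)
    (fun s hs => tail_th h (by
      rw [wt_rep]
      by_contra hc
      exact hs (hy s (by omega))) (le_refl d))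
  refine this.trans (le_of_eq ?_)
  ring

/-- the restriction does not increase the norm on average -/
theorem av_Rs [Nonempty V] (hOm : ∀ κ, (G.OmF H κ).Nonempty) (hO : Orth G H) (D : ℕ)
    (y : G.Hs) : G.av H (fun κ r => ‖G.Rs H κ D r y‖) ≤ ‖y‖ := by
  classical
  apply G.av_le_of_sq H hOm (by positivity)
  have := G.av_carried H (fun _ _ => True)
    (fun κ r => ‖G.Rs H κ D r y‖ ^ 2) y 1
    (fun κ => by
      refine (G.Rs_moment H κ D (hO κ) y).trans (le_of_eq ?_)
      rw [norm_sq_eq]; simp)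
    (fun s _ => by
      rw [one_mul]
      exact_mod_cast (card_le_univ _))
  refine this.trans (le_of_eq ?_)
  ring

/-- the pull-backs of the variables are short -/
theorem av_pull [Nonempty V] (h : NumR G H r1 D D0 d p th) (hth : 0 ≤ th)
    (hOm : ∀ κ, (G.OmF H κ).Nonempty) (e : E) :
    G.av H (fun κ _ => if d < wt (G.pull H κ (one e)) then 1 else 0) ≤ th ^ p := by
  classical
  apply G.av_le_of_sq H hOm (by positivity)
  have hN : 0 < (Fintype.card (V' → V) : ℝ) := by
    have : 0 < Fintype.card (V' → V) := Fintype.card_pos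
    positivity
  unfold av
  rw [div_le_iff₀ hN]
  have h1 := tail_th h (S := one e) (by rw [wt_one]; omega) (le_refl d)
  refine le_trans (le_of_eq ?_) h1
  rw [Finset.card_filter]
  push_cast
  refine sum_congr rfl fun κ _ => ?_
  have hc : ((G.OmF H κ).card : ℝ) ≠ 0 := by
    have := Finset.card_pos.mpr (hOm κ)
    positivity
  rw [sum_const, nsmul_eq_mul]
  split_ifs <;> field_simp <;> simp

end main

end World

end

end Pool.Agent.EFT
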