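import Pool.Agent.Lib.EFT.Total
import Pool.Agent.Lib.EFT.RestAv
import Pool.Agent.Lib.EFT.GQ
import Pool.Agent.Lib.EFT.Prod

/-!
# Project EF (helper61): one good restriction of all lines, from two worlds

The glue of GQ (R5), Prod (R10), RestAv (R9a) and Total (R9b): the hypotheses `h1`, `h2` of
`Rs.main` / `Rs.no_ref` hold for one restriction.
-/

set_option autoImplicit false

open Finset

namespace Pool.Agent.EFT

noncomputable section

namespace World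

variable {V E V' E' : Type} [Fintype V] [Fintype E] [Fintype V'] [Fintype E']

/-- The averaging functional of the random restriction. -/
def avF [DecidableEq V'] [DecidableEq E'] [Nonempty V] (G : World V E) (H : World V' E')
    (hOm : ∀ κ, (G.OmF H κ).Nonempty) : AvF ((V' → V) × (E → ZMod 2)) where
  av f := G.av H fun κ r => f (κ, r)
  ok ρ := ρ.2 ∈ G.OmF H ρ.1
  add f g := G.av_add H (fun κ r => f (κ, r)) fun κ r => g (κ, r)
  mono _ _ h := G.av_mono H fun κ r _ => h (κ, r)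
  exists_le f := by
    obtain ⟨κ, r, hr, h⟩ := G.av_exists H hOm fun κ r => f (κ, r)
    exact ⟨(κ, r), hr, h⟩

/-- The restricted formulas. -/
def Frs (G : World V E) (H : World V' E') (κ : V' → V) (D d Dl : ℕ) (r : E → ZMod 2) :
    Fm E → H.Hs
  | .var e => H.leaf (chr (one e) r) (G.pull H κ (one e))
  | .neg f => H.d0 - Frs G H κ D d Dl r f
  | .and f g => G.Rs H κ D r (G.Qf Dl (.and f g) (G.dl 0)) -
      H.Hi d (G.Rs H κ D r (G.Qf Dl (.and f g) (G.dl 0)))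

theorem sub_Hi_low (G : World V E) (d : ℕ) (u : G.Hs) : u - G.Hi d u ∈ G.Low d := by
  intro k hk
  show u k - G.Hi d u k = 0
  rw [Hi_apply, if_pos hk, sub_self]

theorem Frs_low (G : World V E) (H : World V' E') (κ : V' → V) (D d Dl : ℕ)
    (r : E → ZMod 2) (hw : ∀ e, wt (G.pull H κ (one e)) ≤ d) (f : Fm E) :
    Frs G H κ D d Dl r f ∈ H.Low d := by
  induction f with
  | var e => exact H.low_mono (hw e) (H.leaf_low _ _)
  | neg f ih => exact Submodule.sub_mem _ (H.low_mono (Nat.zero_le _) H.d0_low) ih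
  | and f g _ _ => exact H.sub_Hi_low d _

/-- The data of one restriction. -/
def rsOf (G : World V E) (H : World V' E') (κ : V' → V) (D d Dl : ℕ) (r : E → ZMod 2)
    (R : ℕ) (hR : 8 * H.Lam * R < Fintype.card V') (hRad : D + 4 * d ≤ R)
    (hw : ∀ e, wt (G.pull H κ (one e)) ≤ d) :
    _root_.Pool.Agent.EFT.Rs (H.talg R hR) G.Hs E where
  Q := G.Qf Dl
  dl := G.dl 0
  R := G.Rs H κ D r
  F := Frs G H κ D d Dl r
  d := d
  D := D
  Q_neg g y := G.Qf_neg Dl g y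
  R_dl := by
    exact G.Rs_zero H κ D r (by omega)
  F_neg _ := rfl
  F_low f := Frs_low G H κ D d Dl r hw f
  F_var a := by
    refine H.leaf_idem hR (chr_mul_self _ _) ?_
    have := hw a
    omega
  R_low y := G.Rs_low H κ D r y
  hrad := hRad

theorem disc_var (G : World V E) (H : World V' E') (κ : V' → V) (D d Dl : ℕ)
    (r : E → ZMod 2) (R : ℕ) (hR : 8 * H.Lam * R < Fintype.card V') (hRad : D + 4 * d ≤ R)
    (hw : ∀ e, wt (G.pull H κ (one e)) ≤ d) (a : E) (y : G.Hs) :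
    (rsOf G H κ D d Dl r R hR hRad hw).disc (.var a) y = G.Df H κ D r (one a) y := by
  have h1 : (rsOf G H κ D d Dl r R hR hRad hw).disc (.var a) y =
      G.Rs H κ D r (G.Qf Dl (.var a) y) -
        H.star (H.leaf (chr (one a) r) (G.pull H κ (one a))) (G.Rs H κ D r y) := rfl
  rw [h1, Qf_var, H.leaf_star hR _ (G.Rs_low H κ D r y) (by have := hw a; omega), Df_apply]
  rw [P_apply, map_smul, map_sub]
  module

/-- **One good restriction of all lines.** -/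
theorem one_rho [DecidableEq V'] [DecidableEq E'] [Nonempty V] (G : World V E)
    (H : World V' E') {r1 Rh D D0 d p Dl hh L M : ℕ} {th τ θ b : ℝ}
    (hN : NumR G H r1 D D0 d p th) (hth : 0 ≤ th) (hOm : ∀ κ, (G.OmF H κ).Nonempty)
    (hO : Orth G H) (hC : GCalc G Rh Dl L hh τ θ b) (R : ℕ)
    (hR : 8 * H.Lam * R < Fintype.card V') (hRad : D + 4 * d ≤ R)
    (hr1 : (hh + 1) * Dl ≤ r1) (hrh : (hh + 1) * Dl ≤ Rh)
    (hθ : (1 + θ) ^ (2 * L * (hh + 1)) ≤ 2) (hL : 1 ≤ L) (C : Fin M → Fm E)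
    (hCl : ∀ i, (C i).lv ≤ L ∧ (C i).ah ≤ hh) {e0 : ℝ}
    (he0 : e0 = ((M * L : ℕ) + Fintype.card E : ℝ) *
      (16 * L * (2 * th ^ p + epsT (Fintype.card E) Dl τ b))) (he1 : e0 < 1) :
    ∃ S : _root_.Pool.Agent.EFT.Rs (H.talg R hR) G.Hs E, S.d = d ∧ S.D = D ∧
      S.Q = G.Qf Dl ∧ S.dl = G.dl 0 ∧
      (∀ g h, S.Q (.and g h) S.dl = 0 → S.F (.and g h) = 0) ∧
      (∀ g h, (∃ i, (C i).Sub (.and g h)) → S.bad g (S.Q h S.dl) +
        (H.talg R hR).nm (S.tr g h S.dl) +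
          (H.talg R hR).nm (S.R (S.Q (.and g h) S.dl) - S.F (.and g h)) ≤ e0) ∧
      (∀ a, (∃ i, (C i).Sub (.var a)) →
        (H.talg R hR).nm (S.R (S.Q (.var a) S.dl) - S.F (.var a)) ≤ e0) := by
  have hc1 : (1 : ℝ) ≤ (1 + θ) ^ (2 * L) := one_le_pow₀ (by linarith [hC.theta])
  have hη : (0 : ℝ) ≤ th ^ p := pow_nonneg hth p
  have hb : 1 ≤ b := by
    refine le_trans ?_ hC.b_ge
    exact one_le_mul_of_one_le_of_one_le (one_le_pow₀ (Real.one_le_cosh _)) hc1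
  have hεT : 0 ≤ epsT (Fintype.card E) Dl τ b := by
    unfold epsT
    positivity
  obtain ⟨ρ, hok, hwd, hdv, hcost⟩ := exists_good (G.avF H hOm) G.Low (G.Qf Dl) (G.dl 0)
    (fun ρ y => ‖G.Rs H ρ.1 D ρ.2 y‖) (fun ρ y => ‖H.Hi d (G.Rs H ρ.1 D ρ.2 y)‖)
    (fun ρ a y => ‖G.Df H ρ.1 D ρ.2 (one a) y‖) (fun ρ a => wt (G.pull H ρ.1 (one a)))
    (r1 := r1) (Rh := Rh) (Dl := Dl) (hh := hh) (L := L) (d := d) (η := th ^ p)
    (εT := epsT (Fintype.card E) Dl τ b) (c := (1 + θ) ^ (2 * L)) C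
    (fun h => G.low_mono h) (G.dl_zero_low 0) (le_of_eq (G.norm_dl 0))
    (fun _ _ => norm_nonneg _) (fun _ _ => norm_nonneg _) (fun _ _ _ => norm_nonneg _)
    (fun y => av_Rs hOm hO D y) (fun y hy => av_Hi hN hth hOm hO hy)
    (fun a y hy => av_Df hN hth hOm hO a hy) (fun a => av_pull hN hth hOm a)
    (fun f r y hy => G.Qf_low hC.one_le f hy) (fun f hf hl y hy => hC.Qf_norm hf hl hy)
    (fun g h hf hl y hy => hC.Qf_err hf hl hy) hη hεT hc1 (by rw [← pow_mul]; exact hθ) hL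
    hr1 hrh hCl he0 he1
  set S := rsOf G H ρ.1 D d Dl ρ.2 R hR hRad hwd with hS
  have hbad : ∀ f y, S.bad f y = badf (G.Qf Dl) (fun y => ‖G.Rs H ρ.1 D ρ.2 y‖)
      (fun a y => ‖G.Df H ρ.1 D ρ.2 (one a) y‖) f y := by
    intro f y
    rw [Rs.bad_eq]
    have h1 : (fun (a : E) (y : G.Hs) => (H.talg R hR).nm (S.disc (.var a) y)) =
        fun a y => ‖G.Df H ρ.1 D ρ.2 (one a) y‖ := by
      funext a y
      rw [hS, disc_var]
      rfl
    rw [h1]
    rfl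
  refine ⟨S, rfl, rfl, rfl, rfl, fun g h h0 => ?_, ?_, ?_⟩
  · show G.Rs H ρ.1 D ρ.2 (G.Qf Dl (.and g h) (G.dl 0)) -
      H.Hi d (G.Rs H ρ.1 D ρ.2 (G.Qf Dl (.and g h) (G.dl 0))) = 0
    have h1 : G.Qf Dl (.and g h) (G.dl 0) = 0 := h0
    rw [h1, map_zero, map_zero, sub_zero]
  · rintro g h ⟨i, hi⟩
    have h1 := hcost i g h hi
    rw [hbad]
    have h2 : (H.talg R hR).nm (S.R (S.Q (.and g h) S.dl) - S.F (.and g h)) =
        ‖H.Hi d (G.Rs H ρ.1 D ρ.2 (G.Qf Dl (.and g h) (G.dl 0)))‖ := by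
      show ‖G.Rs H ρ.1 D ρ.2 (G.Qf Dl (.and g h) (G.dl 0)) -
        (G.Rs H ρ.1 D ρ.2 (G.Qf Dl (.and g h) (G.dl 0)) -
          H.Hi d (G.Rs H ρ.1 D ρ.2 (G.Qf Dl (.and g h) (G.dl 0))))‖ = _
      rw [sub_sub_cancel]
    rw [h2]
    exact h1
  · rintro a -
    rw [← Rs.disc_dl, hS, disc_var]
    exact hdv a

end World

end

end Pool.Agent.EFT
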