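import Mathlib

/-!
Orthogonality of characters on a coset of the cycle space (row R7 of project EF).
-/

namespace Pool.Agent.EFT

open Finset

/-- The sign of an element of `ZMod 2`. -/
def sgn2 (a : ZMod 2) : ℝ := if a = 0 then 1 else -1

theorem zmod2_cases (a : ZMod 2) : a = 0 ∨ a = 1 := by
  revert a; decide

@[simp] theorem sgn2_zero : sgn2 0 = 1 := by simp [sgn2]

@[simp] theorem sgn2_one : sgn2 1 = -1 := by simp [sgn2]

theorem sgn2_add (a b : ZMod 2) : sgn2 (a + b) = sgn2 a * sgn2 b := by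
  rcases zmod2_cases a with rfl | rfl <;> rcases zmod2_cases b with rfl | rfl
  · simp
  · simp
  · simp
  · have : (1 : ZMod 2) + 1 = 0 := by decide
    rw [this]; simp

theorem sgn2_mul_self (a : ZMod 2) : sgn2 a * sgn2 a = 1 := by
  rcases zmod2_cases a with rfl | rfl <;> simp

theorem sgn2_sq (a : ZMod 2) : sgn2 a ^ 2 = 1 := by
  rw [sq, sgn2_mul_self]

theorem abs_sgn2 (a : ZMod 2) : |sgn2 a| = 1 := by
  rcases zmod2_cases a with rfl | rfl <;> simp

theorem sgn2_ne_zero (a : ZMod 2) : sgn2 a ≠ 0 := by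
  rcases zmod2_cases a with rfl | rfl <;> simp

section Fourier

variable {V E : Type*} [Fintype V] [DecidableEq V] [Fintype E] [DecidableEq E]

/-- Double annihilator over `ZMod 2`: a vector outside of the range of `A` is detected by an
element of the kernel of the transpose `B`. -/
theorem exists_ker_dot_one (A : (V → ZMod 2) →ₗ[ZMod 2] (E → ZMod 2))
    (B : (E → ZMod 2) →ₗ[ZMod 2] (V → ZMod 2))
    (hAB : ∀ x W, (B x) ⬝ᵥ W = x ⬝ᵥ (A W)) (S : E → ZMod 2) (hS : S ∉ LinearMap.range A) :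
    ∃ x : E → ZMod 2, B x = 0 ∧ x ⬝ᵥ S = 1 := by
  obtain ⟨f, hfS, hf⟩ := Submodule.exists_dual_map_eq_bot_of_notMem
    (p := LinearMap.range A) hS inferInstance
  set x : E → ZMod 2 := fun e => f (Pi.single e 1) with hx
  have hfx : ∀ y : E → ZMod 2, f y = x ⬝ᵥ y := by
    intro y
    have h1 : y = ∑ e, y e • (Pi.single e (1 : ZMod 2) : E → ZMod 2) := by
      funext e'
      rw [Finset.sum_apply]
      simp [Pi.single_apply]
    conv_lhs => rw [h1]
    rw [map_sum]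
    simp only [map_smul, smul_eq_mul, dotProduct, hx]
    exact Finset.sum_congr rfl fun e _ => mul_comm _ _
  refine ⟨x, ?_, ?_⟩
  · funext v
    have h1 : (B x) ⬝ᵥ (Pi.single v 1 : V → ZMod 2) = 0 := by
      rw [hAB, ← hfx]
      have : f (A (Pi.single v 1)) ∈ (LinearMap.range A).map f :=
        ⟨_, ⟨_, rfl⟩, rfl⟩
      rw [hf] at this
      simpa using this
    simpa using h1
  · rw [← hfx]
    rcases zmod2_cases (f S) with h | h
    · exact absurd h hfS
    · exact h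

/-- Characters outside of the range of `A` have mean zero on every coset of the kernel of `B`. -/
theorem sum_sgn2_eq_zero (A : (V → ZMod 2) →ₗ[ZMod 2] (E → ZMod 2))
    (B : (E → ZMod 2) →ₗ[ZMod 2] (V → ZMod 2))
    (hAB : ∀ x W, (B x) ⬝ᵥ W = x ⬝ᵥ (A W)) (S : E → ZMod 2) (hS : S ∉ LinearMap.range A)
    (t : V → ZMod 2) :
    ∑ r ∈ univ.filter (fun r : E → ZMod 2 => B r = t), sgn2 (S ⬝ᵥ r) = 0 := by
  obtain ⟨x, hx0, hx1⟩ := exists_ker_dot_one A B hAB S hS
  have h2 : ∀ y : E → ZMod 2, y + x + x = y := by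
    intro y
    funext e
    have : x e + x e = 0 := CharTwo.add_self_eq_zero _
    simp [add_assoc, this]
  have h := Finset.sum_nbij' (s := univ.filter (fun r : E → ZMod 2 => B r = t))
    (t := univ.filter (fun r : E → ZMod 2 => B r = t))
    (f := fun r => sgn2 (S ⬝ᵥ r)) (g := fun r => sgn2 (S ⬝ᵥ (r + x)))
    (fun r => r + x) (fun r => r + x)
    (by
      intro r hr
      rw [Finset.mem_filter] at hr ⊢
      refine ⟨Finset.mem_univ _, ?_⟩
      rw [map_add, hx0, add_zero]; exact hr.2)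
    (by
      intro r hr
      rw [Finset.mem_filter] at hr ⊢
      refine ⟨Finset.mem_univ _, ?_⟩
      rw [map_add, hx0, add_zero]; exact hr.2)
    (fun r _ => h2 r) (fun r _ => h2 r)
    (fun r _ => by
      show sgn2 (S ⬝ᵥ r) = sgn2 (S ⬝ᵥ (r + x + x))
      rw [h2])
  have h3 : ∀ r : E → ZMod 2, sgn2 (S ⬝ᵥ (r + x)) = - sgn2 (S ⬝ᵥ r) := by
    intro r
    rw [dotProduct_add, sgn2_add, dotProduct_comm S x, hx1]
    simp
  simp only [h3, Finset.sum_neg_distrib] at h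
  linarith

variable {K : Type*} [Fintype K] [DecidableEq K]
variable {H : Type*} [NormedAddCommGroup H] [InnerProductSpace ℝ H]

omit [DecidableEq K] in
/-- (R2): Parseval for the random signs `(-1)^⟨rep s, r⟩`. -/
theorem sum_norm_sq_eq (A : (V → ZMod 2) →ₗ[ZMod 2] (E → ZMod 2))
    (B : (E → ZMod 2) →ₗ[ZMod 2] (V → ZMod 2))
    (hAB : ∀ x W, (B x) ⬝ᵥ W = x ⬝ᵥ (A W)) (rep : K → (E → ZMod 2))
    (hrep : ∀ s s', rep s + rep s' ∈ LinearMap.range A → s = s') (t : V → ZMod 2) (w : K → H) :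
    ∑ r ∈ univ.filter (fun r : E → ZMod 2 => B r = t), ‖∑ s, sgn2 (rep s ⬝ᵥ r) • w s‖ ^ 2
      = ((univ.filter fun r : E → ZMod 2 => B r = t).card : ℝ) * ∑ s, ‖w s‖ ^ 2 := by
  classical
  have h1 : ∀ r : E → ZMod 2, ‖∑ s, sgn2 (rep s ⬝ᵥ r) • w s‖ ^ 2
      = ∑ s, ∑ s', sgn2 ((rep s + rep s') ⬝ᵥ r) * inner ℝ (w s) (w s') := by
    intro r
    rw [← real_inner_self_eq_norm_sq, sum_inner]
    refine Finset.sum_congr rfl fun s _ => ?_
    rw [inner_sum]
    refine Finset.sum_congr rfl fun s' _ => ?_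
    rw [real_inner_smul_left, real_inner_smul_right, add_dotProduct, sgn2_add]
    ring
  simp only [h1]
  rw [Finset.sum_comm]
  simp only [Finset.sum_comm (s := univ.filter fun r : E → ZMod 2 => B r = t)]
  simp only [← Finset.sum_mul]
  rw [Finset.mul_sum]
  refine Finset.sum_congr rfl fun s _ => ?_
  rw [Finset.sum_eq_single s]
  · have : rep s + rep s = 0 := by
      funext e
      exact CharTwo.add_self_eq_zero _
    rw [this]
    simp
  · intro s' _ hne
    rw [sum_sgn2_eq_zero A B hAB (rep s + rep s') (fun h => hne (hrep _ _ h).symm) t, zero_mul]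
  · intro h; exact absurd (Finset.mem_univ _) h

omit [DecidableEq K] in
/-- (R2) as an inequality for vectors `w s = v s • ξ s` with `‖ξ s‖ ≤ 1`. -/
theorem sum_norm_sq_le (A : (V → ZMod 2) →ₗ[ZMod 2] (E → ZMod 2))
    (B : (E → ZMod 2) →ₗ[ZMod 2] (V → ZMod 2))
    (hAB : ∀ x W, (B x) ⬝ᵥ W = x ⬝ᵥ (A W)) (rep : K → (E → ZMod 2))
    (hrep : ∀ s s', rep s + rep s' ∈ LinearMap.range A → s = s') (t : V → ZMod 2)
    (ξ : K → H) (hξ : ∀ s, ‖ξ s‖ ≤ 1) (v : K → ℝ) :
    ∑ r ∈ univ.filter (fun r : E → ZMod 2 => B r = t),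
        ‖∑ s, v s • (sgn2 (rep s ⬝ᵥ r) • ξ s)‖ ^ 2
      ≤ ((univ.filter fun r : E → ZMod 2 => B r = t).card : ℝ) * ∑ s, v s ^ 2 := by
  have h1 : ∀ r : E → ZMod 2, ∑ s, v s • (sgn2 (rep s ⬝ᵥ r) • ξ s)
      = ∑ s, sgn2 (rep s ⬝ᵥ r) • (v s • ξ s) := by
    intro r
    exact Finset.sum_congr rfl fun s _ => smul_comm _ _ _
  simp only [h1]
  rw [sum_norm_sq_eq A B hAB rep hrep t]
  refine mul_le_mul_of_nonneg_left ?_ (by positivity)
  refine Finset.sum_le_sum fun s _ => ?_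
  rw [norm_smul, mul_pow, Real.norm_eq_abs, sq_abs]
  have h2 : ‖ξ s‖ ^ 2 ≤ 1 := by
    have := hξ s
    have h0 := norm_nonneg (ξ s)
    nlinarith
  nlinarith [sq_nonneg (v s)]

end Fourier

end Pool.Agent.EFT
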