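import Pool.Agent.Lib.EFT.Nums

/-!
# Parameters (row R14 of project EF)

Scale: `x = 2^u`, `k` the dimension of the cube-connected cycles.  The only hypotheses are
`1616 u ≤ k` and `1000 (k + 1) ≤ 2^u` (and later `C ≤ 2^u` for the constants of the rule system).
-/

set_option autoImplicit false

namespace Pool.Agent.EFT

namespace Par

open Real

/-- the scale hypotheses -/
structure Scale (k u : ℕ) : Prop where
  h1 : 1616 * u ≤ k
  h2 : 1000 * (k + 1) ≤ 2 ^ u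

/-- height bound, also log of the number of lines -/
def hh (u : ℕ) : ℕ := 2 ^ u
/-- half of `q` -/
def m (u : ℕ) : ℕ := 2 ^ (3 * u - 1)
/-- size of the matchings -/
def q (u : ℕ) : ℕ := 2 * m u
/-- degree in the small world -/
def d (u : ℕ) : ℕ := 6 * q u
/-- degree of the restricted vectors -/
def D (u : ℕ) : ℕ := (hh u + 2) * d u
/-- radius needed in the small world -/
def R' (u : ℕ) : ℕ := D u + 4 * d u
/-- band -/
def Dl (k u : ℕ) : ℕ := 2 ^ (k - 400 * u)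
/-- leaf size -/
def L (k u : ℕ) : ℕ := 2 ^ (2 * k - 808 * u)
/-- radius in the big world -/
def R0 (k u : ℕ) : ℕ := (5 * hh u + 1) * Dl k u
/-- degree bound for the vectors in the big world -/
def r1 (k u : ℕ) : ℕ := (hh u + 1) * Dl k u
/-- number of vertices of the big world -/
def nG (k : ℕ) : ℕ := k * 2 ^ k
/-- number of vertices of the small world -/
def nH (u : ℕ) : ℕ := 8 * u * 2 ^ (8 * u)
/-- number of edges of the small world -/
def NH (u : ℕ) : ℕ := 12 * u * 2 ^ (8 * u)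

noncomputable section

/-- slack of the norm bounds -/
def theta (k u : ℕ) : ℝ := 1 / (4 * L k u * (hh u + 1))
/-- weight step -/
def tau (k u : ℕ) : ℝ := Dl k u / (4 * (hh u : ℝ) ^ 3 * L k u)
/-- norm bound of all weighted operators -/
def b (k u : ℕ) : ℝ := cosh (hh u * tau k u) ^ L k u * (1 + theta k u) ^ (2 * L k u)
/-- truncation error; `N` the number of edges of the big world -/
def epsT (k u N : ℕ) : ℝ := 2 * N * b k u ^ 2 * exp (-(tau k u * Dl k u))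
/-- commutator error at height `j` -/
def gam (k u N j : ℕ) : ℝ := if j = 0 then 0 else (12 * b k u ^ 2) ^ j * epsT k u N
/-- tail probability base -/
def th (u : ℕ) : ℝ := 1 / ((2 : ℝ) ^ u) ^ 390
/-- local error -/
def eps1 (u : ℕ) : ℝ := 2 * th u ^ m u
/-- total error of the lines of a refutation with at most `2^hh` lines -/
def eps0 (k u N : ℕ) : ℝ :=
  2 ^ hh u * (L k u * (2 * L k u + 4)) * 2 * eps1 u + 2 * N * eps1 u
/-- `A_m` -/
def A (u j : ℕ) : ℝ := ((NH u : ℝ) + 1) ^ j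
/-- bound of `G` -/
def B (k u N : ℕ) : ℝ := 8 * eps0 k u N * (5 * L k u) ^ hh u
/-- bound of `F*F - F` -/
def I (k u N : ℕ) : ℝ := 8 * 3 ^ hh u * B k u N

/-! ### elementary consequences of the scale hypotheses -/

theorem Scale.u10 {k u : ℕ} (h : Scale k u) : 10 ≤ u := by
  by_contra hu
  have h2 := h.h2
  have h3 : 2 ^ u ≤ 2 ^ 9 := Nat.pow_le_pow_right (by norm_num) (by omega)
  norm_num at h3
  omega

theorem Scale.k16 {k u : ℕ} (h : Scale k u) : 16160 ≤ k := by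
  have := h.u10; have := h.h1; omega

theorem Scale.hx {k u : ℕ} (h : Scale k u) : 1000 * ((k : ℝ) + 1) ≤ (2 : ℝ) ^ u := by
  exact_mod_cast h.h2

theorem Scale.x_big {k u : ℕ} (h : Scale k u) : (16160000 : ℝ) ≤ (2 : ℝ) ^ u := by
  have h1 := h.hx
  have h2 : (16160 : ℝ) ≤ k := by exact_mod_cast h.k16
  linarith

theorem Scale.ux {k u : ℕ} (h : Scale k u) : 1616000 * (u : ℝ) ≤ (2 : ℝ) ^ u := by
  have h1 := h.hx
  have h2 : (1616 : ℝ) * u ≤ k := by exact_mod_cast h.h1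
  linarith

theorem Dl_mul {k u : ℕ} (h : Scale k u) : (Dl k u : ℝ) * ((2 : ℝ) ^ u) ^ 400 = 2 ^ k := by
  have h1 := h.h1
  unfold Dl
  push_cast
  rw [← pow_mul, ← pow_add]
  congr 1
  omega

theorem L_mul {k u : ℕ} (h : Scale k u) : (L k u : ℝ) * ((2 : ℝ) ^ u) ^ 808 = 4 ^ k := by
  have h1 := h.h1
  unfold L
  push_cast
  rw [← pow_mul, ← pow_add, show (4 : ℝ) = 2 ^ 2 by norm_num, ← pow_mul]
  congr 1
  omega

theorem Dl_pos (k u : ℕ) : 0 < (Dl k u : ℝ) := by unfold Dl; positivity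

theorem L_pos (k u : ℕ) : 0 < (L k u : ℝ) := by unfold L; positivity

theorem one_le_L (k u : ℕ) : (1 : ℝ) ≤ L k u := by
  unfold L; push_cast; exact one_le_pow₀ (by norm_num)

theorem one_le_Dl (k u : ℕ) : (1 : ℝ) ≤ Dl k u := by
  unfold Dl; push_cast; exact one_le_pow₀ (by norm_num)

theorem Dl_sq {k u : ℕ} (h : Scale k u) :
    (Dl k u : ℝ) ^ 2 = L k u * ((2 : ℝ) ^ u) ^ 8 := by
  have h1 := Dl_mul h
  have h2 := L_mul h
  have hx : (0 : ℝ) < (2 : ℝ) ^ u := by positivity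
  set x : ℝ := (2 : ℝ) ^ u
  have h3 : ((Dl k u : ℝ) * x ^ 400) ^ 2 = L k u * x ^ 808 := by
    rw [h1, h2, ← pow_mul, mul_comm, pow_mul]; norm_num
  have h4 : (Dl k u : ℝ) ^ 2 * x ^ 800 = (L k u * x ^ 8) * x ^ 800 := by
    calc (Dl k u : ℝ) ^ 2 * x ^ 800 = ((Dl k u : ℝ) * x ^ 400) ^ 2 := by ring
      _ = L k u * x ^ 808 := h3
      _ = _ := by ring
  exact mul_right_cancel₀ (by positivity) h4

theorem L_le {k u : ℕ} (h : Scale k u) : (L k u : ℝ) ≤ 4 ^ k := by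
  rw [← L_mul h]
  have h1 : (1 : ℝ) ≤ ((2 : ℝ) ^ u) ^ 808 := one_le_pow₀ (one_le_pow₀ (by norm_num))
  have := L_pos k u
  nlinarith

theorem tau_pos {k u : ℕ} : 0 < tau k u := by
  unfold tau hh
  have := Dl_pos k u
  have := L_pos k u
  positivity

theorem theta_pos {k u : ℕ} : 0 < theta k u := by
  unfold theta hh
  have := L_pos k u
  positivity

/-- `tau * Dl = x^5/4` -/
theorem tau_Dl {k u : ℕ} (h : Scale k u) : tau k u * Dl k u = ((2 : ℝ) ^ u) ^ 5 / 4 := by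
  have h1 := Dl_sq h
  have hx : (0 : ℝ) < (2 : ℝ) ^ u := by positivity
  have hL := L_pos k u
  unfold tau hh
  push_cast
  rw [div_mul_eq_mul_div, ← sq, h1]
  field_simp

/-- `L (hh tau)^2 = x^4/16` -/
theorem L_tau {k u : ℕ} (h : Scale k u) :
    L k u * (hh u * tau k u) ^ 2 = ((2 : ℝ) ^ u) ^ 4 / 16 := by
  have h1 := Dl_sq h
  have hx : (0 : ℝ) < (2 : ℝ) ^ u := by positivity
  have hL := L_pos k u
  unfold tau hh
  push_cast
  rw [mul_pow, div_pow, h1]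
  field_simp
  norm_num

/-! ### the operator calculus -/

theorem one_le_b (k u : ℕ) : 1 ≤ b k u := by
  unfold b
  have h1 : 1 ≤ cosh (hh u * tau k u) ^ L k u := one_le_pow₀ (one_le_cosh _)
  have h2 : 1 ≤ (1 + theta k u) ^ (2 * L k u) :=
    one_le_pow₀ (by have := theta_pos (k := k) (u := u); linarith)
  nlinarith

theorem theta_pow_le (k u : ℕ) : (1 + theta k u) ^ (4 * L k u) ≤ exp 1 := by
  have hth := theta_pos (k := k) (u := u)
  have h1 : 1 + theta k u ≤ exp (theta k u) := by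
    have := add_one_le_exp (theta k u); linarith
  calc (1 + theta k u) ^ (4 * L k u) ≤ exp (theta k u) ^ (4 * L k u) :=
        pow_le_pow_left₀ (by linarith) h1 _
    _ = exp ((4 * L k u : ℕ) * theta k u) := by rw [← exp_nat_mul]
    _ ≤ exp 1 := by
        apply exp_le_exp.mpr
        unfold theta
        push_cast
        have hL := L_pos k u
        rw [mul_one_div, div_le_one (by positivity)]
        have : (0 : ℝ) ≤ hh u := by positivity
        nlinarith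

theorem b_sq_le {k u : ℕ} (h : Scale k u) : b k u ^ 2 ≤ exp (((2 : ℝ) ^ u) ^ 4 / 16 + 1) := by
  unfold b
  rw [mul_pow, ← pow_mul, ← pow_mul, exp_add]
  have h1 : cosh (hh u * tau k u) ^ (L k u * 2) ≤ exp (((2 : ℝ) ^ u) ^ 4 / 16) := by
    calc cosh (hh u * tau k u) ^ (L k u * 2)
        ≤ exp ((hh u * tau k u) ^ 2 / 2) ^ (L k u * 2) :=
          pow_le_pow_left₀ (cosh_pos _).le (cosh_le_exp_half_sq _) _
      _ = exp ((L k u * 2 : ℕ) * ((hh u * tau k u) ^ 2 / 2)) := by rw [← exp_nat_mul]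
      _ = exp (((2 : ℝ) ^ u) ^ 4 / 16) := by
          congr 1
          rw [← L_tau h]
          push_cast
          ring
  have h2 := theta_pow_le k u
  have h3 : (1 + theta k u) ^ (2 * L k u * 2) ≤ exp 1 := by
    have : 2 * L k u * 2 = 4 * L k u := by ring
    rw [this]; exact h2
  refine mul_le_mul h1 h3 ?_ (exp_pos _).le
  have := theta_pos (k := k) (u := u)
  positivity

theorem two_le_exp : (2 : ℝ) ≤ exp 1 := by
  have := add_one_le_exp (1 : ℝ); linarith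

theorem two_pow_le_exp (j : ℕ) : (2 : ℝ) ^ j ≤ exp j := by
  calc (2 : ℝ) ^ j ≤ exp 1 ^ j := pow_le_pow_left₀ (by norm_num) two_le_exp _
    _ = exp j := by rw [← exp_nat_mul, mul_one]

theorem four_pow_le_exp (j : ℕ) : (4 : ℝ) ^ j ≤ exp (2 * j) := by
  have := two_pow_le_exp (2 * j)
  rw [pow_mul] at this
  norm_num at this
  exact this

theorem k_le_pow {k : ℕ} (hk : 4 ≤ k) : 3 * k ≤ 2 ^ k := by
  induction k, hk using Nat.le_induction with
  | base => norm_num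
  | succ n hn ih => rw [pow_succ]; omega

theorem N_le {k u N : ℕ} (h : Scale k u) (hN : 2 * N = 3 * nG k) : 2 * (N : ℝ) ≤ 4 ^ k := by
  have h1 := k_le_pow (k := k) (by have := h.k16; omega)
  have h2 : 2 * N ≤ 4 ^ k := by
    rw [hN]
    unfold nG
    calc 3 * (k * 2 ^ k) = (3 * k) * 2 ^ k := by ring
      _ ≤ 2 ^ k * 2 ^ k := Nat.mul_le_mul_right _ h1
      _ = 4 ^ k := by rw [← mul_pow]; norm_num
  exact_mod_cast h2

theorem N_le_exp {k u N : ℕ} (h : Scale k u) (hN : 2 * N = 3 * nG k) :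
    2 * (N : ℝ) ≤ exp (2 * k) := (N_le h hN).trans (four_pow_le_exp k)

theorem epsT_nonneg (k u N : ℕ) : 0 ≤ epsT k u N := by
  unfold epsT; positivity

theorem epsT_le {k u N : ℕ} (h : Scale k u) (hN : 2 * N = 3 * nG k) :
    epsT k u N ≤ exp (2 * k + (((2 : ℝ) ^ u) ^ 4 / 16 + 1) - ((2 : ℝ) ^ u) ^ 5 / 4) := by
  unfold epsT
  rw [tau_Dl h, sub_eq_add_neg, exp_add, exp_add]
  have h1 := N_le_exp h hN
  have h2 := b_sq_le h
  gcongr

/-- room: `x^5/8` beats everything else -/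
theorem room {k u : ℕ} (h : Scale k u) :
    ((2 : ℝ) ^ u) * (4 + (((2 : ℝ) ^ u) ^ 4 / 16 + 1)) +
      (2 * k + (((2 : ℝ) ^ u) ^ 4 / 16 + 1) - ((2 : ℝ) ^ u) ^ 5 / 4) ≤
      -(((2 : ℝ) ^ u) ^ 5 / 16) * 1 - ((2 : ℝ) ^ u) ^ 5 / 16 := by
  have h1 := h.hx
  have h2 := h.x_big
  set x : ℝ := (2 : ℝ) ^ u
  have hk : (k : ℝ) ≤ x := by linarith [(Nat.cast_nonneg k : (0 : ℝ) ≤ k)]
  have hx0 : 0 < x := by linarith
  have h4 : (16160000 : ℝ) * x ^ 4 ≤ x ^ 5 := by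
    have : 0 ≤ x ^ 4 := by positivity
    calc (16160000 : ℝ) * x ^ 4 ≤ x * x ^ 4 := mul_le_mul_of_nonneg_right h2 this
      _ = x ^ 5 := by ring
  have h5 : x ≤ x ^ 4 := by
    have : 1 ≤ x ^ 3 := one_le_pow₀ (by linarith)
    calc x = x * 1 := by ring
      _ ≤ x * x ^ 3 := mul_le_mul_of_nonneg_left this hx0.le
      _ = x ^ 4 := by ring
  have h6 : (1 : ℝ) ≤ x ^ 4 := one_le_pow₀ (by linarith)
  have h7 : x * (x ^ 4 / 16) = x ^ 5 / 16 := by ring
  nlinarith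

theorem gam_le {k u N : ℕ} (h : Scale k u) (hN : 2 * N = 3 * nG k) :
    (12 * b k u ^ 2) ^ hh u * epsT k u N ≤ exp (-(((2 : ℝ) ^ u) ^ 5 / 8)) := by
  have h1 : (12 * b k u ^ 2) ^ hh u ≤
      exp (((2 : ℝ) ^ u) * (4 + (((2 : ℝ) ^ u) ^ 4 / 16 + 1))) := by
    have h12 : (12 : ℝ) ≤ exp 4 := by
      have := two_pow_le_exp 4
      norm_num at this
      linarith
    calc (12 * b k u ^ 2) ^ hh u ≤ (exp 4 * exp (((2 : ℝ) ^ u) ^ 4 / 16 + 1)) ^ hh u := by
          apply pow_le_pow_left₀ (by positivity)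
          exact mul_le_mul h12 (b_sq_le h) (by positivity) (exp_pos _).le
      _ = exp (((2 : ℝ) ^ u) * (4 + (((2 : ℝ) ^ u) ^ 4 / 16 + 1))) := by
          rw [← exp_add, ← exp_nat_mul]
          congr 1
          unfold hh
          push_cast
          ring
  calc (12 * b k u ^ 2) ^ hh u * epsT k u N
      ≤ exp (((2 : ℝ) ^ u) * (4 + (((2 : ℝ) ^ u) ^ 4 / 16 + 1))) *
        exp (2 * k + (((2 : ℝ) ^ u) ^ 4 / 16 + 1) - ((2 : ℝ) ^ u) ^ 5 / 4) :=
        mul_le_mul h1 (epsT_le h hN) (epsT_nonneg _ _ _) (exp_pos _).le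
    _ = exp (((2 : ℝ) ^ u) * (4 + (((2 : ℝ) ^ u) ^ 4 / 16 + 1)) +
        (2 * k + (((2 : ℝ) ^ u) ^ 4 / 16 + 1) - ((2 : ℝ) ^ u) ^ 5 / 4)) := by rw [← exp_add]
    _ ≤ exp (-(((2 : ℝ) ^ u) ^ 5 / 8)) := by
        apply exp_le_exp.mpr
        have := room h
        linarith

theorem epsT_le_exp {k u N : ℕ} (h : Scale k u) (hN : 2 * N = 3 * nG k) :
    epsT k u N ≤ exp (-(((2 : ℝ) ^ u) ^ 5 / 8)) := by
  refine le_trans ?_ (gam_le h hN)
  refine le_mul_of_one_le_left (epsT_nonneg _ _ _) ?_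
  apply one_le_pow₀
  have := one_le_b k u
  nlinarith

theorem exp_le_theta {k u : ℕ} (h : Scale k u) :
    exp (-(((2 : ℝ) ^ u) ^ 5 / 8)) ≤ theta k u ^ 2 / 16 := by
  have h1 := h.hx
  have h2 := h.x_big
  have hL : (L k u : ℝ) ≤ exp (2 * k) := (L_le h).trans (four_pow_le_exp k)
  have hL0 := L_pos k u
  have hhx : (hh u : ℝ) = (2 : ℝ) ^ u := by unfold hh; push_cast; rfl
  have h3 : theta k u ^ 2 / 16 = 1 / (256 * (L k u : ℝ) ^ 2 * ((2 : ℝ) ^ u + 1) ^ 2) := by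
    unfold theta
    rw [hhx]
    have : (0 : ℝ) < 2 ^ u + 1 := by positivity
    field_simp
    norm_num
  rw [h3, exp_neg, ← one_div]
  have h256 : (256 : ℝ) ≤ exp 8 := by
    have := two_pow_le_exp 8
    norm_num at this
    linarith
  set x : ℝ := (2 : ℝ) ^ u
  have hx1 : x + 1 ≤ exp x := add_one_le_exp x
  apply one_div_le_one_div_of_le (by positivity)
  calc 256 * (L k u : ℝ) ^ 2 * (x + 1) ^ 2
      ≤ exp 8 * exp (2 * k) ^ 2 * exp x ^ 2 := by gcongr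
    _ = exp (8 + 4 * k + 2 * x) := by
        rw [← exp_nat_mul, ← exp_nat_mul, ← exp_add, ← exp_add]
        congr 1
        push_cast
        ring
    _ ≤ exp (x ^ 5 / 8) := by
        apply exp_le_exp.mpr
        have hk : (k : ℝ) ≤ x := by linarith [(Nat.cast_nonneg k : (0 : ℝ) ≤ k)]
        have h6 : x ≤ x ^ 5 / 1000 := by
          have : (1000 : ℝ) ≤ x ^ 4 := by
            calc (1000 : ℝ) ≤ x := by linarith
              _ = x ^ 1 := by ring
              _ ≤ x ^ 4 := pow_le_pow_right₀ (by linarith) (by norm_num)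
          have h8 : x * 1000 ≤ x * x ^ 4 := mul_le_mul_of_nonneg_left this (by linarith)
          have h9 : x * x ^ 4 = x ^ 5 := by ring
          linarith
        linarith

/-- (C4) -/
theorem gam_small {k u N : ℕ} (h : Scale k u) (hN : 2 * N = 3 * nG k) :
    (12 * b k u ^ 2) ^ hh u * epsT k u N ≤ theta k u ^ 2 / 16 :=
  (gam_le h hN).trans (exp_le_theta h)

theorem theta_le_one {k u : ℕ} : theta k u ≤ 1 / 4 := by
  unfold theta
  have h1 := one_le_L k u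
  have h2 : (0 : ℝ) ≤ hh u := by positivity
  apply one_div_le_one_div_of_le (by norm_num)
  nlinarith

theorem epsT_le_theta {k u N : ℕ} (h : Scale k u) (hN : 2 * N = 3 * nG k) :
    epsT k u N ≤ theta k u := by
  have h1 := (epsT_le_exp h hN).trans (exp_le_theta h)
  have h2 := theta_le_one (k := k) (u := u)
  have h3 := theta_pos (k := k) (u := u)
  nlinarith

/-- `(1+theta)^(2L(hh+1)) ≤ 2` -/
theorem theta_pow_two (k u : ℕ) : (1 + theta k u) ^ (2 * L k u * (hh u + 1)) ≤ 2 := by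
  have hth := theta_pos (k := k) (u := u)
  have h1 : 1 + theta k u ≤ exp (theta k u) := by
    have := add_one_le_exp (theta k u); linarith
  have h2 : exp (1 / 2 : ℝ) ≤ 2 := by
    have h3 : exp (1 / 2 : ℝ) ^ 2 = exp 1 := by
      rw [← exp_nat_mul]; norm_num
    have h4 := exp_one_lt_d9
    have h5 := exp_pos (1 / 2 : ℝ)
    nlinarith
  calc (1 + theta k u) ^ (2 * L k u * (hh u + 1)) ≤ exp (theta k u) ^ (2 * L k u * (hh u + 1)) :=
        pow_le_pow_left₀ (by linarith) h1 _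
    _ = exp ((2 * L k u * (hh u + 1) : ℕ) * theta k u) := by rw [← exp_nat_mul]
    _ = exp (1 / 2) := by
        congr 1
        unfold theta
        push_cast
        have hL := L_pos k u
        have : (0 : ℝ) < (hh u : ℝ) + 1 := by positivity
        field_simp
        norm_num
    _ ≤ 2 := h2

/-! ### the radii -/

theorem hh_cast (u : ℕ) : (hh u : ℝ) = (2 : ℝ) ^ u := by unfold hh; push_cast; rfl

theorem three_le_Dl {k u : ℕ} (h : Scale k u) : 3 ≤ Dl k u := by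
  have h1 := h.h1
  have h2 := h.u10
  unfold Dl
  calc 3 ≤ 2 ^ 2 := by norm_num
    _ ≤ 2 ^ (k - 400 * u) := Nat.pow_le_pow_right (by norm_num) (by omega)

theorem hh_lt_L {k u : ℕ} (h : Scale k u) : hh u + 1 ≤ L k u := by
  have h1 := h.h1
  have h2 := h.u10
  unfold hh L
  calc 2 ^ u + 1 ≤ 2 ^ u + 2 ^ u := by have := Nat.one_le_two_pow (n := u); omega
    _ = 2 ^ (u + 1) := by ring
    _ ≤ 2 ^ (2 * k - 808 * u) := Nat.pow_le_pow_right (by norm_num) (by omega)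

/-- (C1) with some room -/
theorem rad {k u : ℕ} (h : Scale k u) :
    8 * (6 * k) * ((5 * hh u + 6) * Dl k u + 8) < k * 2 ^ k := by
  have h1 := h.h1
  have h2 := h.h2
  have h3 := h.u10
  have hk := h.k16
  have hD : Dl k u * 2 ^ (400 * u) = 2 ^ k := by
    unfold Dl
    rw [← pow_add]
    congr 1
    omega
  have hD1 : 1 ≤ Dl k u := Nat.one_le_two_pow
  have h4 : 2 ^ u * 2 ^ u ≤ 2 ^ (400 * u) := by
    rw [← pow_add]; exact Nat.pow_le_pow_right (by norm_num) (by omega)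
  have h5 : (5 * hh u + 6) * Dl k u + 8 ≤ (5 * 2 ^ u + 14) * Dl k u := by
    unfold hh
    nlinarith
  rw [← hD]
  have hx : 16160000 ≤ 2 ^ u := by omega
  have h6 : 48 * (5 * 2 ^ u + 14) < 2 ^ u * 2 ^ u := by nlinarith
  calc 8 * (6 * k) * ((5 * hh u + 6) * Dl k u + 8)
      ≤ 8 * (6 * k) * ((5 * 2 ^ u + 14) * Dl k u) := Nat.mul_le_mul_left _ h5
    _ = (48 * (5 * 2 ^ u + 14)) * (k * Dl k u) := by ring
    _ < (2 ^ u * 2 ^ u) * (k * Dl k u) := by
        apply Nat.mul_lt_mul_of_pos_right h6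
        have : 0 < k := by omega
        positivity
    _ ≤ 2 ^ (400 * u) * (k * Dl k u) := Nat.mul_le_mul_right _ h4
    _ = k * (Dl k u * 2 ^ (400 * u)) := by ring

theorem two_m {k u : ℕ} (h : Scale k u) : 2 * m u = 2 ^ (3 * u) := by
  have h3 := h.u10
  unfold m
  rw [← pow_succ']
  congr 1
  omega

theorem d_eq {k u : ℕ} (h : Scale k u) : d u = 6 * 2 ^ (3 * u) := by
  rw [← two_m h]; rfl

theorem d_eq' (u : ℕ) : d u = 12 * m u := by unfold d q; ring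

/-- (C7), (C8) with some room -/
theorem rad' {k u : ℕ} (h : Scale k u) :
    16 * (6 * (8 * u)) * (2 * ((hh u + 6) * d u)) < 8 * u * 2 ^ (8 * u) := by
  have h2 := h.h2
  have hk := h.k16
  have h3 := h.u10
  rw [d_eq h]
  unfold hh
  have h8 : 2 ^ (8 * u) = 2 ^ (3 * u) * 2 ^ (5 * u) := by rw [← pow_add]; congr 1; ring
  have hx : 16160000 ≤ 2 ^ u := by omega
  have h5 : 2 ^ u * 2 ^ u ≤ 2 ^ (5 * u) := by
    rw [← pow_add]; exact Nat.pow_le_pow_right (by norm_num) (by omega)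
  have h6 : 1152 * (2 ^ u + 6) < 2 ^ (5 * u) := by nlinarith
  rw [h8]
  calc 16 * (6 * (8 * u)) * (2 * ((2 ^ u + 6) * (6 * 2 ^ (3 * u))))
      = (8 * u * 2 ^ (3 * u)) * (1152 * (2 ^ u + 6)) := by ring
    _ < (8 * u * 2 ^ (3 * u)) * 2 ^ (5 * u) := by
        apply Nat.mul_lt_mul_of_pos_left h6
        have : 0 < u := by omega
        positivity
    _ = 8 * u * (2 ^ (3 * u) * 2 ^ (5 * u)) := by ring

theorem qn {k u : ℕ} (h : Scale k u) : 8 * m u ≤ 8 * u * 2 ^ (8 * u) := by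
  have h3 := h.u10
  have h4 : m u ≤ 2 ^ (8 * u) := by
    unfold m; exact Nat.pow_le_pow_right (by norm_num) (by omega)
  calc 8 * m u ≤ 8 * 2 ^ (8 * u) := Nat.mul_le_mul_left _ h4
    _ ≤ 8 * u * 2 ^ (8 * u) := Nat.mul_le_mul_right _ (by omega)

/-! ### the tail probability -/

theorem th_pos (u : ℕ) : 0 < th u := by unfold th; positivity

theorem th_aux {k u : ℕ} (h : Scale k u) :
    (8 * u * (2 : ℝ) ^ (8 * u)) * (2 * (6 * k) * ((hh u + 2) * Dl k u + 1)) / (k * 2 ^ k) ≤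
      th u := by
  have hk : (0 : ℝ) < k := by have := h.k16; exact_mod_cast (by omega : 0 < k)
  have hD := Dl_mul h
  have hD1 := one_le_Dl k u
  have hx := h.x_big
  have hux := h.ux
  rw [hh_cast, ← hD, show (2 : ℝ) ^ (8 * u) = ((2 : ℝ) ^ u) ^ 8 by rw [← pow_mul, mul_comm]]
  unfold th
  set x : ℝ := (2 : ℝ) ^ u
  have hx0 : 0 < x := by linarith
  have hu0 : (0 : ℝ) ≤ u := Nat.cast_nonneg u
  have h1 : (x + 2) * Dl k u + 1 ≤ 2 * x * Dl k u := by nlinarith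
  have h2 : 192 * (u : ℝ) ≤ x := by linarith
  rw [div_le_div_iff₀ (by positivity) (by positivity)]
  calc 8 * u * x ^ 8 * (2 * (6 * k) * ((x + 2) * Dl k u + 1)) * x ^ 390
      ≤ 8 * u * x ^ 8 * (2 * (6 * k) * (2 * x * Dl k u)) * x ^ 390 := by gcongr
    _ = (192 * u) * (k * x ^ 399 * Dl k u) := by ring
    _ ≤ x * (k * x ^ 399 * Dl k u) := mul_le_mul_of_nonneg_right h2 (by positivity)
    _ = 1 * (k * (Dl k u * x ^ 400)) := by ring

/-! ### the final inequality -/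

theorem A_le {k u : ℕ} (h : Scale k u) :
    (12 * u * (2 : ℝ) ^ (8 * u) + 1) ^ (2 * d u) ≤ (((2 : ℝ) ^ u) ^ m u) ^ 216 := by
  have hx := h.x_big
  have hux := h.ux
  rw [show (2 : ℝ) ^ (8 * u) = ((2 : ℝ) ^ u) ^ 8 by rw [← pow_mul, mul_comm]]
  set x : ℝ := (2 : ℝ) ^ u
  have hx0 : 0 < x := by linarith
  have hu0 : (0 : ℝ) ≤ u := Nat.cast_nonneg u
  have h8 : (1 : ℝ) ≤ x ^ 8 := one_le_pow₀ (by linarith)
  have h1 : 12 * u * x ^ 8 + 1 ≤ x ^ 9 := by
    calc 12 * u * x ^ 8 + 1 ≤ 12 * u * x ^ 8 + x ^ 8 := by linarith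
      _ = (12 * u + 1) * x ^ 8 := by ring
      _ ≤ x * x ^ 8 := by
          apply mul_le_mul_of_nonneg_right _ (by positivity)
          linarith
      _ = x ^ 9 := by ring
  clear_value x
  calc (12 * u * x ^ 8 + 1) ^ (2 * d u) ≤ (x ^ 9) ^ (2 * d u) :=
        pow_le_pow_left₀ (by positivity) h1 _
    _ = (x ^ m u) ^ 216 := by
        rw [← pow_mul, ← pow_mul, d_eq']
        congr 1
        ring

theorem th_pow (u : ℕ) : th u ^ m u = 1 / (((2 : ℝ) ^ u) ^ m u) ^ 390 := by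
  unfold th
  rw [div_pow, one_pow, pow_right_comm]

theorem epsT_le_X {k u N : ℕ} (h : Scale k u) (hN : 2 * N = 3 * nG k) :
    epsT k u N ≤ 1 / (((2 : ℝ) ^ u) ^ m u) ^ 390 := by
  refine (epsT_le_exp h hN).trans ?_
  have hx := h.x_big
  have hm : (m u : ℝ) = ((2 : ℝ) ^ u) ^ 3 / 2 := by
    have h1 := two_m h
    have h2 : (2 : ℝ) * m u = (2 : ℝ) ^ (3 * u) := by exact_mod_cast h1
    have h3 : (2 : ℝ) ^ (3 * u) = ((2 : ℝ) ^ u) ^ 3 := by rw [← pow_mul, mul_comm]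
    rw [h3] at h2
    linarith
  set x : ℝ := (2 : ℝ) ^ u
  have hx0 : 0 < x := by linarith
  rw [exp_neg, ← one_div]
  apply one_div_le_one_div_of_le (by positivity)
  have hxe : x ≤ exp x := by have := add_one_le_exp x; linarith
  calc (x ^ m u) ^ 390 = x ^ (m u * 390) := by rw [← pow_mul]
    _ ≤ exp x ^ (m u * 390) := pow_le_pow_left₀ hx0.le hxe _
    _ = exp ((m u * 390 : ℕ) * x) := by rw [← exp_nat_mul]
    _ ≤ exp (x ^ 5 / 8) := by
        apply exp_le_exp.mpr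
        push_cast
        rw [hm]
        have h4 : 0 ≤ x ^ 4 := by positivity
        have h5 : x ^ 3 / 2 * 390 * x = 195 * x ^ 4 := by ring
        have h6 : x ^ 5 = x * x ^ 4 := by ring
        rw [h5, h6]
        nlinarith

theorem fin_aux (h k : ℕ) (X Y P AA ML L ET C : ℝ) (hX1 : 1 ≤ X) (hY0 : 0 ≤ Y) (hP0 : 0 ≤ P)
    (hPY : P * Y * (X * X * X * X * X) ≤ 1) (hL0 : 0 ≤ L) (hL : L ≤ 4 ^ k)
    (hA : AA ≤ P) (hML0 : 0 ≤ ML) (g1 : ML ≤ 2 * 2 ^ h * 4 ^ k) (hET0 : 0 ≤ ET)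
    (g2 : ET ≤ 3 * Y) (f1 : 6144 ≤ X) (hC0 : 0 ≤ C) (f2 : C + 100 ≤ X) (f3 : (30 : ℝ) ^ h ≤ X)
    (f4 : ((4 : ℝ) ^ k) ^ h ≤ X) (f5 : (256 : ℝ) ^ k ≤ X) :
    AA * (8 * 3 ^ h * (8 * (ML * (16 * L * ET)) * (5 * L) ^ h)) * ((C + 100) * L ^ 2) ≤ 1 := by
  have e4 : (0 : ℝ) ≤ 4 ^ k := by positivity
  have h3 : (0 : ℝ) ≤ 3 ^ h := by positivity
  have s1 : ML * (16 * L * ET) ≤ (2 * 2 ^ h * 4 ^ k) * (16 * 4 ^ k * (3 * Y)) := by
    gcongr
  have s2 : (5 * L) ^ h ≤ (5 * 4 ^ k) ^ h := by gcongr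
  have s3 : 8 * 3 ^ h * (8 * (ML * (16 * L * ET)) * (5 * L) ^ h) ≤
      8 * 3 ^ h * (8 * ((2 * 2 ^ h * 4 ^ k) * (16 * 4 ^ k * (3 * Y))) *
        (5 * 4 ^ k) ^ h) := by gcongr
  have s4 : (C + 100) * L ^ 2 ≤ X * (4 ^ k) ^ 2 := by gcongr
  calc AA * (8 * 3 ^ h * (8 * (ML * (16 * L * ET)) * (5 * L) ^ h)) * ((C + 100) * L ^ 2)
      ≤ P * (8 * 3 ^ h * (8 * ((2 * 2 ^ h * 4 ^ k) * (16 * 4 ^ k * (3 * Y))) *
        (5 * 4 ^ k) ^ h)) * (X * (4 ^ k) ^ 2) := by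
        apply mul_le_mul _ s4 (by positivity) (by positivity)
        exact mul_le_mul hA s3 (by positivity) hP0
    _ = P * Y * (6144 * 30 ^ h * ((4 : ℝ) ^ k) ^ h * 256 ^ k * X) := by
        rw [mul_pow (5 : ℝ), show (256 : ℝ) = 4 * 4 * 4 * 4 by norm_num,
          show (30 : ℝ) = 3 * 2 * 5 by norm_num]
        simp only [mul_pow]
        ring
    _ ≤ P * Y * (X * X * X * X * X) := by gcongr
    _ ≤ 1 := hPY

theorem fin_le {k u N M : ℕ} {C : ℝ} (h : Scale k u) (hN : 2 * N = 3 * nG k)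
    (hM : (M : ℝ) ≤ 2 ^ hh u) (hC0 : 0 ≤ C) (hC : C ≤ 2 ^ u) :
    (12 * u * (2 : ℝ) ^ (8 * u) + 1) ^ (2 * d u) *
      (8 * 3 ^ hh u * (8 * ((M * L k u + N) *
        (16 * L k u * (2 * th u ^ m u + epsT k u N))) * (5 * L k u) ^ hh u)) *
      ((C + 100) * (L k u : ℝ) ^ 2) ≤ 1 := by
  have hA := A_le h
  have hth := th_pow u
  have heT := epsT_le_X h hN
  have heT0 := epsT_nonneg k u N
  have hx := h.x_big
  have hkx := h.hx
  have hL0 := L_pos k u
  have hL := L_le h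
  have hNr : (N : ℝ) ≤ 4 ^ k := by
    have := N_le h hN
    have h0 : (0 : ℝ) ≤ N := Nat.cast_nonneg N
    linarith
  have hk0 : (0 : ℝ) ≤ k := Nat.cast_nonneg k
  -- exponents
  have hm2 : (2 ^ u) * (2 ^ u) ≤ m u := by
    unfold m
    rw [← pow_add]
    have := h.u10
    exact Nat.pow_le_pow_right (by norm_num) (by omega)
  have hu1 : 1 ≤ 2 ^ u := Nat.one_le_two_pow
  have hkn : k ≤ 2 ^ u := by have := h.h2; omega
  have hm1 : 2 ^ u ≤ m u := by nlinarith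
  have hm3 : k * 2 ^ u ≤ m u := (Nat.mul_le_mul_right _ hkn).trans hm2
  have hm4 : k ≤ m u := hkn.trans hm1
  have hm5 : 2 ≤ m u := by
    have := h.h2
    have : 1000 ≤ 2 ^ u := by omega
    omega
  have hhx : hh u = 2 ^ u := rfl
  have hx1 : 1 ≤ (2 : ℝ) ^ u := by linarith
  have hx0 : 0 < (2 : ℝ) ^ u := by linarith
  generalize (2 : ℝ) ^ u = x at *
  have hX0 : 0 < x ^ m u := by positivity
  have hX1 : 1 ≤ x ^ m u := one_le_pow₀ hx1
  have f1 : (6144 : ℝ) ≤ x ^ m u := by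
    calc (6144 : ℝ) ≤ x := by linarith
      _ = x ^ 1 := by ring
      _ ≤ x ^ m u := pow_le_pow_right₀ hx1 (by omega)
  have f2 : (C : ℝ) + 100 ≤ x ^ m u := by
    calc (C : ℝ) + 100 ≤ 2 * x := by linarith
      _ ≤ x * x := by nlinarith
      _ = x ^ 2 := by ring
      _ ≤ x ^ m u := pow_le_pow_right₀ hx1 hm5
  have f3 : (30 : ℝ) ^ hh u ≤ x ^ m u := by
    calc (30 : ℝ) ^ hh u ≤ x ^ hh u := pow_le_pow_left₀ (by norm_num) (by linarith) _
      _ ≤ x ^ m u := pow_le_pow_right₀ hx1 hm1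
  have f4 : ((4 : ℝ) ^ k) ^ hh u ≤ x ^ m u := by
    rw [← pow_mul]
    calc (4 : ℝ) ^ (k * hh u) ≤ x ^ (k * hh u) := pow_le_pow_left₀ (by norm_num) (by linarith) _
      _ ≤ x ^ m u := pow_le_pow_right₀ hx1 hm3
  have f5 : (256 : ℝ) ^ k ≤ x ^ m u := by
    calc (256 : ℝ) ^ k ≤ x ^ k := pow_le_pow_left₀ (by norm_num) (by linarith) _
      _ ≤ x ^ m u := pow_le_pow_right₀ hx1 hm4
  have g1 : (M : ℝ) * L k u + N ≤ 2 * 2 ^ hh u * 4 ^ k := by
    have h1 : (M : ℝ) * L k u ≤ 2 ^ hh u * 4 ^ k :=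
      mul_le_mul hM hL hL0.le (by positivity)
    have h2 : (1 : ℝ) ≤ 2 ^ hh u := one_le_pow₀ (by norm_num)
    have h3 : (0 : ℝ) ≤ 4 ^ k := by positivity
    nlinarith
  have hMLN : (0 : ℝ) ≤ (M : ℝ) * L k u + N := by positivity
  have hthe : 0 ≤ 2 * th u ^ m u + epsT k u N :=
    add_nonneg (mul_nonneg (by norm_num) (pow_nonneg (th_pos u).le _)) heT0
  generalize x ^ m u = X at *
  have g2 : 2 * th u ^ m u + epsT k u N ≤ 3 * (1 / X ^ 390) := by
    rw [hth]; linarith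
  refine fin_aux (hh u) k X (1 / X ^ 390) (X ^ 216) _ _ _ _ C hX1 (by positivity) (by positivity)
    ?_ hL0.le hL hA hMLN g1 hthe g2 f1 hC0 f2 f3 f4 f5
  have e : X ^ 216 * (1 / X ^ 390) * (X * X * X * X * X) = X ^ 221 / X ^ 390 := by ring
  rw [e, div_le_one (by positivity)]
  exact pow_le_pow_right₀ hX1 (by norm_num)

/-! ### Lemma B: the structure `Nums` -/

theorem N_eq {k : ℕ} (hk : 1 ≤ k) : 2 * (3 * k * 2 ^ (k - 1)) = 3 * nG k := by
  unfold nG
  obtain ⟨j, rfl⟩ := Nat.exists_eq_add_of_le hk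
  have : 1 + j - 1 = j := by omega
  rw [this, add_comm 1 j, pow_succ]
  ring

theorem NH_eq {u : ℕ} (hu : 1 ≤ u) : 3 * (8 * u) * 2 ^ (8 * u - 1) = 12 * u * 2 ^ (8 * u) := by
  obtain ⟨j, hj⟩ : ∃ j, 8 * u = j + 1 := ⟨8 * u - 1, by omega⟩
  rw [hj, pow_succ, Nat.add_sub_cancel, ← hj]
  ring

/-- the numbers for a given scale -/
theorem nums_of_scale {k u M nn : ℕ} {C : ℝ} (h : Scale k u) (hM : M ≤ 2 ^ 2 ^ u)
    (hC0 : 0 ≤ C) (hC : C ≤ 2 ^ u) (hnn : nn ≤ 2 ^ u) :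
    Nonempty (Nums k (8 * u) (2 ^ u) (2 ^ (2 * k - 808 * u)) M nn C) := by
  have hk := h.k16
  have hu := h.u10
  have hN := N_eq (k := k) (by omega)
  have hfin := fin_le (M := M) h hN (by unfold hh; exact_mod_cast hM) hC0 hC
  refine ⟨{
    Dl := Dl k u
    d := d u
    p := m u
    τ := tau k u
    b := b k u
    θ := theta k u
    th := th u
    hk := by omega
    hk' := by omega
    D3 := three_le_Dl h
    τ0 := tau_pos.le
    θ0 := theta_pos.le
    θ1 := theta_le_one.trans (by norm_num)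
    th0 := (th_pos u).le
    hL := hh_lt_L h
    hn := hnn
    hh1 := Nat.one_le_two_pow
    hb := le_refl _
    hγ := gam_small h hN
    hθ := theta_pow_two k u
    rad := lt_of_le_of_lt ?_ (rad h)
    rad' := lt_of_le_of_lt ?_ (rad' h)
    qd := (d_eq' u).ge
    qn := qn h
    th1 := ?_
    th2 := ?_
    fin := ?_ }⟩
  · unfold hh
    gcongr
    norm_num
  · unfold hh
    gcongr
    norm_num
  · refine le_trans ?_ (th_aux h)
    rw [NH_eq (by omega)]
    unfold hh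
    push_cast
    have hk0 : (0 : ℝ) < k := by exact_mod_cast (by omega : 0 < k)
    have hD0 := Dl_pos k u
    gcongr ?_ / _
    have e1 : (0 : ℝ) ≤ u * (2 : ℝ) ^ (8 * u) * ((2 ^ u + 2) * Dl k u + 1) * k := by positivity
    nlinarith
  · refine le_trans ?_ (th_aux h)
    unfold hh
    push_cast
    have hk0 : (0 : ℝ) < k := by exact_mod_cast (by omega : 0 < k)
    have hD0 := Dl_pos k u
    gcongr ?_ / _
    have e1 : (0 : ℝ) ≤ u * (2 : ℝ) ^ (8 * u) * ((2 ^ u + 2) * Dl k u + 1) * k := by positivity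
    nlinarith
  · rw [NH_eq (by omega)]
    have e : (((12 * u * 2 ^ (8 * u) : ℕ) : ℝ) + 1) = 12 * u * (2 : ℝ) ^ (8 * u) + 1 := by
      push_cast; ring
    rw [e]
    exact hfin

theorem exists_scale (mm : ℕ) (A : ℕ) : ∃ u₀ : ℕ, ∀ u ≥ u₀, A * (mm * (u + 1) + 1) ≤ 2 ^ u := by
  refine ⟨2 * (2 * (A * mm) + A + 1), fun u hu => ?_⟩
  obtain ⟨v, hv⟩ : ∃ v, v = u / 2 := ⟨_, rfl⟩
  have h1 : v < 2 ^ v := Nat.lt_two_pow_self
  have h2 : 2 * (A * mm) + A + 1 ≤ v := by omega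
  have h3 : 2 ^ v * 2 ^ v ≤ 2 ^ u := by
    rw [← pow_add]; exact Nat.pow_le_pow_right (by norm_num) (by omega)
  have h4 : (v + 1) * (v + 1) ≤ 2 ^ v * 2 ^ v := Nat.mul_le_mul h1 h1
  refine le_trans ?_ (h4.trans h3)
  have h5 : u + 1 ≤ 2 * (v + 1) := by omega
  calc A * (mm * (u + 1) + 1) = (A * mm) * (u + 1) + A := by ring
    _ ≤ (A * mm) * (2 * (v + 1)) + A * (v + 1) := by
        apply Nat.add_le_add (Nat.mul_le_mul_left _ h5)
        exact Nat.le_mul_of_pos_right _ (by omega)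
    _ = (2 * (A * mm) + A) * (v + 1) := by ring
    _ ≤ (v + 1) * (v + 1) := Nat.mul_le_mul_right _ (by omega)

/-- **Lemma B** -/
theorem par_B (mm : ℕ) (hm : 1616 ≤ mm) (nn : ℕ) (C : ℝ) (hC : 0 ≤ C) :
    ∃ k₀ : ℕ, ∀ k ≥ k₀, ∀ M : ℕ, M ≤ 2 ^ 2 ^ (k / mm) →
      Nonempty (Nums k (8 * (k / mm)) (2 ^ (k / mm)) (2 ^ (2 * k - 808 * (k / mm))) M nn C) := by
  obtain ⟨u₀, hu₀⟩ := exists_scale mm 1000
  obtain ⟨c, hc⟩ := exists_nat_ge C
  refine ⟨mm * (u₀ + c + nn), fun k hk M hM => ?_⟩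
  set u := k / mm with hu
  have hu1 : u₀ + c + nn ≤ u := by
    rw [hu, Nat.le_div_iff_mul_le (by omega), mul_comm]; exact hk
  have h1 : mm * u ≤ k := Nat.mul_div_le k mm
  have h2 : k < mm * (u + 1) := Nat.lt_mul_div_succ k (by omega)
  have hlt : u < 2 ^ u := Nat.lt_two_pow_self
  have hs : Scale k u := by
    refine ⟨(Nat.mul_le_mul_right u hm).trans h1, ?_⟩
    refine le_trans ?_ (hu₀ u (by omega))
    apply Nat.mul_le_mul_left
    omega
  refine nums_of_scale hs hM hC ?_ (by omega)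
  have : (c : ℝ) ≤ 2 ^ u := by
    have : c ≤ 2 ^ u := by omega
    exact_mod_cast this
  linarith

end

end Par

end Pool.Agent.EFT
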