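import Pool.Agent.Lib.EFT.ParA
import Pool.Agent.Lib.EFT.ParB

/-!
# R14 of project EF: the numbers exist
-/

set_option autoImplicit false

namespace Pool.Agent.EFT

/-- the exponent `c` does not depend on the rules -/
theorem exists_nums' {ε : ℝ} (hε : 0 < ε) : ∃ c : ℝ, 0 < c ∧ ∀ (nn : ℕ) (C : ℝ), 0 ≤ C →
    ∃ k₀ : ℕ, ∀ k ≥ k₀, ∀ hh L M : ℕ,
    (L : ℝ) ≤ ((3 * k * 2 ^ (k - 1) : ℕ) : ℝ) ^ (2 - ε) →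
    (hh : ℝ) ≤ ((3 * k * 2 ^ (k - 1) : ℕ) : ℝ) ^ c →
    (M : ℝ) < 2 ^ (((3 * k * 2 ^ (k - 1) : ℕ) : ℝ) ^ c) →
    ∃ k' hh' L' : ℕ, hh ≤ hh' ∧ L ≤ L' ∧ Nonempty (Nums k k' hh' L' M nn C) := by
  obtain ⟨m, hm, c, hc, k₁, hA⟩ := par_A hε
  refine ⟨c, hc, fun nn C hC => ?_⟩
  obtain ⟨k₂, hB⟩ := Par.par_B m hm nn C hC
  refine ⟨max k₁ k₂, fun k hk hh L M h1 h2 h3 => ?_⟩
  obtain ⟨a1, a2, a3⟩ := hA k ((le_max_left _ _).trans hk)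
  exact ⟨8 * (k / m), 2 ^ (k / m), 2 ^ (2 * k - 808 * (k / m)), a2 hh h2, a1 L h1,
    hB k ((le_max_right _ _).trans hk) M (a3 M h3)⟩

theorem exists_nums : ExistsNums := by
  intro ε hε nn C hC
  obtain ⟨c, hc, h⟩ := exists_nums' hε
  obtain ⟨k₀, h⟩ := h nn C hC
  exact ⟨c, hc, k₀, h⟩

end Pool.Agent.EFT
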