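import Mathlib

/-!
# The real exponents of the EF project (first half of R14)

`E = 3 k 2^(k-1)` is the number of edges of `CCC_k`, `u = k / m`.
-/

set_option autoImplicit false

namespace Pool.Agent.EFT

open Filter Topology

/-- `E = 3 k 2^(k-1)` is at most `2^(k + x)` if `3 k ≤ 2^(x+1)`. -/
theorem edges_le {k : ℕ} (hk : 1 ≤ k) {x : ℝ} (hx : (3 * k : ℝ) ≤ 2 ^ (x + 1)) :
    ((3 * k * 2 ^ (k - 1) : ℕ) : ℝ) ≤ (2 : ℝ) ^ ((k : ℝ) + x) := by
  have e1 : ((3 * k * 2 ^ (k - 1) : ℕ) : ℝ) = (3 * k : ℝ) * (2 : ℝ) ^ ((k : ℝ) - 1) := by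
    push_cast
    congr 1
    rw [← Real.rpow_natCast]
    congr 1
    push_cast [hk]
    ring
  rw [e1]
  calc (3 * k : ℝ) * (2 : ℝ) ^ ((k : ℝ) - 1) ≤ 2 ^ (x + 1) * (2 : ℝ) ^ ((k : ℝ) - 1) := by
        gcongr
    _ = (2 : ℝ) ^ ((k : ℝ) + x) := by
        rw [← Real.rpow_add (by norm_num)]; congr 1; ring

theorem one_le_edges {k : ℕ} (hk : 1 ≤ k) : (1 : ℝ) ≤ ((3 * k * 2 ^ (k - 1) : ℕ) : ℝ) := by
  have : 1 ≤ 3 * k * 2 ^ (k - 1) := Nat.one_le_iff_ne_zero.mpr (by positivity)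
  exact_mod_cast this

/-- Eventually `3 k ≤ 2 ^ (a k + 1)` for every `a > 0`. -/
theorem eventually_three_mul {a : ℝ} (ha : 0 < a) :
    ∃ k₀ : ℕ, ∀ k : ℕ, k₀ ≤ k → (3 * k : ℝ) ≤ 2 ^ (a * k + 1) := by
  have h1 : (1 : ℝ) < 2 ^ a := Real.one_lt_rpow (by norm_num) ha
  have h2 := (tendsto_pow_const_div_const_pow_of_one_lt 1 h1).eventually
    (gt_mem_nhds (by norm_num : (0 : ℝ) < 2 / 3))
  rw [eventually_atTop] at h2
  obtain ⟨k₀, hk₀⟩ := h2
  refine ⟨k₀, fun k hk => ?_⟩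
  have h3 := hk₀ k hk
  have hp : (0 : ℝ) < ((2 : ℝ) ^ a) ^ k := by positivity
  rw [pow_one, div_lt_iff₀ hp] at h3
  have h4 : ((2 : ℝ) ^ a) ^ k = 2 ^ (a * k) := by
    rw [Real.rpow_mul (by norm_num), Real.rpow_natCast]
  rw [Real.rpow_add (by norm_num), Real.rpow_one, ← h4]
  linarith

/-- **Real exponents.** For every `ε > 0` there are `m`, `c > 0`, such that for large `k` the three
bounds with exponents `2 - ε` and `c` are bounds by powers of two in terms of `u = k / m`. -/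
theorem par_A {ε : ℝ} (hε : 0 < ε) : ∃ m : ℕ, 1616 ≤ m ∧ ∃ c : ℝ, 0 < c ∧ ∃ k₀ : ℕ, ∀ k ≥ k₀,
    (∀ L : ℕ, (L : ℝ) ≤ ((3 * k * 2 ^ (k - 1) : ℕ) : ℝ) ^ (2 - ε) →
      L ≤ 2 ^ (2 * k - 808 * (k / m))) ∧
    (∀ hh : ℕ, (hh : ℝ) ≤ ((3 * k * 2 ^ (k - 1) : ℕ) : ℝ) ^ c → hh ≤ 2 ^ (k / m)) ∧
    (∀ M : ℕ, (M : ℝ) < 2 ^ (((3 * k * 2 ^ (k - 1) : ℕ) : ℝ) ^ c) → M ≤ 2 ^ (2 ^ (k / m))) := by
  -- work with `e = min ε 1`
  set e : ℝ := min ε 1 with he
  have he0 : 0 < e := lt_min hε one_pos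
  have he1 : e ≤ 1 := min_le_right _ _
  have heε : e ≤ ε := min_le_left _ _
  obtain ⟨m, hm⟩ := exists_nat_ge (1616 / e)
  have hm0 : (1616 : ℝ) ≤ m := by
    refine le_trans ?_ hm
    rw [le_div_iff₀ he0]; nlinarith
  have hme : 1616 ≤ e * m := by
    have := (div_le_iff₀ he0).mp hm
    linarith
  have hmN : 1616 ≤ m := by exact_mod_cast hm0
  have hmpos : 0 < m := by omega
  obtain ⟨k₁, hk₁⟩ := eventually_three_mul (a := e / 4) (by positivity)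
  refine ⟨m, hmN, 1 / (4 * m), by positivity, max k₁ (2 * m), fun k hk => ?_⟩
  have hk1 : k₁ ≤ k := (le_max_left _ _).trans hk
  have hk2 : 2 * m ≤ k := (le_max_right _ _).trans hk
  have hkpos : 1 ≤ k := by omega
  have hkr : (0 : ℝ) < k := by exact_mod_cast (by omega : 0 < k)
  set E : ℝ := ((3 * k * 2 ^ (k - 1) : ℕ) : ℝ) with hE
  have hE1 : 1 ≤ E := one_le_edges hkpos
  have hEle : E ≤ (2 : ℝ) ^ ((k : ℝ) + e / 4 * k) := edges_le hkpos (hk₁ k hk1)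
  set u := k / m with hu
  have humk : m * u ≤ k := Nat.mul_div_le k m
  have hku : k < m * (u + 1) := Nat.lt_mul_div_succ k hmpos
  have hu1 : (k : ℝ) < m * (u + 1) := by exact_mod_cast hku
  have hu2 : (m : ℝ) * u ≤ k := by exact_mod_cast humk
  have hu3 : (k : ℝ) / (2 * m) ≤ u := by
    rw [div_le_iff₀ (by positivity)]
    have : (2 * m : ℝ) ≤ k := by exact_mod_cast hk2
    nlinarith
  -- the second bound as a real inequality
  have hc : E ^ (1 / (4 * (m : ℝ))) ≤ 2 ^ (u : ℝ) := by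
    calc E ^ (1 / (4 * (m : ℝ))) ≤ ((2 : ℝ) ^ ((k : ℝ) + e / 4 * k)) ^ (1 / (4 * (m : ℝ))) :=
          Real.rpow_le_rpow (by linarith) hEle (by positivity)
      _ = 2 ^ (((k : ℝ) + e / 4 * k) * (1 / (4 * (m : ℝ)))) := by
          rw [← Real.rpow_mul (by norm_num)]
      _ ≤ 2 ^ (u : ℝ) := by
          apply Real.rpow_le_rpow_of_exponent_le (by norm_num)
          refine le_trans ?_ hu3
          rw [mul_one_div, div_le_div_iff₀ (by positivity) (by positivity)]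
          nlinarith [mul_pos hkr (by positivity : (0 : ℝ) < m)]
  refine ⟨fun L hL => ?_, fun hh hhh => ?_, fun M hM => ?_⟩
  · -- leaves
    have h808 : 808 * u ≤ 2 * k := by
      have : 1616 * u ≤ m * u := Nat.mul_le_mul_right _ hmN
      omega
    have h1 : (L : ℝ) ≤ 2 ^ ((2 * k - 808 * u : ℕ) : ℝ) := by
      calc (L : ℝ) ≤ E ^ (2 - ε) := hL
        _ ≤ E ^ (2 - e) := Real.rpow_le_rpow_of_exponent_le hE1 (by linarith)
        _ ≤ ((2 : ℝ) ^ ((k : ℝ) + e / 4 * k)) ^ (2 - e) :=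
          Real.rpow_le_rpow (by linarith) hEle (by linarith)
        _ = 2 ^ (((k : ℝ) + e / 4 * k) * (2 - e)) := by rw [← Real.rpow_mul (by norm_num)]
        _ ≤ 2 ^ ((2 * k - 808 * u : ℕ) : ℝ) := by
          apply Real.rpow_le_rpow_of_exponent_le (by norm_num)
          rw [Nat.cast_sub h808]
          push_cast
          -- `808 u ≤ 808 k / m ≤ e k / 2`
          have h2 : 808 * (u : ℝ) ≤ e * k / 2 := by
            have h3 : 1616 * (u : ℝ) ≤ e * m * u := by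
              have : (0 : ℝ) ≤ u := Nat.cast_nonneg _
              nlinarith
            have h4 : e * (m * u : ℝ) ≤ e * k := mul_le_mul_of_nonneg_left hu2 he0.le
            linarith
          nlinarith [mul_pos hkr he0, mul_pos hkr (mul_pos he0 he0)]
    have h5 : ((L : ℕ) : ℝ) ≤ ((2 ^ (2 * k - 808 * u) : ℕ) : ℝ) := by
      push_cast
      rwa [Real.rpow_natCast] at h1
    exact_mod_cast h5
  · have h1 : ((hh : ℕ) : ℝ) ≤ ((2 ^ u : ℕ) : ℝ) := by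
      push_cast
      have := hhh.trans hc
      rwa [Real.rpow_natCast] at this
    exact_mod_cast h1
  · have h1 : ((M : ℕ) : ℝ) ≤ ((2 ^ (2 ^ u) : ℕ) : ℝ) := by
      push_cast
      have h2 : (2 : ℝ) ^ (E ^ (1 / (4 * (m : ℝ)))) ≤ 2 ^ ((2 : ℝ) ^ (u : ℝ)) :=
        Real.rpow_le_rpow_of_exponent_le (by norm_num) hc
      have h3 := hM.le.trans h2
      have h4 : (2 : ℝ) ^ ((2 : ℝ) ^ (u : ℝ)) = (2 : ℝ) ^ (2 ^ u : ℕ) := by
        rw [Real.rpow_natCast, ← Real.rpow_natCast 2 (2 ^ u)]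
        push_cast
        rfl
      rwa [h4] at h3
    exact_mod_cast h1

end Pool.Agent.EFT
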