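import Pool.Agent.Lib.EFT.Star

/-!
# EF project (MP_e81270): restriction of a world to a smaller one (row R6; helper63)

`G` is the big world, `H` the small one, `κ : V' → V` a map of the vertices, `r` a vector on the
edges of `G` with `bd r = b + κ_* b'`.
-/

set_option autoImplicit false

namespace Pool.Agent.EFT

open Finset World

noncomputable section

/-- Pairing of vectors over `F_2`. -/
def dot {A : Type} [Fintype A] (S T : A → ZMod 2) : ZMod 2 := ∑ e, S e * T e

lemma dot_add_left {A : Type} [Fintype A] (S S' T : A → ZMod 2) :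
    dot (S + S') T = dot S T + dot S' T := by
  simp only [dot, Pi.add_apply, add_mul, sum_add_distrib]

lemma dot_comm {A : Type} [Fintype A] (S T : A → ZMod 2) : dot S T = dot T S := by
  simp only [dot, mul_comm]

lemma dot_zero_left {A : Type} [Fintype A] (T : A → ZMod 2) : dot 0 T = 0 := by
  simp [dot]

/-- `χ_S(r) = (-1)^⟨S, r⟩`. -/
def chr {A : Type} [Fintype A] (S r : A → ZMod 2) : ℝ := chi (dot S r)

lemma chr_add {A : Type} [Fintype A] (S S' r : A → ZMod 2) :
    chr (S + S') r = chr S r * chr S' r := by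
  unfold chr
  rw [dot_add_left, chi_add]

lemma chr_mul_self {A : Type} [Fintype A] (S r : A → ZMod 2) : chr S r * chr S r = 1 :=
  chi_mul_self _

lemma chr_zero {A : Type} [Fintype A] (r : A → ZMod 2) : chr 0 r = 1 := by
  unfold chr
  rw [dot_zero_left, chi_zero]

namespace World

variable {V E V' E' : Type} [Fintype V] [Fintype E] [Fintype V'] [Fintype E']

/-- The pull-back of edge vectors. -/
def pull (G : World V E) (H : World V' E') (κ : V' → V) :
    (E → ZMod 2) →ₗ[ZMod 2] (E' → ZMod 2) where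
  toFun S e' := ∑ e, S e * G.X (κ (H.src e')) (κ (H.tgt e')) e
  map_add' S S' := by
    ext e'
    simp only [Pi.add_apply, add_mul, sum_add_distrib]
  map_smul' c S := by
    ext e'
    simp only [Pi.smul_apply, smul_eq_mul, RingHom.id_apply, mul_sum, mul_assoc]

/-- `r` has boundary `b + κ_* b'`. -/
def Om (G : World V E) (H : World V' E') (κ : V' → V) (r : E → ZMod 2) : Prop :=
  ∀ W : V → ZMod 2, dot (G.cut W) r = ∑ v, G.b v * W v + ∑ v, H.b v * W (κ v)

/-- The vector of `T` in the small world. -/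
def Xi (H : World V' E') (D : ℕ) (T : E' → ZMod 2) : H.Hs :=
  if wt T ≤ D then H.Z T (H.dl 0) else 0

/-- The restriction. -/
def Rs (G : World V E) (H : World V' E') (κ : V' → V) (D : ℕ) (r : E → ZMod 2) :
    G.Hs →ₗ[ℝ] H.Hs where
  toFun v := ∑ s, v s • (chr (G.rep s) r • H.Xi D (G.pull H κ (G.rep s)))
  map_add' u v := by
    simp only [PiLp.add_apply, add_smul, sum_add_distrib]
  map_smul' c v := by
    simp only [PiLp.smul_apply, smul_eq_mul, RingHom.id_apply, smul_sum, mul_smul]

/-- The pair `(s, T)` is good. -/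
structure Good (G : World V E) (H : World V' E') (κ : V' → V) (D : ℕ) (s : G.K)
    (T : E → ZMod 2) : Prop where
  w1 : wt (G.pull H κ (G.rep s)) ≤ D
  w2 : wt (G.pull H κ (G.rep (s + G.cls T))) ≤ D
  w3 : wt (G.pull H κ T) ≤ D
  sm : ∃ W : V → ZMod 2, G.small W ∧ G.cut W = G.rep s + T + G.rep (s + G.cls T) ∧
    H.small fun v => W (κ v)

/-! ### basic facts -/

lemma K_neg (G : World V E) {s t : G.K} : s + t = 0 ↔ s = t := by
  constructor
  · intro h
    calc s = s + (t + t) := by rw [G.K_add_self, add_zero]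
      _ = (s + t) + t := by rw [add_assoc]
      _ = t := by rw [h, zero_add]
  · rintro rfl
    exact G.K_add_self s

open Classical in
lemma dl_apply (G : World V E) (s t : G.K) : G.dl s t = if t = s then (1 : ℝ) else 0 := rfl

/-- every vector is a combination of the unit vectors -/
lemma sum_dl (G : World V E) (v : G.Hs) : ∑ s, v s • G.dl s = v := by
  ext t
  rw [WithLp.ofLp_sum, Finset.sum_apply, Finset.sum_eq_single t]
  · simp [dl_self]
  · intro s _ hs
    rw [PiLp.smul_apply, dl_apply, if_neg (Ne.symm hs), smul_zero]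
  · intro h
    exact absurd (mem_univ t) h

lemma Z_dl0 (G : World V E) (T : E → ZMod 2) :
    G.Z T (G.dl 0) = G.sg (T + G.rep (G.cls T)) • G.dl (G.cls T) := by
  rw [Z_dl, zero_add]
  congr 1
  unfold zs
  rw [rep_zero, zero_add, zero_add]

/-- Adding a cut with a small side to `T`. -/
lemma Z_cut_dl0 (G : World V E) {D : ℕ} {T C : E → ZMod 2} {W : V → ZMod 2} (hW : G.small W)
    (hC : G.cut W = C) (hT : wt T ≤ 2 * D) (hTC : wt (T + C) ≤ D)
    (hD : 16 * G.Lam * D < Fintype.card V) :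
    G.Z (T + C) (G.dl 0) = G.sg C • G.Z T (G.dl 0) := by
  have hCc : C ∈ G.Cut := ⟨W, hC⟩
  have hcls : G.cls (T + C) = G.cls T := by
    rw [cls_add, G.cls_eq_zero.2 hCc, add_zero]
  have hdeg : G.deg (G.cls T) ≤ D := by
    rw [← hcls]
    exact (G.deg_le _).trans hTC
  have hcut : T + G.rep (G.cls T) ∈ G.Cut := by
    rw [← cls_eq_zero, cls_add, cls_rep, K_add_self]
  have hw1 : wt (T + G.rep (G.cls T)) ≤ 3 * D := by
    have h1 := wt_add T (G.rep (G.cls T))
    rw [wt_rep] at h1
    omega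
  have hw2 : wt (C + (T + G.rep (G.cls T))) ≤ 2 * D := by
    have e : C + (T + G.rep (G.cls T)) = (T + C) + G.rep (G.cls T) := by abel
    rw [e]
    have h1 := wt_add (T + C) (G.rep (G.cls T))
    rw [wt_rep] at h1
    omega
  have hb1 : 4 * G.Lam * wt (T + G.rep (G.cls T)) < Fintype.card V := by
    refine lt_of_le_of_lt ?_ hD
    calc 4 * G.Lam * wt (T + G.rep (G.cls T)) ≤ 4 * G.Lam * (3 * D) :=
          Nat.mul_le_mul_left _ hw1
      _ ≤ 16 * G.Lam * D := by nlinarith [Nat.zero_le (G.Lam * D)]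
  have hb2 : 4 * G.Lam * wt (C + (T + G.rep (G.cls T))) < Fintype.card V := by
    refine lt_of_le_of_lt ?_ hD
    calc 4 * G.Lam * wt (C + (T + G.rep (G.cls T))) ≤ 4 * G.Lam * (2 * D) :=
          Nat.mul_le_mul_left _ hw2
      _ ≤ 16 * G.Lam * D := by nlinarith [Nat.zero_le (G.Lam * D)]
  have hsg := G.sg_add ⟨W, hW, hC⟩ (G.small_exists hcut hb1)
    (G.small_exists (G.Cut.add_mem hCc hcut) hb2)
  rw [Z_dl0, Z_dl0, hcls, smul_smul, ← hsg]
  congr 2
  abel

lemma Xi_of (H : World V' E') {D : ℕ} {T : E' → ZMod 2} (h : wt T ≤ D) :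
    H.Xi D T = H.Z T (H.dl 0) := if_pos h

lemma norm_Xi_le (H : World V' E') (D : ℕ) (T : E' → ZMod 2) : ‖H.Xi D T‖ ≤ 1 := by
  unfold Xi
  split_ifs
  · rw [Z_norm, norm_dl]
  · rw [norm_zero]
    exact zero_le_one

lemma Xi_low (H : World V' E') (D : ℕ) (T : E' → ZMod 2) : H.Xi D T ∈ H.Low D := by
  unfold Xi
  split_ifs with h
  · intro s hs
    refine H.Z_low (r := 0) ?_ s (by omega)
    have := H.dl_low 0
    rwa [deg_zero] at this
  · exact (H.Low D).zero_mem

/-! ### pulling back -/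

lemma pull_apply (G : World V E) (H : World V' E') (κ : V' → V) (S : E → ZMod 2) (e' : E') :
    G.pull H κ S e' = ∑ e, S e * G.X (κ (H.src e')) (κ (H.tgt e')) e := rfl

lemma pull_cut (G : World V E) (H : World V' E') (κ : V' → V) (W : V → ZMod 2) :
    G.pull H κ (G.cut W) = H.cut fun v => W (κ v) := by
  ext e'
  rw [pull_apply]
  have h := G.pair_cut (κ (H.src e')) (κ (H.tgt e')) W
  simp only [mul_comm] at h ⊢
  rw [h]
  rfl

lemma Rs_apply (G : World V E) (H : World V' E') (κ : V' → V) (D : ℕ) (r : E → ZMod 2)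
    (v : G.Hs) : G.Rs H κ D r v =
      ∑ s, v s • (chr (G.rep s) r • H.Xi D (G.pull H κ (G.rep s))) := rfl

lemma Rs_dl (G : World V E) (H : World V' E') (κ : V' → V) (D : ℕ) (r : E → ZMod 2) (s : G.K) :
    G.Rs H κ D r (G.dl s) = chr (G.rep s) r • H.Xi D (G.pull H κ (G.rep s)) := by
  rw [Rs_apply, Finset.sum_eq_single s]
  · rw [dl_self, one_smul]
  · intro t _ ht
    rw [dl_apply, if_neg ht, zero_smul]
  · intro h
    exact absurd (mem_univ s) h

lemma Rs_low (G : World V E) (H : World V' E') (κ : V' → V) (D : ℕ) (r : E → ZMod 2)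
    (v : G.Hs) : G.Rs H κ D r v ∈ H.Low D := by
  rw [Rs_apply]
  refine (H.Low D).sum_mem fun s _ => (H.Low D).smul_mem _ ((H.Low D).smul_mem _ ?_)
  exact H.Xi_low D _

lemma pl_sg_zero (G : World V E) (hn : 0 < Fintype.card V) : G.sg 0 = 1 := by
  rw [G.sg_eq (W := 0) (by unfold small; rw [wt_zero]; omega) (map_zero _)]
  simp [chi_zero]

lemma pl_Z_zero (G : World V E) (hn : 0 < Fintype.card V) : G.Z 0 (G.dl 0) = G.dl 0 := by
  rw [Z_dl0, cls_zero, rep_zero, add_zero, pl_sg_zero G hn, one_smul]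

lemma Rs_zero (G : World V E) (H : World V' E') (κ : V' → V) (D : ℕ) (r : E → ZMod 2)
    (hn : 0 < Fintype.card V') : G.Rs H κ D r (G.dl 0) = H.dl 0 := by
  rw [Rs_dl, rep_zero, map_zero, chr_zero, one_smul, Xi_of H (by rw [wt_zero]; omega),
    pl_Z_zero H hn]

/-- (R1): the restriction intertwines the operators at the good pairs. -/
theorem Rs_Z (G : World V E) (H : World V' E') (κ : V' → V) {D : ℕ} {r : E → ZMod 2}
    (hr : G.Om H κ r) {s : G.K} {T : E → ZMod 2} (hg : G.Good H κ D s T)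
    (hD : 16 * H.Lam * D < Fintype.card V') :
    G.Rs H κ D r (G.Z T (G.dl s)) = chr T r • H.Z (G.pull H κ T) (G.Rs H κ D r (G.dl s)) := by
  obtain ⟨w1, w2, w3, W, hW, hcut, hWk⟩ := hg
  set C := G.rep s + T + G.rep (s + G.cls T) with hC
  set T1 := G.pull H κ (G.rep s) with hT1
  set T2 := G.pull H κ T with hT2
  set C' := H.cut (fun v => W (κ v)) with hC'
  -- the representative of `s + [T]`
  have hrep : G.rep (s + G.cls T) = G.rep s + T + C := by
    rw [hC]
    have h1 : ∀ A B : E → ZMod 2, B = A + (A + B) := by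
      intro A B
      rw [← add_assoc]
      have : A + A = 0 := by ext e; exact zmod2_add_self _
      rw [this, zero_add]
    exact h1 _ _
  have hpull : G.pull H κ (G.rep (s + G.cls T)) = (T1 + T2) + C' := by
    rw [hrep, map_add, map_add, ← hcut, pull_cut]
  have hchi : chr (G.rep (s + G.cls T)) r = chr (G.rep s) r * chr T r * chr C r := by
    rw [hrep, chr_add, chr_add]
  have hsgC : G.sg C = chi (∑ v, G.b v * W v) := G.sg_eq hW hcut
  have hsgC' : H.sg C' = chi (∑ v, H.b v * W (κ v)) := H.sg_eq hWk rfl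
  have hchC : chr C r = G.sg C * H.sg C' := by
    have h1 : chr C r = chi (∑ v, G.b v * W v + ∑ v, H.b v * W (κ v)) := by
      unfold chr
      rw [← hr W, hcut]
    rw [h1, chi_add, hsgC, hsgC']
  have hzs : G.zs T s = G.sg C := rfl
  -- the small world
  have hT12 : wt (T1 + T2) ≤ 2 * D := by
    have := wt_add T1 T2
    omega
  have hA := H.Z_cut_dl0 (T := T1 + T2) (C := C') (D := D) hWk rfl hT12
    (by rw [← hpull]; exact w2) hD
  have hB : H.Z T2 (H.Z T1 (H.dl 0)) = H.Z (T1 + T2) (H.dl 0) := by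
    have h0 := H.dl_low 0
    rw [deg_zero] at h0
    rw [H.W5 h0, add_comm]
    have h1 : 0 + wt T2 + wt T1 ≤ 2 * D := by omega
    calc 8 * H.Lam * (0 + wt T2 + wt T1) ≤ 8 * H.Lam * (2 * D) := Nat.mul_le_mul_left _ h1
      _ = 16 * H.Lam * D := by ring
      _ < _ := hD
  rw [Z_dl, map_smul, Rs_dl, Rs_dl, Xi_of H w2, Xi_of H w1, hpull, hA, map_smul, hB, hchi, hzs,
    hchC]
  simp only [smul_smul]
  congr 1
  have e1 := G.sg_mul_self C
  have e2 := H.sg_mul_self C'
  calc G.sg C * (chr (G.rep s) r * chr T r * (G.sg C * H.sg C') * H.sg C')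
      = (chr T r * chr (G.rep s) r) * (G.sg C * G.sg C) * (H.sg C' * H.sg C') := by ring
    _ = chr T r * chr (G.rep s) r := by rw [e1, e2, mul_one, mul_one]

end World

end

end Pool.Agent.EFT
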