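import Pool.Agent.Lib.EFT.Pull

/-!
# EF project (MP_e81270): the defect of the restriction only sees the bad pairs (helper63)
-/

set_option autoImplicit false

namespace Pool.Agent.EFT

open Finset World

noncomputable section

namespace World

variable {V E V' E' : Type} [Fintype V] [Fintype E] [Fintype V'] [Fintype E']

/-- `R P_e y - f_e * R y`. -/
def De (G : World V E) (H : World V' E') (κ : V' → V) (D : ℕ) (r : E → ZMod 2) (e : E)
    (y : G.Hs) : H.Hs :=
  G.Rs H κ D r (G.P e y) - (1 / 2 : ℝ) • (G.Rs H κ D r y -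
    chr (one e) r • H.Z (G.pull H κ (one e)) (G.Rs H κ D r y))

open Classical in
/-- First half: the pairs which are bad, moved by `e`. -/
def DeA (G : World V E) (H : World V' E') (κ : V' → V) (D : ℕ) (r : E → ZMod 2) (e : E)
    (y : G.Hs) : H.Hs :=
  ∑ s, chr (G.rep (s + G.cls (one e))) r • ((if G.Good H κ D s (one e) then (0 : ℝ)
    else y s * G.zs (one e) s) • H.Xi D (G.pull H κ (G.rep (s + G.cls (one e)))))

open Classical in
/-- Second half: the pairs which are bad. -/
def DeB (G : World V E) (H : World V' E') (κ : V' → V) (D : ℕ) (r : E → ZMod 2) (e : E)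
    (y : G.Hs) : H.Hs :=
  ∑ s, chr (G.rep s) r • ((if G.Good H κ D s (one e) then (0 : ℝ) else y s) •
    H.Xi D (G.pull H κ (G.rep s)))

theorem De_eq (G : World V E) (H : World V' E') (κ : V' → V) {D : ℕ} {r : E → ZMod 2}
    (hr : G.Om H κ r) (hD : 16 * H.Lam * D < Fintype.card V') (e : E) (y : G.Hs) :
    G.De H κ D r e y = (-(1 / 2) : ℝ) • (G.DeA H κ D r e y -
      chr (one e) r • H.Z (G.pull H κ (one e)) (G.DeB H κ D r e y)) := by
  classical
  have h1 : G.De H κ D r e y = (-(1 / 2) : ℝ) • (G.Rs H κ D r (G.Z (one e) y) -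
      chr (one e) r • H.Z (G.pull H κ (one e)) (G.Rs H κ D r y)) := by
    unfold De
    rw [P_apply, map_smul, map_sub]
    simp only [smul_sub, neg_smul]
    abel
  have h2 : G.Rs H κ D r (G.Z (one e) y) - chr (one e) r • H.Z (G.pull H κ (one e))
      (G.Rs H κ D r y) = ∑ s, y s • (G.Rs H κ D r (G.Z (one e) (G.dl s)) -
        chr (one e) r • H.Z (G.pull H κ (one e)) (G.Rs H κ D r (G.dl s))) := by
    nth_rewrite 1 2 [← G.sum_dl y]
    simp only [map_sum, map_smul, smul_sub, Finset.smul_sum, Finset.sum_sub_distrib]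
    congr 1
    refine Finset.sum_congr rfl fun s _ => ?_
    rw [smul_comm]
  have h3 : G.DeA H κ D r e y - chr (one e) r • H.Z (G.pull H κ (one e)) (G.DeB H κ D r e y) =
      ∑ s, y s • (G.Rs H κ D r (G.Z (one e) (G.dl s)) -
        chr (one e) r • H.Z (G.pull H κ (one e)) (G.Rs H κ D r (G.dl s))) := by
    unfold DeA DeB
    rw [map_sum, Finset.smul_sum, ← Finset.sum_sub_distrib]
    refine Finset.sum_congr rfl fun s _ => ?_
    by_cases hg : G.Good H κ D s (one e)
    · rw [if_pos hg, if_pos hg, zero_smul, zero_smul, smul_zero, smul_zero, map_zero, smul_zero,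
        sub_zero, G.Rs_Z H κ hr hg hD, sub_self, smul_zero]
    · rw [if_neg hg, if_neg hg]
      simp only [Z_dl, map_smul, Rs_dl, smul_sub, smul_smul]
      congr 2
      · ring
      · ring
  rw [h1, h2, h3]

end World

end

end Pool.Agent.EFT
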