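import Pool.Agent.Lib.EFT.Om
import Pool.Agent.Lib.EFT.Mom

/-!
# Project EF, row R9a: second moments of the restriction (helper49)
-/

set_option autoImplicit false

namespace Pool.Agent.EFT

open Finset World

noncomputable section

namespace World

variable {V E V' E' : Type} [Fintype V] [Fintype E] [Fintype V'] [Fintype E']

/-- the commutation defect `R P_e y - f_e * R y` (for a general `T` in place of `e`) -/
def Df (G : World V E) (H : World V' E') (κ : V' → V) (D : ℕ) (r : E → ZMod 2) (T : E → ZMod 2) :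
    G.Hs →ₗ[ℝ] H.Hs :=
  (1 / 2 : ℝ) • (chr T r • (H.Z (G.pull H κ T) ∘ₗ G.Rs H κ D r) - G.Rs H κ D r ∘ₗ G.Z T)

lemma Df_apply (G : World V E) (H : World V' E') (κ : V' → V) (D : ℕ) (r : E → ZMod 2)
    (T : E → ZMod 2) (y : G.Hs) :
    G.Df H κ D r T y = (1 / 2 : ℝ) • (chr T r • H.Z (G.pull H κ T) (G.Rs H κ D r y)
      - G.Rs H κ D r (G.Z T y)) := rfl

lemma chr_abs {A : Type} [Fintype A] (S r : A → ZMod 2) : |chr S r| = 1 := chi_abs _

/-- the second moment of the defect for fixed `κ` -/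
theorem Df_moment (G : World V E) (H : World V' E') (κ : V' → V) (D : ℕ) (T : E → ZMod 2)
    (hR2 : ∀ w : G.K → H.Hs, ∑ r ∈ G.OmF H κ, ‖∑ s, chr (G.rep s) r • w s‖ ^ 2
      = ((G.OmF H κ).card : ℝ) * ∑ s, ‖w s‖ ^ 2)
    (hZ : ∀ s r, G.Good H κ D s T → G.Om H κ r →
      G.Rs H κ D r (G.Z T (G.dl s)) = chr T r • H.Z (G.pull H κ T) (G.Rs H κ D r (G.dl s)))
    [DecidablePred fun s => G.Good H κ D s T]
    (y : G.Hs) :
    ∑ r ∈ G.OmF H κ, ‖G.Df H κ D r T y‖ ^ 2
      ≤ ((G.OmF H κ).card : ℝ) * ∑ s ∈ univ.filter (fun s => ¬ G.Good H κ D s T), (y s) ^ 2 := by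
  classical
  have hRs : ∀ r s, G.Rs H κ D r (G.dl s) = chr (G.rep s) r • H.Xi D (G.pull H κ (G.rep s)) := by
    intro r s
    change ∑ t, G.dl s t • (chr (G.rep t) r • H.Xi D (G.pull H κ (G.rep t))) = _
    rw [Finset.sum_eq_single s]
    · rw [dl_self, one_smul]
    · intro t _ ht
      rw [G.dl_ne ht, zero_smul]
    · intro h; exact absurd (mem_univ _) h
  have key := moment_defect (S := G.K) (R := E → ZMod 2) (F := H.Hs) (G.OmF H κ)
    (fun s r => chr (G.rep s) r) hR2 (fun s => H.Xi D (G.pull H κ (G.rep s)))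
    (fun s => H.norm_Xi_le D _) (fun s => s + G.cls T)
    (fun s => by rw [add_assoc, K_add_self, add_zero]) (fun s => G.zs T s)
    (fun s => G.sg_abs _) (fun s => G.zs_symm T s) (fun r => chr T r) (fun r => chr_abs _ _)
    (H.Z (G.pull H κ T)) (fun u => H.Z_norm _ u) (fun s => G.Good H κ D s T)
    (by
      intro s hs r hr
      have hr' : G.Om H κ r := (mem_filter.mp hr).2
      have h1 := hZ s r hs hr'
      rw [Z_dl, map_smul, hRs, hRs, map_smul, smul_smul, smul_smul] at h1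
      exact h1)
    (fun s => y s)
  refine le_trans (le_of_eq ?_) key
  apply Finset.sum_congr rfl
  intro r _
  rw [Df_apply]
  have e1 : G.Rs H κ D r (G.Z T y)
      = ∑ s, (chr (G.rep s) r * (G.zs T s * y (s + G.cls T))) • H.Xi D (G.pull H κ (G.rep s)) := by
    change ∑ s, (G.Z T y) s • (chr (G.rep s) r • H.Xi D (G.pull H κ (G.rep s))) = _
    apply Finset.sum_congr rfl
    intro s _
    rw [Z_apply, smul_smul]
    congr 1
    ring
  have e2 : G.Rs H κ D r y
      = ∑ s, (chr (G.rep s) r * y s) • H.Xi D (G.pull H κ (G.rep s)) := by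
    change ∑ s, y s • (chr (G.rep s) r • H.Xi D (G.pull H κ (G.rep s))) = _
    apply Finset.sum_congr rfl
    intro s _
    rw [smul_smul]
    congr 1
    ring
  rw [e1, e2, norm_smul, norm_smul, norm_sub_rev]

/-- the projection to degrees `> d` -/
def Hi (G : World V E) (d : ℕ) : G.Hs →ₗ[ℝ] G.Hs where
  toFun v := WithLp.toLp 2 fun s => if d < G.deg s then v s else 0
  map_add' u v := by
    ext s
    by_cases h : d < G.deg s <;> simp [h]
  map_smul' c v := by
    ext s
    by_cases h : d < G.deg s <;> simp [h]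

lemma Hi_apply (G : World V E) (d : ℕ) (v : G.Hs) (s : G.K) :
    G.Hi d v s = if d < G.deg s then v s else 0 := rfl

lemma Hi_norm (G : World V E) (d : ℕ) (v : G.Hs) : ‖G.Hi d v‖ ≤ ‖v‖ := by
  have h : ‖G.Hi d v‖ ^ 2 ≤ ‖v‖ ^ 2 := by
    rw [norm_sq_eq, norm_sq_eq]
    apply Finset.sum_le_sum
    intro s _
    rw [Hi_apply]
    split_ifs
    · exact le_refl _
    · simp; positivity
  exact (abs_le_of_sq_le_sq' h (norm_nonneg _)).2

lemma Hi_of_low (G : World V E) {d : ℕ} {v : G.Hs} (hv : v ∈ G.Low d) : G.Hi d v = 0 := by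
  ext s
  rw [Hi_apply]
  split_ifs with h
  · rw [hv s h]; rfl
  · rfl

/-- the second moment of the high part of `R y`, fixed `κ` -/
theorem Hi_moment (G : World V E) (H : World V' E') (κ : V' → V) (D d : ℕ)
    (hR2 : ∀ w : G.K → H.Hs, ∑ r ∈ G.OmF H κ, ‖∑ s, chr (G.rep s) r • w s‖ ^ 2
      = ((G.OmF H κ).card : ℝ) * ∑ s, ‖w s‖ ^ 2)
    (y : G.Hs) :
    ∑ r ∈ G.OmF H κ, ‖H.Hi d (G.Rs H κ D r y)‖ ^ 2
      ≤ ((G.OmF H κ).card : ℝ) *
        ∑ s ∈ univ.filter (fun s => d < wt (G.pull H κ (G.rep s))), (y s) ^ 2 := by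
  classical
  have key := moment_sel (S := G.K) (R := E → ZMod 2) (F := H.Hs) (G.OmF H κ)
    (fun s r => chr (G.rep s) r) hR2 (fun s => H.Xi D (G.pull H κ (G.rep s)))
    (H.Hi d) (fun s => d < wt (G.pull H κ (G.rep s)))
    (fun s => (H.Hi_norm d _).trans (H.norm_Xi_le D _))
    (by
      intro s hs
      apply Hi_of_low
      unfold Xi
      split_ifs
      · have h1 := H.Z_low (T := G.pull H κ (G.rep s)) (H.dl_zero_low 0)
        rw [zero_add] at h1
        exact H.low_mono (not_lt.mp hs) h1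
      · exact Submodule.zero_mem _)
    (fun s => y s)
  refine le_trans (le_of_eq ?_) key
  apply Finset.sum_congr rfl
  intro r _
  have e2 : G.Rs H κ D r y
      = ∑ s, (chr (G.rep s) r * y s) • H.Xi D (G.pull H κ (G.rep s)) := by
    change ∑ s, y s • (chr (G.rep s) r • H.Xi D (G.pull H κ (G.rep s))) = _
    apply Finset.sum_congr rfl
    intro s _
    rw [smul_smul]
    congr 1
    ring
  rw [e2]

/-- the whole second moment of `R y`, fixed `κ` -/
theorem Rs_moment (G : World V E) (H : World V' E') (κ : V' → V) (D : ℕ)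
    (hR2 : ∀ w : G.K → H.Hs, ∑ r ∈ G.OmF H κ, ‖∑ s, chr (G.rep s) r • w s‖ ^ 2
      = ((G.OmF H κ).card : ℝ) * ∑ s, ‖w s‖ ^ 2)
    (y : G.Hs) :
    ∑ r ∈ G.OmF H κ, ‖G.Rs H κ D r y‖ ^ 2 ≤ ((G.OmF H κ).card : ℝ) * ‖y‖ ^ 2 := by
  classical
  have key := moment_sel (S := G.K) (R := E → ZMod 2) (F := H.Hs) (G.OmF H κ)
    (fun s r => chr (G.rep s) r) hR2 (fun s => H.Xi D (G.pull H κ (G.rep s)))
    LinearMap.id (fun _ => True)
    (fun s => H.norm_Xi_le D _)
    (by intro s hs; exact absurd trivial hs)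
    (fun s => y s)
  rw [norm_sq_eq]
  refine le_trans (le_of_eq ?_) (key.trans (le_of_eq ?_))
  · apply Finset.sum_congr rfl
    intro r _
    have e2 : G.Rs H κ D r y
        = ∑ s, (chr (G.rep s) r * y s) • H.Xi D (G.pull H κ (G.rep s)) := by
      change ∑ s, y s • (chr (G.rep s) r • H.Xi D (G.pull H κ (G.rep s))) = _
      apply Finset.sum_congr rfl
      intro s _
      rw [smul_smul]
      congr 1
      ring
    rw [e2]; rfl
  · simp

/-! ### counting the bad `κ` -/

lemma wt_pull (G : World V E) (H : World V' E') (κ : V' → V) (S : E → ZMod 2) :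
    wt (G.pull H κ S) = (univ.filter fun e' : E' =>
      (∑ e, S e * G.X (κ (H.src e')) (κ (H.tgt e')) e) ≠ 0).card := rfl

lemma card_B (G : World V E) (S : E → ZMod 2) :
    ((univ.filter fun p : V × V => (∑ e, S e * G.X p.1 p.2 e) ≠ 0).card : ℝ)
      ≤ (wt S * G.Lam : ℝ) * Fintype.card V := by
  classical
  have hcov : (univ.filter fun p : V × V => (∑ e, S e * G.X p.1 p.2 e) ≠ 0)
      ⊆ (univ.filter fun e => S e ≠ 0).biUnion
        (fun e => univ.filter fun pq : V × V => G.X pq.1 pq.2 e ≠ 0) := by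
    intro p hp
    simp only [mem_filter, mem_univ, true_and, mem_biUnion] at hp ⊢
    obtain ⟨e, _, he⟩ := Finset.exists_ne_zero_of_sum_ne_zero hp
    exact ⟨e, left_ne_zero_of_mul he, right_ne_zero_of_mul he⟩
  have h1 : (univ.filter fun p : V × V => (∑ e, S e * G.X p.1 p.2 e) ≠ 0).card
      ≤ wt S * (G.Lam * Fintype.card V) :=
    (card_le_card hcov).trans (card_biUnion_le_card_mul _ _ _ fun e _ => G.cong e)
  calc ((univ.filter fun p : V × V => (∑ e, S e * G.X p.1 p.2 e) ≠ 0).card : ℝ)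
      ≤ ((wt S * (G.Lam * Fintype.card V) : ℕ) : ℝ) := by exact_mod_cast h1
    _ = _ := by push_cast; ring

/-- tail of the weight of a pull-back -/
theorem card_pull_tail [DecidableEq V'] [DecidableEq E'] (G : World V E) (H : World V' E')
    (hloop : ∀ e, H.src e ≠ H.tgt e)
    (D0 : ℕ) (hD0 : 1 ≤ D0)
    (hdeg : ∀ v, (univ.filter fun e => H.src e = v ∨ H.tgt e = v).card ≤ D0)
    (hV : 0 < Fintype.card V) (S : E → ZMod 2) (q D : ℕ) (hD : 2 * D0 * q ≤ D) :
    ((univ.filter fun κ : V' → V => D < wt (G.pull H κ S)).card : ℝ)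
      ≤ (Fintype.card E' * (wt S * G.Lam) / Fintype.card V : ℝ) ^ q
        * (Fintype.card V : ℝ) ^ Fintype.card V' := by
  classical
  have h := card_tail_pairs (V' := V') (E' := E')
    (fun a b : V => (∑ e, S e * G.X a b e) ≠ 0) H.src H.tgt hloop D0 hD0
    hdeg (wt S * G.Lam : ℝ) hV (G.card_B S) q
  refine le_trans ?_ h
  have hsub : (univ.filter fun κ : V' → V => D < wt (G.pull H κ S))
      ⊆ (univ.filter fun κ : V' → V => 2 * D0 * q ≤ (univ.filter fun e' : E' =>
        (∑ e, S e * G.X (κ (H.src e')) (κ (H.tgt e')) e) ≠ 0).card) := by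
    intro κ hκ
    rw [mem_filter] at hκ ⊢
    refine ⟨mem_univ _, ?_⟩
    have := hκ.2
    rw [wt_pull] at this
    omega
  exact_mod_cast card_le_card hsub

end World

end

end Pool.Agent.EFT
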