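import Pool.Agent.Lib.EFT.Par

/-!
# The numbers for the balanced lines (project EF, strong form, helper15)
-/

set_option autoImplicit false

open Filter Topology

namespace Pool.Agent.EFT

namespace Strong

/-- number of edges of `CCC_k` -/
noncomputable def NE (k : ℕ) : ℝ := ((3 * k * 2 ^ (k - 1) : ℕ) : ℝ)

theorem tendsto_NE : Tendsto NE atTop atTop := by
  unfold NE
  refine tendsto_natCast_atTop_atTop.comp ?_
  refine tendsto_atTop_mono (f := fun k : ℕ => k) (fun k => ?_) tendsto_id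
  have h1 : 1 ≤ 2 ^ (k - 1) := Nat.one_le_two_pow
  nlinarith

theorem ev_pow {a : ℝ} (ha : 0 < a) (c : ℝ) : ∀ᶠ x : ℝ in atTop, c ≤ x ^ a :=
  (tendsto_rpow_atTop ha).eventually_ge_atTop c

theorem ev_log {a : ℝ} (ha : 0 < a) : ∀ᶠ x : ℝ in atTop, Real.log x ≤ x ^ a := by
  have h := (isLittleO_log_rpow_atTop ha).bound (c := 1) one_pos
  filter_upwards [h, eventually_gt_atTop 1] with x hx h1
  rw [one_mul, Real.norm_of_nonneg (Real.log_nonneg h1.le),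
    Real.norm_of_nonneg (Real.rpow_nonneg (by linarith) a)] at hx
  exact hx

theorem ev_exp {a : ℝ} (ha : 0 < a) (m : ℝ) {c : ℝ} (hc : 0 < c) :
    ∀ᶠ x : ℝ in atTop, c * x ^ m ≤ 2 ^ (x ^ a) := by
  have hl : 0 < Real.log 2 := Real.log_pos (by norm_num)
  have h := tendsto_rpow_mul_exp_neg_mul_atTop_nhds_zero (m / a) (Real.log 2) hl
  have h2 := (h.comp (tendsto_rpow_atTop ha)).eventually (gt_mem_nhds (show (0 : ℝ) < 1 / c by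
    positivity))
  filter_upwards [h2, eventually_gt_atTop 0] with x hx h0
  simp only [Function.comp_apply] at hx
  have e1 : (x ^ a) ^ (m / a) = x ^ m := by
    rw [← Real.rpow_mul h0.le, mul_div_cancel₀ _ ha.ne']
  rw [e1] at hx
  have e2 : (2 : ℝ) ^ (x ^ a) = Real.exp (Real.log 2 * x ^ a) := by
    rw [Real.rpow_def_of_pos (by norm_num)]
  rw [e2]
  have h3 : Real.exp (-Real.log 2 * x ^ a) = (Real.exp (Real.log 2 * x ^ a))⁻¹ := by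
    rw [neg_mul, Real.exp_neg]
  rw [h3, ← div_eq_mul_inv, div_lt_div_iff₀ (Real.exp_pos _) hc, one_mul] at hx
  linarith

theorem lines_lt {x c0 : ℝ} (x1' : 1 ≤ x) {L M cG cP : ℕ}
    (hL2 : (L : ℝ) ≤ x ^ (2 : ℝ)) (xK : 2 ≤ x ^ (c0 / 2))
    (xM : (cG + 1 : ℝ) * x ^ (2 * (cP + 1) : ℝ) ≤ 2 ^ (x ^ (c0 / 2)))
    (hM : (M : ℝ) < 2 ^ (x ^ (c0 / 2))) :
    ((M * (cG * L ^ cP + L) : ℕ) : ℝ) < 2 ^ (x ^ c0) := by
  have x0 : 0 < x := by linarith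
  push_cast
  have hxL : (L : ℝ) ≤ x ^ 2 := by rwa [Real.rpow_ofNat] at hL2
  have hx2 : (1 : ℝ) ≤ x ^ 2 := one_le_pow₀ x1'
  have h1 : (cG : ℝ) * L ^ cP + L ≤ (cG + 1) * x ^ (2 * (cP + 1) : ℝ) := by
    have e4 : x ^ (2 * (cP + 1) : ℝ) = (x ^ 2) ^ (cP + 1) := by
      rw [← pow_mul, ← Real.rpow_natCast]; congr 1; push_cast; ring
    rw [e4]
    have h2 : (L : ℝ) ^ cP ≤ (x ^ 2) ^ (cP + 1) :=
      (pow_le_pow_left₀ (by positivity) hxL cP).trans (pow_le_pow_right₀ hx2 (by omega))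
    have h3 : (L : ℝ) ≤ (x ^ 2) ^ (cP + 1) := hxL.trans (le_self_pow₀ hx2 (by omega))
    have h4 : (cG : ℝ) * L ^ cP ≤ cG * (x ^ 2) ^ (cP + 1) :=
      mul_le_mul_of_nonneg_left h2 (Nat.cast_nonneg _)
    linarith
  have h2 := h1.trans xM
  have h3 : (0 : ℝ) ≤ M := Nat.cast_nonneg M
  have h4 : (0 : ℝ) < 2 ^ (x ^ (c0 / 2)) := Real.rpow_pos_of_pos (by norm_num) _
  have e5 : x ^ c0 = x ^ (c0 / 2) * x ^ (c0 / 2) := by
    rw [← Real.rpow_add x0]; congr 1; ring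
  have h5 : x ^ (c0 / 2) + x ^ (c0 / 2) ≤ x ^ c0 := by
    rw [e5]
    nlinarith
  have h6 : (2 : ℝ) ^ (x ^ (c0 / 2) + x ^ (c0 / 2)) ≤ 2 ^ (x ^ c0) :=
    Real.rpow_le_rpow_of_exponent_le one_le_two h5
  rw [Real.rpow_add two_pos] at h6
  calc (M : ℝ) * (cG * L ^ cP + L) ≤ M * 2 ^ (x ^ (c0 / 2)) := mul_le_mul_of_nonneg_left h2 h3
    _ < 2 ^ (x ^ (c0 / 2)) * 2 ^ (x ^ (c0 / 2)) := mul_lt_mul_of_pos_right hM h4
    _ ≤ 2 ^ (x ^ c0) := h6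

/-- **The numbers for the balanced lines.** -/
theorem strong_nums {ε : ℝ} (hε : 0 < ε) : ∃ c : ℝ, 0 < c ∧
    ∀ (nn : ℕ) {C : ℝ}, 0 ≤ C → ∀ cL cH cG cP : ℕ,
    ∃ k₀ : ℕ, ∀ k ≥ k₀, ∀ L M : ℕ, 1 ≤ L → (L : ℝ) ≤ NE k ^ (2 - ε) →
      (M : ℝ) < 2 ^ (NE k ^ c) →
      ∃ K k' hh' L' : ℕ, 2 ≤ K ∧ cL * L * 2 ^ (Nat.log K L) + 3 ≤ L' ∧
        cH * K * (Nat.log 2 L + 1) ^ 2 + 2 ≤ hh' ∧
        Nonempty (Nums k k' hh' L' (M * (cG * L ^ cP + L)) nn C) := by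
  set ε1 : ℝ := min ε 1 with hε1
  have h01 : 0 < ε1 := lt_min hε one_pos
  have h11 : ε1 ≤ 1 := min_le_right _ _
  obtain ⟨c0, hc0, hex⟩ := exists_nums' (half_pos h01)
  refine ⟨c0 / 2, half_pos hc0, fun nn C hC cL cH cG cP => ?_⟩
  obtain ⟨k1, hk1⟩ := hex nn C hC
  set c2 : ℕ := 2 ^ (⌊4 / c0⌋₊) with hc2
  have h2pos : 0 < c0 / 2 := by positivity
  have h4pos : 0 < c0 / 4 := by positivity
  have h8pos : 0 < c0 / 8 := by positivity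
  -- what is needed for large `x`
  have ev : ∀ᶠ x : ℝ in atTop, 1 < x ∧ 2 ≤ x ^ (c0 / 2) ∧ (cL * c2 + 3 : ℝ) ≤ x ^ (ε1 / 2) ∧
      Real.log x ≤ x ^ (c0 / 8) ∧ 1 ≤ x ^ (c0 / 8) ∧ (32 * cH + 2 : ℝ) ≤ x ^ (c0 / 4) ∧
      (cG + 1 : ℝ) * x ^ (2 * (cP + 1) : ℝ) ≤ 2 ^ (x ^ (c0 / 2)) := by
    filter_upwards [eventually_gt_atTop 1, ev_pow h2pos 2, ev_pow (half_pos h01) (cL * c2 + 3),
      ev_log h8pos, ev_pow h8pos 1, ev_pow h4pos (32 * cH + 2),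
      ev_exp h2pos (2 * (cP + 1)) (show (0 : ℝ) < cG + 1 by positivity)] with x a1 a2 a3 a4 a5 a6 a7
    exact ⟨a1, a2, a3, a4, a5, a6, a7⟩
  obtain ⟨k2, hk2⟩ := eventually_atTop.mp (tendsto_NE.eventually ev)
  refine ⟨max k1 k2, fun k hk L M hL1 hL hM => ?_⟩
  obtain ⟨x1, xK, xL, xlog, x8, xH, xM⟩ := hk2 k ((le_max_right _ _).trans hk)
  set x : ℝ := NE k with hx
  have x0 : 0 < x := by linarith
  have x1' : 1 ≤ x := x1.le
  have hLr1 : (1 : ℝ) ≤ L := by exact_mod_cast hL1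
  have hL' : (L : ℝ) ≤ x ^ (2 - ε1) := hL.trans
    (Real.rpow_le_rpow_of_exponent_le x1' (by linarith [min_le_left ε 1]))
  have hL2 : (L : ℝ) ≤ x ^ (2 : ℝ) := hL'.trans
    (Real.rpow_le_rpow_of_exponent_le x1' (by linarith))
  -- `K`
  set K : ℕ := ⌈x ^ (c0 / 2)⌉₊ with hK
  have hKx : x ^ (c0 / 2) ≤ K := Nat.le_ceil _
  have hKx' : (K : ℝ) ≤ 2 * x ^ (c0 / 2) := by
    have := (Nat.ceil_lt_add_one (show 0 ≤ x ^ (c0 / 2) by positivity)).le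
    linarith
  have hK2 : 2 ≤ K := by
    have : (2 : ℝ) ≤ K := xK.trans hKx
    exact_mod_cast this
  -- the number of levels
  have hn : Nat.log K L ≤ ⌊4 / c0⌋₊ := by
    apply Nat.le_floor
    have h1 : K ^ Nat.log K L ≤ L := Nat.pow_log_le_self K (by omega)
    have h2 : (x ^ (c0 / 2)) ^ Nat.log K L ≤ x ^ (2 : ℝ) := by
      refine (pow_le_pow_left₀ (by positivity) hKx _).trans (le_trans ?_ hL2)
      exact_mod_cast h1
    rw [← Real.rpow_natCast, ← Real.rpow_mul x0.le] at h2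
    have h3 := (Real.rpow_le_rpow_left_iff x1).mp h2
    rw [le_div_iff₀ hc0]
    linarith
  have hn2 : 2 ^ Nat.log K L ≤ c2 := Nat.pow_le_pow_right (by norm_num) hn
  -- the logarithm
  have hlog : (Nat.log 2 L : ℝ) + 1 ≤ 4 * x ^ (c0 / 8) := by
    have h1 : 2 ^ Nat.log 2 L ≤ L := Nat.pow_log_le_self 2 (by omega)
    have h2 : (2 : ℝ) ^ (Nat.log 2 L) ≤ x ^ (2 : ℝ) := le_trans (by exact_mod_cast h1) hL2
    have h3 := Real.log_le_log (by positivity) h2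
    rw [Real.log_pow, Real.log_rpow x0] at h3
    have h4 := Real.log_two_gt_d9
    have h5 : (0 : ℝ) ≤ Nat.log 2 L := Nat.cast_nonneg _
    have h6 : (Nat.log 2 L : ℝ) ≤ 3 * Real.log x := by nlinarith
    linarith
  have e1 : x ^ (c0 / 4) = x ^ (c0 / 8) * x ^ (c0 / 8) := by
    rw [← Real.rpow_add x0]; congr 1; ring
  have e2 : x ^ c0 = x ^ (c0 / 2) * (x ^ (c0 / 4) * x ^ (c0 / 4)) := by
    rw [← Real.rpow_add x0, ← Real.rpow_add x0]; congr 1; ring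
  have e3 : x ^ (2 - ε1 / 2) = x ^ (2 - ε1) * x ^ (ε1 / 2) := by
    rw [← Real.rpow_add x0]; congr 1; ring
  have p2 : 1 ≤ x ^ (c0 / 2) := Real.one_le_rpow x1' h2pos.le
  have p4 : 1 ≤ x ^ (c0 / 4) := Real.one_le_rpow x1' h4pos.le
  have pe : 1 ≤ x ^ (2 - ε1) := Real.one_le_rpow x1' (by linarith)
  -- leaves
  have hLL : ((cL * L * 2 ^ (Nat.log K L) + 3 : ℕ) : ℝ) ≤ x ^ (2 - ε1 / 2) := by
    push_cast
    rw [e3]
    have h1 : ((2 : ℝ) ^ (Nat.log K L)) ≤ c2 := by exact_mod_cast hn2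
    have h2 : (cL : ℝ) * L * 2 ^ (Nat.log K L) ≤ cL * x ^ (2 - ε1) * c2 := by
      gcongr
    calc (cL : ℝ) * L * 2 ^ (Nat.log K L) + 3 ≤ cL * x ^ (2 - ε1) * c2 + 3 * x ^ (2 - ε1) := by
          linarith
      _ = x ^ (2 - ε1) * (cL * c2 + 3) := by ring
      _ ≤ x ^ (2 - ε1) * x ^ (ε1 / 2) := mul_le_mul_of_nonneg_left xL (by linarith)
  -- height
  have hHH : ((cH * K * (Nat.log 2 L + 1) ^ 2 + 2 : ℕ) : ℝ) ≤ x ^ c0 := by
    push_cast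
    rw [e2]
    have h1 : ((Nat.log 2 L : ℝ) + 1) ^ 2 ≤ 16 * x ^ (c0 / 4) := by
      rw [e1]
      have h0 : (0 : ℝ) ≤ (Nat.log 2 L : ℝ) + 1 := by positivity
      nlinarith
    have h2 : (cH : ℝ) * K * ((Nat.log 2 L : ℝ) + 1) ^ 2 ≤
        cH * (2 * x ^ (c0 / 2)) * (16 * x ^ (c0 / 4)) := by gcongr
    have h3 : (1 : ℝ) ≤ x ^ (c0 / 2) * x ^ (c0 / 4) := one_le_mul_of_one_le_of_one_le p2 p4
    calc (cH : ℝ) * K * ((Nat.log 2 L : ℝ) + 1) ^ 2 + 2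
        ≤ cH * (2 * x ^ (c0 / 2)) * (16 * x ^ (c0 / 4)) + 2 * (x ^ (c0 / 2) * x ^ (c0 / 4)) := by
          linarith
      _ = (x ^ (c0 / 2) * x ^ (c0 / 4)) * (32 * cH + 2) := by ring
      _ ≤ (x ^ (c0 / 2) * x ^ (c0 / 4)) * x ^ (c0 / 4) :=
          mul_le_mul_of_nonneg_left xH (by linarith)
      _ = _ := by ring
  -- lines
  have hMM : ((M * (cG * L ^ cP + L) : ℕ) : ℝ) < 2 ^ (x ^ c0) :=
    lines_lt x1' hL2 xK xM hM
  obtain ⟨k', hh', L', h1, h2, h3⟩ := hk1 k ((le_max_left _ _).trans hk)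
    (cH * K * (Nat.log 2 L + 1) ^ 2 + 2) (cL * L * 2 ^ (Nat.log K L) + 3)
    (M * (cG * L ^ cP + L)) hLL hHH hMM
  exact ⟨K, k', hh', L', hK2, h2, h1, h3⟩

end Strong

end Pool.Agent.EFT
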