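import Pool.Agent.Lib.EFT.InstCCC
import Pool.Agent.Lib.EFT.ClauseCCC
import Pool.Agent.Lib.EFT.BalVal
import Pool.Agent.Lib.EFT.BalSize
import Pool.Agent.Lib.EFT.BalCount
import Pool.Agent.Lib.EFT.StrongNum

/-!
# Extended Frege refutations of the Tseitin contradictions with small unfolded lines (helper15)

The final assembly of project EF: the lines of a refutation are balanced along heavy paths
(`Bal`), the values of the balanced formulas in the small world are a valuation (`Bal.val_bal`),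
the clauses are close to one and the rules preserve this.
-/

set_option autoImplicit false

open Finset

namespace Pool.Agent.EFT

namespace Strong

/-! ## The clauses -/

theorem bal_neg_var {α : Type*} (K : ℕ) (o x : α) :
    Bal.bal K o (.neg (.var x)) = .neg (.var x) := by
  simp [Bal.bal, Bal.rep, Bal.V_nil, Bal.xr]

theorem bal_neg_neg {α : Type*} (K : ℕ) (o : α) (f : Fm α) :
    Bal.bal K o (.neg (.neg f)) = Bal.bal K o f := by
  simp [Bal.bal, Bal.rep]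

section
variable {V : Type*} [AddCommGroup V] [Module ℝ V] {T : TAlg V} {α : Type*}
  {Sub S0 : Fm α → Prop} {F : Fm α → V} {d Mv : ℕ} {B B' I : ℝ}

/-- A negated literal has the same value before and after the balancing. -/
theorem bal_lit (hneg : ∀ f, F (.neg f) = T.one - F f) (K : ℕ) (o x : α) (a : ZMod 2) :
    F (Bal.bal K o (.neg (Form.lit x a).tr)) = F (.neg (Form.lit x a).tr) := by
  rw [Form.tr_lit]
  split_ifs
  · rw [bal_neg_var]
  · rw [bal_neg_neg, Bal.bal_var, hneg, hneg, sub_sub_cancel]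

/-- A clause with three literals, negated part `¬l₁ ∧ ¬¬(¬l₂ ∧ ¬l₃)` of value zero, is close to
one after the balancing. -/
theorem clause_le (hV : Val T Sub F d Mv B I) (hneg : ∀ f, F (.neg f) = T.one - F f) (K : ℕ)
    (o : α) (hV0 : Val T S0 (fun f => F (Bal.bal K o f)) d Mv B' I) {l₁ l₂ l₃ : Fm α}
    (h₁ : F (Bal.bal K o (.neg l₁)) = F (.neg l₁)) (h₂ : F (Bal.bal K o (.neg l₂)) = F (.neg l₂))
    (h₃ : F (Bal.bal K o (.neg l₃)) = F (.neg l₃))
    (hS0 : S0 (.neg (.and (.neg l₁) (.neg (.neg (.and (.neg l₂) (.neg l₃)))))))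
    (hS : Sub (.and (.neg l₁) (.neg (.neg (.and (.neg l₂) (.neg l₃))))))
    (h0 : F (.and (.neg l₁) (.neg (.neg (.and (.neg l₂) (.neg l₃))))) = 0)
    (hd : 2 * d ≤ Mv) (hs : T.A d * (3 * (B + B')) ≤ 1 / 2) :
    T.nm (T.one - F (Bal.bal K o
      (.neg (.and (.neg l₁) (.neg (.neg (.and (.neg l₂) (.neg l₃)))))))) ≤ 2 * I := by
  have hB := hV.Bpos
  have hB' := hV0.Bpos
  have sX := hV0.sub.neg _ hS0
  have sY := hV0.sub.neg _ (hV0.sub.neg _ (hV0.sub.right _ _ sX))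
  have tY := hV.sub.neg _ (hV.sub.neg _ (hV.sub.right _ _ hS))
  have k1 := hV0.and _ _ sX
  have k2 := hV0.and _ _ sY
  have k3 := hV.and _ _ tY
  have k4 := hV.and _ _ hS
  have e1 := hV0.neg _ hS0
  have m0 := hV0.mem _ sY
  have m1 := hV0.mem _ sX
  have i1 := hV0.idem _ sX
  simp only [bal_neg_neg, h₁, h₂, h₃] at k1 k2 m0 m1 i1 e1
  rw [h0, sub_zero, hneg (.neg (.and _ _)), hneg (.and _ _), sub_sub_cancel] at k4
  set a := F (.neg l₁) with ha
  set p := F (.neg l₂) with hp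
  set q := F (.neg l₃) with hq
  set w := F (.and (.neg l₂) (.neg l₃)) with hw
  set w0 := F (Bal.bal K o (.and (.neg l₂) (.neg l₃))) with hw0
  set y := F (Bal.bal K o (.and (.neg l₁) (.neg (.neg (.and (.neg l₂) (.neg l₃)))))) with hy
  have mp : p ∈ T.Low d := hV.mem _ (hV.sub.left _ _ tY)
  have mq : q ∈ T.Low d := hV.mem _ (hV.sub.right _ _ tY)
  have mw : w ∈ T.Low d := hV.mem _ tY
  have mpq : T.mul p q ∈ T.Low Mv := T.low_mono (by omega) (T.mul_low mp mq)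
  have hl := hV.lam _ (hV.sub.left _ _ hS)
  rw [← ha] at hl
  have k5 := hl (T.mul p q - w0) (Submodule.sub_mem _ mpq (T.low_mono (by omega) m0))
  have k6 := hl (T.mul p q - w) (Submodule.sub_mem _ mpq (T.low_mono (by omega) mw))
  have e2 : y = (T.mul a w + T.mul a (T.mul p q - w)) -
      (T.mul a (T.mul p q - w0) + (T.mul a w0 - y)) := by
    rw [map_sub, map_sub]
    abel
  have e3 : T.nm y ≤ 3 * (B + B') := by
    have h1 := T.nm_sub (T.mul a w + T.mul a (T.mul p q - w))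
      (T.mul a (T.mul p q - w0) + (T.mul a w0 - y))
    rw [← e2] at h1
    have h2 := T.nm_add (T.mul a w) (T.mul a (T.mul p q - w))
    have h3 := T.nm_add (T.mul a (T.mul p q - w0)) (T.mul a w0 - y)
    linarith
  have e4 : T.nm (T.mul y y) ≤ 1 / 2 * T.nm y := by
    refine (T.bound m1 y).trans (mul_le_mul_of_nonneg_right ?_ (T.nm_nonneg _))
    exact (mul_le_mul_of_nonneg_left e3 (T.A_nonneg d)).trans hs
  have e5 := T.nm_sub (T.mul y y) (T.mul y y - y)
  rw [sub_sub_cancel] at e5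
  rw [e1, sub_sub_cancel]
  linarith

end

/-! ## The family of formulas -/

section
variable {k : ℕ}

open Classical in
/-- The formulas for one line: the auxiliary formulas of the balancing and the negated parts of
the clauses. -/
noncomputable def fam (K : ℕ) (b : CCC.V k → ZMod 2) (o : CCC.E k) (f : Fm (CCC.E k)) :
    List (Fm (CCC.E k)) :=
  Bal.gens K o f ++ f.ands.map fun p =>
    if ∃ c ∈ tseitin b, c.tr = .neg (.and p.1 p.2) then .and p.1 p.2 else .var o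

theorem length_fam (K : ℕ) (b : CCC.V k → ZMod 2) (o : CCC.E k) {f : Fm (CCC.E k)} {L : ℕ}
    (hf : f.lv ≤ L) : (fam K b o f).length ≤ 60 * L ^ 4 + L := by
  rw [fam, List.length_append, List.length_map]
  have h1 := Bal.length_gens K o f
  have h2 := f.length_ands
  have h3 : 60 * f.lv ^ 4 ≤ 60 * L ^ 4 := Nat.mul_le_mul_left _ (Nat.pow_le_pow_left hf 4)
  omega

theorem lit_leaves {α : Type*} (x : α) (a : ZMod 2) : (Form.lit x a).leaves = 1 := by
  unfold Form.lit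
  split_ifs <;> rfl

theorem lit_depth {α : Type*} (x : α) (a : ZMod 2) : (Form.lit x a).depth = 0 := by
  unfold Form.lit
  split_ifs <;> rfl

/-- The translation of a clause. -/
theorem tr_clause {b : CCC.V k → ZMod 2} {c : Form (CCC.E k)} (hc : c ∈ tseitin b) :
    ∃ (e1 e2 e3 : CCC.E k) (a1 a2 a3 : ZMod 2), c.tr = .neg (.and (.neg (Form.lit e1 a1).tr)
      (.neg (.neg (.and (.neg (Form.lit e2 a2).tr) (.neg (Form.lit e3 a3).tr))))) := by
  obtain ⟨v, e1, e2, e3, a1, a2, a3, h12, h13, h23, hinc, ha, hct⟩ := tseitin_tr hc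
  exact ⟨e1, e2, e3, a1 + 1, a2 + 1, a3 + 1, hct⟩

theorem size_clause {b : CCC.V k → ZMod 2} {c : Form (CCC.E k)} (hc : c ∈ tseitin b) :
    c.tr.lv = 3 ∧ c.tr.ah = 2 := by
  obtain ⟨e1, e2, e3, a1, a2, a3, h⟩ := tr_clause hc
  rw [h]
  simp [Fm.lv, Fm.ah, Form.lv_tr, Form.ah_tr, lit_leaves, lit_depth]

theorem size_fam {K : ℕ} (hK : 2 ≤ K) (b : CCC.V k → ZMod 2) (o : CCC.E k) {f : Fm (CCC.E k)}
    {L : ℕ} (hf : f.lv ≤ L) : ∀ φ ∈ fam K b o f, φ.lv ≤ 60 * L * 2 ^ Nat.log K L + 3 ∧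
      φ.ah ≤ 6 * K * (Nat.log 2 L + 1) ^ 2 + 2 := by
  intro φ hφ
  rw [fam, List.mem_append, List.mem_map] at hφ
  rcases hφ with hφ | ⟨p, _, rfl⟩
  · constructor
    · refine ((Bal.lv_gens_le K hK o f φ hφ).trans ?_).trans (Nat.le_add_right _ _)
      exact Nat.mul_le_mul (Nat.mul_le_mul_left _ hf) (Bal.log_mono K hf)
    · refine ((Bal.ah_gens_le K hK o f φ hφ).trans ?_).trans (Nat.le_add_right _ _)
      refine Nat.mul_le_mul_left _ (Nat.pow_le_pow_left ?_ 2)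
      have := Nat.log_mono_right (b := 2) hf
      omega
  · split_ifs with h
    · obtain ⟨c, hc, he⟩ := h
      have h1 := size_clause hc
      rw [he] at h1
      have h2 : (Fm.and p.1 p.2).lv = 3 := h1.1
      have h3 : (Fm.and p.1 p.2).ah = 2 := h1.2
      omega
    · have h2 : (Fm.var o).lv = 1 := rfl
      have h3 : (Fm.var o).ah = 0 := rfl
      omega

end

/-! ## One refutation -/

/-- The constant of the rules. -/
noncomputable def cc (𝓡 : List FrRule) : ℝ :=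
  Bal.balC + ruleC 𝓡 * (Bal.balB + 1) + 3 * (Bal.balB + 1)

theorem cc_nonneg (𝓡 : List FrRule) : 0 ≤ cc 𝓡 := by
  have h1 := Bal.balC_nonneg
  have h2 := Bal.balB_nonneg
  have h3 := ruleC_nonneg 𝓡
  unfold cc
  positivity

theorem no_refutation (𝓡 : List FrRule) (h𝓡 : ∀ ρ ∈ 𝓡, ρ.Sound) {k k' hh L' L M K : ℕ}
    [NeZero k] [NeZero k']
    (N : Nums k k' hh L' (M * (60 * L ^ 4 + L)) (ruleN 𝓡 + 10) (cc 𝓡)) (hK : 2 ≤ K)
    (hL' : 60 * L * 2 ^ Nat.log K L + 3 ≤ L') (hh' : 6 * K * (Nat.log 2 L + 1) ^ 2 + 2 ≤ hh)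
    (b : CCC.V k → ZMod 2) (hb : ∑ v, b v = 1) {m : ℕ}
    (D : Fin m → Form (CCC.E k ⊕ Fin m)) (C : Fin M → Form (CCC.E k ⊕ Fin m))
    (U : Fin m → Form (CCC.E k)) (hU : ∀ i, U i = unfold U (D i))
    (href : IsRefutation 𝓡 (tseitin b) D C) (hL : ∀ t, (unfold U (C t)).leaves ≤ L) : False := by
  classical
  have hC := cc_nonneg 𝓡
  set P : ℕ := 60 * L ^ 4 + L with hP
  set o : CCC.E k := Sum.inl (0, 0) with ho
  set ln0 : Fin M → Fm (CCC.E k) := fun t => (unfold U (C t)).tr with hln0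
  have hlv : ∀ t, (ln0 t).lv ≤ L := fun t => by rw [hln0]; simp only [Form.lv_tr]; exact hL t
  set ln : Fin (M * P) → Fm (CCC.E k) := fun i =>
    (fam K b o (ln0 (finProdFinEquiv.symm i).1)).getD (finProdFinEquiv.symm i).2 (.var o) with hln
  have hln1 : ∀ t, ∀ φ ∈ fam K b o (ln0 t), ∃ i, ln i = φ := by
    intro t φ hφ
    obtain ⟨j, hj, he⟩ := List.getElem_of_mem hφ
    have hj' : j < P := lt_of_lt_of_le hj (length_fam K b o (hlv t))
    refine ⟨finProdFinEquiv (t, ⟨j, hj'⟩), ?_⟩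
    simp only [hln, Equiv.symm_apply_apply]
    rw [List.getD_eq_getElem _ _ hj, he]
  have hln2 : ∀ i, (ln i).lv ≤ L' ∧ (ln i).ah ≤ hh := by
    intro i
    set t := (finProdFinEquiv.symm i).1 with ht
    set j : ℕ := ((finProdFinEquiv.symm i).2 : Fin P).1 with hj
    by_cases h : j < (fam K b o (ln0 t)).length
    · have h1 : ln i ∈ fam K b o (ln0 t) := by
        simp only [hln]
        rw [List.getD_eq_getElem _ _ h]
        exact List.getElem_mem _
      have h2 := size_fam hK b o (hlv t) _ h1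
      exact ⟨h2.1.trans hL', h2.2.trans hh'⟩
    · have h1 : ln i = .var o := by
        simp only [hln]
        exact List.getD_eq_default _ _ (not_lt.mp h)
      rw [h1]
      have h2 : (Fm.var o).lv = 1 := rfl
      have h3 : (Fm.var o).ah = 0 := rfl
      omega
  set b' : CCC.V k' → ZMod 2 := Pi.single (0, 0) 1 with hb'
  have hb1 : ∑ v, b' v = 1 := by
    rw [hb', Finset.sum_pi_single']
    simp
  obtain ⟨T, F, B, I, hV, hand, hneg, hsm, hI⟩ := Inst.val_CCC N hC b b' (by rw [hb, hb1]) ln hln2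
  have hB := hV.Bpos
  have hI0 := hV.Ipos
  have c1 := Bal.balC_nonneg
  have c2 := Bal.balB_nonneg
  have c3 := ruleC_nonneg 𝓡
  have hBI : 0 ≤ B + I := by linarith
  have hn := N.hn
  have hd : ∀ a, a ≤ hh + 8 → a * N.d ≤ (hh + 8) * N.d := fun a ha => Nat.mul_le_mul_right _ ha
  have hsmall : ∀ x : ℝ, x ≤ cc 𝓡 * (B + I) → T.A N.d * x ≤ 1 / 2 := fun x hx =>
    (mul_le_mul_of_nonneg_left hx (T.A_nonneg _)).trans hsm
  have hcc : cc 𝓡 * (B + I) = Bal.balC * (B + I) + ruleC 𝓡 * (Bal.balB * (B + I) + (B + I)) +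
      3 * (Bal.balB * (B + I) + (B + I)) := by
    unfold cc
    ring
  have p1 : 0 ≤ Bal.balC * (B + I) := mul_nonneg c1 hBI
  have p2 : 0 ≤ Bal.balB * (B + I) := mul_nonneg c2 hBI
  have p3 : 0 ≤ ruleC 𝓡 * (Bal.balB * (B + I) + (B + I)) := mul_nonneg c3 (by linarith)
  have hV0 := Bal.val_bal hV K o (hd 13 (by omega)) (hsmall _ (by rw [hcc]; linarith))
    (S0 := fun f => ∃ t, (ln0 t).Sub f) (fun f g ⟨t, ht⟩ hg => ⟨t, ht.trans hg⟩)
    (fun f ⟨t, ht⟩ => Bal.mem_gens K o (fun f => ∃ i, (ln i).Sub f) (ln0 t) (fun φ hφ => by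
      obtain ⟨i, hi⟩ := hln1 t φ (by rw [fam]; exact List.mem_append_left _ hφ)
      exact ⟨i, by rw [hi]; exact Fm.Sub.refl φ⟩) f ht)
  refine syn_false hV0 𝓡 h𝓡 (hd _ (by omega)) (hsmall _ ?_) hI (tseitin b) D C U hU href
    (fun t => ⟨t, Fm.Sub.refl _⟩) ?_
  · rw [hcc]
    have : ruleC 𝓡 * (Bal.balB * (B + I) + I) ≤ ruleC 𝓡 * (Bal.balB * (B + I) + (B + I)) :=
      mul_le_mul_of_nonneg_left (by linarith) c3
    linarith
  · intro c hc hS0
    obtain ⟨g, h, he, hq⟩ := CCC.clause_vac b (Dl := N.Dl) N.D3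
      (lt_of_le_of_lt (Nat.mul_le_mul_left _ ((by norm_num : 3 ≤ 8).trans (Nat.le_add_left 8 _)))
        N.rad) hc
    have h0 := hand g h hq
    have hS : ∃ i, (ln i).Sub (.and g h) := by
      obtain ⟨t, ht⟩ := hS0
      rw [he] at ht
      have ht' : (ln0 t).Sub (.and g h) := ht.trans (Or.inr (Fm.Sub.refl _))
      obtain ⟨i, hi⟩ := hln1 t (.and g h) (by
        rw [fam, List.mem_append, List.mem_map]
        refine Or.inr ⟨(g, h), Fm.mem_ands.2 ht', ?_⟩
        rw [if_pos ⟨c, hc, he⟩])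
      exact ⟨i, by rw [hi]; exact Fm.Sub.refl _⟩
    obtain ⟨e1, e2, e3, a1, a2, a3, ht⟩ := tr_clause hc
    have he' := he.symm.trans ht
    rw [Fm.neg.injEq] at he'
    rw [he'] at hS h0
    rw [ht] at hS0 ⊢
    exact clause_le hV hneg K o hV0 (bal_lit hneg K o _ _) (bal_lit hneg K o _ _)
      (bal_lit hneg K o _ _) hS0 hS h0 (hd 2 (by omega)) (hsmall _ (by rw [hcc]; linarith))

/-- The core without asymptotics: the scale `u`. -/
theorem scale (𝓡 : List FrRule) (h𝓡 : ∀ ρ ∈ 𝓡, ρ.Sound) {k u K L M : ℕ} [NeZero k]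
    (h : Par.Scale k u) (hK : 2 ≤ K) (hn : ruleN 𝓡 + 10 ≤ 2 ^ u) (hC : cc 𝓡 ≤ 2 ^ u)
    (h1 : 60 * L * 2 ^ Nat.log K L + 3 ≤ 2 ^ (2 * k - 808 * u))
    (h2 : 6 * K * (Nat.log 2 L + 1) ^ 2 + 2 ≤ 2 ^ u) (h3 : M * (60 * L ^ 4 + L) ≤ 2 ^ 2 ^ u)
    (b : CCC.V k → ZMod 2) (hb : ∑ v, b v = 1) {m : ℕ}
    (D : Fin m → Form (CCC.E k ⊕ Fin m)) (C : Fin M → Form (CCC.E k ⊕ Fin m))
    (U : Fin m → Form (CCC.E k)) (hU : ∀ i, U i = unfold U (D i))
    (href : IsRefutation 𝓡 (tseitin b) D C) (hL : ∀ t, (unfold U (C t)).leaves ≤ L) : False := by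
  obtain ⟨N⟩ := Par.nums_of_scale h h3 (cc_nonneg 𝓡) hC hn
  have : NeZero (8 * u) := ⟨by have := h.u10; omega⟩
  exact no_refutation 𝓡 h𝓡 N hK h1 h2 b hb D C U hU href hL

/-- **Main theorem of project EF.** Fix finitely many sound rules and `ε > 0`. Every Extended
Frege refutation of a Tseitin contradiction on a large cube-connected cycles graph with `N` edges,
in which every line, with the extension variables unfolded, has at most `N ^ (2 - ε)` leaves, has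
at least `2 ^ (N ^ c)` lines. -/
theorem main {ε : ℝ} (hε : 0 < ε) : ∃ c : ℝ, 0 < c ∧
    ∀ 𝓡 : List FrRule, (∀ ρ ∈ 𝓡, ρ.Sound) → ∃ k₀ : ℕ, ∀ (k : ℕ) [NeZero k], k₀ ≤ k →
      ∀ b : CCC.V k → ZMod 2, ∑ v, b v = 1 →
      ∀ {m M : ℕ} (D : Fin m → Form (CCC.E k ⊕ Fin m)) (C : Fin M → Form (CCC.E k ⊕ Fin m))
        (U : Fin m → Form (CCC.E k)), (∀ i, U i = unfold U (D i)) →
        IsRefutation 𝓡 (tseitin b) D C →
        (∀ t, ((unfold U (C t)).leaves : ℝ) ≤ NE k ^ (2 - ε)) →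
        (2 : ℝ) ^ (NE k ^ c) ≤ M := by
  obtain ⟨c, hc, hnum⟩ := strong_nums hε
  refine ⟨c, hc, fun 𝓡 h𝓡 => ?_⟩
  obtain ⟨k₀, h⟩ := hnum (ruleN 𝓡 + 10) (cc_nonneg 𝓡) 60 6 60 4
  refine ⟨k₀, ?_⟩
  intro k _ hk b hb m M D C U hU href hle
  by_contra hcon
  push Not at hcon
  have hne : ∃ t : Fin M, True := by
    rcases href.contra with ⟨t, _⟩ | ⟨t, _⟩ <;> exact ⟨t, trivial⟩
  obtain ⟨t0, -⟩ := hne
  set L : ℕ := ⌊NE k ^ (2 - ε)⌋₊ with hL
  have hle' : ∀ t, (unfold U (C t)).leaves ≤ L := fun t => Nat.le_floor (hle t)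
  have hL1 : 1 ≤ L := by
    refine le_trans ?_ (hle' t0)
    rw [← Form.lv_tr]
    exact Fm.lv_pos _
  have hNE : (0 : ℝ) ≤ NE k ^ (2 - ε) := by
    refine Real.rpow_nonneg ?_ _
    exact Nat.cast_nonneg _
  obtain ⟨K, k', hh, L', hK, hL', hhh, ⟨N⟩⟩ := h k hk L M hL1 (Nat.floor_le hNE) hcon
  have : NeZero k' := ⟨by have := N.hk'; omega⟩
  exact no_refutation 𝓡 h𝓡 N hK hL' hhh b hb D C U hU href hle'

end Strong

end Pool.Agent.EFT
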