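import Pool.Agent.Lib.EFT.Strong

/-!
# The trade-off between the size of the unfolded lines and the number of lines (helper15)
-/

set_option autoImplicit false

open Finset

namespace Pool.Agent.EFT

namespace Strong

/-- A polynomial against a power of two. -/
theorem exists_pow (A : ℕ) : ∃ u₁ : ℕ, ∀ u ≥ u₁, A * (u ^ 2 + 1) ^ 2 ≤ 2 ^ (u / 2) := by
  refine ⟨16 * (A + 16), fun u hu => ?_⟩
  obtain ⟨w, hw⟩ : ∃ w, w = u / 16 := ⟨_, rfl⟩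
  have h1 : w < 2 ^ w := Nat.lt_two_pow_self
  have h2 : A + 16 ≤ w := by omega
  have h3 : u + 1 ≤ 16 * (w + 1) := by omega
  have h4 : (u ^ 2 + 1) ^ 2 ≤ (16 * (w + 1)) ^ 4 := by
    have h5 : u ^ 2 + 1 ≤ (u + 1) ^ 2 := by nlinarith
    calc (u ^ 2 + 1) ^ 2 ≤ ((u + 1) ^ 2) ^ 2 := Nat.pow_le_pow_left h5 2
      _ = (u + 1) ^ 4 := by ring
      _ ≤ _ := Nat.pow_le_pow_left h3 4
  have h5 : (16 * (w + 1)) ^ 4 ≤ (16 * 2 ^ w) ^ 4 :=
    Nat.pow_le_pow_left (Nat.mul_le_mul_left _ h1) 4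
  have h6 : (16 * 2 ^ w) ^ 4 = 2 ^ (16 + 4 * w) := by
    rw [mul_pow, pow_add, ← pow_mul, mul_comm w 4]
    norm_num
  have h7 : A ≤ 2 ^ w := by omega
  calc A * (u ^ 2 + 1) ^ 2 ≤ 2 ^ w * 2 ^ (16 + 4 * w) := by
        refine Nat.mul_le_mul h7 (h4.trans (h5.trans h6.le))
    _ = 2 ^ (w + (16 + 4 * w)) := (pow_add _ _ _).symm
    _ ≤ 2 ^ (u / 2) := Nat.pow_le_pow_right (by norm_num) (by omega)

theorem pow_exp_le {a b : ℕ} (h : 2 ^ a ≤ 2 ^ b) : a ≤ b :=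
  (Nat.pow_le_pow_iff_right (by norm_num)).mp h

/-- All numbers, in natural numbers. -/
theorem nat_nums {A k u L M c : ℕ} (hc : c = 8000) (hu : A * (u ^ 2 + 1) ^ 2 ≤ 2 ^ (u / 2))
    (hA : 2000 ≤ A) (hu10 : 10 ≤ u) (hk : 17000 ≤ k) (hku : k ≤ (u - 1) ^ 2) (hL : 1 ≤ L)
    (hL2 : L * 2 ^ (4000 * u) ≤ 2 ^ c * (3 * k * 2 ^ (k - 1)) ^ 2)
    (hM : M ≤ 2 ^ 2 ^ (u - 1)) :
    Par.Scale k u ∧ 2 ≤ 2 ^ (u / 2) ∧
      60 * L * 2 ^ Nat.log (2 ^ (u / 2)) L + 3 ≤ 2 ^ (2 * k - 808 * u) ∧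
      6 * 2 ^ (u / 2) * (Nat.log 2 L + 1) ^ 2 + 2 ≤ 2 ^ u ∧
      M * (60 * L ^ 4 + L) ≤ 2 ^ 2 ^ u := by
  have hku' : k ≤ u ^ 2 := hku.trans (Nat.pow_le_pow_left (by omega) 2)
  set W := (u ^ 2 + 1) ^ 2 with hW
  have hW1 : u ^ 2 + 1 ≤ W := by rw [hW]; nlinarith
  have hAW : 2000 * W ≤ 2 ^ (u / 2) := (Nat.mul_le_mul_right _ hA).trans hu
  have hhalf : 2 ^ (u / 2) * 2 ^ (u / 2) ≤ 2 ^ u := by
    rw [← pow_add]
    exact Nat.pow_le_pow_right (by norm_num) (by omega)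
  have hle1 : 2 ^ (u / 2) ≤ 2 ^ u := Nat.pow_le_pow_right (by norm_num) (by omega)
  have hle2 : 2 ^ (u / 2) ≤ 2 ^ (u - 1) := Nat.pow_le_pow_right (by norm_num) (by omega)
  -- edges
  have hE : (3 * k * 2 ^ (k - 1)) ^ 2 ≤ 2 ^ (u + 2 * (k - 1)) := by
    have h1 : 3 * k ≤ 2 ^ (u / 2) := by omega
    have h2 : (3 * k) ^ 2 ≤ 2 ^ u := by
      rw [pow_two]
      exact (Nat.mul_le_mul h1 h1).trans hhalf
    rw [mul_pow, pow_add, ← pow_mul, mul_comm (k - 1) 2]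
    exact Nat.mul_le_mul_right _ h2
  have hL3 : L * 2 ^ (4000 * u) ≤ 2 ^ (c + (u + 2 * (k - 1))) := by
    rw [pow_add]
    exact hL2.trans (Nat.mul_le_mul_left _ hE)
  have h4000 : 4000 * u ≤ c + (u + 2 * (k - 1)) :=
    pow_exp_le ((Nat.le_mul_of_pos_left _ hL).trans hL3)
  obtain ⟨e, he⟩ : ∃ e, c + (u + 2 * (k - 1)) = e + 4000 * u :=
    ⟨c + (u + 2 * (k - 1)) - 4000 * u, by omega⟩
  have hLe : L ≤ 2 ^ e := by
    rw [he, pow_add] at hL3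
    exact Nat.le_of_mul_le_mul_right hL3 (by positivity)
  clear hL2 hL3
  have h1616 : 1616 * u ≤ k := by omega
  have he2 : e ≤ 2 * k := by omega
  -- number of levels
  set n := Nat.log (2 ^ (u / 2)) L with hn
  have hn1 : u / 2 * n ≤ e := by
    apply pow_exp_le
    rw [pow_mul]
    exact (Nat.pow_log_le_self _ (by omega)).trans hLe
  have hn2 : n ≤ 4 * (u - 1) := by
    have h1 : (u - 1) * n ≤ 2 * (u / 2) * n := Nat.mul_le_mul_right _ (by omega)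
    have h2 : 2 * (u / 2) * n = 2 * (u / 2 * n) := by ring
    have h3 : (u - 1) * n ≤ (u - 1) * (4 * (u - 1)) := by
      have h4 : (u - 1) * (4 * (u - 1)) = 4 * (u - 1) ^ 2 := by ring
      omega
    exact Nat.le_of_mul_le_mul_left h3 (by omega)
  have hlog : Nat.log 2 L ≤ e := by
    apply pow_exp_le
    exact (Nat.pow_log_le_self _ (by omega)).trans hLe
  refine ⟨⟨h1616, by omega⟩, by omega, ?_, ?_, ?_⟩
  · obtain ⟨P, hP⟩ : ∃ P, 2 * k - 808 * u = P + 1 := ⟨2 * k - 808 * u - 1, by omega⟩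
    have h1 : 60 * L * 2 ^ n ≤ 2 ^ 6 * 2 ^ e * 2 ^ (4 * (u - 1)) :=
      Nat.mul_le_mul (Nat.mul_le_mul (by norm_num) hLe) (Nat.pow_le_pow_right (by norm_num) hn2)
    rw [← pow_add, ← pow_add] at h1
    have h2 : 2 ^ (6 + e + 4 * (u - 1)) ≤ 2 ^ P :=
      Nat.pow_le_pow_right (by norm_num) (by omega)
    have h3 : 2 ^ 2 ≤ 2 ^ P := Nat.pow_le_pow_right (by norm_num) (by omega)
    rw [hP, pow_succ]
    omega
  · have h1 : Nat.log 2 L + 1 ≤ 2 * (u ^ 2 + 1) := by omega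
    have h2 : (Nat.log 2 L + 1) ^ 2 ≤ 4 * W := by
      refine (Nat.pow_le_pow_left h1 2).trans ?_
      rw [hW]
      ring_nf
      exact le_refl _
    have h3 : 6 * 2 ^ (u / 2) * (Nat.log 2 L + 1) ^ 2 ≤ 2 ^ (u / 2) * (24 * W) := by
      calc 6 * 2 ^ (u / 2) * (Nat.log 2 L + 1) ^ 2 ≤ 6 * 2 ^ (u / 2) * (4 * W) :=
            Nat.mul_le_mul_left _ h2
        _ = _ := by ring
    have h4 : 1 ≤ 2 ^ (u / 2) := Nat.one_le_two_pow
    have h5 : 2 ^ (u / 2) * (24 * W) + 2 ≤ 2 ^ (u / 2) * 2 ^ (u / 2) := by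
      have h6 : 2 ^ (u / 2) * (24 * W + 2) ≤ 2 ^ (u / 2) * 2 ^ (u / 2) :=
        Nat.mul_le_mul_left _ (by omega)
      have h7 : 2 ^ (u / 2) * (24 * W + 2) = 2 ^ (u / 2) * (24 * W) + 2 * 2 ^ (u / 2) := by ring
      omega
    omega
  · have h1 : 60 * L ^ 4 + L ≤ 2 ^ 6 * L ^ 4 := by
      have : L ≤ L ^ 4 := Nat.le_self_pow (by norm_num) L
      omega
    have h2 : 2 ^ 6 * L ^ 4 ≤ 2 ^ (6 + e * 4) := by
      rw [pow_add, pow_mul]
      exact Nat.mul_le_mul_left _ (Nat.pow_le_pow_left hLe 4)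
    have h3 : 2 ^ (6 + e * 4) ≤ 2 ^ 2 ^ (u - 1) :=
      Nat.pow_le_pow_right (by norm_num) (by omega)
    obtain ⟨v, hv⟩ : ∃ v, u = v + 1 := ⟨u - 1, by omega⟩
    have h4 : 2 ^ u = 2 ^ (u - 1) + 2 ^ (u - 1) := by
      rw [hv, Nat.add_sub_cancel, pow_succ]
      ring
    rw [h4, pow_add]
    exact Nat.mul_le_mul hM (h1.trans (h2.trans h3))

/-- **The trade-off.** Fix finitely many sound rules. Every Extended Frege refutation of a Tseitin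
contradiction on a large cube-connected cycles graph with `N` edges, in which every line, with the
extension variables unfolded, has at most `N ^ 2 / T ^ 4000` leaves, `T ≥ 2 ^ √(log₂ N)`, has at
least `2 ^ T` lines. -/
theorem main_T (𝓡 : List FrRule) (h𝓡 : ∀ ρ ∈ 𝓡, ρ.Sound) :
    ∃ k₀ : ℕ, ∀ (k : ℕ) [NeZero k], k₀ ≤ k → ∀ b : CCC.V k → ZMod 2, ∑ v, b v = 1 →
      ∀ {m M : ℕ} (D : Fin m → Form (CCC.E k ⊕ Fin m)) (C : Fin M → Form (CCC.E k ⊕ Fin m))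
        (U : Fin m → Form (CCC.E k)), (∀ i, U i = unfold U (D i)) →
        IsRefutation 𝓡 (tseitin b) D C →
        ∀ T : ℝ, 2 ^ √(Real.logb 2 (NE k)) ≤ T →
        (∀ t, ((unfold U (C t)).leaves : ℝ) ≤ NE k ^ 2 / T ^ 4000) →
        (2 : ℝ) ^ T ≤ M := by
  obtain ⟨A0, hA0⟩ := exists_nat_ge (cc 𝓡)
  set A : ℕ := 2000 + A0 + (ruleN 𝓡 + 10) with hA
  obtain ⟨u₁, hu₁⟩ := exists_pow A
  refine ⟨(u₁ + 10) ^ 2 + 17000, ?_⟩
  intro k _ hk b hb m M D C U hU href T hT hle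
  by_contra hcon
  push Not at hcon
  have hk17 : 17000 ≤ k := by omega
  -- the number of edges
  have hx1 : (2 : ℝ) ^ (k : ℝ) ≤ NE k := by
    rw [NE, Real.rpow_natCast]
    have h1 : 2 ^ k ≤ 3 * k * 2 ^ (k - 1) := by
      obtain ⟨j, hj⟩ : ∃ j, k = j + 1 := ⟨k - 1, by omega⟩
      rw [hj, Nat.add_sub_cancel, pow_succ, mul_comm]
      exact Nat.mul_le_mul_right _ (by omega)
    exact_mod_cast h1
  have hx0 : (0 : ℝ) < NE k := lt_of_lt_of_le (by positivity) hx1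
  have hlog : (k : ℝ) ≤ Real.logb 2 (NE k) := by
    rw [Real.le_logb_iff_rpow_le (by norm_num) hx0]
    exact hx1
  have hsq : √(k : ℝ) ≤ √(Real.logb 2 (NE k)) := Real.sqrt_le_sqrt hlog
  have hT0 : 0 < T := lt_of_lt_of_le (by positivity) hT
  set a : ℝ := Real.logb 2 T with ha
  have ha1 : √(k : ℝ) ≤ a := by
    rw [ha, Real.le_logb_iff_rpow_le (by norm_num) hT0]
    exact (Real.rpow_le_rpow_of_exponent_le (by norm_num) hsq).trans hT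
  have ha0 : 0 ≤ a := (Real.sqrt_nonneg _).trans ha1
  have hTa : (2 : ℝ) ^ a = T := Real.rpow_logb (by norm_num) (by norm_num) hT0
  -- the scale
  set w : ℕ := ⌈a⌉₊ with hw
  have hw1 : a ≤ w := Nat.le_ceil a
  have hw2 : (w : ℝ) < a + 1 := Nat.ceil_lt_add_one ha0
  have hTw : T ≤ 2 ^ w := by
    rw [← hTa, ← Real.rpow_natCast]
    exact Real.rpow_le_rpow_of_exponent_le (by norm_num) hw1
  have hTw2 : (2 : ℝ) ^ w ≤ 2 * T := by
    rw [← hTa, ← Real.rpow_natCast]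
    have h1 : (2 : ℝ) ^ (w : ℝ) ≤ 2 ^ (a + 1) :=
      Real.rpow_le_rpow_of_exponent_le (by norm_num) hw2.le
    rw [Real.rpow_add (by norm_num), Real.rpow_one] at h1
    linarith
  have hkw : k ≤ w ^ 2 := by
    have h1 : √(k : ℝ) ≤ w := ha1.trans hw1
    have h2 := Real.sqrt_le_left (Nat.cast_nonneg w) |>.mp h1
    exact_mod_cast h2
  have hwu : u₁ + 10 ≤ w := by
    have h1 : (u₁ + 10) ^ 2 ≤ w ^ 2 := by omega
    exact (Nat.pow_le_pow_iff_left (by norm_num)).mp h1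
  -- leaves
  have hne : ∃ t : Fin M, True := by
    rcases href.contra with ⟨t, _⟩ | ⟨t, _⟩ <;> exact ⟨t, trivial⟩
  obtain ⟨t0, -⟩ := hne
  set L : ℕ := ⌊NE k ^ 2 / T ^ 4000⌋₊ with hL
  have hle' : ∀ t, (unfold U (C t)).leaves ≤ L := fun t => Nat.le_floor (hle t)
  have hL1 : 1 ≤ L := by
    refine le_trans ?_ (hle' t0)
    rw [← Form.lv_tr]
    exact Fm.lv_pos _
  have hTp : 0 < T ^ 4000 := pow_pos hT0 _
  have hL2 : (L : ℝ) * T ^ 4000 ≤ NE k ^ 2 := by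
    rw [← le_div_iff₀ hTp]
    exact Nat.floor_le (by positivity)
  obtain ⟨c, hc⟩ : ∃ c : ℕ, c = 8000 := ⟨_, rfl⟩
  have hL3 : L * 2 ^ (4000 * (w + 1)) ≤ 2 ^ c * (3 * k * 2 ^ (k - 1)) ^ 2 := by
    have h1 : ((2 : ℝ) ^ (w + 1)) ^ 4000 ≤ (2 ^ 2 * T) ^ 4000 := by
      refine pow_le_pow_left₀ (by positivity) ?_ _
      rw [pow_succ]
      linarith
    have h2 : (L : ℝ) * 2 ^ (4000 * (w + 1)) ≤ 2 ^ c * NE k ^ 2 := by
      have e1 : (2 : ℝ) ^ (4000 * (w + 1)) = (2 ^ (w + 1)) ^ 4000 := by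
        rw [mul_comm, pow_mul]
      have e2 : (2 ^ 2 * T) ^ 4000 = 2 ^ c * T ^ 4000 := by
        have e3 : 2 * 4000 = c := by omega
        rw [mul_pow, ← pow_mul, e3]
      rw [e1]
      calc (L : ℝ) * (2 ^ (w + 1)) ^ 4000 ≤ L * (2 ^ c * T ^ 4000) := by
            rw [← e2]
            exact mul_le_mul_of_nonneg_left h1 (Nat.cast_nonneg _)
        _ = 2 ^ c * (L * T ^ 4000) := by ring
        _ ≤ 2 ^ c * NE k ^ 2 := mul_le_mul_of_nonneg_left hL2 (by positivity)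
    rw [NE] at h2
    exact_mod_cast h2
  -- lines
  have hM : M ≤ 2 ^ 2 ^ w := by
    have h1 : (M : ℝ) ≤ 2 ^ ((2 ^ w : ℕ) : ℝ) := by
      refine hcon.le.trans (Real.rpow_le_rpow_of_exponent_le (by norm_num) ?_)
      push_cast
      exact hTw
    rw [Real.rpow_natCast] at h1
    exact_mod_cast h1
  have hu := hu₁ (w + 1) (by omega)
  have hA1 : A ≤ A * ((w + 1) ^ 2 + 1) ^ 2 := Nat.le_mul_of_pos_right _ (by positivity)
  have hA2 : A ≤ 2 ^ (w + 1) :=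
    hA1.trans (hu.trans (Nat.pow_le_pow_right (by norm_num) (by omega)))
  have hkw' : k ≤ (w + 1 - 1) ^ 2 := hkw
  have hM' : M ≤ 2 ^ 2 ^ (w + 1 - 1) := hM
  obtain ⟨n1, n2, n3, n4, n5⟩ := nat_nums (k := k) (u := w + 1) (L := L) (M := M) hc hu (by omega)
    (by omega) hk17 hkw' hL1 hL3 hM'
  refine scale 𝓡 h𝓡 n1 n2 (by omega) ?_ n3 n4 n5 b hb D C U hU href hle'
  have h1 : (A0 : ℝ) ≤ 2 ^ (w + 1) := by
    have : A0 ≤ 2 ^ (w + 1) := by omega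
    exact_mod_cast this
  exact hA0.trans h1

end Strong

end Pool.Agent.EFT
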