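import Pool.Agent.Lib.EFT.Frege

/-!
# The Tseitin clauses with an odd charge are not satisfiable (project EF, helper15)
-/

set_option autoImplicit false

open Finset

namespace Pool.Agent.EFT

namespace CCC

/-- A truth value in `ZMod 2`. -/
def tv (c : Bool) : ZMod 2 := if c then 1 else 0

theorem eval_lit_tv {α : Type*} (a : α → Bool) (x : α) :
    (Form.lit x (tv (a x) + 1)).eval a = false := by
  unfold Form.lit tv
  cases h : a x
  · rw [if_pos (by simp)]
    exact h
  · rw [if_neg (by simp [add_self2])]
    show (!(a x)) = false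
    rw [h]
    rfl

variable {k : ℕ} [NeZero k]

/-- Every assignment falsifies a clause. -/
theorem tseitin_unsat (hk : 2 ≤ k) (b : V k → ZMod 2) (hb : ∑ v, b v = 1) (a : E k → Bool) :
    ∃ c ∈ tseitin b, c.eval a = false := by
  classical
  by_contra hcon
  push Not at hcon
  set x : E k → ZMod 2 := fun e => tv (a e) with hx
  have key : ∀ v : V k, x (Sum.inl v) + x (Sum.inl (v.1, v.2 - 1)) + x (eX v) = b v := by
    intro v
    by_contra hne
    obtain ⟨h12, h13, h23⟩ := star_distinct hk v
    refine hcon (.or (.lit (Sum.inl v) (x (Sum.inl v) + 1))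
      (.or (.lit (Sum.inl (v.1, v.2 - 1)) (x (Sum.inl (v.1, v.2 - 1)) + 1))
        (.lit (eX v) (x (eX v) + 1))))
      ⟨v, Sum.inl v, Sum.inl (v.1, v.2 - 1), eX v, _, _, _, h12, h13, h23, fun e => mem_star,
        hne, Or.inl rfl⟩ ?_
    simp only [Form.eval, hx, eval_lit_tv]
    rfl
  have h1 : ∑ v : V k, x (Sum.inl (v.1, v.2 - 1)) = ∑ v : V k, x (Sum.inl v) := by
    refine Fintype.sum_equiv (Equiv.prodCongr (Equiv.refl _) (Equiv.subRight 1)) _ _ ?_
    intro v
    rfl
  have h2 : ∑ v : V k, x (eX v) = 0 := by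
    refine Finset.sum_involution (fun v _ => flip v) ?_ ?_ ?_ ?_
    · intro v _
      rw [eX_flip, add_self2]
    · intro v _ _
      exact flip_ne v
    · intro v _
      exact mem_univ _
    · intro v _
      exact flip_flip v
  have h3 : ∑ v : V k, b v = 0 := by
    rw [← Finset.sum_congr rfl fun v _ => key v, sum_add_distrib, sum_add_distrib, h1, h2,
      add_zero, add_self2]
  rw [hb] at h3
  exact one_ne_zero h3

end CCC

end Pool.Agent.EFT
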